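import Pool.Agent.Lib.MP_4e7804_co.Tw.Spec2

/-!
# From `Tie` to `Brk`
-/

set_option autoImplicit false

namespace Pool.Agent.Lib.MP_4e7804_co.Tw

namespace BrkTN

theorem dot_comb {d e : ℕ} {ω : Fin e → Fin d → ℚ} {κ : Fin d → ℚ} {w : Fin d → ℚ}
    {c : Fin e → ℚ} {t : ℚ} (h : ∀ k, w k = ∑ l, c l * ω l k + t * κ k) (q : Fin d → ℤ) :
    dot w q = ∑ l, c l * dot (ω l) q + t * dot κ q := by
  unfold dot
  simp only [h, add_mul, Finset.sum_add_distrib, Finset.mul_sum, Finset.sum_mul]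
  rw [Finset.sum_comm]
  congr 1
  · refine Finset.sum_congr rfl fun l _ => Finset.sum_congr rfl fun k _ => by ring
  · refine Finset.sum_congr rfl fun k _ => by ring

end BrkTN

open BrkTN in
theorem tBrkT : StmtBrkT := by
  intro d e B P A hP π S ω κ hinj hA hSP hSα η η₁ hη₁ hη hη2 z w y t hw htie
  have hlat : ∀ i, π i ∈ latticePoints P := by
    intro i
    show toReal (π i) ∈ P
    rw [hP]
    exact subset_convexHull ℝ _ ⟨π i, (hA _).2 ⟨i, rfl⟩, rfl⟩
  have hmin : ∀ p ∈ latticePoints P,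
      (∀ r ∈ latticePoints P, dot w p + η p ≤ dot w r + η r) → ∃ j, π j = p := by
    intro p hp hr
    rw [← hA]
    by_contra hpA
    obtain ⟨a, ha, hle⟩ := Latt_below P A hP w p hp
    obtain ⟨i, rfl⟩ := (hA a).1 ha
    have h1 := hr (π i) (hlat i)
    rw [hη2 p hpA, hη i] at h1
    have h2 := (abs_le.1 (hη₁ i)).2
    linarith
  set F := S.f (rl y) (z : ℝ) + cst S η₁ with hF
  have hv0 : F S.p + S.sl S.p * (t : ℝ) = (z : ℝ) := by
    rw [hF, Pi.add_apply]
    unfold Side.f cst Side.sl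
    rw [Fin.insertNth_apply_same, Fin.insertNth_apply_same, Fin.insertNth_apply_same]
    ring
  have hv : ∀ j, F (S.p.succAbove j) + S.sl (S.p.succAbove j) * (t : ℝ) =
      ((dot w (π j) + η (π j) : ℚ) : ℝ) := by
    intro j
    rw [hF, Pi.add_apply]
    unfold Side.f cst Side.sl
    rw [Fin.insertNth_apply_succAbove, Fin.insertNth_apply_succAbove,
      Fin.insertNth_apply_succAbove, dot_comb hw, hη, hSα]
    unfold Side.h rl dotProduct
    push_cast
    simp only [hSP]
    have h1 : ∑ l, ((dot (ω l) (π j) : ℚ) : ℝ) * (y l : ℝ) =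
        ∑ l, (y l : ℝ) * ((dot (ω l) (π j) : ℚ) : ℝ) :=
      Finset.sum_congr rfl fun l _ => mul_comm _ _
    rw [h1]
    ring
  have hLM : ∀ i, (F i + S.sl i * (t : ℝ) ≤ (z : ℝ)) →
      (∀ j, F i + S.sl i * (t : ℝ) ≤ ((dot w (π j) + η (π j) : ℚ) : ℝ)) → LM F S.sl (t : ℝ) i := by
    intro i h1 h2 r
    rcases Fin.eq_self_or_eq_succAbove S.p r with rfl | ⟨j, rfl⟩
    · rw [hv0]
      exact h1
    · rw [hv]
      exact h2 j
  rcases htie with ⟨p, hp, hpz, hz⟩ | ⟨p, hp, q, hq, hpq, heq, hpz, hr⟩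
  · obtain ⟨j, rfl⟩ := hmin p hp fun r hr => by rw [hpz]; exact hz r hr
    refine ⟨S.p, S.p.succAbove j, (Fin.succAbove_ne S.p j).symm, ?_, ?_⟩
    · apply hLM
      · rw [hv0]
      · intro i
        rw [hv0]
        exact_mod_cast hz _ (hlat i)
    · apply hLM
      · rw [hv, hpz]
      · intro i
        rw [hv, hpz]
        exact_mod_cast hz _ (hlat i)
  · obtain ⟨j, rfl⟩ := hmin p hp hr
    obtain ⟨j', rfl⟩ := hmin q hq fun r hr' => by rw [← heq]; exact hr r hr'
    refine ⟨S.p.succAbove j, S.p.succAbove j', ?_, ?_, ?_⟩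
    · intro h
      exact hpq (by rw [Fin.succAbove_right_injective h])
    · apply hLM
      · rw [hv]
        exact_mod_cast hpz
      · intro i
        rw [hv]
        exact_mod_cast hr _ (hlat i)
    · apply hLM
      · rw [hv, ← heq]
        exact_mod_cast hpz
      · intro i
        rw [hv, ← heq]
        exact_mod_cast hr _ (hlat i)

end Pool.Agent.Lib.MP_4e7804_co.Tw
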