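import Pool.Agent.Lib.MP_4e7804_co.Tw.Spec

/-!
# Number of strictly increasing tuples
-/

set_option autoImplicit false

namespace Pool.Agent.Lib.MP_4e7804_co.Tw

namespace CardTN

/-- strictly monotone maps and order embeddings -/
def eqv (n k : ℕ) : {x : Fin k → Fin n // StrictMono x} ≃ (Fin k ↪o Fin n) where
  toFun x := OrderEmbedding.ofStrictMono x.1 x.2
  invFun f := ⟨f, f.strictMono⟩
  left_inv _ := rfl
  right_inv _ := by ext; rfl

end CardTN

theorem tCardT : StmtCardT := by
  intro n k
  rw [Nat.card_congr ((CardTN.eqv n k).trans Set.powersetCard.ofFinEmbEquiv),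
    Set.powersetCard.card, Nat.card_eq_fintype_card, Fintype.card_fin]

end Pool.Agent.Lib.MP_4e7804_co.Tw
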