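import Pool.Agent.Lib.MP_4e7804_co.Tw.Spec

set_option autoImplicit false

open Finset

namespace Pool.Agent.Lib.MP_4e7804_co.Tw

namespace CellTN

variable {e K : ℕ}

/-- a strict inequality between linear functions -/
theorem half (p p' : Fin e → ℝ) (α α' : ℝ) (l l' : Fin K) :
    IsOpen {x : (Fin e → ℝ) × (Fin K → ℝ) | p ⬝ᵥ x.1 + α * x.2 l < p' ⬝ᵥ x.1 + α' * x.2 l'} ∧
    Convex ℝ {x : (Fin e → ℝ) × (Fin K → ℝ) | p ⬝ᵥ x.1 + α * x.2 l < p' ⬝ᵥ x.1 + α' * x.2 l'} := by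
  constructor
  · refine isOpen_lt ?_ ?_
    · unfold dotProduct
      fun_prop
    · unfold dotProduct
      fun_prop
  · intro x hx y hy a b ha hb hab
    have hx' : p ⬝ᵥ x.1 + α * x.2 l < p' ⬝ᵥ x.1 + α' * x.2 l' := hx
    have hy' : p ⬝ᵥ y.1 + α * y.2 l < p' ⬝ᵥ y.1 + α' * y.2 l' := hy
    show p ⬝ᵥ (a • x + b • y).1 + α * (a • x + b • y).2 l <
      p' ⬝ᵥ (a • x + b • y).1 + α' * (a • x + b • y).2 l'
    simp only [Prod.fst_add, Prod.snd_add, Prod.smul_fst, Prod.smul_snd, dotProduct_add, dotProduct_smul,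
      smul_eq_mul, Pi.add_apply, Pi.smul_apply]
    rcases ha.eq_or_lt with h0 | h0
    · have hb1 : b = 1 := by linarith
      rw [← h0, hb1]
      linarith
    · have h1 := mul_lt_mul_of_pos_left hx' h0
      have h2 := mul_le_mul_of_nonneg_left hy'.le hb
      linarith

theorem fin_int {A : Type} [Finite A] (s : A → Set ((Fin e → ℝ) × (Fin K → ℝ)))
    (h : ∀ a, IsOpen (s a) ∧ Convex ℝ (s a)) : IsOpen (⋂ a, s a) ∧ Convex ℝ (⋂ a, s a) :=
  ⟨isOpen_iInter_of_finite fun a => (h a).1, convex_iInter fun a => (h a).2⟩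

theorem sm_set {B : ℕ} (S : Side B e) (l : Fin K) (i : Fin (B + 1)) :
    IsOpen {x : (Fin e → ℝ) × (Fin K → ℝ) | SM (S.h x.1) S.α (x.2 l) i} ∧
    Convex ℝ {x : (Fin e → ℝ) × (Fin K → ℝ) | SM (S.h x.1) S.α (x.2 l) i} := by
  have h1 : {x : (Fin e → ℝ) × (Fin K → ℝ) | SM (S.h x.1) S.α (x.2 l) i} =
      ⋂ r : {r // r ≠ i}, {x : (Fin e → ℝ) × (Fin K → ℝ) |
        S.P i ⬝ᵥ x.1 + S.α i * x.2 l < S.P r ⬝ᵥ x.1 + S.α r * x.2 l} := by
    ext x
    rw [Set.mem_iInter]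
    exact ⟨fun h r => h r.1 r.2, fun h r hr => h ⟨r, hr⟩⟩
  rw [h1]
  exact fin_int _ fun r => half _ _ _ _ _ _

theorem all_set {B : ℕ} (S : Side B e) (l l' : Fin K) (i : Fin (B + 1)) :
    IsOpen {x : (Fin e → ℝ) × (Fin K → ℝ) | ∀ r, S.h x.1 i + S.α i * x.2 l < S.h x.1 r + S.α r * x.2 l'} ∧
    Convex ℝ {x : (Fin e → ℝ) × (Fin K → ℝ) |
      ∀ r, S.h x.1 i + S.α i * x.2 l < S.h x.1 r + S.α r * x.2 l'} := by
  have h1 : {x : (Fin e → ℝ) × (Fin K → ℝ) | ∀ r, S.h x.1 i + S.α i * x.2 l < S.h x.1 r + S.α r * x.2 l'} =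
      ⋂ r, {x : (Fin e → ℝ) × (Fin K → ℝ) |
        S.P i ⬝ᵥ x.1 + S.α i * x.2 l < S.P r ⬝ᵥ x.1 + S.α r * x.2 l'} := by
    ext x
    rw [Set.mem_iInter]
    rfl
  rw [h1]
  exact fin_int _ fun r => half _ _ _ _ _ _

theorem sm_dis {n : ℕ} (f α : Fin n → ℝ) (t : ℝ) (i i' : Fin n) (h : i ≠ i') (h1 : SM f α t i)
    (h2 : SM f α t i') : False := by
  have a1 := h1 i' h.symm
  have a2 := h2 i h
  linarith

end CellTN

open CellTN in
theorem tCellT : StmtCellT := by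
  intro B e K S
  refine ⟨fun l i => sm_set S l i, fun l i i' h => ?_, fun l l' i => ?_, fun l l' i i' h => ?_⟩
  · rw [Set.disjoint_left]
    intro x hx hx'
    exact sm_dis _ _ _ _ _ h hx hx'
  · rcases lt_trichotomy (S.α i) 0 with h0 | h0 | h0
    · have h1 : {x : (Fin e → ℝ) × (Fin K → ℝ) | LCell S x.1 (x.2 l) (x.2 l') i} =
          {x | SM (S.h x.1) S.α (x.2 l') i} ∩
          {x | ∀ r, S.h x.1 i + S.α i * x.2 l' < S.h x.1 r + S.α r * x.2 l} := by
        ext x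
        constructor
        · rintro (h | h)
          · exact absurd h.1 (not_lt.2 h0.le)
          · exact ⟨h.2.1, h.2.2⟩
        · intro h
          exact Or.inr ⟨h0, h.1, h.2⟩
      rw [h1]
      exact ⟨(sm_set S l' i).1.inter (all_set S l' l i).1, (sm_set S l' i).2.inter (all_set S l' l i).2⟩
    · have h1 : {x : (Fin e → ℝ) × (Fin K → ℝ) | LCell S x.1 (x.2 l) (x.2 l') i} = ∅ := by
        ext x
        constructor
        · rintro (h | h)
          · rw [h0] at h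
            exact absurd h.1 (lt_irrefl _)
          · rw [h0] at h
            exact absurd h.1 (lt_irrefl _)
        · intro h
          exact absurd h (Set.notMem_empty x)
      rw [h1]
      exact ⟨isOpen_empty, convex_empty⟩
    · have h1 : {x : (Fin e → ℝ) × (Fin K → ℝ) | LCell S x.1 (x.2 l) (x.2 l') i} =
          {x | SM (S.h x.1) S.α (x.2 l) i} ∩
          {x | ∀ r, S.h x.1 i + S.α i * x.2 l < S.h x.1 r + S.α r * x.2 l'} := by
        ext x
        constructor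
        · rintro (h | h)
          · exact ⟨h.2.1, h.2.2⟩
          · exact absurd h.1 (not_lt.2 h0.le)
        · intro h
          exact Or.inl ⟨h0, h.1, h.2⟩
      rw [h1]
      exact ⟨(sm_set S l i).1.inter (all_set S l l' i).1, (sm_set S l i).2.inter (all_set S l l' i).2⟩
  · rw [Set.disjoint_left]
    rintro x (hx | hx) (hx' | hx')
    · exact sm_dis _ _ _ _ _ h hx.2.1 hx'.2.1
    · have a1 := hx.2.2 i'
      have a2 := hx'.2.2 i
      linarith
    · have a1 := hx.2.2 i'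
      have a2 := hx'.2.2 i
      linarith
    · exact sm_dis _ _ _ _ _ h hx.2.1 hx'.2.1

end Pool.Agent.Lib.MP_4e7804_co.Tw
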