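import Pool.Agent.Lib.MP_4e7804_co.Tw.Spec

set_option autoImplicit false

open Finset

namespace Pool.Agent.Lib.MP_4e7804_co.Tw

theorem tChQ : StmtChQ := by
  intro n N e j j' hj w
  classical
  refine ⟨fun x => - ∑ l ∈ univ.filter (fun l => j' l ≤ x), w l, fun l => ?_⟩
  have h1 : univ.filter (fun m => j' m ≤ j' l) = insert l (univ.filter (fun m => j' m ≤ j l)) := by
    ext m
    simp only [mem_filter, mem_univ, true_and, mem_insert]
    constructor
    · intro h
      rcases lt_trichotomy m l with h2 | h2 | h2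
      · exact Or.inr (hj.le m l h2)
      · exact Or.inl h2
      · exact absurd h (not_le.2 ((hj.le l m h2).trans_lt (hj.lt m)))
    · rintro (h | h)
      · rw [h]
      · exact h.trans (hj.lt l).le
  have h2 : l ∉ univ.filter (fun m => j' m ≤ j l) := by
    intro h
    exact absurd (mem_filter.1 h).2 (not_le.2 (hj.lt l))
  show - ∑ m ∈ univ.filter (fun m => j' m ≤ j l), w m - - ∑ m ∈ univ.filter (fun m => j' m ≤ j' l), w m = w l
  rw [h1, sum_insert h2]
  abel

end Pool.Agent.Lib.MP_4e7804_co.Tw
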