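import Pool.Agent.Lib.MP_4e7804_co.Tw.Spec

/-!
# Lattice points of nonzero weight are realized
-/

set_option autoImplicit false

namespace Pool.Agent.Lib.MP_4e7804_co.Tw

namespace ChainN

/-- thresholds with boundary values -/
noncomputable def ext (b : ℕ) (σ : ℕ → ℝ) (M : ℝ) (I : ℕ) : ℝ :=
  if I = 0 then -M else if b < I then M else σ I

theorem thr_mono {b : ℕ} {f α : Fin (b + 1) → ℝ} {σ : ℕ → ℝ} (h : IsThr f α σ) :
    ∀ I I', 1 ≤ I → I ≤ I' → I' ≤ b → σ I ≤ σ I' := by
  intro I I' hI hII' hI'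
  induction I', hII' using Nat.le_induction with
  | base => exact le_rfl
  | succ n hn ih => exact (ih (by omega)).trans (h.mono n (by omega) (by omega))

theorem ext_mono {b : ℕ} {f α : Fin (b + 1) → ℝ} {σ : ℕ → ℝ} (h : IsThr f α σ) {M : ℝ} (hM : 0 < M)
    (hb : ∀ I, I ≤ b → |σ I| < M) {I I' : ℕ} (hII' : I ≤ I') : ext b σ M I ≤ ext b σ M I' := by
  unfold ext
  split_ifs with h1 h2 h3 h4 h5 h6
  · exact le_rfl
  · linarith
  · have := (abs_lt.1 (hb I' (by omega))).1
    linarith
  · exfalso; omega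
  · exact le_rfl
  · exfalso; omega
  · exfalso; omega
  · exact ((abs_lt.1 (hb I (by omega))).2).le
  · exact thr_mono h I I' (by omega) hII' (by omega)

theorem ext_bd {b : ℕ} {σ : ℕ → ℝ} {M : ℝ} (hM : 0 < M)
    (hb : ∀ I, I ≤ b → |σ I| < M) (I : ℕ) : -M ≤ ext b σ M I ∧ ext b σ M I ≤ M ∧
      (I ≠ 0 → -M < ext b σ M I) ∧ (I ≤ b → ext b σ M I < M) := by
  unfold ext
  split_ifs with h1 h2
  · exact ⟨le_rfl, by linarith, fun h => absurd h1 h, fun _ => by linarith⟩
  · exact ⟨by linarith, le_rfl, fun _ => by linarith, fun h => by omega⟩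
  · have := abs_lt.1 (hb I (by omega))
    exact ⟨this.1.le, this.2.le, fun _ => this.1, fun _ => this.2⟩

theorem X_eq {b c : ℕ} {σ τ : ℕ → ℝ} {M : ℝ} (hM : 0 < M) (hb : ∀ I, I ≤ b → |σ I| < M)
    (hc : ∀ J, J ≤ c → |τ J| < M) {I J : ℕ} (hI : I ≤ b + 1) (hJ : J ≤ c + 1) :
    X b c σ τ I J = if ext c τ M J < ext b σ M I then 1 else 0 := by
  have e1 := ext_bd hM hb I
  have e2 := ext_bd hM hc J
  unfold X
  by_cases h0 : I = 0
  · rw [if_pos h0, if_neg]
    have : ext b σ M I = -M := by rw [ext, if_pos h0]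
    rw [this]
    linarith [e2.1]
  rw [if_neg h0]
  by_cases h1 : b < I
  · rw [if_pos h1]
    have hI' : ext b σ M I = M := by rw [ext, if_neg h0, if_pos h1]
    rw [hI']
    by_cases h2 : c < J
    · rw [if_pos h2, if_neg]
      have : ext c τ M J = M := by rw [ext, if_neg (by omega), if_pos h2]
      rw [this]
      exact lt_irrefl _
    · rw [if_neg h2, if_pos (e2.2.2.2 (by omega))]
  rw [if_neg h1]
  by_cases h2 : J = 0
  · rw [if_pos h2, if_pos]
    have : ext c τ M J = -M := by rw [ext, if_pos h2]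
    rw [this]
    exact e1.2.2.1 h0
  rw [if_neg h2]
  by_cases h3 : c < J
  · rw [if_pos h3, if_neg]
    have : ext c τ M J = M := by rw [ext, if_neg h2, if_pos h3]
    rw [this]
    linarith [e1.2.2.2 (by omega)]
  rw [if_neg h3]
  have h4 : ext c τ M J = τ J := by rw [ext, if_neg h2, if_neg h3]
  have h5 : ext b σ M I = σ I := by rw [ext, if_neg h0, if_neg h1]
  rw [h4, h5]

theorem ext_ne {b c : ℕ} {σ τ : ℕ → ℝ} {M : ℝ} (hM : 0 < M) (hb : ∀ I, I ≤ b → |σ I| < M)
    (hc : ∀ J, J ≤ c → |τ J| < M) (hn : NoC b c σ τ) {I J : ℕ} (hI : I ≤ b) (hJ : J ≠ 0) :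
    ext b σ M I ≠ ext c τ M J := by
  have e1 := ext_bd hM hb I
  have e2 := ext_bd hM hc J
  by_cases h0 : I = 0
  · have : ext b σ M I = -M := by rw [ext, if_pos h0]
    rw [this]
    exact (e2.2.2.1 hJ).ne
  by_cases h1 : c < J
  · have : ext c τ M J = M := by rw [ext, if_neg hJ, if_pos h1]
    rw [this]
    exact (e1.2.2.2 hI).ne
  have h4 : ext c τ M J = τ J := by rw [ext, if_neg hJ, if_neg h1]
  have h5 : ext b σ M I = σ I := by rw [ext, if_neg h0, if_neg (by omega)]
  rw [h4, h5]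
  exact hn I J (by omega) hI (by omega) (by omega)

theorem claim {b c : ℕ} {f α : Fin (b + 1) → ℝ} {g β : Fin (c + 1) → ℝ} {σ τ : ℕ → ℝ}
    (hσ : IsThr f α σ) (hτ : IsThr g β τ) {M : ℝ} (hM : 0 < M) (hb : ∀ I, I ≤ b → |σ I| < M)
    (hc : ∀ J, J ≤ c → |τ J| < M) (hn : NoC b c σ τ) {i j : ℕ} (hi : i ≤ b) (hj : j ≤ c)
    (hw : Wt (X b c σ τ) i j ≠ 0) :
    max (ext b σ M i) (ext c τ M j) < min (ext b σ M (i + 1)) (ext c τ M (j + 1)) := by
  rw [Wt, X_eq hM hb hc (by omega : i ≤ b + 1) (by omega : j ≤ c + 1),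
    X_eq hM hb hc (by omega : i + 1 ≤ b + 1) (by omega : j ≤ c + 1),
    X_eq hM hb hc (by omega : i ≤ b + 1) (by omega : j + 1 ≤ c + 1),
    X_eq hM hb hc (by omega : i + 1 ≤ b + 1) (by omega : j + 1 ≤ c + 1)] at hw
  have m1 := ext_mono hσ hM hb (Nat.le_succ i)
  have m2 := ext_mono hτ hM hc (Nat.le_succ j)
  have n1 := ext_ne hM hb hc hn hi (Nat.succ_ne_zero j)
  rw [max_lt_iff, lt_min_iff, lt_min_iff]
  simp only [Nat.succ_eq_add_one] at m1 m2 n1
  generalize ext b σ M i = a1 at *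
  generalize ext b σ M (i + 1) = a2 at *
  generalize ext c τ M j = b1 at *
  generalize ext c τ M (j + 1) = b2 at *
  have h1 : ¬ b2 < a1 := by
    intro h
    apply hw
    rw [if_pos (by linarith), if_pos (by linarith), if_pos h, if_pos (by linarith)]
    ring
  have h2 : b1 < a2 := by
    by_contra h
    apply hw
    rw [if_neg (by linarith), if_neg h, if_neg h1, if_neg (by linarith)]
    ring
  have h3 : a1 < b2 := lt_of_le_of_ne (not_lt.1 h1) n1
  rw [if_pos h2, if_neg h1] at hw
  by_cases h4 : b1 < a1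
  · by_cases h5 : b2 < a2
    · exact ⟨⟨by linarith, h3⟩, h2, by linarith⟩
    · exfalso
      apply hw
      rw [if_pos h4, if_neg h5]
      ring
  · by_cases h5 : b2 < a2
    · exfalso
      apply hw
      rw [if_neg h4, if_pos h5]
      ring
    · exact ⟨⟨by linarith, h3⟩, h2, by linarith⟩

end ChainN

open ChainN in
theorem tChain : StmtChain := by
  intro b c f α g β σ τ hσ hτ hn k i j hi hj hw
  set M : ℝ := 1 + ∑ I ∈ Finset.range (b + 1), |σ I| + ∑ J ∈ Finset.range (c + 1), |τ J| with hMdef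
  have s1 : 0 ≤ ∑ I ∈ Finset.range (b + 1), |σ I| := Finset.sum_nonneg fun _ _ => abs_nonneg _
  have s2 : 0 ≤ ∑ J ∈ Finset.range (c + 1), |τ J| := Finset.sum_nonneg fun _ _ => abs_nonneg _
  have hM : 0 < M := by linarith
  have hb : ∀ I, I ≤ b → |σ I| < M := by
    intro I hI
    have := Finset.single_le_sum (f := fun I => |σ I|) (fun _ _ => abs_nonneg _)
      (Finset.mem_range.2 (by omega : I < b + 1))
    linarith
  have hc : ∀ J, J ≤ c → |τ J| < M := by
    intro J hJ
    have := Finset.single_le_sum (f := fun J => |τ J|) (fun _ _ => abs_nonneg _)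
      (Finset.mem_range.2 (by omega : J < c + 1))
    linarith
  set lo : Fin k → ℝ := fun l => max (ext b σ M (i l)) (ext c τ M (j l)) with hlo
  set hi' : Fin k → ℝ := fun l => min (ext b σ M (i l + 1)) (ext c τ M (j l + 1)) with hhi
  have hlt : ∀ l, lo l < hi' l := fun l =>
    claim hσ hτ hM hb hc hn (by omega) (by omega) (hw l)
  set t : Fin k → ℝ := fun l => lo l + (hi' l - lo l) * (((l : ℕ) + 1 : ℝ) / (k + 1)) with ht
  have hfr : ∀ l : Fin k, 0 < (((l : ℕ) + 1 : ℝ) / (k + 1)) ∧ (((l : ℕ) + 1 : ℝ) / (k + 1)) < 1 := by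
    intro l
    have h1 : ((l : ℕ) : ℝ) < k := by exact_mod_cast l.2
    refine ⟨by positivity, ?_⟩
    rw [div_lt_one (by positivity)]
    linarith
  have htl : ∀ l, lo l < t l ∧ t l < hi' l := by
    intro l
    have h1 := hfr l
    have h2 := sub_pos.2 (hlt l)
    constructor
    · have := mul_pos h2 h1.1
      simp only [ht]
      linarith
    · have := mul_lt_mul_of_pos_left h1.2 h2
      simp only [ht]
      linarith
  refine ⟨t, ?_, ?_, ?_⟩
  · intro l l' hll'
    have e1 := hi hll'.le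
    have e2 := hj hll'.le
    by_cases h1 : i l = i l'
    · by_cases h2 : j l = j l'
      · have h3 : lo l = lo l' := by simp only [hlo, h1, h2]
        have h4 : hi' l = hi' l' := by simp only [hhi, h1, h2]
        have h5 : (((l : ℕ) + 1 : ℝ) / (k + 1)) < (((l' : ℕ) + 1 : ℝ) / (k + 1)) := by
          apply div_lt_div_of_pos_right _ (by positivity)
          have : ((l : ℕ) : ℝ) < ((l' : ℕ) : ℝ) := by exact_mod_cast hll'
          linarith
        have h6 := mul_lt_mul_of_pos_left h5 (sub_pos.2 (hlt l))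
        simp only [ht]
        rw [← h3, ← h4]
        linarith
      · have h3 : (j l : ℕ) + 1 ≤ j l' := by
          have : (j l : ℕ) ≠ j l' := fun h => h2 (Fin.ext h)
          have : (j l : ℕ) ≤ j l' := e2
          omega
        calc t l < hi' l := (htl l).2
          _ ≤ ext c τ M (j l + 1) := min_le_right _ _
          _ ≤ ext c τ M (j l') := ext_mono hτ hM hc h3
          _ ≤ lo l' := le_max_right _ _
          _ < t l' := (htl l').1
    · have h3 : (i l : ℕ) + 1 ≤ i l' := by
        have : (i l : ℕ) ≠ i l' := fun h => h1 (Fin.ext h)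
        have : (i l : ℕ) ≤ i l' := e1
        omega
      calc t l < hi' l := (htl l).2
        _ ≤ ext b σ M (i l + 1) := min_le_left _ _
        _ ≤ ext b σ M (i l') := ext_mono hσ hM hb h3
        _ ≤ lo l' := le_max_left _ _
        _ < t l' := (htl l').1
  · intro l
    refine hσ.str (i l) (t l) (fun h1 => ?_) fun h1 => ?_
    · have e1 : ext b σ M (i l) = σ (i l) := by rw [ext, if_neg (by omega), if_neg (by omega)]
      rw [← e1]
      exact (le_max_left _ _).trans_lt (htl l).1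
    · have e1 : ext b σ M (i l + 1) = σ (i l + 1) := by rw [ext, if_neg (by omega), if_neg (by omega)]
      rw [← e1]
      exact (htl l).2.trans_le (min_le_left _ _)
  · intro l
    refine hτ.str (j l) (t l) (fun h1 => ?_) fun h1 => ?_
    · have e1 : ext c τ M (j l) = τ (j l) := by rw [ext, if_neg (by omega), if_neg (by omega)]
      rw [← e1]
      exact (le_max_right _ _).trans_lt (htl l).1
    · have e1 : ext c τ M (j l + 1) = τ (j l + 1) := by rw [ext, if_neg (by omega), if_neg (by omega)]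
      rw [← e1]
      exact (htl l).2.trans_le (min_le_right _ _)

end Pool.Agent.Lib.MP_4e7804_co.Tw
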