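import Pool.Agent.Lib.MP_4e7804_co.Tw.Spec

set_option autoImplicit false

open Finset

namespace Pool.Agent.Lib.MP_4e7804_co.Tw

namespace CoreN

variable {Ω : Type} [Fintype Ω]

theorem lin_sum {ι : Type} (s : Finset ι) (F : ι → (Ω → ℝ) → ℝ) (h : ∀ x, IsLinearMap ℝ (F x)) :
    IsLinearMap ℝ fun φ => ∑ x ∈ s, F x φ := by
  refine ⟨fun φ φ' => ?_, fun c φ => ?_⟩
  · rw [← sum_add_distrib]
    exact sum_congr rfl fun x _ => (h x).map_add φ φ'
  · rw [smul_sum]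
    exact sum_congr rfl fun x _ => (h x).map_smul c φ

theorem lin_mul (c : ℝ) (F : (Ω → ℝ) → ℝ) (h : IsLinearMap ℝ F) : IsLinearMap ℝ fun φ => c * F φ := by
  refine ⟨fun φ φ' => ?_, fun a φ => ?_⟩
  · rw [h.map_add, mul_add]
  · rw [h.map_smul, smul_eq_mul, smul_eq_mul]
    ring

theorem lin_SS (Y : Ω → ℕ → ℕ → ℝ) {k : ℕ} (I J : Fin k → ℕ) : IsLinearMap ℝ fun φ => SS φ Y I J := by
  unfold SS
  refine lin_sum _ _ fun s => ⟨fun φ φ' => ?_, fun c φ => ?_⟩
  · rw [Pi.add_apply, add_mul]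
  · rw [Pi.smul_apply, smul_eq_mul, smul_eq_mul, mul_assoc]

theorem lin_MM (Y : Ω → ℕ → ℕ → ℝ) {k : ℕ} (I J : Fin k → ℕ) : IsLinearMap ℝ fun φ => MM φ Y I J := by
  unfold MM
  by_cases h : StrictMono I ∧ StrictMono J
  · simp only [if_pos h]
    exact lin_SS Y I J
  · simp only [if_neg h]
    exact ⟨fun _ _ => (add_zero 0).symm, fun _ _ => (smul_zero _).symm⟩

theorem lin_mF (Y : Ω → ℕ → ℕ → ℝ) {b c k : ℕ} (i : Fin k → Fin (b + 1)) (j : Fin k → Fin (c + 1)) :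
    IsLinearMap ℝ fun φ => mF φ Y i j := by
  unfold mF mm
  exact lin_sum _ _ fun p => lin_mul _ _ (lin_MM Y _ _)

theorem lin_R1 {k n : ℕ} (p : Fin (n + 1)) (M : (Ω → ℝ) → (Fin (k + 1) → Fin (n + 1)) → ℝ)
    (h : ∀ i, IsLinearMap ℝ fun φ => M φ i) (a : Fin k → Fin n) : IsLinearMap ℝ fun φ => R1 p (M φ) a := by
  unfold R1
  exact lin_sum _ _ fun r => lin_mul _ _ (h _)

/-- strictly increasing tuples -/
abbrev T (n k : ℕ) := {x : Fin k → Fin n // StrictMono x}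

theorem str0_of {k k' n n' : ℕ} (m : (Fin k → Fin (n + 1)) → (Fin k' → Fin (n' + 1)) → ℝ)
    (h : ∀ (x : T n k) (x' : T n' k'), m (fun l => (x.1 l).succ) (fun l => (x'.1 l).succ) = 0) :
    Str0 m := by
  intro i j hi hi0 hj hj0
  have h1 := h ⟨fun l => (i l).pred (hi0 l), fun l l' hl => Fin.pred_lt_pred_iff.2 (hi hl)⟩
    ⟨fun l => (j l).pred (hj0 l), fun l l' hl => Fin.pred_lt_pred_iff.2 (hj hl)⟩
  simp only [Fin.succ_pred] at h1
  exact h1

theorem card_le {ι : Type} [Fintype ι] (G : ι → (Ω → ℝ) → ℝ) (hG : ∀ x, IsLinearMap ℝ (G x))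
    (h : ∀ φ, (∀ x, G x φ = 0) → φ = 0) : Fintype.card Ω ≤ Fintype.card ι := by
  let L : (Ω → ℝ) →ₗ[ℝ] (ι → ℝ) := LinearMap.pi fun x => (hG x).mk'
  have hL : Function.Injective L := by
    rw [← LinearMap.ker_eq_bot, LinearMap.ker_eq_bot']
    intro φ hφ
    exact h φ fun x => congrFun hφ x
  have h1 := LinearMap.finrank_le_finrank_of_injective hL
  rwa [Module.finrank_fintype_fun_eq_card, Module.finrank_fintype_fun_eq_card] at h1

end CoreN

open CoreN in
theorem tCore (hCoreA : StmtCoreA) (hCardT : StmtCardT) : StmtCore := by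
  intro B C e S₁ S₂ he h1 h2 hG Ω instΩ s σ τ hσ hτ hNoC hdis
  classical
  obtain ⟨e', rfl⟩ : ∃ e', e = e' + 1 := ⟨e - 1, by omega⟩
  let instT : ∀ n k, Fintype (T n k) := fun n k => Fintype.ofFinite _
  let instI : Fintype ((Σ k : Fin (e' + 1), T (B + 1) k × T (C + 1) k) ⊕ (T B e' × T C e') ⊕
      (T B (e' + 1) × T C e') ⊕ (T B e' × T C (e' + 1)) ⊕ (T B (e' + 1) × T C (e' + 1))) := inferInstance
  set Y : Ω → ℕ → ℕ → ℝ := fun o => X (B + 1) (C + 1) (σ o) (τ o) with hY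
  let G : ((Σ k : Fin (e' + 1), T (B + 1) k × T (C + 1) k) ⊕ (T B e' × T C e') ⊕
      (T B (e' + 1) × T C e') ⊕ (T B e' × T C (e' + 1)) ⊕ (T B (e' + 1) × T C (e' + 1))) →
      (Ω → ℝ) → ℝ :=
    Sum.elim (fun q φ => SS φ Y (fun l => (q.2.1.1 l : ℕ) + 1) (fun l => (q.2.2.1 l : ℕ) + 1))
    (Sum.elim (fun q φ => m11 S₁.p S₂.p (mF (b := B + 1) (c := C + 1) (k := e' + 1) φ Y)
      (fun l => (q.1.1 l).succ) (fun l => (q.2.1 l).succ))
    (Sum.elim (fun q φ => m01 S₁.p S₂.p (mF (b := B + 1) (c := C + 1) (k := e' + 1) φ Y)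
      (fun l => (q.1.1 l).succ) (fun l => (q.2.1 l).succ))
    (Sum.elim (fun q φ => m10 S₁.p S₂.p (mF (b := B + 1) (c := C + 1) (k := e' + 1) φ Y)
      (fun l => (q.1.1 l).succ) (fun l => (q.2.1 l).succ))
    (fun q φ => m11 S₁.p S₂.p (mF (b := B + 1) (c := C + 1) (k := e' + 1 + 1) φ Y)
      (fun l => (q.1.1 l).succ) (fun l => (q.2.1 l).succ)))))
  have hlin : ∀ x, IsLinearMap ℝ (G x) := by
    rintro (q | q | q | q | q)
    · exact lin_SS Y _ _
    · exact lin_R1 S₂.p _ (fun j => lin_R1 S₁.p _ (fun i => lin_mF Y i j) _) _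
    · exact lin_R1 S₂.p (fun φ j => mF (b := B + 1) (c := C + 1) (k := e' + 1) φ Y
        (fun l => S₁.p.succAbove (q.1.1 l).succ) j) (fun j => lin_mF Y _ j) (fun l => (q.2.1 l).succ)
    · exact lin_R1 S₁.p (fun φ i => mF (b := B + 1) (c := C + 1) (k := e' + 1) φ Y i
        (fun l => S₂.p.succAbove (q.2.1 l).succ)) (fun i => lin_mF Y i _) (fun l => (q.1.1 l).succ)
    · exact lin_R1 S₂.p _ (fun j => lin_R1 S₁.p _ (fun i => lin_mF Y i j) _) _
  have hcard := card_le G hlin (by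
    intro φ hφ
    refine hCoreA B C e' S₁ S₂ (by omega) h1 h2 hG Ω instΩ s σ τ hσ hτ hNoC hdis φ ?_
      (str0_of _ fun x x' => hφ (Sum.inr (Sum.inl (x, x'))))
      (str0_of _ fun x x' => hφ (Sum.inr (Sum.inr (Sum.inl (x, x')))))
      (str0_of _ fun x x' => hφ (Sum.inr (Sum.inr (Sum.inr (Sum.inl (x, x'))))))
      (str0_of _ fun x x' => hφ (Sum.inr (Sum.inr (Sum.inr (Sum.inr (x, x'))))))
    intro k hk I J hI hJ hI' hJ'
    have h3 := hφ (Sum.inl ⟨⟨k, hk⟩,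
      ⟨fun l => ⟨I l - 1, by have := hI' l; omega⟩, fun l l' hl => by
        have e1 := hI hl
        have e2 := (hI' l).1
        rw [Fin.lt_def]
        show I l - 1 < I l' - 1
        omega⟩,
      ⟨fun l => ⟨J l - 1, by have := hJ' l; omega⟩, fun l l' hl => by
        have e1 := hJ hl
        have e2 := (hJ' l).1
        rw [Fin.lt_def]
        show J l - 1 < J l' - 1
        omega⟩⟩)
    have e1 : (fun l => I l - 1 + 1) = I := by
      funext l
      have := (hI' l).1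
      omega
    have e2 : (fun l => J l - 1 + 1) = J := by
      funext l
      have := (hJ' l).1
      omega
    have h4 : SS φ Y (fun l => I l - 1 + 1) (fun l => J l - 1 + 1) = 0 := h3
    rw [e1, e2] at h4
    exact h4)
  refine hcard.trans (le_of_eq ?_)
  have hT : ∀ n k, Fintype.card (T n k) = n.choose k := fun n k => by
    rw [← Nat.card_eq_fintype_card]
    exact hCardT n k
  simp only [Fintype.card_sum, Fintype.card_sigma, Fintype.card_prod, hT]
  unfold bd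
  rw [Finset.sum_range_succ, Fin.sum_univ_eq_sum_range (fun k => (B + 1).choose k * (C + 1).choose k),
    Nat.choose_succ_succ B e', Nat.choose_succ_succ C e']
  ring

end Pool.Agent.Lib.MP_4e7804_co.Tw
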