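import Pool.Agent.Lib.MP_4e7804_co.Tw.Spec

set_option autoImplicit false

open Finset

namespace Pool.Agent.Lib.MP_4e7804_co.Tw

theorem tCoreA (hXFX : StmtXFX) (hChain : StmtChain) (hRed : StmtRed) (hMarg : StmtMarg)
    (hSupp : StmtSupp) (hBack : StmtBack) (hSep : StmtSep) (hStep : StmtStep) : StmtCoreA := by
  intro B C e' S₁ S₂ he h1 h2 hG Ω instΩ s σ τ hσ hτ hNoC hdis φ hA hB1 hB2 hB3 hC
  set Y : Ω → ℕ → ℕ → ℝ := fun o => X (B + 1) (C + 1) (σ o) (τ o) with hY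
  have hXF : ∀ o, XF (B + 1) (C + 1) (Y o) := fun o =>
    hXFX (B + 1) (C + 1) _ _ _ _ (σ o) (τ o) (hσ o) (hτ o)
  have hV0 : Van φ Y (B + 1) (C + 1) (e' + 1) :=
    hRed Ω _ φ Y (B + 1) (C + 1) hXF (e' + 1) hA
  have hstep : ∀ k₀, e' ≤ k₀ → Van φ Y (B + 1) (C + 1) (k₀ + 1) → Van φ Y (B + 1) (C + 1) (k₀ + 1 + 1) := by
    intro k₀ hk hV
    have hm : ZM2 (k := k₀ + 1) (k' := k₀ + 1) (mF (b := B + 1) (c := C + 1) φ Y) :=
      hMarg Ω _ φ Y (B + 1) (C + 1) hXF (k₀ + 1) hV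
    have hR : Rlz S₁ S₂ (k := k₀ + 1) (mF (b := B + 1) (c := C + 1) φ Y) := by
      intro i j hij
      obtain ⟨hi, hj, o, ho, hw⟩ := hSupp Ω _ φ Y (B + 1) (C + 1) hXF (k₀ + 1) hV i j hij
      obtain ⟨t, ht, ht1, ht2⟩ := hChain (B + 1) (C + 1) _ _ _ _ (σ o) (τ o) (hσ o) (hτ o) (hNoC o)
        (k₀ + 1) i j hi hj hw
      exact ⟨(s o).1, (s o).2.1, (s o).2.2, t, ht, ht1, ht2⟩
    have h0 := hStep B C (e' + 1) k₀ S₁ S₂ h1 h2 hG (by omega) _ hm hR (by
      intro hk'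
      rcases Nat.lt_or_ge e' k₀ with hlt | hge
      · have : k₀ = e' + 1 := by omega
        subst this
        exact hC
      · have : k₀ = e' := by omega
        subst this
        exact hB1) (by
      intro hk'
      have : k₀ = e' := by omega
      subst this
      exact ⟨hB2, hB3⟩)
    exact hBack Ω _ φ Y (B + 1) (C + 1) hXF (k₀ + 1) hV (fun i j => by rw [h0]; rfl)
  have hall : ∀ k, Van φ Y (B + 1) (C + 1) (e' + 1 + k) := by
    intro k
    induction k with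
    | zero => exact hV0
    | succ k ih =>
      have h3 : e' + 1 + k = e' + k + 1 := by omega
      have h4 : e' + 1 + (k + 1) = e' + k + 1 + 1 := by omega
      rw [h3] at ih
      rw [h4]
      exact hstep (e' + k) (by omega) ih
  refine hSep Ω instΩ φ Y (B + 1) (C + 1) hXF ?_ ?_
  · intro o o' hoo
    obtain ⟨I, J, -, hI, -, hJ, hne⟩ := hdis o o' hoo
    exact ⟨I, J, by omega, by omega, hne⟩
  · intro k k' hk' I J hI hJ
    exact hall k k' (by omega) I J hI hJ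

end Pool.Agent.Lib.MP_4e7804_co.Tw
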