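import Pool.Agent.Lib.MP_4e7804_co.Tw.Spec

/-!
# Coordinates
-/

set_option autoImplicit false

namespace Pool.Agent.Lib.MP_4e7804_co.Tw

theorem tDual : StmtDual := by
  intro d a hd hli
  set A : Matrix (Fin (d - 1)) (Fin d) ℚ := fun l k => ((a l k : ℤ) : ℚ) with hA
  have hrank : A.rank = d - 1 := by
    have := LinearIndependent.rank_matrix (M := A) hli
    rwa [Fintype.card_fin] at this
  set Λ := A.mulVecLin with hΛ
  have hfr : Module.finrank ℚ (LinearMap.range Λ) = d - 1 := hrank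
  have hsurj : LinearMap.range Λ = ⊤ := by
    apply Submodule.eq_top_of_finrank_eq
    rw [hfr, Module.finrank_fin_fun]
  have hker : Module.finrank ℚ (LinearMap.ker Λ) = 1 := by
    have := LinearMap.finrank_range_add_finrank_ker Λ
    rw [hfr, Module.finrank_fin_fun] at this
    omega
  obtain ⟨κ, hκ0, hκ⟩ := finrank_eq_one_iff'.1 hker
  obtain ⟨R, hR⟩ := Λ.exists_rightInverse_of_surjective hsurj
  refine ⟨fun l => R (Pi.single l 1), κ, fun w => ?_⟩
  have hw : Λ (w - R (Λ w)) = 0 := by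
    have h1 : Λ (R (Λ w)) = Λ w := LinearMap.congr_fun hR (Λ w)
    rw [map_sub, h1, sub_self]
  obtain ⟨t, ht⟩ := hκ ⟨w - R (Λ w), hw⟩
  refine ⟨t, fun k => ?_⟩
  have h2 : t • (κ : Fin d → ℚ) = w - R (Λ w) := congrArg Subtype.val ht
  have h3 : Λ w = ∑ l, dot w (a l) • Pi.single l (1 : ℚ) := by
    funext l
    rw [Finset.sum_apply, Finset.sum_eq_single l]
    · simp only [Pi.smul_apply, Pi.single_eq_same, smul_eq_mul, mul_one, hΛ, Matrix.mulVecLin_apply,
        Matrix.mulVec, dotProduct, dot, hA]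
      refine Finset.sum_congr rfl fun x _ => ?_
      ring
    · intro l' _ hl'
      rw [Pi.smul_apply, Pi.single_eq_of_ne (Ne.symm hl'), smul_zero]
    · intro h
      exact absurd (Finset.mem_univ _) h
  have h4 : R (Λ w) k = ∑ l, dot w (a l) * R (Pi.single l 1) k := by
    conv_lhs => rw [h3]
    rw [map_sum, Finset.sum_apply]
    refine Finset.sum_congr rfl fun l _ => ?_
    rw [map_smul, Pi.smul_apply, smul_eq_mul]
  have h5 := congrFun h2 k
  rw [Pi.smul_apply, Pi.sub_apply, smul_eq_mul] at h5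
  rw [← h4, h5]
  ring

end Pool.Agent.Lib.MP_4e7804_co.Tw
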