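import Pool.Agent.Lib.MP_4e7804_co.Tw.Spec

/-!
# Enumeration of the vertices by slopes
-/

set_option autoImplicit false

namespace Pool.Agent.Lib.MP_4e7804_co.Tw

namespace EnumN

/-- the position of `0` among the slopes -/
theorem exists_pos {B : ℕ} (α : Fin (B + 1) → ℝ) (hα : Antitone α) :
    ∃ p : Fin (B + 2), Antitone (p.insertNth (α := fun _ => ℝ) 0 α) := by
  classical
  have hex : ∃ n : ℕ, n ≤ B + 1 ∧ ∀ i : Fin (B + 1), n ≤ (i : ℕ) → α i ≤ 0 :=
    ⟨B + 1, le_refl _, fun i hi => absurd i.2 (by omega)⟩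
  obtain ⟨h1, h2⟩ := Nat.find_spec hex
  have h3 : ∀ i : Fin (B + 1), (i : ℕ) < Nat.find hex → 0 < α i := by
    intro i hi
    by_contra hcon
    push Not at hcon
    exact Nat.find_min hex hi ⟨by omega, fun j hj => (hα (Fin.le_def.2 hj)).trans hcon⟩
  refine ⟨⟨Nat.find hex, by omega⟩, ?_⟩
  generalize hp : (⟨Nat.find hex, by omega⟩ : Fin (B + 2)) = p
  have hp' : (p : ℕ) = Nat.find hex := by rw [← hp]
  intro i j hij
  rcases Fin.eq_self_or_eq_succAbove p i with rfl | ⟨i', rfl⟩
  · rcases Fin.eq_self_or_eq_succAbove i j with rfl | ⟨j', rfl⟩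
    · exact le_refl _
    · rw [Fin.insertNth_apply_same, Fin.insertNth_apply_succAbove]
      apply h2
      have h4 : i < i.succAbove j' := lt_of_le_of_ne hij (Fin.succAbove_ne i j').symm
      have h5 := (Fin.lt_succAbove_iff_le_castSucc i j').1 h4
      rw [← hp']
      exact h5
  · rcases Fin.eq_self_or_eq_succAbove p j with rfl | ⟨j', rfl⟩
    · rw [Fin.insertNth_apply_same, Fin.insertNth_apply_succAbove]
      apply le_of_lt
      apply h3
      have h4 : j.succAbove i' < j := lt_of_le_of_ne hij (Fin.succAbove_ne j i')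
      have h5 := (Fin.succAbove_lt_iff_castSucc_lt j i').1 h4
      rw [← hp']
      exact h5
    · rw [Fin.insertNth_apply_succAbove, Fin.insertNth_apply_succAbove]
      exact hα ((Fin.strictMono_succAbove p).le_iff_le.1 hij)

theorem dot_comb {d e : ℕ} {ω : Fin e → Fin d → ℚ} {κ : Fin d → ℚ} {w : Fin d → ℚ}
    {c : Fin e → ℚ} {t : ℚ} (h : ∀ k, w k = ∑ l, c l * ω l k + t * κ k) (q : Fin d → ℤ) :
    dot w q = ∑ l, c l * dot (ω l) q + t * dot κ q := by
  unfold dot
  simp only [h, add_mul, Finset.sum_add_distrib, Finset.mul_sum, Finset.sum_mul]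
  rw [Finset.sum_comm]
  congr 1
  · refine Finset.sum_congr rfl fun l _ => Finset.sum_congr rfl fun k _ => by ring
  · refine Finset.sum_congr rfl fun k _ => by ring

theorem dot_single {d : ℕ} (k : Fin d) (q : Fin d → ℤ) : dot (Pi.single k 1) q = q k := by
  unfold dot
  rw [Finset.sum_eq_single k]
  · rw [Pi.single_eq_same, one_mul]
  · intro j _ hj
    rw [Pi.single_eq_of_ne hj, zero_mul]
  · intro h
    exact absurd (Finset.mem_univ k) h

end EnumN

open EnumN in
theorem tEnum : StmtEnum := by
  classical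
  intro d e B ω κ a hw A hA
  set e₀ := (A.equivFinOfCardEq hA).symm with he₀
  set σ := Tuple.sort (fun i => - dot κ (e₀ i : Fin d → ℤ)) with hσ
  have hmono := Tuple.monotone_sort (fun i => - dot κ (e₀ i : Fin d → ℤ))
  set π : Fin (B + 1) → Fin d → ℤ := fun i => (e₀ (σ i) : Fin d → ℤ) with hπ
  have hinj : Function.Injective π :=
    Subtype.val_injective.comp (e₀.injective.comp σ.injective)
  have hanti : Antitone (fun i => ((dot κ (π i) : ℚ) : ℝ)) := by
    intro i j hij
    have h1 := hmono hij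
    have h2 : dot κ (π j) ≤ dot κ (π i) := neg_le_neg_iff.1 h1
    change ((dot κ (π j) : ℚ) : ℝ) ≤ ((dot κ (π i) : ℚ) : ℝ)
    exact_mod_cast h2
  obtain ⟨p, hp⟩ := exists_pos _ hanti
  refine ⟨π, ⟨fun i l => ((dot (ω l) (π i) : ℚ) : ℝ), fun i => ((dot κ (π i) : ℚ) : ℝ), p⟩,
    hinj, ?_, fun _ _ => rfl, fun _ => rfl, hp, ?_⟩
  · intro x
    constructor
    · intro hx
      refine ⟨σ.symm (e₀.symm ⟨x, hx⟩), ?_⟩
      change ((e₀ (σ (σ.symm (e₀.symm ⟨x, hx⟩))) : A) : Fin d → ℤ) = x
      rw [Equiv.apply_symm_apply, Equiv.apply_symm_apply]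
    · rintro ⟨i, rfl⟩
      exact (e₀ (σ i)).2
  · intro i i' hne hsl
    rcases Fin.eq_self_or_eq_succAbove p i with rfl | ⟨j, rfl⟩
    · rcases Fin.eq_self_or_eq_succAbove i i' with rfl | ⟨j', rfl⟩
      · exact absurd rfl hne
      · refine ⟨0, 1, ?_⟩
        unfold Side.f Side.h
        rw [Fin.insertNth_apply_same, Fin.insertNth_apply_succAbove, dotProduct_zero]
        exact one_ne_zero
    · rcases Fin.eq_self_or_eq_succAbove p i' with rfl | ⟨j', rfl⟩
      · refine ⟨0, 1, ?_⟩
        unfold Side.f Side.h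
        rw [Fin.insertNth_apply_same, Fin.insertNth_apply_succAbove, dotProduct_zero]
        exact zero_ne_one
      · by_contra hcon
        push Not at hcon
        have hjj : j ≠ j' := fun h => hne (by rw [h])
        apply hjj
        apply hinj
        have h1 : ∀ l, dot (ω l) (π j) = dot (ω l) (π j') := by
          intro l
          have h2 := hcon (Pi.single l 1) 0
          unfold Side.f Side.h at h2
          rw [Fin.insertNth_apply_succAbove, Fin.insertNth_apply_succAbove, dotProduct_single_one,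
            dotProduct_single_one] at h2
          have h3 : ((dot (ω l) (π j) : ℚ) : ℝ) = ((dot (ω l) (π j') : ℚ) : ℝ) := h2
          exact_mod_cast h3
        have h2 : dot κ (π j) = dot κ (π j') := by
          unfold Side.sl at hsl
          rw [Fin.insertNth_apply_succAbove, Fin.insertNth_apply_succAbove] at hsl
          have h3 : ((dot κ (π j) : ℚ) : ℝ) = ((dot κ (π j') : ℚ) : ℝ) := hsl
          exact_mod_cast h3
        funext k
        obtain ⟨t, ht⟩ := hw (Pi.single k 1)
        have h3 := dot_comb ht (π j)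
        have h4 := dot_comb ht (π j')
        simp only [h1, h2] at h3
        rw [← h4, dot_single, dot_single] at h3
        exact_mod_cast h3

end Pool.Agent.Lib.MP_4e7804_co.Tw
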