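import Pool.Agent.Lib.MP_4e7804_co.Tw.Spec

/-! MP_4e7804_co, Tw/Exch: rerouting does not increase the potential. -/

set_option autoImplicit false

open Finset

namespace Pool.Agent.Lib.MP_4e7804_co.Tw

namespace ExchN

theorem abel (H a : ℕ → ℝ) (c j₀ : ℕ) (hj : j₀ ≤ c) (hH : ∀ n, 0 ≤ H n) (h0 : H j₀ = 0)
    (h1 : ∀ n < c, n ≠ j₀ → a n ≤ if n = 0 then 0 else a (n - 1)) (h2 : c ≠ j₀ → 0 ≤ a (c - 1)) :
    0 ≤ ∑ j ∈ range c, (H (j + 1) - H j) * a j := by
  have key : ∀ n ≤ c, H n * (if n = 0 then 0 else a (n - 1)) ≤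
      ∑ j ∈ range n, (H (j + 1) - H j) * a j := by
    intro n
    induction n with
    | zero => intro _; simp
    | succ n ih =>
      intro hn
      rw [sum_range_succ]
      have h3 := ih (by omega)
      have h4 : H n * a n ≤ H n * (if n = 0 then 0 else a (n - 1)) := by
        by_cases hnj : n = j₀
        · rw [hnj, h0]; simp
        · exact mul_le_mul_of_nonneg_left (h1 n (by omega) hnj) (hH n)
      rw [if_neg (by omega)]
      simp only [Nat.add_sub_cancel]
      linarith
  have h5 := key c le_rfl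
  by_cases hc : c = j₀
  · rw [hc, h0] at h5
    rw [hc]
    linarith
  · rw [if_neg (by omega)] at h5
    exact le_trans (mul_nonneg (hH c) (h2 hc)) h5

variable {b : ℕ}

theorem anti_min (α : Fin (b + 1) → ℝ) (hα : Antitone α) (i₀ r r' : Fin (b + 1)) (h : r ≤ r') :
    α r' - α (min r' i₀) ≤ α r - α (min r i₀) := by
  rcases le_total r' i₀ with h1 | h1
  · rw [min_eq_left h1, min_eq_left (h.trans h1)]
    simp
  · rw [min_eq_right h1]
    rcases le_total r i₀ with h2 | h2
    · rw [min_eq_left h2]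
      have := hα h1
      linarith
    · rw [min_eq_right h2]
      have := hα h
      linarith

theorem anti_max (α : Fin (b + 1) → ℝ) (hα : Antitone α) (i₀ r r' : Fin (b + 1)) (h : r ≤ r') :
    α r' - α (max r' i₀) ≤ α r - α (max r i₀) := by
  rcases le_total r i₀ with h1 | h1
  · rw [max_eq_right h1]
    rcases le_total r' i₀ with h2 | h2
    · rw [max_eq_right h2]
      have := hα h
      linarith
    · rw [max_eq_left h2]
      have := hα h1
      linarith
  · rw [max_eq_left h1, max_eq_left (h1.trans h)]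
    simp

end ExchN

open ExchN in
theorem tExch : StmtExch := by
  intro b c f α g β hα hβ t i₀ j₀ hi hj x hx
  have hmono : Monotone (rer i₀ j₀ x) := by
    intro j j' hjj
    unfold rer
    have h1 : (j : ℕ) ≤ j' := hjj
    split_ifs with h2 h3 h3
    · exact min_le_min (hx hjj) le_rfl
    · exact (min_le_right _ _).trans (le_max_right _ _)
    · omega
    · exact max_le_max (hx hjj) le_rfl
  refine ⟨hmono, ?_⟩
  set x' := rer i₀ j₀ x with hx'
  set F : Fin (b + 1) → ℝ := fun r => f r + α r * t with hF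
  set G : Fin (c + 1) → ℝ := fun r => g r + β r * t with hG
  let H : ℕ → ℝ := fun n => if h : n < c + 1 then G ⟨n, h⟩ - G j₀ else 0
  let a : ℕ → ℝ := fun n => if h : n < c then α (x ⟨n, h⟩) - α (x' ⟨n, h⟩) else 0
  have hHnn : ∀ n, 0 ≤ H n := by
    intro n
    show 0 ≤ if h : n < c + 1 then G ⟨n, h⟩ - G j₀ else 0
    split_ifs with h
    · exact sub_nonneg.2 (hj _)
    · exact le_rfl
  have hH0 : H j₀ = 0 := by
    show (if h : (j₀ : ℕ) < c + 1 then G ⟨j₀, h⟩ - G j₀ else 0) = 0
    rw [dif_pos j₀.isLt]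
    exact sub_self _
  have hav : ∀ j : Fin c, a j = α (x j) - α (x' j) := by
    intro j
    show (if h : (j : ℕ) < c then α (x ⟨j, h⟩) - α (x' ⟨j, h⟩) else 0) = _
    rw [dif_pos j.isLt]
  have hlt : ∀ j : Fin c, (j : ℕ) < j₀ → a j = α (x j) - α (min (x j) i₀) := by
    intro j h
    rw [hav, hx']
    unfold rer
    rw [if_pos h]
  have hge : ∀ j : Fin c, ¬ (j : ℕ) < j₀ → a j = α (x j) - α (max (x j) i₀) := by
    intro j h
    rw [hav, hx']
    unfold rer
    rw [if_neg h]
  have hj0c : (j₀ : ℕ) ≤ c := by have := j₀.isLt; omega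
  have hsum := abel H a c j₀ hj0c hHnn hH0 (by
    intro n hn hne
    rcases Nat.lt_or_ge n j₀ with h | h
    · have e1 := hlt ⟨n, hn⟩ h
      have e1' : a n = α (x ⟨n, hn⟩) - α (min (x ⟨n, hn⟩) i₀) := e1
      rw [e1']
      split_ifs with hn0
      · have := hα (min_le_left (x ⟨n, hn⟩) i₀)
        linarith
      · have e2 : a (n - 1) = α (x ⟨n - 1, by omega⟩) - α (min (x ⟨n - 1, by omega⟩) i₀) :=
          hlt ⟨n - 1, by omega⟩ (show n - 1 < (j₀ : ℕ) by omega)
        rw [e2]
        apply anti_min α hα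
        apply hx
        show n - 1 ≤ n
        omega
    · have e1' : a n = α (x ⟨n, hn⟩) - α (max (x ⟨n, hn⟩) i₀) :=
        hge ⟨n, hn⟩ (by show ¬ n < (j₀ : ℕ); omega)
      rw [e1', if_neg (by omega)]
      have e2 : a (n - 1) = α (x ⟨n - 1, by omega⟩) - α (max (x ⟨n - 1, by omega⟩) i₀) :=
        hge ⟨n - 1, by omega⟩ (by show ¬ n - 1 < (j₀ : ℕ); omega)
      rw [e2]
      apply anti_max α hα
      apply hx
      show n - 1 ≤ n
      omega) (by
    intro hne
    have e2 : a (c - 1) = α (x ⟨c - 1, by omega⟩) - α (max (x ⟨c - 1, by omega⟩) i₀) :=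
      hge ⟨c - 1, by omega⟩ (by show ¬ c - 1 < (j₀ : ℕ); omega)
    rw [e2]
    have := hα (le_max_left (x ⟨c - 1, by omega⟩) i₀)
    linarith)
  rw [← Fin.sum_univ_eq_sum_range (fun j => (H (j + 1) - H j) * a j)] at hsum
  have hF1 : ∀ j : Fin c, 0 ≤ (β j.castSucc - β j.succ) * (F (x j) - F (x' j)) := by
    intro j
    apply mul_nonneg
    · exact sub_nonneg.2 (hβ (Fin.castSucc_lt_succ).le)
    · have hcase : x' j = x j ∨ x' j = i₀ := by
        rw [hx']
        unfold rer
        split_ifs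
        · exact min_choice _ _
        · exact max_choice _ _
      rcases hcase with h | h
      · rw [h]; simp
      · rw [h]
        exact sub_nonneg.2 (hi _)
  have hsum2 : 0 ≤ ∑ j : Fin c, (β j.castSucc - β j.succ) * (F (x j) - F (x' j)) :=
    sum_nonneg fun j _ => hF1 j
  have hfin : Pot f α g β x - Pot f α g β x' =
      ∑ j : Fin c, (β j.castSucc - β j.succ) * (F (x j) - F (x' j)) +
      ∑ j : Fin c, (H ((j : ℕ) + 1) - H (j : ℕ)) * a (j : ℕ) := by
    unfold Pot
    rw [← sum_sub_distrib, ← sum_add_distrib]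
    apply sum_congr rfl
    intro j _
    have e1 : H ((j : ℕ) + 1) = G j.succ - G j₀ := by
      show (if h : (j : ℕ) + 1 < c + 1 then G ⟨(j : ℕ) + 1, h⟩ - G j₀ else 0) = _
      rw [dif_pos (by have := j.isLt; omega)]
      rfl
    have e2 : H (j : ℕ) = G j.castSucc - G j₀ := by
      show (if h : (j : ℕ) < c + 1 then G ⟨(j : ℕ), h⟩ - G j₀ else 0) = _
      rw [dif_pos (by have := j.isLt; omega)]
      rfl
    rw [e1, e2, hav j]
    simp only [hF, hG]
    ring
  linarith

end Pool.Agent.Lib.MP_4e7804_co.Tw
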