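import Pool.Agent.Lib.MP_4e7804_co.Tw.Spec

/-! MP_4e7804_co, Tw/Gen: general position is dense. -/

set_option autoImplicit false

namespace Pool.Agent.Lib.MP_4e7804_co.Tw

namespace GenN

variable {B C e : ℕ}

/-- the index type -/
abbrev IA (B C : ℕ) : Type :=
  Σ (K N : ℕ), (Fin K → Fin (B + 1)) × (Fin K → Fin (B + 1)) × (Fin N → Fin (C + 1)) ×
    (Fin N → Fin (C + 1)) × (Fin N → Fin K) × (Fin N → Fin K)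

/-- the index type -/
abbrev IA' (B C : ℕ) : Type :=
  Σ (K N : ℕ), (Fin N → Fin (B + 1)) × (Fin N → Fin (B + 1)) × (Fin K → Fin (C + 1)) ×
    (Fin K → Fin (C + 1)) × (Fin N → Fin K) × (Fin N → Fin K)

/-- the index type -/
abbrev IB (B C : ℕ) : Type :=
  Σ k : ℕ, Fin (k + 1) × Fin (k + 1) × Fin (k + 1) × Fin (k + 1) × (Fin k → Fin (B + 1)) ×
    (Fin k → Fin (B + 1)) × (Fin k → Fin (C + 1)) × (Fin k → Fin (C + 1))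

/-- the bad event of `RankA`, first part -/
def EA (x : IA B C) (θ : Par B C e) : Prop :=
  Ch x.2.2.1 x.2.2.2.1 → Ch x.2.2.2.2.1 x.2.2.2.2.2.1 → e ≤ x.2.1 → 2 ≤ x.1 →
    ∀ (y : Fin e → ℝ) (t : Fin x.1 → ℝ), StrictMono t →
      Sat θ.1.1 θ.1.2 y t id id x.2.2.1 x.2.2.2.1 →
      Sat θ.2.1 θ.2.2 y t x.2.2.2.2.2.2.1 x.2.2.2.2.2.2.2 x.2.2.2.2.1 x.2.2.2.2.2.1 → False

/-- the bad event of `RankA`, second part -/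
def EA' (x : IA' B C) (θ : Par B C e) : Prop :=
  Ch x.2.2.1 x.2.2.2.1 → Ch x.2.2.2.2.1 x.2.2.2.2.2.1 → e ≤ x.2.1 → 2 ≤ x.1 →
    ∀ (y : Fin e → ℝ) (t : Fin x.1 → ℝ), StrictMono t →
      Sat θ.1.1 θ.1.2 y t x.2.2.2.2.2.2.1 x.2.2.2.2.2.2.2 x.2.2.1 x.2.2.2.1 →
      Sat θ.2.1 θ.2.2 y t id id x.2.2.2.2.1 x.2.2.2.2.2.1 → False

/-- the bad event of `RankB` -/
def EB (x : IB B C) (θ : Par B C e) : Prop :=
  (x.2.2.1 : ℕ) ≤ x.2.1 → (x.2.1 : ℕ) ≤ x.2.2.1 + 1 →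
  Ch x.2.2.2.2.2.1 x.2.2.2.2.2.2.1 → Ch x.2.2.2.2.2.2.2.1 x.2.2.2.2.2.2.2.2 → e + 1 ≤ x.1 →
  2 ≤ x.1 → ∀ (y : Fin e → ℝ) (t : Fin (x.1 + 1) → ℝ), StrictMono t →
    Sat θ.1.1 θ.1.2 y t x.2.1.succAbove x.2.2.1.succAbove x.2.2.2.2.2.1 x.2.2.2.2.2.2.1 →
    Sat θ.2.1 θ.2.2 y t x.2.2.2.1.succAbove x.2.2.2.2.1.succAbove x.2.2.2.2.2.2.2.1
      x.2.2.2.2.2.2.2.2 → False

theorem exA (hA : StmtRankA) (x : IA B C) :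
    ∃ D : Set (Par B C e), IsOpen D ∧ Dense D ∧ ∀ θ ∈ D, EA x θ := by
  by_cases h : Ch x.2.2.1 x.2.2.2.1 ∧ Ch x.2.2.2.2.1 x.2.2.2.2.2.1 ∧ e ≤ x.2.1 ∧ 2 ≤ x.1
  · obtain ⟨D, h1, h2, h3⟩ := hA.1 B C e x.1 x.2.1 x.2.2.1 x.2.2.2.1 x.2.2.2.2.1 x.2.2.2.2.2.1
      x.2.2.2.2.2.2.1 x.2.2.2.2.2.2.2 h.1 h.2.1 h.2.2.1 h.2.2.2
    exact ⟨D, h1, h2, fun θ hθ _ _ _ _ => h3 θ hθ⟩
  · exact ⟨Set.univ, isOpen_univ, dense_univ,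
      fun θ _ a1 a2 a3 a4 => absurd ⟨a1, a2, a3, a4⟩ h⟩

theorem exA' (hA : StmtRankA) (x : IA' B C) :
    ∃ D : Set (Par B C e), IsOpen D ∧ Dense D ∧ ∀ θ ∈ D, EA' x θ := by
  by_cases h : Ch x.2.2.1 x.2.2.2.1 ∧ Ch x.2.2.2.2.1 x.2.2.2.2.2.1 ∧ e ≤ x.2.1 ∧ 2 ≤ x.1
  · obtain ⟨D, h1, h2, h3⟩ := hA.2 B C e x.1 x.2.1 x.2.2.1 x.2.2.2.1 x.2.2.2.2.1 x.2.2.2.2.2.1
      x.2.2.2.2.2.2.1 x.2.2.2.2.2.2.2 h.1 h.2.1 h.2.2.1 h.2.2.2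
    exact ⟨D, h1, h2, fun θ hθ _ _ _ _ => h3 θ hθ⟩
  · exact ⟨Set.univ, isOpen_univ, dense_univ,
      fun θ _ a1 a2 a3 a4 => absurd ⟨a1, a2, a3, a4⟩ h⟩

theorem exB (hB : StmtRankB) (x : IB B C) :
    ∃ D : Set (Par B C e), IsOpen D ∧ Dense D ∧ ∀ θ ∈ D, EB x θ := by
  by_cases h : (x.2.2.1 : ℕ) ≤ x.2.1 ∧ (x.2.1 : ℕ) ≤ x.2.2.1 + 1 ∧
      Ch x.2.2.2.2.2.1 x.2.2.2.2.2.2.1 ∧ Ch x.2.2.2.2.2.2.2.1 x.2.2.2.2.2.2.2.2 ∧ e + 1 ≤ x.1 ∧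
      2 ≤ x.1
  · obtain ⟨D, h1, h2, h3⟩ := hB B C e x.1 x.2.1 x.2.2.1 x.2.2.2.1 x.2.2.2.2.1 x.2.2.2.2.2.1
      x.2.2.2.2.2.2.1 x.2.2.2.2.2.2.2.1 x.2.2.2.2.2.2.2.2 h.1 h.2.1 h.2.2.1 h.2.2.2.1 h.2.2.2.2.1
      h.2.2.2.2.2
    exact ⟨D, h1, h2, fun θ hθ _ _ _ _ _ _ => h3 θ hθ⟩
  · exact ⟨Set.univ, isOpen_univ, dense_univ,
      fun θ _ a1 a2 a3 a4 a5 a6 => absurd ⟨a1, a2, a3, a4, a5, a6⟩ h⟩

theorem anti {B e : ℕ} (S : Side B e) (h : StrictAnti S.sl) : StrictAnti S.α := by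
  intro i j hij
  have h1 : ∀ k, S.sl (S.p.succAbove k) = S.α k := fun k => by
    unfold Side.sl
    rw [Fin.insertNth_apply_succAbove]
  rw [← h1, ← h1]
  exact h (Fin.strictMono_succAbove S.p hij)

end GenN

open GenN in
theorem tGen (hA : StmtRankA) (hB : StmtRankB) (hPA : StmtPatA) (hPB : StmtPatB) : StmtGen := by
  intro B C e p q he
  choose DA hDA1 hDA2 hDA3 using fun x : IA B C => exA (e := e) hA x
  choose DA' hDA1' hDA2' hDA3' using fun x : IA' B C => exA' (e := e) hA x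
  choose DB hDB1 hDB2 hDB3 using fun x : IB B C => exB (e := e) hB x
  let Z : (IA B C ⊕ IA' B C) ⊕ IB B C → Set (Par B C e) := Sum.elim (Sum.elim DA DA') DB
  refine ⟨⋂ x, Z x, ⟨(IA B C ⊕ IA' B C) ⊕ IB B C, inferInstance, Z, ?_, rfl⟩, ?_⟩
  · rintro ((x | x) | x)
    · exact ⟨hDA1 x, hDA2 x⟩
    · exact ⟨hDA1' x, hDA2' x⟩
    · exact ⟨hDB1 x, hDB2 x⟩
  · intro θ hθ h1 h2
    rw [Set.mem_iInter] at hθ
    have a1 := anti _ h1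
    have a2 := anti _ h2
    constructor
    · intro k hk y t ht
      by_contra hcon
      push Not at hcon
      obtain ⟨i, i', c1, c2⟩ := hPA B e k (sd1 p θ) a1 y t ht (fun l i h => hcon.1 l i h)
      obtain ⟨j, j', c3, c4⟩ := hPA C e k (sd2 q θ) a2 y t ht (fun l i h => hcon.2 l i h)
      exact hDA3 ⟨k, k, i, i', j, j', id, id⟩ θ (hθ (Sum.inl (Sum.inl _))) c1 c3 hk
        (by show 2 ≤ k; omega) y t ht c2 c4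
    · intro k hk y t ht
      by_contra hcon
      push Not at hcon
      obtain ⟨i, i', c1, c2⟩ := hPA B e (k + 1) (sd1 p θ) a1 y t ht (fun l i h => hcon.1 l i h)
      obtain ⟨b, b', j, j', d1, d2, c3, c4⟩ := hPB C e k (sd2 q θ) h2 y t ht
        (fun l i h => hcon.2 l i h)
      exact hDA3 ⟨k + 1, k, i, i', j, j', b.succAbove, b'.succAbove⟩ θ
        (hθ (Sum.inl (Sum.inl _))) c1 c3 hk (by show 2 ≤ k + 1; omega) y t ht c2 c4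
    · intro k hk y t ht
      by_contra hcon
      push Not at hcon
      obtain ⟨j, j', c1, c2⟩ := hPA C e (k + 1) (sd2 q θ) a2 y t ht (fun l i h => hcon.2 l i h)
      obtain ⟨b, b', i, i', d1, d2, c3, c4⟩ := hPB B e k (sd1 p θ) h1 y t ht
        (fun l i h => hcon.1 l i h)
      exact hDA3' ⟨k + 1, k, i, i', j, j', b.succAbove, b'.succAbove⟩ θ
        (hθ (Sum.inl (Sum.inr _))) c3 c1 hk (by show 2 ≤ k + 1; omega) y t ht c4 c2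
    · intro k hk y t ht
      by_contra hcon
      push Not at hcon
      obtain ⟨a, a', i, i', d1, d2, c1, c2⟩ := hPB B e k (sd1 p θ) h1 y t ht
        (fun l i h => hcon.1 l i h)
      obtain ⟨b, b', j, j', d3, d4, c3, c4⟩ := hPB C e k (sd2 q θ) h2 y t ht
        (fun l i h => hcon.2 l i h)
      exact hDB3 ⟨k, a, a', b, b', i, i', j, j'⟩ θ (hθ (Sum.inr _)) d1 d2 c1 c3 hk
        (by show 2 ≤ k; omega) y t ht c2 c4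

end Pool.Agent.Lib.MP_4e7804_co.Tw
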