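import Pool.Agent.Lib.MP_4e7804_co.Tw.Spec

set_option autoImplicit false

open Filter Topology

namespace Pool.Agent.Lib.MP_4e7804_co.Tw

namespace InjDN

/-- the determinant on a line is a polynomial -/
theorem det_line {n : ℕ} (A B : Matrix (Fin n) (Fin n) ℝ) :
    ∃ P : Polynomial ℝ, ∀ t : ℝ, P.eval t = (A + t • B).det := by
  refine ⟨(A.map Polynomial.C + (Polynomial.X : Polynomial ℝ) • B.map Polynomial.C).det, fun t => ?_⟩
  have h1 := RingHom.map_det (Polynomial.evalRingHom t)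
    (A.map Polynomial.C + (Polynomial.X : Polynomial ℝ) • B.map Polynomial.C)
  rw [Polynomial.coe_evalRingHom] at h1
  rw [h1]
  congr 1
  ext i j
  simp [Matrix.map_apply, Matrix.add_apply, Matrix.smul_apply]
  ring

end InjDN

open InjDN in
theorem tInjD : StmtInjD := by
  intro V W R _ _ _ _ _ _ M hlin hcont haff hex
  classical
  obtain ⟨θ₀, hθ₀⟩ := hex
  let L : V → (W →ₗ[ℝ] (R → ℝ)) := fun θ => (hlin θ).mk'
  have hL : ∀ θ x, L θ x = M θ x := fun _ _ => rfl
  have hker : LinearMap.ker (L θ₀) = ⊥ := by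
    rw [LinearMap.ker_eq_bot']
    intro x hx
    exact hθ₀ x hx
  obtain ⟨G, hG⟩ := LinearMap.exists_leftInverse_of_injective (L θ₀) hker
  let b := Module.finBasis ℝ W
  let A : V → Matrix (Fin (Module.finrank ℝ W)) (Fin (Module.finrank ℝ W)) ℝ := fun θ =>
    LinearMap.toMatrix b b (G ∘ₗ L θ)
  have hA : ∀ θ i j, A θ i j = b.repr (G (M θ (b j))) i := by
    intro θ i j
    show LinearMap.toMatrix b b (G ∘ₗ L θ) i j = _
    rw [LinearMap.toMatrix_apply]
    rfl
  have hA0 : A θ₀ = 1 := by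
    show LinearMap.toMatrix b b (G ∘ₗ L θ₀) = 1
    rw [hG, LinearMap.toMatrix_id]
  have hAc : Continuous A := by
    refine continuous_matrix fun i j => ?_
    simp only [hA]
    let F : (R → ℝ) →ₗ[ℝ] ℝ := (b.coord i) ∘ₗ G
    have hF : Continuous F := F.continuous_of_finiteDimensional
    exact hF.comp (hcont (b j))
  have hAa : ∀ θ (t : ℝ), A (θ + t • (θ₀ - θ)) = A θ + t • (A θ₀ - A θ) := by
    intro θ t
    ext i j
    rw [Matrix.add_apply, Matrix.smul_apply, Matrix.sub_apply]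
    simp only [hA]
    rw [haff, map_add, map_smul, map_sub, map_add, map_smul, map_sub]
    simp only [Finsupp.add_apply, Finsupp.smul_apply, Finsupp.sub_apply]
  refine ⟨{θ | (A θ).det ≠ 0}, ?_, ?_, ?_⟩
  · exact isOpen_ne_fun hAc.matrix_det continuous_const
  · intro θ
    obtain ⟨P, hP⟩ := det_line (A θ) (A θ₀ - A θ)
    have hP1 : P.eval 1 ≠ 0 := by
      rw [hP, one_smul, add_sub_cancel, hA0, Matrix.det_one]
      exact one_ne_zero
    have hP0 : P ≠ 0 := by
      intro h
      rw [h, Polynomial.eval_zero] at hP1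
      exact hP1 rfl
    have hfin : ((P.roots.toFinset : Set ℝ) \ {0}).Finite := P.roots.toFinset.finite_toSet.subset Set.sdiff_subset
    have hnh : ((P.roots.toFinset : Set ℝ) \ {0})ᶜ ∈ 𝓝 (0 : ℝ) :=
      hfin.isClosed.isOpen_compl.mem_nhds (fun h => h.2 rfl)
    have hc : Continuous fun t : ℝ => θ + t • (θ₀ - θ) := by fun_prop
    have ht : Tendsto (fun t : ℝ => θ + t • (θ₀ - θ)) (𝓝[≠] 0) (𝓝 θ) := by
      have := hc.tendsto 0
      rw [zero_smul, add_zero] at this
      exact this.mono_left nhdsWithin_le_nhds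
    refine mem_closure_of_tendsto ht ?_
    filter_upwards [mem_nhdsWithin_of_mem_nhds hnh, self_mem_nhdsWithin] with t h1 h2
    show (A (θ + t • (θ₀ - θ))).det ≠ 0
    rw [hAa, ← hP]
    intro h3
    apply h1
    refine ⟨?_, h2⟩
    rw [Finset.mem_coe, Multiset.mem_toFinset, Polynomial.mem_roots hP0]
    exact h3
  · intro θ hθ x hx
    have h1 : LinearMap.det (G ∘ₗ L θ) ≠ 0 := by
      rw [← LinearMap.det_toMatrix b]
      exact hθ
    have h2 : (G ∘ₗ L θ) x = 0 := by
      show G (M θ x) = 0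
      rw [hx, map_zero]
    have h3 := (LinearMap.equivOfDetNeZero (G ∘ₗ L θ) h1).injective
    apply h3
    rw [map_zero]
    exact h2

end Pool.Agent.Lib.MP_4e7804_co.Tw
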