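import Pool.Agent.Lib.MP_4e7804_co.Tw.Spec

set_option autoImplicit false

open Finset

namespace Pool.Agent.Lib.MP_4e7804_co.Tw

namespace LabN

variable {B e k n : ℕ}

theorem ins_same (p : Fin (n + 1)) (r : Fin (k + 1)) (e : Fin k → Fin n) : ins p r e r = p := by
  unfold ins
  exact Fin.insertNth_apply_same (α := fun _ => Fin (n + 1)) r p _

theorem ins_sa (p : Fin (n + 1)) (r : Fin (k + 1)) (e : Fin k → Fin n) (l : Fin k) :
    ins p r e (r.succAbove l) = p.succAbove (e l) := by
  unfold ins
  exact Fin.insertNth_apply_succAbove (α := fun _ => Fin (n + 1)) r p _ l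

theorem f_p (S : Side B e) (y : Fin e → ℝ) (z : ℝ) : S.f y z S.p = z := by
  unfold Side.f
  exact Fin.insertNth_apply_same (α := fun _ => ℝ) S.p _ _

theorem f_sa (S : Side B e) (y : Fin e → ℝ) (z : ℝ) (i : Fin (B + 1)) :
    S.f y z (S.p.succAbove i) = S.h y i := by
  unfold Side.f
  exact Fin.insertNth_apply_succAbove (α := fun _ => ℝ) S.p _ _ i

theorem sl_p (S : Side B e) : S.sl S.p = 0 := by
  unfold Side.sl
  exact Fin.insertNth_apply_same (α := fun _ => ℝ) S.p _ _

theorem sl_sa (S : Side B e) (i : Fin (B + 1)) : S.sl (S.p.succAbove i) = S.α i := by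
  unfold Side.sl
  exact Fin.insertNth_apply_succAbove (α := fun _ => ℝ) S.p _ _ i

theorem first (S : Side B e) (y : Fin e → ℝ) (z : ℝ) (t : ℝ) (i : Fin (B + 1))
    (h : SM (S.f y z) S.sl t (S.p.succAbove i)) : SM (S.h y) S.α t i := by
  intro r hr
  have h1 := h (S.p.succAbove r) (fun h' => hr (Fin.succAbove_right_injective h'))
  rwa [f_sa, f_sa, sl_sa, sl_sa] at h1

/-- slopes decrease -/
theorem slope (f α : Fin n → ℝ) (t t' : ℝ) (h : t < t') (i i' : Fin n) (hi : SM f α t i)
    (hi' : SM f α t' i') (hne : i ≠ i') : α i' < α i := by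
  have h1 := hi i' hne.symm
  have h2 := hi' i hne
  by_contra hcon
  push Not at hcon
  nlinarith [mul_nonneg (sub_nonneg.2 hcon) (sub_pos.2 h).le]

/-- the value increases -/
theorem incr (f α : Fin n → ℝ) (t t' : ℝ) (h : t < t') (i i' : Fin n) (hi : SM f α t i)
    (h0 : 0 ≤ α i') (h1 : i' = i → 0 < α i) : f i + α i * t < f i' + α i' * t' := by
  by_cases hii : i' = i
  · have := mul_pos (h1 hii) (sub_pos.2 h)
    rw [hii]
    nlinarith
  · have h2 := hi i' hii
    have := mul_nonneg h0 (sub_pos.2 h).le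
    nlinarith

/-- the value decreases -/
theorem decr (f α : Fin n → ℝ) (t t' : ℝ) (h : t < t') (i i' : Fin n) (hi' : SM f α t' i')
    (h0 : α i ≤ 0) (h1 : i = i' → α i' < 0) : f i' + α i' * t' < f i + α i * t := by
  by_cases hii : i = i'
  · have := mul_pos (neg_pos.2 (h1 hii)) (sub_pos.2 h)
    rw [hii]
    nlinarith
  · have h2 := hi' i hii
    have := mul_nonneg (neg_nonneg.2 h0) (sub_pos.2 h).le
    nlinarith

end LabN

open LabN in
theorem tLab : StmtLab := by
  intro B e k S y z
  refine ⟨fun t i h => first S y z t i h, ?_⟩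
  intro t ht r a hs l
  -- slopes of the labels
  have hp : SM (S.f y z) S.sl (t r) S.p := by
    have := hs r
    rwa [ins_same] at this
  have hpos : ∀ x, x < r → 0 < S.sl (ins S.p r a x) := by
    intro x hx
    obtain ⟨l', rfl⟩ := Fin.exists_succAbove_eq hx.ne
    have h1 := slope _ _ _ _ (ht hx) _ _ (hs _) hp (by
      rw [ins_sa]
      exact Fin.succAbove_ne _ _)
    rwa [sl_p] at h1
  have hneg : ∀ x, r < x → S.sl (ins S.p r a x) < 0 := by
    intro x hx
    obtain ⟨l', rfl⟩ := Fin.exists_succAbove_eq hx.ne'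
    have h1 := slope _ _ _ _ (ht hx) _ _ hp (hs _) (by
      rw [ins_sa]
      exact (Fin.succAbove_ne _ _).symm)
    rwa [sl_p] at h1
  have hlt : t l.castSucc < t l.succ := ht Fin.castSucc_lt_succ
  rcases lt_or_ge l.castSucc r with hl | hl
  · -- the label is at the lower position
    have hsa : r.succAbove l = l.castSucc := Fin.succAbove_of_castSucc_lt r l hl
    have hlab : ins S.p r a l.castSucc = S.p.succAbove (a l) := by rw [← hsa, ins_sa]
    have hle : l.succ ≤ r := by
      rw [Fin.le_def, Fin.val_succ]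
      exact hl
    have h0 : 0 ≤ S.sl (ins S.p r a l.succ) := by
      rcases hle.eq_or_lt with h | h
      · rw [h, ins_same, sl_p]
      · exact (hpos _ h).le
    have hpl := hpos _ hl
    left
    refine ⟨?_, ?_, ?_⟩
    · rw [hlab, sl_sa] at hpl
      exact hpl
    · have h1 := hs l.castSucc
      rw [hlab] at h1
      exact first S y z _ _ h1
    · intro r'
      have h1 := incr _ _ _ _ hlt _ (ins S.p r a l.succ) (hs l.castSucc) h0 (fun _ => hpl)
      rw [hlab, f_sa, sl_sa] at h1
      refine h1.trans_le ?_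
      by_cases h2 : S.p.succAbove r' = ins S.p r a l.succ
      · rw [← h2, f_sa, sl_sa]
      · have h3 := hs l.succ _ h2
        rw [f_sa, sl_sa] at h3
        exact h3.le
  · have hsa : r.succAbove l = l.succ := Fin.succAbove_of_le_castSucc r l hl
    have hlab : ins S.p r a l.succ = S.p.succAbove (a l) := by rw [← hsa, ins_sa]
    have hlr : r < l.succ := by
      rw [Fin.lt_def, Fin.val_succ]
      have : (r : ℕ) ≤ (l.castSucc : Fin (k + 1)) := hl
      rw [Fin.val_castSucc] at this
      omega
    have h0 : S.sl (ins S.p r a l.castSucc) ≤ 0 := by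
      rcases hl.eq_or_lt with h | h
      · rw [← h, ins_same, sl_p]
      · exact (hneg _ h).le
    have hpl := hneg _ hlr
    right
    refine ⟨?_, ?_, ?_⟩
    · rw [hlab, sl_sa] at hpl
      exact hpl
    · have h1 := hs l.succ
      rw [hlab] at h1
      exact first S y z _ _ h1
    · intro r'
      have h1 := decr _ _ _ _ hlt (ins S.p r a l.castSucc) _ (hs l.succ) h0 (fun _ => hpl)
      rw [hlab, f_sa, sl_sa] at h1
      refine h1.trans_le ?_
      by_cases h2 : S.p.succAbove r' = ins S.p r a l.castSucc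
      · rw [← h2, f_sa, sl_sa]
      · have h3 := hs l.castSucc _ h2
        rw [f_sa, sl_sa] at h3
        exact h3.le

end Pool.Agent.Lib.MP_4e7804_co.Tw
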