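import Pool.Agent.Lib.MP_4e7804_co.Tw.Spec

/-! MP_4e7804_co, Tw/LabP: the path of the labels is minimal. -/

set_option autoImplicit false

open Finset

namespace Pool.Agent.Lib.MP_4e7804_co.Tw

namespace LabPN

/-- the number of thresholds before `T` -/
noncomputable def y (b : ℕ) (σ : ℕ → ℝ) (T : ℝ) : ℕ := ((Icc 1 b).filter fun I => σ I < T).card

theorem y_le (b : ℕ) (σ : ℕ → ℝ) (T : ℝ) : y b σ T ≤ b := by
  unfold y
  calc _ ≤ (Icc 1 b).card := card_filter_le _ _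
    _ = b := by simp

theorem y_mono (b : ℕ) (σ : ℕ → ℝ) (T T' : ℝ) (h : T ≤ T') : y b σ T ≤ y b σ T' := by
  unfold y
  apply card_le_card
  intro I hI
  rw [mem_filter] at hI ⊢
  exact ⟨hI.1, lt_of_lt_of_le hI.2 h⟩

theorem mono_thr {b : ℕ} (σ : ℕ → ℝ) (h : ∀ I, 1 ≤ I → I < b → σ I ≤ σ (I + 1)) :
    ∀ I I', 1 ≤ I → I ≤ I' → I' ≤ b → σ I ≤ σ I' := by
  intro I I' h1 h2
  induction I', h2 using Nat.le_induction with
  | base => intro _; exact le_rfl
  | succ n hn ih =>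
    intro h3
    exact le_trans (ih (by omega)) (h n (by omega) (by omega))

theorem y_iff (b : ℕ) (σ : ℕ → ℝ) (h : ∀ I, 1 ≤ I → I < b → σ I ≤ σ (I + 1)) (T : ℝ) (I : ℕ)
    (h1 : 1 ≤ I) (h2 : I ≤ b) : σ I < T ↔ I ≤ y b σ T := by
  constructor
  · intro hI
    unfold y
    calc I = (Icc 1 I).card := by simp
      _ ≤ _ := by
        apply card_le_card
        intro K hK
        rw [mem_Icc] at hK
        rw [mem_filter, mem_Icc]
        exact ⟨⟨hK.1, by omega⟩, lt_of_le_of_lt (mono_thr σ h K I hK.1 hK.2 h2) hI⟩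
  · intro hI
    by_contra hcon
    have h3 : y b σ T ≤ (Icc 1 (I - 1)).card := by
      unfold y
      apply card_le_card
      intro K hK
      rw [mem_filter, mem_Icc] at hK
      rw [mem_Icc]
      refine ⟨hK.1.1, ?_⟩
      by_contra hK2
      exact hcon (lt_of_le_of_lt (mono_thr σ h I K h1 (by omega) hK.1.2) hK.2)
    rw [Nat.card_Icc] at h3
    omega

theorem LM_le {n : ℕ} (f α : Fin n → ℝ) (hα : StrictAnti α) (t t' : ℝ) (ht : t < t') (i i' : Fin n)
    (h : LM f α t i) (h' : LM f α t' i') : i ≤ i' := by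
  by_contra hcon
  push Not at hcon
  have h1 := h i'
  have h2 := h' i
  have h3 := hα hcon
  nlinarith

theorem SM_LM {n : ℕ} (f α : Fin n → ℝ) (t : ℝ) (i : Fin n) (h : SM f α t i) : LM f α t i := by
  intro r
  by_cases hr : r = i
  · rw [hr]
  · exact (h r hr).le

theorem SM_eq {n : ℕ} (f α : Fin n → ℝ) (t : ℝ) (i i' : Fin n) (h : SM f α t i)
    (h' : SM f α t i') : i = i' := by
  by_contra hne
  exact lt_asymm (h i' (Ne.symm hne)) (h' i hne)

variable {b c : ℕ}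

/-- `x'` passes through `(i, j)` -/
def Pass (p : Fin (b + 1) × Fin (c + 1)) (x' : Fin c → Fin (b + 1)) : Prop :=
  (∀ k : Fin c, (k : ℕ) < p.2 → x' k ≤ p.1) ∧ ∀ k : Fin c, (p.2 : ℕ) ≤ k → p.1 ≤ x' k

theorem pass_rer (p : Fin (b + 1) × Fin (c + 1)) (x' : Fin c → Fin (b + 1)) :
    Pass p (rer p.1 p.2 x') := by
  constructor
  · intro k hk
    unfold rer
    rw [if_pos hk]
    exact min_le_right _ _
  · intro k hk
    unfold rer
    rw [if_neg (by omega)]
    exact le_max_right _ _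

theorem pass_rer' (p q : Fin (b + 1) × Fin (c + 1)) (h : (p.1 ≤ q.1 ∧ p.2 ≤ q.2) ∨
    (q.1 ≤ p.1 ∧ q.2 ≤ p.2)) (x' : Fin c → Fin (b + 1)) (hx : Pass p x') :
    Pass p (rer q.1 q.2 x') := by
  rcases h with ⟨h1, h2⟩ | ⟨h1, h2⟩
  · have h2' : (p.2 : ℕ) ≤ q.2 := h2
    constructor
    · intro k hk
      unfold rer
      rw [if_pos (by omega)]
      exact (min_le_left _ _).trans (hx.1 k hk)
    · intro k hk
      unfold rer
      split_ifs
      · exact le_min (hx.2 k hk) h1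
      · exact (hx.2 k hk).trans (le_max_left _ _)
  · have h2' : (q.2 : ℕ) ≤ p.2 := h2
    constructor
    · intro k hk
      unfold rer
      split_ifs
      · exact (min_le_left _ _).trans (hx.1 k hk)
      · exact max_le (hx.1 k hk) h1
    · intro k hk
      unfold rer
      rw [if_neg (by omega)]
      exact (hx.2 k hk).trans (le_max_left _ _)

theorem reroute (hExch : StmtExch) (f α : Fin (b + 1) → ℝ) (g β : Fin (c + 1) → ℝ)
    (hα : Antitone α) (hβ : Antitone β) (S : Finset (Fin (b + 1) × Fin (c + 1)))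
    (hS : ∀ p ∈ S, ∃ t, LM f α t p.1 ∧ LM g β t p.2)
    (hcomp : ∀ p ∈ S, ∀ q ∈ S, (p.1 ≤ q.1 ∧ p.2 ≤ q.2) ∨ (q.1 ≤ p.1 ∧ q.2 ≤ p.2))
    (x' : Fin c → Fin (b + 1)) (hx' : Monotone x') :
    ∃ x'' : Fin c → Fin (b + 1), Monotone x'' ∧ Pot f α g β x'' ≤ Pot f α g β x' ∧
      ∀ p ∈ S, Pass p x'' := by
  classical
  induction S using Finset.induction_on with
  | empty => exact ⟨x', hx', le_rfl, fun p hp => absurd hp (notMem_empty p)⟩
  | insert q S hq ih =>
    obtain ⟨x'', h1, h2, h3⟩ := ih (fun p hp => hS p (mem_insert_of_mem hp))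
      (fun p hp q hq => hcomp p (mem_insert_of_mem hp) q (mem_insert_of_mem hq))
    obtain ⟨t, ht1, ht2⟩ := hS q (mem_insert_self _ _)
    obtain ⟨h4, h5⟩ := hExch b c f α g β hα hβ t q.1 q.2 ht1 ht2 x'' h1
    refine ⟨rer q.1 q.2 x'', h4, h5.trans h2, ?_⟩
    intro p hp
    rcases mem_insert.1 hp with rfl | hp'
    · exact pass_rer p x''
    · exact pass_rer' p q (hcomp p hp q (mem_insert_self _ _)) x'' (h3 p hp')

end LabPN

open LabPN in
open scoped Classical in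
theorem tLabP (hExch : StmtExch) : StmtLabP := by
  intro b c f α g β σ τ hα hβ hσ hτ hno
  let x : Fin c → Fin (b + 1) := fun j =>
    ⟨y b σ (τ ((j : ℕ) + 1)), Nat.lt_succ_of_le (y_le b σ _)⟩
  have hxv : ∀ j : Fin c, (x j : ℕ) = y b σ (τ ((j : ℕ) + 1)) := fun j => rfl
  have hiff : ∀ (j : Fin c) (I : ℕ), 1 ≤ I → I ≤ b → (σ I < τ ((j : ℕ) + 1) ↔ I ≤ (x j : ℕ)) :=
    fun j I h1 h2 => y_iff b σ hσ.mono _ I h1 h2
  have hxm : Monotone x := by
    intro j j' hjj
    show (x j : ℕ) ≤ (x j' : ℕ)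
    rw [hxv, hxv]
    apply y_mono
    have h1 : (j : ℕ) ≤ j' := hjj
    exact mono_thr τ hτ.mono _ _ (by omega) (by omega) (by have := j'.isLt; omega)
  have hgt : ∀ (j : Fin c) (I : ℕ), 1 ≤ I → I ≤ b → (τ ((j : ℕ) + 1) < σ I ↔ (x j : ℕ) < I) := by
    intro j I h1 h2
    have h3 := hno I ((j : ℕ) + 1) h1 h2 (by omega) (by have := j.isLt; omega)
    constructor
    · intro h
      by_contra hcon
      exact lt_asymm h ((hiff j I h1 h2).2 (by omega))
    · intro h
      rcases lt_trichotomy (τ ((j : ℕ) + 1)) (σ I) with h4 | h4 | h4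
      · exact h4
      · exact absurd h4.symm h3
      · have := (hiff j I h1 h2).1 h4
        omega
  have hSM : ∀ j : Fin c, SM f α (τ ((j : ℕ) + 1)) (x j) := by
    intro j
    apply hσ.str
    · intro h1
      have := (x j).isLt
      exact (hiff j (x j) h1 (by omega)).2 le_rfl
    · intro h1
      exact (hgt j ((x j : ℕ) + 1) (by omega) (by omega)).2 (by omega)
  refine ⟨x, ⟨hxm, ?_⟩, ?_⟩
  · intro x' hx'
    let S : Finset (Fin (b + 1) × Fin (c + 1)) :=
      univ.filter fun p => ∃ j : Fin c, p.1 = x j ∧ LM g β (τ ((j : ℕ) + 1)) p.2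
    have hmem : ∀ p, p ∈ S ↔ ∃ j : Fin c, p.1 = x j ∧ LM g β (τ ((j : ℕ) + 1)) p.2 := by
      intro p
      simp [S]
    obtain ⟨x'', h1, h2, h3⟩ := reroute hExch f α g β hα.antitone hβ.antitone S
      (fun p hp => by
        obtain ⟨j, hj1, hj2⟩ := (hmem p).1 hp
        exact ⟨τ ((j : ℕ) + 1), by rw [hj1]; exact SM_LM _ _ _ _ (hSM j), hj2⟩)
      (fun p hp q hq => by
        obtain ⟨j, hj1, hj2⟩ := (hmem p).1 hp
        obtain ⟨k, hk1, hk2⟩ := (hmem q).1 hq
        have a1 := SM_LM _ _ _ _ (hSM j)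
        have a2 := SM_LM _ _ _ _ (hSM k)
        rw [← hj1] at a1
        rw [← hk1] at a2
        rcases lt_trichotomy (τ ((j : ℕ) + 1)) (τ ((k : ℕ) + 1)) with h | h | h
        · exact Or.inl ⟨LM_le f α hα _ _ h _ _ a1 a2, LM_le g β hβ _ _ h _ _ hj2 hk2⟩
        · have a3 : p.1 = q.1 := by
            rw [hj1, hk1]
            have a4 := hSM j
            rw [h] at a4
            exact SM_eq _ _ _ _ _ a4 (hSM k)
          rcases le_total p.2 q.2 with h5 | h5
          · exact Or.inl ⟨a3.le, h5⟩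
          · exact Or.inr ⟨a3.ge, h5⟩
        · exact Or.inr ⟨LM_le f α hα _ _ h _ _ a2 a1, LM_le g β hβ _ _ h _ _ hk2 hj2⟩)
      x' hx'
    have hxx : x'' = x := by
      funext j
      obtain ⟨l, r, e1, e2, e3, e4⟩ := hτ.tie ((j : ℕ) + 1) (by omega)
        (by have := j.isLt; omega)
      have p1 := h3 (x j, l) ((hmem _).2 ⟨j, rfl, e3⟩)
      have p2 := h3 (x j, r) ((hmem _).2 ⟨j, rfl, e4⟩)
      exact le_antisymm (p2.1 j (by show (j : ℕ) < (r : ℕ); omega))
        (p1.2 j (by show (l : ℕ) ≤ (j : ℕ); omega))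
    rw [← hxx]
    exact h2
  · intro j I h1 h2
    have hj := j.isLt
    unfold X
    rw [if_neg (by omega), if_neg (by omega), if_neg (by omega), if_neg (by omega)]
    by_cases h : τ ((j : ℕ) + 1) < σ I
    · rw [if_pos h, if_pos ((hgt j I h1 h2).1 h)]
    · rw [if_neg h, if_neg (fun h' => h ((hgt j I h1 h2).2 h'))]

end Pool.Agent.Lib.MP_4e7804_co.Tw
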