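import Pool.Agent.Lib.MP_4e7804_co.Tw.Red

/-!
# The marginals are zero
-/

set_option autoImplicit false

namespace Pool.Agent.Lib.MP_4e7804_co.Tw

namespace MomN

variable {Ω : Type} {X : Ω → ℕ → ℕ → ℝ} {b c : ℕ} [Fintype Ω] {φ : Ω → ℝ}

theorem MM_of_SS {k : ℕ} {I J : Fin k → ℕ} (h : SS φ X I J = 0) : MM φ X I J = 0 := by
  unfold MM
  split_ifs
  · exact h
  · rfl

theorem sh_le (x : Bool) : sh x ≤ 1 := by cases x <;> simp [sh]

theorem sg_not (x : Bool) : sg (!x) = - sg x := by cases x <;> simp [sg]

theorem tele (T : ℕ → ℝ) (n : ℕ) (h0 : T 0 = 0) (h1 : T n = 0) (x : Bool) :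
    sg x * ∑ y : Fin n, T (y + sh x) + sg (!x) * ∑ y : Fin n, T (y + sh (!x)) = 0 := by
  have h2 : ∑ y : Fin n, T (y + 1) - ∑ y : Fin n, T y = 0 := by
    rw [← Finset.sum_sub_distrib, Fin.sum_univ_eq_sum_range (fun y => T (y + 1) - T y),
      Finset.sum_range_sub, h0, h1, sub_zero]
  cases x
  · simp only [sg, sh, Bool.not_false, if_true, add_zero, Bool.false_eq_true, if_false]
    linarith
  · simp only [sg, sh, Bool.not_true, if_true, add_zero, Bool.false_eq_true, if_false]
    linarith

/-- the involution -/
def inv1 {k : ℕ} (l : Fin k) (p : Fin k → Bool × Bool) : Fin k → Bool × Bool :=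
  Function.update p l (!(p l).1, (p l).2)

/-- the involution -/
def inv2 {k : ℕ} (l : Fin k) (p : Fin k → Bool × Bool) : Fin k → Bool × Bool :=
  Function.update p l ((p l).1, !(p l).2)

theorem inv1_inv1 {k : ℕ} (l : Fin k) (p : Fin k → Bool × Bool) : inv1 l (inv1 l p) = p := by
  simp [inv1]

theorem inv2_inv2 {k : ℕ} (l : Fin k) (p : Fin k → Bool × Bool) : inv2 l (inv2 l p) = p := by
  simp [inv2]

theorem inv1_ne {k : ℕ} (l : Fin k) (p : Fin k → Bool × Bool) : inv1 l p ≠ p := by
  intro h
  have := congrFun h l
  simp only [inv1, Function.update_self] at this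
  have h2 := congrArg Prod.fst this
  simp at h2

theorem inv2_ne {k : ℕ} (l : Fin k) (p : Fin k → Bool × Bool) : inv2 l p ≠ p := by
  intro h
  have := congrFun h l
  simp only [inv2, Function.update_self] at this
  have h2 := congrArg Prod.snd this
  simp at h2

theorem prod_upd {k : ℕ} (l : Fin k) (F : Fin k → Bool × Bool → ℝ) (p : Fin k → Bool × Bool)
    (q : Bool × Bool) : ∏ x, F x (Function.update p l q x) =
      F l q * ∏ x ∈ Finset.univ.erase l, F x (p x) := by
  rw [← Finset.mul_prod_erase _ _ (Finset.mem_univ l), Function.update_self]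
  congr 1
  refine Finset.prod_congr rfl fun x hx => ?_
  rw [Function.update_of_ne (Finset.ne_of_mem_erase hx)]

theorem prod_spl {k : ℕ} (l : Fin k) (F : Fin k → Bool × Bool → ℝ) (p : Fin k → Bool × Bool) :
    ∏ x, F x (p x) = F l (p l) * ∏ x ∈ Finset.univ.erase l, F x (p x) :=
  (Finset.mul_prod_erase _ _ (Finset.mem_univ l)).symm

theorem marg1 (hX : ∀ s, XF b c (X s)) {k : ℕ} (hV : Van φ X b c k) (j : Fin k → Fin (c + 1)) :
    ZMarg fun i => mF (b := b) (c := c) φ X i j := by
  intro l i
  unfold mF mm
  rw [Finset.sum_comm]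
  -- the function of the replaced entry
  set T : (Fin k → Bool × Bool) → ℕ → ℝ := fun p y => MM φ X
    (Function.update (fun l' => (i l' : ℕ) + sh (p l').1) l y) (fun l' => (j l' : ℕ) + sh (p l').2)
    with hT
  have hT0 : ∀ p y, (y = 0 ∨ y = b + 1) → T p y = 0 := by
    intro p y hy
    apply MM_of_SS
    refine SS_bdry hX hV _ _ (fun x => ?_) (fun x => ?_) l ?_
    · by_cases hx : x = l
      · subst hx
        rw [Function.update_self]
        rcases hy with h | h <;> omega
      · rw [Function.update_of_ne hx]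
        have := sh_le (p x).1
        omega
    · have := sh_le (p x).2
      omega
    · rw [Function.update_self]
      rcases hy with h | h
      · exact Or.inl h
      · exact Or.inr (Or.inl h)
  have hterm : ∀ p : Fin k → Bool × Bool, ∑ x : Fin (b + 1), (∏ l, sg (p l).1 * sg (p l).2) *
      MM φ X (fun l_1 => ((Function.update i l x l_1 : Fin (b + 1)) : ℕ) + sh (p l_1).1)
        (fun l => (j l : ℕ) + sh (p l).2) =
      (sg (p l).2 * ∏ x ∈ Finset.univ.erase l, (sg (p x).1 * sg (p x).2)) *
        (sg (p l).1 * ∑ y : Fin (b + 1), T p (y + sh (p l).1)) := by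
    intro p
    rw [← Finset.mul_sum, prod_spl l (fun _ q => sg q.1 * sg q.2) p]
    have : ∀ x : Fin (b + 1), MM φ X
        (fun l_1 => ((Function.update i l x l_1 : Fin (b + 1)) : ℕ) + sh (p l_1).1)
        (fun l => (j l : ℕ) + sh (p l).2) = T p (x + sh (p l).1) := by
      intro x
      simp only [hT]
      congr 1
      funext l'
      by_cases h : l' = l
      · subst h
        rw [Function.update_self, Function.update_self]
      · rw [Function.update_of_ne h, Function.update_of_ne h]
    rw [Finset.sum_congr rfl fun x _ => this x]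
    ring
  rw [Finset.sum_congr rfl fun p _ => hterm p]
  refine Finset.sum_involution (fun p _ => inv1 l p) (fun p _ => ?_)
    (fun p _ _ => inv1_ne l p) (fun p _ => Finset.mem_univ _) (fun p _ => inv1_inv1 l p)
  have hT' : T (inv1 l p) = T p := by
    funext y
    simp only [hT]
    congr 1
    · funext l'
      by_cases h : l' = l
      · subst h
        rw [Function.update_self, Function.update_self]
      · rw [Function.update_of_ne h, Function.update_of_ne h, inv1, Function.update_of_ne h]
    · funext l'
      by_cases h : l' = l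
      · subst h
        simp [inv1]
      · rw [inv1, Function.update_of_ne h]
  have hP : ∏ x ∈ Finset.univ.erase l, (sg (inv1 l p x).1 * sg (inv1 l p x).2) =
      ∏ x ∈ Finset.univ.erase l, (sg (p x).1 * sg (p x).2) := by
    refine Finset.prod_congr rfl fun x hx => ?_
    rw [inv1, Function.update_of_ne (Finset.ne_of_mem_erase hx)]
  have e1 : (inv1 l p l).1 = !(p l).1 := by simp [inv1]
  have e2 : (inv1 l p l).2 = (p l).2 := by simp [inv1]
  rw [hT', hP, e1, e2]
  have := tele (T p) (b + 1) (hT0 p 0 (Or.inl rfl)) (hT0 p (b + 1) (Or.inr rfl)) (p l).1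
  rw [← mul_add, this, mul_zero]

theorem marg2 (hX : ∀ s, XF b c (X s)) {k : ℕ} (hV : Van φ X b c k) (i : Fin k → Fin (b + 1)) :
    ZMarg (mF (b := b) (c := c) φ X i) := by
  intro l j
  unfold mF mm
  rw [Finset.sum_comm]
  -- the function of the replaced entry
  set T : (Fin k → Bool × Bool) → ℕ → ℝ := fun p y => MM φ X
    (fun l' => (i l' : ℕ) + sh (p l').1) (Function.update (fun l' => (j l' : ℕ) + sh (p l').2) l y)
    with hT
  have hT0 : ∀ p y, (y = 0 ∨ y = c + 1) → T p y = 0 := by
    intro p y hy
    apply MM_of_SS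
    refine SS_bdry hX hV _ _ (fun x => ?_) (fun x => ?_) l ?_
    · have := sh_le (p x).1
      omega
    · by_cases hx : x = l
      · subst hx
        rw [Function.update_self]
        rcases hy with h | h <;> omega
      · rw [Function.update_of_ne hx]
        have := sh_le (p x).2
        omega
    · rw [Function.update_self]
      rcases hy with h | h
      · exact Or.inr (Or.inr (Or.inl h))
      · exact Or.inr (Or.inr (Or.inr h))
  have hterm : ∀ p : Fin k → Bool × Bool, ∑ x : Fin (c + 1), (∏ l, sg (p l).1 * sg (p l).2) *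
      MM φ X (fun l => (i l : ℕ) + sh (p l).1)
        (fun l_1 => ((Function.update j l x l_1 : Fin (c + 1)) : ℕ) + sh (p l_1).2) =
      (sg (p l).1 * ∏ x ∈ Finset.univ.erase l, (sg (p x).1 * sg (p x).2)) *
        (sg (p l).2 * ∑ y : Fin (c + 1), T p (y + sh (p l).2)) := by
    intro p
    rw [← Finset.mul_sum, prod_spl l (fun _ q => sg q.1 * sg q.2) p]
    have : ∀ x : Fin (c + 1), MM φ X (fun l => (i l : ℕ) + sh (p l).1)
        (fun l_1 => ((Function.update j l x l_1 : Fin (c + 1)) : ℕ) + sh (p l_1).2) =
        T p (x + sh (p l).2) := by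
      intro x
      simp only [hT]
      congr 1
      funext l'
      by_cases h : l' = l
      · subst h
        rw [Function.update_self, Function.update_self]
      · rw [Function.update_of_ne h, Function.update_of_ne h]
    rw [Finset.sum_congr rfl fun x _ => this x]
    ring
  rw [Finset.sum_congr rfl fun p _ => hterm p]
  refine Finset.sum_involution (fun p _ => inv2 l p) (fun p _ => ?_)
    (fun p _ _ => inv2_ne l p) (fun p _ => Finset.mem_univ _) (fun p _ => inv2_inv2 l p)
  have hT' : T (inv2 l p) = T p := by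
    funext y
    simp only [hT]
    congr 1
    · funext l'
      by_cases h : l' = l
      · subst h
        simp [inv2]
      · rw [inv2, Function.update_of_ne h]
    · funext l'
      by_cases h : l' = l
      · subst h
        rw [Function.update_self, Function.update_self]
      · rw [Function.update_of_ne h, Function.update_of_ne h, inv2, Function.update_of_ne h]
  have hP : ∏ x ∈ Finset.univ.erase l, (sg (inv2 l p x).1 * sg (inv2 l p x).2) =
      ∏ x ∈ Finset.univ.erase l, (sg (p x).1 * sg (p x).2) := by
    refine Finset.prod_congr rfl fun x hx => ?_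
    rw [inv2, Function.update_of_ne (Finset.ne_of_mem_erase hx)]
  have e1 : (inv2 l p l).2 = !(p l).2 := by simp [inv2]
  have e2 : (inv2 l p l).1 = (p l).1 := by simp [inv2]
  rw [hT', hP, e1, e2]
  have := tele (T p) (c + 1) (hT0 p 0 (Or.inl rfl)) (hT0 p (c + 1) (Or.inr rfl)) (p l).2
  rw [← mul_add, this, mul_zero]

end MomN

open MomN in
theorem tMarg : StmtMarg := fun _ _ _ _ _ _ hX _ hV => ⟨marg1 hX hV, marg2 hX hV⟩

end Pool.Agent.Lib.MP_4e7804_co.Tw
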