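import Pool.Agent.Lib.MP_4e7804_co.Tw.Spec2

set_option autoImplicit false

open Finset

namespace Pool.Agent.Lib.MP_4e7804_co.Tw

namespace ModelN

/-- if all ties are on one hyperplane there are at most two vertices -/
theorem two_vert {n : ℕ} (E : Finset (Fin n →₀ ℕ)) (μ : Fin n → ℝ) (hμ : μ ≠ 0)
    (ϕ : (Fin n →₀ ℕ) → ℚ)
    (htrop : ∀ z : Fin n → ℚ, TieE E ϕ z → ∑ i, μ i * ((z i : ℚ) : ℝ) = 0) :
    numVertices (convexHull ℝ ((fun (a : Fin n →₀ ℕ) (i : Fin n) => (a i : ℝ)) ''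
      (E : Set (Fin n →₀ ℕ)))) ≤ 2 := by
  classical
  set img : (Fin n →₀ ℕ) → (Fin n → ℝ) := fun a i => (a i : ℝ) with himg
  have hinj : Function.Injective img := by
    intro a b hab
    ext i
    have := congrFun hab i
    simp only [himg] at this
    exact_mod_cast this
  set S : Finset (Fin n → ℝ) := E.image img with hS
  have hSE : img '' (E : Set (Fin n →₀ ℕ)) = (S : Set (Fin n → ℝ)) := by
    rw [hS, Finset.coe_image]
  rw [hSE]
  have hdir := fun (α : Fin n → ℝ) (hα : α ∈ (convexHull ℝ (S : Set (Fin n → ℝ))).extremePoints ℝ) =>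
    exists_dir S {μ} (fun m hm => by rw [mem_singleton.1 hm]; exact hμ) α hα
  have hEsub : (convexHull ℝ (S : Set (Fin n → ℝ))).extremePoints ℝ ⊆
      (S : Set (Fin n → ℝ)) := fun α hα => (hdir α hα).1
  have hEfin := S.finite_toSet.subset hEsub
  set X := hEfin.toFinset with hX
  have hXm : ∀ α, α ∈ X ↔ α ∈ (convexHull ℝ (S : Set (Fin n → ℝ))).extremePoints ℝ := fun α => by
    rw [hX, Set.Finite.mem_toFinset]
  have hnum : numVertices (convexHull ℝ (S : Set (Fin n → ℝ))) = X.card :=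
    Set.ncard_eq_toFinset_card _ hEfin
  rw [hnum]
  by_contra hcon
  push Not at hcon
  have hdir2 : ∀ α : Fin n → ℝ, ∃ y : Fin n → ℚ, α ∈ X →
      (∀ β ∈ S, β ≠ α → ∑ i, α i * (y i : ℝ) < ∑ i, β i * (y i : ℝ)) ∧ ∑ i, μ i * (y i : ℝ) ≠ 0 := by
    intro α
    by_cases hα : α ∈ X
    · obtain ⟨-, y, h1, h2⟩ := hdir α ((hXm α).1 hα)
      exact ⟨y, fun _ => ⟨h1, h2 μ (mem_singleton_self _)⟩⟩
    · exact ⟨0, fun h => absurd h hα⟩
  choose Y hY using hdir2
  obtain ⟨α, hα, α', hα', hne, hsgn⟩ := Finset.exists_ne_map_eq_of_card_lt_of_maps_to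
    (s := X) (t := (univ : Finset Bool)) (f := fun α => decide (0 < ∑ i, μ i * ((Y α i : ℚ) : ℝ)))
    (by rw [Finset.card_univ, Fintype.card_bool]; exact hcon) (fun _ _ => mem_univ _)
  obtain ⟨hα1, hα2⟩ := hY α hα
  obtain ⟨hα1', hα2'⟩ := hY α' hα'
  have hαS : α ∈ S := by exact_mod_cast hEsub ((hXm α).1 hα)
  have hαS' : α' ∈ S := by exact_mod_cast hEsub ((hXm α').1 hα')
  obtain ⟨a, ha, haα⟩ := Finset.mem_image.mp hαS
  obtain ⟨a', ha', haα'⟩ := Finset.mem_image.mp hαS'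
  have haa : a ≠ a' := by
    intro h
    apply hne
    rw [← haα, ← haα', h]
  have hmin : ∀ β ∈ E, β ≠ a → ∑ i, (a i : ℚ) * Y α i < ∑ i, (β i : ℚ) * Y α i := by
    intro β hβ hβa
    have e := hα1 (img β) (Finset.mem_image_of_mem _ hβ) (fun h => hβa (hinj (h.trans haα.symm)))
    have e0 : ∀ i, α i = (a i : ℝ) := fun i => by rw [← haα]
    have e' : ((∑ i, (a i : ℚ) * Y α i : ℚ) : ℝ) < ((∑ i, (β i : ℚ) * Y α i : ℚ) : ℝ) := by
      push_cast
      simp only [e0] at e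
      exact e
    exact_mod_cast e'
  have hmin' : ∀ β ∈ E, β ≠ a' → ∑ i, (a' i : ℚ) * Y α' i < ∑ i, (β i : ℚ) * Y α' i := by
    intro β hβ hβa
    have e := hα1' (img β) (Finset.mem_image_of_mem _ hβ) (fun h => hβa (hinj (h.trans haα'.symm)))
    have e0 : ∀ i, α' i = (a' i : ℝ) := fun i => by rw [← haα']
    have e' : ((∑ i, (a' i : ℚ) * Y α' i : ℚ) : ℝ) < ((∑ i, (β i : ℚ) * Y α' i : ℚ) : ℝ) := by
      push_cast
      simp only [e0] at e
      exact e
    exact_mod_cast e'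
  have ev1 := MainU_large E ϕ (Y α) a hmin
  have ev2 := MainU_large E ϕ (Y α') a' hmin'
  obtain ⟨R, ⟨hR1, hR2⟩, hR0⟩ := ((ev1.and ev2).and (Filter.eventually_gt_atTop 0)).exists
  obtain ⟨θ, hθ0, hθ1, β, hβ, γ, hγ, hβγ, htie, hle⟩ :=
    tie_on_segment E ϕ (fun i => (R : ℚ) * Y α i) (fun i => (R : ℚ) * Y α' i)
      a a' ha ha' haa hR1 hR2
  have h0 := htrop (fun i => (1 - θ) * ((R : ℚ) * Y α i) + θ * ((R : ℚ) * Y α' i))
    ⟨β, hβ, γ, hγ, hβγ, htie, hle⟩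
  have e1 : ∑ i, μ i * (((1 - θ) * ((R : ℚ) * Y α i) + θ * ((R : ℚ) * Y α' i) : ℚ) : ℝ) =
      (R : ℝ) * ((1 - (θ : ℝ)) * (∑ i, μ i * ((Y α i : ℚ) : ℝ)) +
        (θ : ℝ) * (∑ i, μ i * ((Y α' i : ℚ) : ℝ))) := by
    rw [Finset.mul_sum, Finset.mul_sum, ← Finset.sum_add_distrib, Finset.mul_sum]
    apply Finset.sum_congr rfl
    intro i _
    push_cast
    ring
  rw [e1] at h0
  have hR0' : (0 : ℝ) < (R : ℝ) := by exact_mod_cast hR0
  have hθ0' : (0 : ℝ) < (θ : ℝ) := by exact_mod_cast hθ0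
  have hθ1' : (θ : ℝ) < 1 := by exact_mod_cast hθ1
  have h1 : (1 - (θ : ℝ)) * (∑ i, μ i * ((Y α i : ℚ) : ℝ)) +
        (θ : ℝ) * (∑ i, μ i * ((Y α' i : ℚ) : ℝ)) = 0 := by
    rcases mul_eq_zero.1 h0 with h | h
    · exact absurd h hR0'.ne'
    · exact h
  simp only [decide_eq_decide] at hsgn
  by_cases hp : 0 < ∑ i, μ i * ((Y α i : ℚ) : ℝ)
  · have hp' := hsgn.1 hp
    have b1 := mul_pos (by linarith : (0 : ℝ) < 1 - θ) hp
    have b2 := mul_pos hθ0' hp'
    linarith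
  · have hp' : ¬ 0 < ∑ i, μ i * ((Y α' i : ℚ) : ℝ) := fun h => hp (hsgn.2 h)
    have c1 : ∑ i, μ i * ((Y α i : ℚ) : ℝ) < 0 := lt_of_le_of_ne (not_lt.1 hp) hα2
    have c2 : ∑ i, μ i * ((Y α' i : ℚ) : ℝ) < 0 := lt_of_le_of_ne (not_lt.1 hp') hα2'
    have b1 := mul_neg_of_pos_of_neg (by linarith : (0 : ℝ) < 1 - θ) c1
    have b2 := mul_neg_of_pos_of_neg hθ0' c2
    linarith

/-- a point: the tie condition -/
theorem tie_point {d : ℕ} (P : Set (Fin d → ℝ)) (a : Fin d → ℤ)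
    (hP : P = convexHull ℝ (toReal '' (({a} : Finset (Fin d → ℤ)) : Set (Fin d → ℤ)))) (z : ℚ)
    (w : Fin d → ℚ) (h : Tie P (fun _ => 0) z w) : z = dot w a := by
  have h1 : ∀ p, p ∈ latticePoints P → p = a := by
    intro p hp
    have h2 : toReal p ∈ P := hp
    rw [hP, Finset.coe_singleton, Set.image_singleton, convexHull_singleton] at h2
    exact Latt_inj h2
  rcases h with ⟨p, hp, hpz, -⟩ | ⟨p, hp, q, hq, hpq, -⟩
  · rw [h1 p hp, add_zero] at hpz
    exact hpz.symm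
  · exact absurd ((h1 p hp).trans (h1 q hq).symm) hpq

theorem dot_sum {d k : ℕ} (w : Fin d → ℚ) (a : Fin k → Fin d → ℤ) (g : Fin k → ℚ)
    (h : ∑ l, g l • (fun j => ((a l j : ℤ) : ℚ)) = 0) : ∑ l, g l * dot w (a l) = 0 := by
  have h1 : ∀ j, ∑ l, g l * ((a l j : ℤ) : ℚ) = 0 := by
    intro j
    have := congrFun h j
    simpa [Finset.sum_apply, smul_eq_mul] using this
  unfold dot
  simp only [mul_sum]
  rw [sum_comm]
  apply sum_eq_zero
  intro j _
  have : ∑ l, g l * (w j * ((a l j : ℤ) : ℚ)) = w j * ∑ l, g l * ((a l j : ℤ) : ℚ) := by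
    rw [mul_sum]
    exact sum_congr rfl fun l _ => by ring
  rw [this, h1, mul_zero]

end ModelN

open ModelN in
theorem tModel (hDual : StmtDual) (hEnum : StmtEnum) (hBrkT : StmtBrkT) : StmtModel := by
  intro d v N i₀ i₁ hd hne hv hN
  classical
  obtain ⟨P, c, F, hP, hv', hc, hF, hNum⟩ := hN
  have hex := fun i => exists_vertices (P i) (hP i)
  choose hfin hnon A hA hcard hPA using hex
  -- the other indices
  set T : Finset (Fin (d + 1)) := ({i₀, i₁} : Finset (Fin (d + 1)))ᶜ with hT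
  have hTc : T.card = d - 1 := by
    rw [hT, Finset.card_compl, Fintype.card_fin, Finset.card_pair hne]
    omega
  obtain ⟨ι, hι⟩ : ∃ ι : Fin (d - 1) → Fin (d + 1), ∀ l, ι l = T.orderEmbOfFin hTc l := ⟨_, fun _ => rfl⟩
  have hιinj : Function.Injective ι := by
    intro l l' h
    rw [hι, hι] at h
    exact (T.orderEmbOfFin hTc).injective h
  have hιne : ∀ l, ι l ≠ i₀ ∧ ι l ≠ i₁ := by
    intro l
    have h1 : ι l ∈ T := by
      rw [hι]
      exact T.orderEmbOfFin_mem hTc l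
    rw [hT, Finset.mem_compl, Finset.mem_insert, Finset.mem_singleton] at h1
    tauto
  have hA1 : ∀ l, ∃ a, A (ι l) = {a} := by
    intro l
    rw [← Finset.card_eq_one, hcard, hv', hv _ (hιne l).1 (hιne l).2]
  choose a ha using hA1
  have hPa : ∀ l, P (ι l) = convexHull ℝ (toReal '' (({a l} : Finset (Fin d → ℤ)) : Set (Fin d → ℤ))) := by
    intro l
    rw [← ha l]
    exact hPA (ι l)
  have hnewt : newton F = convexHull ℝ ((fun (a : Fin (d + 1) →₀ ℕ) (i : Fin (d + 1)) => (a i : ℝ)) ''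
      (F.support : Set (Fin (d + 1) →₀ ℕ))) := rfl
  by_cases hind : LinearIndependent ℚ (fun l k => ((a l k : ℤ) : ℚ))
  · right
    obtain ⟨ω, κ, hωκ⟩ := hDual d a (by omega) hind
    obtain ⟨B, hB⟩ : ∃ B, v i₀ = B + 1 := ⟨v i₀ - 1, by
      have h1 := (hA i₀).card_pos
      rw [hcard, hv'] at h1
      omega⟩
    obtain ⟨C, hC⟩ : ∃ C, v i₁ = C + 1 := ⟨v i₁ - 1, by
      have h1 := (hA i₁).card_pos
      rw [hcard, hv'] at h1
      omega⟩
    obtain ⟨π₁, S₁, hπ₁, hπA₁, hP₁, hα₁, hS₁, hF₁⟩ := hEnum d (d - 1) B ω κ a hωκ (A i₀)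
      ((hcard i₀).trans ((hv' i₀).trans hB))
    obtain ⟨π₂, S₂, hπ₂, hπA₂, hP₂, hα₂, hS₂, hF₂⟩ := hEnum d (d - 1) C ω κ a hωκ (A i₁)
      ((hcard i₁).trans ((hv' i₁).trans hC))
    refine ⟨B, C, S₁, S₂, ι, F.support, hB, hC, hS₁, hS₂, hF₁, hF₂, hιinj, hιne, ?_, ?_⟩
    · intro η₁ η₂ hη₁ hη₂
      let W₁ : (Fin d → ℤ) → ℚ := fun p => if h : ∃ x, π₁ x = p then η₁ h.choose else 2
      let W₂ : (Fin d → ℤ) → ℚ := fun p => if h : ∃ x, π₂ x = p then η₂ h.choose else 2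
      have hW₁ : ∀ x, W₁ (π₁ x) = η₁ x := by
        intro x
        have h : ∃ x', π₁ x' = π₁ x := ⟨x, rfl⟩
        show (if h : ∃ x', π₁ x' = π₁ x then η₁ h.choose else 2) = η₁ x
        rw [dif_pos h, hπ₁ h.choose_spec]
      have hW₂ : ∀ x, W₂ (π₂ x) = η₂ x := by
        intro x
        have h : ∃ x', π₂ x' = π₂ x := ⟨x, rfl⟩
        show (if h : ∃ x', π₂ x' = π₂ x then η₂ h.choose else 2) = η₂ x
        rw [dif_pos h, hπ₂ h.choose_spec]
      have hW₁' : ∀ p, p ∉ A i₀ → W₁ p = 2 := by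
        intro p hp
        exact dif_neg fun h => hp ((hπA₁ p).2 h)
      have hW₂' : ∀ p, p ∉ A i₁ → W₂ p = 2 := by
        intro p hp
        exact dif_neg fun h => hp ((hπA₂ p).2 h)
      let W : Fin (d + 1) → (Fin d → ℤ) → ℚ := fun i =>
        if i = i₀ then W₁ else if i = i₁ then W₂ else fun _ => 0
      obtain ⟨ϕ, hϕ⟩ := trop_subset P hfin hnon c hc F hF W
      refine ⟨ϕ, fun z hz => ?_⟩
      obtain ⟨w, hw⟩ := hϕ z hz
      have hz1 : ∀ l, z (ι l) = dot w (a l) := by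
        intro l
        have h1 := hw (ι l)
        have h2 : W (ι l) = fun _ => 0 := by
          show (if ι l = i₀ then W₁ else if ι l = i₁ then W₂ else fun _ => 0) = fun _ => 0
          rw [if_neg (hιne l).1, if_neg (hιne l).2]
        rw [h2] at h1
        exact tie_point (P (ι l)) (a l) (hPa l) _ w h1
      obtain ⟨t, ht⟩ := hωκ w
      have ht' : ∀ k, w k = ∑ l, (fun l => z (ι l)) l * ω l k + t * κ k := by
        intro k
        rw [ht k]
        simp only [hz1]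
      refine ⟨(t : ℝ), ?_, ?_⟩
      · have h1 := hw i₀
        have h2 : W i₀ = W₁ := if_pos rfl
        rw [h2] at h1
        exact hBrkT d (d - 1) B (P i₀) (A i₀) (hPA i₀) π₁ S₁ ω κ hπ₁ hπA₁ hP₁ hα₁ W₁ η₁ hη₁ hW₁ hW₁'
          (z i₀) w (fun l => z (ι l)) t ht' h1
      · have h1 := hw i₁
        have h2 : W i₁ = W₂ := by
          show (if i₁ = i₀ then W₁ else if i₁ = i₁ then W₂ else fun _ => 0) = W₂
          rw [if_neg hne.symm, if_pos rfl]
        rw [h2] at h1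
        exact hBrkT d (d - 1) C (P i₁) (A i₁) (hPA i₁) π₂ S₂ ω κ hπ₂ hπA₂ hP₂ hα₂ W₂ η₂ hη₂ hW₂ hW₂'
          (z i₁) w (fun l => z (ι l)) t ht' h1
    · rw [← hNum, hnewt]
  · left
    rw [Fintype.not_linearIndependent_iff] at hind
    obtain ⟨g, hg, l₀, hl₀⟩ := hind
    obtain ⟨ϕ, hϕ⟩ := trop_subset P hfin hnon c hc F hF (fun _ _ => 0)
    rw [← hNum, hnewt]
    have hμ0 : (fun i => ∑ l, ((g l : ℚ) : ℝ) * (if i = ι l then (1 : ℝ) else 0)) (ι l₀) = g l₀ := by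
      show ∑ l, ((g l : ℚ) : ℝ) * (if ι l₀ = ι l then (1 : ℝ) else 0) = g l₀
      rw [Finset.sum_eq_single l₀]
      · rw [if_pos rfl, mul_one]
      · intro l _ hl
        rw [if_neg (fun h => hl (hιinj h).symm), mul_zero]
      · intro h
        exact absurd (mem_univ _) h
    refine two_vert F.support (fun i => ∑ l, ((g l : ℚ) : ℝ) * (if i = ι l then (1 : ℝ) else 0)) ?_ ϕ ?_
    · intro h
      rw [h] at hμ0
      apply hl₀
      have : ((g l₀ : ℚ) : ℝ) = 0 := hμ0.symm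
      exact_mod_cast this
    · intro z hz
      obtain ⟨w, hw⟩ := hϕ z hz
      have h1 : ∑ l, g l * z (ι l) = 0 := by
        have h2 : ∀ l, z (ι l) = dot w (a l) := fun l =>
          tie_point (P (ι l)) (a l) (hPa l) _ w (hw (ι l))
        simp only [h2]
        exact dot_sum w a g hg
      have h3 : ∑ i, (∑ l, ((g l : ℚ) : ℝ) * (if i = ι l then (1 : ℝ) else 0)) * ((z i : ℚ) : ℝ) =
          ((∑ l, g l * z (ι l) : ℚ) : ℝ) := by
        push_cast
        simp only [sum_mul]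
        rw [sum_comm]
        refine sum_congr rfl fun l _ => ?_
        rw [Finset.sum_eq_single (ι l)]
        · rw [if_pos rfl, mul_one]
        · intro i _ hi
          rw [if_neg hi, mul_zero, zero_mul]
        · intro h
          exact absurd (mem_univ _) h
      rw [h3, h1]
      norm_num

end Pool.Agent.Lib.MP_4e7804_co.Tw
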