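import Pool.Agent.Lib.MP_4e7804_co.Tw.Spec

set_option autoImplicit false

open Finset

namespace Pool.Agent.Lib.MP_4e7804_co.Tw

namespace Nerve2N

/-- a positive lower bound for the gaps of finitely many strictly increasing tuples -/
theorem gap {K : ℕ} {A : Type} [Finite A] (p : A → Prop) (t : A → Fin K → ℝ)
    (h : ∀ a, p a → StrictMono (t a)) :
    ∃ ε : ℝ, 0 < ε ∧ ∀ a, p a → ∀ l l', l < l' → t a l + ε ≤ t a l' := by
  have h1 : ∀ᶠ ε in nhdsWithin (0 : ℝ) (Set.Ioi 0), ∀ a, ∀ l l', p a → l < l' → t a l + ε ≤ t a l' := by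
    rw [Filter.eventually_all]
    intro a
    rw [Filter.eventually_all]
    intro l
    rw [Filter.eventually_all]
    intro l'
    by_cases ha : p a ∧ l < l'
    · have h2 := h a ha.1 ha.2
      filter_upwards [Ioc_mem_nhdsGT (sub_pos.2 h2)] with ε hε _ _
      linarith [hε.2]
    · exact Filter.Eventually.of_forall fun ε h' h'' => absurd ⟨h', h''⟩ ha
  obtain ⟨ε, hε, hε'⟩ := (h1.and self_mem_nhdsWithin).exists
  exact ⟨ε, hε', fun a ha l l' hl => hε a l l' ha hl⟩

end Nerve2N

open Nerve2N in
theorem tNerve2 : StmtNerve2 := by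
  intro e K ka kb na nb Ca Cb hCa hCb hDa hDb hcov m hm hsupp
  classical
  -- realizations
  have hex : ∀ q : (Fin ka → Fin na) × (Fin kb → Fin nb), ∃ x : (Fin e → ℝ) × (Fin K → ℝ),
      m q.1 q.2 ≠ 0 → StrictMono x.2 ∧ (∀ l, x ∈ Ca l (q.1 l)) ∧ ∀ l, x ∈ Cb l (q.2 l) := by
    intro q
    by_cases hq : m q.1 q.2 = 0
    · exact ⟨0, fun h => absurd hq h⟩
    · obtain ⟨y, t, h1, h2, h3⟩ := hsupp q.1 q.2 hq
      exact ⟨(y, t), fun _ => ⟨h1, h2, h3⟩⟩
  choose x hx using hex
  obtain ⟨ε, hε, hgap⟩ := gap (fun q : (Fin ka → Fin na) × (Fin kb → Fin nb) => m q.1 q.2 ≠ 0)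
    (fun q => (x q).2) (fun q hq => (hx q hq).1)
  -- the equivalence
  let Φ : EuclideanSpace ℝ (Fin e ⊕ Fin K) ≃L[ℝ] ((Fin e → ℝ) × (Fin K → ℝ)) :=
    (EuclideanSpace.equiv (Fin e ⊕ Fin K) ℝ).trans
      ((LinearEquiv.sumArrowLequivProdArrow (Fin e) (Fin K) ℝ ℝ).toContinuousLinearEquiv)
  let Bs : Set ((Fin e → ℝ) × (Fin K → ℝ)) := {x | ∀ l l', l < l' → x.2 l + ε ≤ x.2 l'}
  have hBc : IsClosed Bs := by
    have : Bs = ⋂ l : Fin K, ⋂ l' : Fin K, ⋂ _ : l < l', {x | x.2 l + ε ≤ x.2 l'} := by
      ext x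
      simp only [Bs, Set.mem_iInter]
      rfl
    rw [this]
    refine isClosed_iInter fun l => isClosed_iInter fun l' => isClosed_iInter fun _ => ?_
    exact isClosed_le (by fun_prop) (by fun_prop)
  have hBv : Convex ℝ Bs := by
    intro x hx y hy a b ha hb hab l l' hl
    have h1 := hx l l' hl
    have h2 := hy l l' hl
    show (a • x + b • y).2 l + ε ≤ (a • x + b • y).2 l'
    simp only [Prod.snd_add, Prod.smul_snd, Pi.add_apply, Pi.smul_apply, smul_eq_mul]
    have h3 : ε = a * ε + b * ε := by rw [← add_mul, hab, one_mul]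
    nlinarith [mul_le_mul_of_nonneg_left h1 ha, mul_le_mul_of_nonneg_left h2 hb]
  have hBm : ∀ x ∈ Bs, StrictMono x.2 := by
    intro x hx l l' hl
    have := hx l l' hl
    linarith
  let A : Fin ka ⊕ Fin kb → Type := fun i => Fin (Sum.elim (fun _ => na) (fun _ => nb) i)
  let Cc : ∀ i, A i → Set (EuclideanSpace ℝ (Fin e ⊕ Fin K)) := fun i => match i with
    | Sum.inl l => fun a => Φ ⁻¹' (Ca l a)
    | Sum.inr l => fun a => Φ ⁻¹' (Cb l a)
  let m' : (∀ i, A i) → ℝ := fun f => m (fun l => f (Sum.inl l)) (fun l => f (Sum.inr l))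
  have hlin : ∀ (S : Set ((Fin e → ℝ) × (Fin K → ℝ))), Convex ℝ S → Convex ℝ (Φ ⁻¹' S) := fun S hS =>
    hS.linear_preimage Φ.toLinearEquiv.toLinearMap
  have hmain : m' = 0 := by
    refine nerve (Φ ⁻¹' Bs) (hlin Bs hBv) (hBc.preimage Φ.continuous) Cc ?_ ?_ ?_ ?_ m' ?_ ?_
    · rintro (l | l) a
      · exact hlin _ (hCa l a).2
      · exact hlin _ (hCb l a).2
    · rintro (l | l) a
      · exact (hCa l a).1.preimage Φ.continuous
      · exact (hCb l a).1.preimage Φ.continuous
    · rintro (l | l) a a' haa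
      · exact (hDa l a a' haa).preimage _
      · exact (hDb l a a' haa).preimage _
    · intro w hw
      rcases hcov (Φ w).1 (Φ w).2 (hBm _ hw) with ⟨l, a, h⟩ | ⟨l, a, h⟩
      · exact ⟨Sum.inl l, a, h⟩
      · exact ⟨Sum.inr l, a, h⟩
    · intro f hf
      have h1 := hx (fun l => f (Sum.inl l), fun l => f (Sum.inr l)) hf
      have h2 := hgap (fun l => f (Sum.inl l), fun l => f (Sum.inr l)) hf
      refine ⟨Φ.symm (x (fun l => f (Sum.inl l), fun l => f (Sum.inr l))), ?_, ?_⟩
      · show Φ (Φ.symm _) ∈ Bs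
        rw [Φ.apply_symm_apply]
        exact h2
      · rw [Set.mem_iInter]
        rintro (l | l)
        · show Φ (Φ.symm _) ∈ Ca l _
          rw [Φ.apply_symm_apply]
          exact h1.2.1 l
        · show Φ (Φ.symm _) ∈ Cb l _
          rw [Φ.apply_symm_apply]
          exact h1.2.2 l
    · rintro (l | l) f
      · have h1 := hm.1 (fun l => f (Sum.inr l)) l (fun l => f (Sum.inl l))
        rw [← h1]
        refine Finset.sum_congr rfl fun a _ => ?_
        have e1 : (fun l' => Function.update f (Sum.inl l) a (Sum.inl l')) =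
            Function.update (fun l' => f (Sum.inl l')) l a := by
          funext l'
          by_cases hl : l' = l
          · rw [hl, Function.update_self, Function.update_self]
          · rw [Function.update_of_ne hl, Function.update_of_ne (fun h => hl (Sum.inl_injective h))]
        have e2 : (fun l' => Function.update f (Sum.inl l) a (Sum.inr l')) = fun l' => f (Sum.inr l') := by
          funext l'
          rw [Function.update_of_ne (by simp)]
        show m (fun l' => Function.update f (Sum.inl l) a (Sum.inl l'))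
          (fun l' => Function.update f (Sum.inl l) a (Sum.inr l')) = _
        rw [e1, e2]
        rfl
      · have h1 := hm.2 (fun l => f (Sum.inl l)) l (fun l => f (Sum.inr l))
        rw [← h1]
        refine Finset.sum_congr rfl fun a _ => ?_
        have e1 : (fun l' => Function.update f (Sum.inr l) a (Sum.inr l')) =
            Function.update (fun l' => f (Sum.inr l')) l a := by
          funext l'
          by_cases hl : l' = l
          · rw [hl, Function.update_self, Function.update_self]
          · rw [Function.update_of_ne hl, Function.update_of_ne (fun h => hl (Sum.inr_injective h))]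
        have e2 : (fun l' => Function.update f (Sum.inr l) a (Sum.inl l')) = fun l' => f (Sum.inl l') := by
          funext l'
          rw [Function.update_of_ne (by simp)]
        show m (fun l' => Function.update f (Sum.inr l) a (Sum.inl l'))
          (fun l' => Function.update f (Sum.inr l) a (Sum.inr l')) = _
        rw [e1, e2]
        rfl
  funext i j
  exact congrFun hmain (fun q => match q with
    | Sum.inl l => i l
    | Sum.inr l => j l)

end Pool.Agent.Lib.MP_4e7804_co.Tw
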