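import Pool.Agent.Lib.MP_4e7804_co.Tw.Spec

set_option autoImplicit false

open Finset

namespace Pool.Agent.Lib.MP_4e7804_co.Tw

namespace NoCoN

variable {B C e : ℕ}

/-- difference of two values of a side -/
theorem dif_f1 (p : Fin (B + 2)) (y : Fin e → ℝ) (z : ℝ) (θ θ' : Par B C e) (t : ℝ) (r : Fin (B + 2)) :
    (sd1 p (θ + t • (θ' - θ))).f y z r = (sd1 p θ).f y z r + t * ((sd1 p θ').f y z r - (sd1 p θ).f y z r) := by
  refine Fin.succAboveCases (α := fun r => (sd1 p (θ + t • (θ' - θ))).f y z r =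
    (sd1 p θ).f y z r + t * ((sd1 p θ').f y z r - (sd1 p θ).f y z r)) p ?_ (fun i => ?_) r
  · simp only [Side.f, sd1, Fin.insertNth_apply_same]
    ring
  · simp only [Side.f, sd1, Fin.insertNth_apply_succAbove, Side.h, Prod.fst_add, Prod.smul_fst,
      Prod.fst_sub, Pi.add_apply, Pi.smul_apply, Pi.sub_apply, add_dotProduct, smul_dotProduct,
      sub_dotProduct, smul_eq_mul]

theorem dif_f2 (q : Fin (C + 2)) (y : Fin e → ℝ) (z : ℝ) (θ θ' : Par B C e) (t : ℝ) (r : Fin (C + 2)) :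
    (sd2 q (θ + t • (θ' - θ))).f y z r = (sd2 q θ).f y z r + t * ((sd2 q θ').f y z r - (sd2 q θ).f y z r) := by
  refine Fin.succAboveCases (α := fun r => (sd2 q (θ + t • (θ' - θ))).f y z r =
    (sd2 q θ).f y z r + t * ((sd2 q θ').f y z r - (sd2 q θ).f y z r)) q ?_ (fun i => ?_) r
  · simp only [Side.f, sd2, Fin.insertNth_apply_same]
    ring
  · simp only [Side.f, sd2, Fin.insertNth_apply_succAbove, Side.h, Prod.fst_add, Prod.smul_fst,
      Prod.fst_sub, Prod.snd_add, Prod.smul_snd, Prod.snd_sub, Pi.add_apply, Pi.smul_apply,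
      Pi.sub_apply, add_dotProduct, smul_dotProduct, sub_dotProduct, smul_eq_mul]

theorem dif_s1 (p : Fin (B + 2)) (θ θ' : Par B C e) (t : ℝ) (r : Fin (B + 2)) :
    (sd1 p (θ + t • (θ' - θ))).sl r = (sd1 p θ).sl r + t * ((sd1 p θ').sl r - (sd1 p θ).sl r) := by
  refine Fin.succAboveCases (α := fun r => (sd1 p (θ + t • (θ' - θ))).sl r =
    (sd1 p θ).sl r + t * ((sd1 p θ').sl r - (sd1 p θ).sl r)) p ?_ (fun i => ?_) r
  · simp only [Side.sl, sd1, Fin.insertNth_apply_same]
    ring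
  · simp only [Side.sl, sd1, Fin.insertNth_apply_succAbove, Prod.fst_add, Prod.smul_fst,
      Prod.fst_sub, Prod.snd_add, Prod.smul_snd, Prod.snd_sub, Pi.add_apply, Pi.smul_apply,
      Pi.sub_apply, smul_eq_mul]

theorem dif_s2 (q : Fin (C + 2)) (θ θ' : Par B C e) (t : ℝ) (r : Fin (C + 2)) :
    (sd2 q (θ + t • (θ' - θ))).sl r = (sd2 q θ).sl r + t * ((sd2 q θ').sl r - (sd2 q θ).sl r) := by
  refine Fin.succAboveCases (α := fun r => (sd2 q (θ + t • (θ' - θ))).sl r =
    (sd2 q θ).sl r + t * ((sd2 q θ').sl r - (sd2 q θ).sl r)) q ?_ (fun i => ?_) r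
  · simp only [Side.sl, sd2, Fin.insertNth_apply_same]
    ring
  · simp only [Side.sl, sd2, Fin.insertNth_apply_succAbove, Prod.snd_add, Prod.smul_snd, Prod.snd_sub,
      Pi.add_apply, Pi.smul_apply, Pi.sub_apply, smul_eq_mul]

theorem cont_f1 (p : Fin (B + 2)) (y : Fin e → ℝ) (z : ℝ) (r : Fin (B + 2)) :
    Continuous fun θ : Par B C e => (sd1 p θ).f y z r := by
  refine Fin.succAboveCases (α := fun r => Continuous fun θ : Par B C e => (sd1 p θ).f y z r) p ?_
    (fun i => ?_) r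
  · simp only [Side.f, sd1, Fin.insertNth_apply_same]
    exact continuous_const
  · simp only [Side.f, sd1, Fin.insertNth_apply_succAbove, Side.h, dotProduct]
    fun_prop

theorem cont_f2 (q : Fin (C + 2)) (y : Fin e → ℝ) (z : ℝ) (r : Fin (C + 2)) :
    Continuous fun θ : Par B C e => (sd2 q θ).f y z r := by
  refine Fin.succAboveCases (α := fun r => Continuous fun θ : Par B C e => (sd2 q θ).f y z r) q ?_
    (fun i => ?_) r
  · simp only [Side.f, sd2, Fin.insertNth_apply_same]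
    exact continuous_const
  · simp only [Side.f, sd2, Fin.insertNth_apply_succAbove, Side.h, dotProduct]
    fun_prop

theorem cont_s1 (p : Fin (B + 2)) (r : Fin (B + 2)) :
    Continuous fun θ : Par B C e => (sd1 p θ).sl r := by
  refine Fin.succAboveCases (α := fun r => Continuous fun θ : Par B C e => (sd1 p θ).sl r) p ?_
    (fun i => ?_) r
  · simp only [Side.sl, sd1, Fin.insertNth_apply_same]
    exact continuous_const
  · simp only [Side.sl, sd1, Fin.insertNth_apply_succAbove]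
    fun_prop

theorem cont_s2 (q : Fin (C + 2)) (r : Fin (C + 2)) :
    Continuous fun θ : Par B C e => (sd2 q θ).sl r := by
  refine Fin.succAboveCases (α := fun r => Continuous fun θ : Par B C e => (sd2 q θ).sl r) q ?_
    (fun i => ?_) r
  · simp only [Side.sl, sd2, Fin.insertNth_apply_same]
    exact continuous_const
  · simp only [Side.sl, sd2, Fin.insertNth_apply_succAbove]
    fun_prop

/-- the system -/
noncomputable def sysM (p : Fin (B + 2)) (q : Fin (C + 2)) (s : Pt e) (i r : Fin (B + 2)) (j r' : Fin (C + 2))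
    (θ : Par B C e) (x : ℝ × ℝ) : Bool → ℝ := fun b =>
  if b then ((sd1 p θ).f s.1 s.2.1 i - (sd1 p θ).f s.1 s.2.1 r) * x.1 +
    ((sd1 p θ).sl i - (sd1 p θ).sl r) * x.2
  else ((sd2 q θ).f s.1 s.2.2 j - (sd2 q θ).f s.1 s.2.2 r') * x.1 +
    ((sd2 q θ).sl j - (sd2 q θ).sl r') * x.2

theorem inj_f (p : Fin (B + 2)) (y : Fin e → ℝ) (hy : y ≠ 0) (z : ℝ) (i r : Fin (B + 2)) (h : i ≠ r)
    (S : Side B e) (hp : S.p = p) (hS : S.P = fun x : Fin (B + 1) => ((z + ((x : ℕ) : ℝ) + 1) / (y ⬝ᵥ y)) • y) :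
    S.f y z i ≠ S.f y z r := by
  have hyy : y ⬝ᵥ y ≠ 0 := by
    intro h0
    exact hy (dotProduct_self_eq_zero.1 h0)
  have hv : ∀ x, S.h y x = z + ((x : ℕ) : ℝ) + 1 := by
    intro x
    unfold Side.h
    rw [hS, smul_dotProduct, smul_eq_mul, div_mul_cancel₀ _ hyy]
  have h1 : S.f y z S.p = z := by
    unfold Side.f
    exact Fin.insertNth_apply_same (α := fun _ => ℝ) S.p _ _
  have h2 : ∀ x, S.f y z (S.p.succAbove x) = z + ((x : ℕ) : ℝ) + 1 := by
    intro x
    unfold Side.f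
    rw [Fin.insertNth_apply_succAbove (α := fun _ => ℝ), hv]
  have hnn : ∀ x : Fin (B + 1), (0 : ℝ) ≤ ((x : ℕ) : ℝ) := fun x => Nat.cast_nonneg _
  by_cases hi : i = S.p
  · have hr : r ≠ S.p := fun h' => h (hi.trans h'.symm)
    obtain ⟨x, rfl⟩ := Fin.exists_succAbove_eq hr
    rw [hi, h1, h2]
    have := hnn x
    intro h'
    linarith
  · obtain ⟨x, rfl⟩ := Fin.exists_succAbove_eq hi
    by_cases hr : r = S.p
    · rw [hr, h1, h2]
      have := hnn x
      intro h'
      linarith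
    · obtain ⟨x', rfl⟩ := Fin.exists_succAbove_eq hr
      rw [h2, h2]
      intro h'
      apply h
      have h3 : ((x : ℕ) : ℝ) = ((x' : ℕ) : ℝ) := by linarith
      have h4 : x = x' := Fin.ext (by exact_mod_cast h3)
      rw [h4]

theorem inj_sl (S : Side C e) (j r : Fin (C + 2)) (h : j ≠ r) (hS : S.α = fun x : Fin (C + 1) => ((x : ℕ) : ℝ) + 1) :
    S.sl j ≠ S.sl r := by
  have h1 : S.sl S.p = 0 := by
    unfold Side.sl
    exact Fin.insertNth_apply_same (α := fun _ => ℝ) S.p _ _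
  have h2 : ∀ x, S.sl (S.p.succAbove x) = ((x : ℕ) : ℝ) + 1 := by
    intro x
    unfold Side.sl
    rw [Fin.insertNth_apply_succAbove (α := fun _ => ℝ), hS]
  have hnn : ∀ x : Fin (C + 1), (0 : ℝ) ≤ ((x : ℕ) : ℝ) := fun x => Nat.cast_nonneg _
  by_cases hi : j = S.p
  · have hr : r ≠ S.p := fun h' => h (hi.trans h'.symm)
    obtain ⟨x, rfl⟩ := Fin.exists_succAbove_eq hr
    rw [hi, h1, h2]
    have := hnn x
    intro h'
    linarith
  · obtain ⟨x, rfl⟩ := Fin.exists_succAbove_eq hi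
    by_cases hr : r = S.p
    · rw [hr, h1, h2]
      have := hnn x
      intro h'
      linarith
    · obtain ⟨x', rfl⟩ := Fin.exists_succAbove_eq hr
      rw [h2, h2]
      intro h'
      apply h
      have h3 : ((x : ℕ) : ℝ) = ((x' : ℕ) : ℝ) := by linarith
      have h4 : x = x' := Fin.ext (by exact_mod_cast h3)
      rw [h4]

theorem one (hInjD : StmtInjD) (p : Fin (B + 2)) (q : Fin (C + 2)) (s : Pt e) (hs : s.1 ≠ 0)
    (i r : Fin (B + 2)) (j r' : Fin (C + 2)) (hir : i ≠ r) (hjr : j ≠ r') :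
    ∃ D : Set (Par B C e), IsOpen D ∧ Dense D ∧ ∀ θ ∈ D, ∀ x, sysM p q s i r j r' θ x = 0 → x = 0 := by
  refine hInjD (Par B C e) (ℝ × ℝ) Bool inferInstance inferInstance inferInstance inferInstance
    inferInstance inferInstance (sysM p q s i r j r') ?_ ?_ ?_ ?_
  · intro θ
    refine ⟨fun x x' => ?_, fun c x => ?_⟩
    · funext b
      cases b
      · simp only [sysM, Prod.fst_add, Prod.snd_add, Pi.add_apply, Bool.false_eq_true, if_false]
        ring
      · simp only [sysM, Prod.fst_add, Prod.snd_add, Pi.add_apply, if_true]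
        ring
    · funext b
      cases b
      · simp only [sysM, Prod.smul_fst, Prod.smul_snd, Pi.smul_apply, Bool.false_eq_true, if_false,
          smul_eq_mul]
        ring
      · simp only [sysM, Prod.smul_fst, Prod.smul_snd, Pi.smul_apply, if_true, smul_eq_mul]
        ring
  · intro x
    refine continuous_pi fun b => ?_
    cases b
    · simp only [sysM, Bool.false_eq_true, if_false]
      exact (((cont_f2 q _ _ j).sub (cont_f2 q _ _ r')).mul continuous_const).add
        (((cont_s2 q j).sub (cont_s2 q r')).mul continuous_const)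
    · simp only [sysM, if_true]
      exact (((cont_f1 p _ _ i).sub (cont_f1 p _ _ r)).mul continuous_const).add
        (((cont_s1 p i).sub (cont_s1 p r)).mul continuous_const)
  · intro θ θ' x t
    funext b
    cases b
    · simp only [sysM, Bool.false_eq_true, if_false, Pi.add_apply, Pi.smul_apply, Pi.sub_apply,
        smul_eq_mul, dif_f2, dif_s2]
      ring
    · simp only [sysM, if_true, Pi.add_apply, Pi.smul_apply, Pi.sub_apply, smul_eq_mul, dif_f1, dif_s1]
      ring
  · let θ₀ : Par B C e := ((fun x => ((s.2.1 + ((x : ℕ) : ℝ) + 1) / (s.1 ⬝ᵥ s.1)) • s.1, fun _ => 0),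
      (fun _ => 0, fun x => ((x : ℕ) : ℝ) + 1))
    refine ⟨θ₀, fun x hx => ?_⟩
    have h1 := congrFun hx true
    have h2 := congrFun hx false
    simp only [sysM, if_true, Pi.zero_apply, Bool.false_eq_true, if_false] at h1 h2
    have h3 := inj_f p s.1 hs s.2.1 i r hir (sd1 p θ₀) rfl rfl
    have h4 := inj_sl (sd2 q θ₀) j r' hjr rfl
    have h5 : ∀ r, (sd1 p θ₀).sl r = 0 := by
      intro r
      refine Fin.succAboveCases (α := fun r => (sd1 p θ₀).sl r = 0) p ?_ (fun i => ?_) r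
      · simp only [Side.sl, sd1, Fin.insertNth_apply_same]
      · simp only [Side.sl, sd1, Fin.insertNth_apply_succAbove, θ₀]
    rw [h5, h5, sub_self, zero_mul, add_zero] at h1
    have h6 : x.1 = 0 := by
      rcases mul_eq_zero.1 h1 with h | h
      · exact absurd (sub_eq_zero.1 h) h3
      · exact h
    rw [h6, mul_zero, zero_add] at h2
    have h7 : x.2 = 0 := by
      rcases mul_eq_zero.1 h2 with h | h
      · exact absurd (sub_eq_zero.1 h) h4
      · exact h
    exact Prod.ext h6 h7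

end NoCoN

open NoCoN in
theorem tNoCo (hInjD : StmtInjD) : StmtNoCo := by
  intro B C e p q s hs
  classical
  have h1 : ∀ w : (Fin (B + 2) × Fin (B + 2)) × (Fin (C + 2) × Fin (C + 2)),
      ∃ D : Set (Par B C e), IsOpen D ∧ Dense D ∧ ∀ θ ∈ D, w.1.1 ≠ w.1.2 → w.2.1 ≠ w.2.2 →
        ∀ x, sysM p q s w.1.1 w.1.2 w.2.1 w.2.2 θ x = 0 → x = 0 := by
    intro w
    by_cases hw : w.1.1 ≠ w.1.2 ∧ w.2.1 ≠ w.2.2
    · obtain ⟨D, hD1, hD2, hD3⟩ := one hInjD p q s hs w.1.1 w.1.2 w.2.1 w.2.2 hw.1 hw.2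
      exact ⟨D, hD1, hD2, fun θ hθ _ _ => hD3 θ hθ⟩
    · exact ⟨Set.univ, isOpen_univ, dense_univ, fun θ _ h h' => absurd ⟨h, h'⟩ hw⟩
  choose D hD1 hD2 hD3 using h1
  refine ⟨⋂ w, D w, isOpen_iInter_of_finite hD1, dense_iInter_of_isOpen hD1 hD2, ?_⟩
  rintro θ hθ t ⟨⟨i, r, hir, hi, hr⟩, ⟨j, r', hjr, hj, hr'⟩⟩
  rw [Set.mem_iInter] at hθ
  have h2 := hD3 ((i, r), (j, r')) θ (hθ _) hir hjr (1, t) (by
    funext b
    cases b
    · simp only [sysM, Bool.false_eq_true, if_false, Pi.zero_apply]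
      have e1 := hj r'
      have e2 := hr' j
      linarith
    · simp only [sysM, if_true, Pi.zero_apply]
      have e1 := hi r
      have e2 := hr i
      linarith)
  have h3 := congrArg Prod.fst h2
  exact one_ne_zero h3

end Pool.Agent.Lib.MP_4e7804_co.Tw
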