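import Pool.Agent.Lib.MP_4e7804_co.Tw.Spec

/-! MP_4e7804_co, Tw/PatA: ties at all points. -/

set_option autoImplicit false

namespace Pool.Agent.Lib.MP_4e7804_co.Tw

namespace PatAN

theorem LM_le {n : ℕ} (f α : Fin n → ℝ) (hα : StrictAnti α) (t t' : ℝ) (ht : t < t') (i i' : Fin n)
    (h : LM f α t i) (h' : LM f α t' i') : i ≤ i' := by
  by_contra hcon
  push Not at hcon
  have h1 := h i'
  have h2 := h' i
  have h3 := hα hcon
  nlinarith

theorem exLM {n : ℕ} (f α : Fin (n + 1) → ℝ) (t : ℝ) : ∃ i, LM f α t i := by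
  obtain ⟨i, hi⟩ := Finite.exists_min (fun r : Fin (n + 1) => f r + α r * t)
  exact ⟨i, hi⟩

/-- a minimal label which is not the only one -/
theorem two {n : ℕ} (f α : Fin (n + 1) → ℝ) (t : ℝ) (i : Fin (n + 1)) (hi : LM f α t i)
    (hn : ¬ SM f α t i) : ∃ j k, j < k ∧ LM f α t j ∧ LM f α t k := by
  unfold SM at hn
  push Not at hn
  obtain ⟨r, hr, hle⟩ := hn
  have hr' : LM f α t r := fun s => hle.trans (hi s)
  rcases lt_or_gt_of_ne hr with h | h
  · exact ⟨r, i, h, hr', hi⟩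
  · exact ⟨i, r, h, hi, hr'⟩

end PatAN

open PatAN in
theorem tPatA : StmtPatA := by
  intro B e K S hα y t ht hno
  have hex : ∀ l, ∃ i i' : Fin (B + 1), i < i' ∧ LM (S.h y) S.α (t l) i ∧
      LM (S.h y) S.α (t l) i' := by
    intro l
    obtain ⟨i, hi⟩ := exLM (S.h y) S.α (t l)
    exact two _ _ _ i hi (hno l i)
  choose i i' h1 h2 h3 using hex
  refine ⟨i, i', ⟨h1, fun l l' hll => LM_le _ _ hα _ _ (ht hll) _ _ (h3 l) (h2 l')⟩, ?_⟩
  intro l
  exact le_antisymm (h2 l (i' l)) (h3 l (i l))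

end Pool.Agent.Lib.MP_4e7804_co.Tw
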