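import Pool.Agent.Lib.MP_4e7804_co.Tw.Spec

set_option autoImplicit false

open Finset

namespace Pool.Agent.Lib.MP_4e7804_co.Tw

namespace RAN

variable {k n : ℕ}

theorem ins_same (p : Fin (n + 1)) (r : Fin (k + 1)) (e : Fin k → Fin n) : ins p r e r = p := by
  unfold ins
  exact Fin.insertNth_apply_same (α := fun _ => Fin (n + 1)) r p _

theorem ins_sa (p : Fin (n + 1)) (r : Fin (k + 1)) (e : Fin k → Fin n) (l : Fin k) :
    ins p r e (r.succAbove l) = p.succAbove (e l) := by
  unfold ins
  exact Fin.insertNth_apply_succAbove (α := fun _ => Fin (n + 1)) r p _ l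

theorem ins_update (p : Fin (n + 1)) (r : Fin (k + 1)) (e : Fin k → Fin n) (l : Fin k) (x : Fin n) :
    ins p r (Function.update e l x) = Function.update (ins p r e) (r.succAbove l) (p.succAbove x) := by
  funext s
  by_cases hs : s = r
  · rw [hs, ins_same, Function.update_of_ne (Fin.succAbove_ne r l).symm, ins_same]
  · obtain ⟨l', rfl⟩ := Fin.exists_succAbove_eq hs
    rw [ins_sa]
    by_cases hl : l' = l
    · rw [hl, Function.update_self, Function.update_self]
    · rw [Function.update_of_ne hl, Function.update_of_ne (fun h => hl (Fin.succAbove_right_injective h)),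
        ins_sa]

theorem sa_val (a : Fin (k + 1)) (l : Fin k) :
    ((a.succAbove l : Fin (k + 1)) : ℕ) = if (l : ℕ) < a then (l : ℕ) else l + 1 := by
  unfold Fin.succAbove
  by_cases h : (l : ℕ) < a
  · have h' : l.castSucc < a := by
      rw [Fin.lt_def]
      exact h
    rw [if_pos h', if_pos h]
    rfl
  · have h' : ¬ l.castSucc < a := by
      rw [Fin.lt_def]
      exact h
    rw [if_neg h', if_neg h]
    rfl

/-- the tuple with two labels `p` -/
theorem tup_ne (p : Fin (n + 1)) (r : Fin (k + 1)) (e : Fin k → Fin n) (l : Fin k) (x : Fin (k + 1))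
    (h1 : x ≠ r) (h2 : x ≠ r.succAbove l) :
    Function.update (ins p r e) (r.succAbove l) p x ≠ p := by
  rw [Function.update_of_ne h2]
  obtain ⟨l', rfl⟩ := Fin.exists_succAbove_eq h1
  rw [ins_sa]
  exact Fin.succAbove_ne p _

theorem tup_zero (p : Fin (n + 1)) (m : (Fin (k + 1) → Fin (n + 1)) → ℝ) (hm : MSupp m)
    (r : Fin (k + 1)) (e : Fin k → Fin n) (l : Fin k) (h1 : r ≠ l.castSucc) (h2 : r ≠ l.succ) :
    m (Function.update (ins p r e) (r.succAbove l) p) = 0 := by
  by_contra hne
  have hmono := hm _ hne
  have e1 : Function.update (ins p r e) (r.succAbove l) p r = p := by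
    rw [Function.update_of_ne (Fin.succAbove_ne r l).symm, ins_same]
  have e2 : Function.update (ins p r e) (r.succAbove l) p (r.succAbove l) = p := Function.update_self _ _ _
  have v1 : (r : ℕ) ≠ l := fun h => h1 (Fin.ext h)
  have v2 : (r : ℕ) ≠ l + 1 := fun h => h2 (Fin.ext h)
  have vs := sa_val r l
  have hl := l.2
  have hr := r.2
  rcases Nat.lt_or_ge (r : ℕ) l with h | h
  · -- between
    rw [if_neg (by omega)] at vs
    let x : Fin (k + 1) := ⟨r + 1, by omega⟩
    have hx1 : r ≤ x := by rw [Fin.le_def]; show (r : ℕ) ≤ r + 1; omega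
    have hx2 : x ≤ r.succAbove l := by rw [Fin.le_def, vs]; show (r : ℕ) + 1 ≤ _; omega
    have a1 := hmono hx1
    have a2 := hmono hx2
    rw [e1] at a1
    rw [e2] at a2
    refine tup_ne p r e l x ?_ ?_ (le_antisymm a2 a1)
    · intro h'
      have : (r : ℕ) + 1 = r := congrArg Fin.val h'
      omega
    · intro h'
      have : (r : ℕ) + 1 = (r.succAbove l : Fin (k + 1)) := congrArg Fin.val h'
      omega
  · rw [if_pos (by omega)] at vs
    let x : Fin (k + 1) := ⟨r - 1, by omega⟩
    have hx1 : x ≤ r := by rw [Fin.le_def]; show (r : ℕ) - 1 ≤ r; omega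
    have hx2 : r.succAbove l ≤ x := by rw [Fin.le_def, vs]; show _ ≤ (r : ℕ) - 1; omega
    have a1 := hmono hx1
    have a2 := hmono hx2
    rw [e1] at a1
    rw [e2] at a2
    refine tup_ne p r e l x ?_ ?_ (le_antisymm a1 a2)
    · intro h'
      have : (r : ℕ) - 1 = r := congrArg Fin.val h'
      omega
    · intro h'
      have : (r : ℕ) - 1 = (r.succAbove l : Fin (k + 1)) := congrArg Fin.val h'
      omega

theorem tup_eq (p : Fin (n + 1)) (e : Fin k → Fin n) (l : Fin k) :
    Function.update (ins p l.castSucc e) (l.castSucc.succAbove l) p =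
      Function.update (ins p l.succ e) (l.succ.succAbove l) p := by
  have s1 : l.castSucc.succAbove l = l.succ := by
    apply Fin.ext
    rw [sa_val]
    simp
  have s2 : l.succ.succAbove l = l.castSucc := by
    apply Fin.ext
    rw [sa_val]
    simp
  rw [s1, s2]
  funext x
  by_cases hx : x = l.castSucc
  · rw [hx, Function.update_self, Function.update_of_ne (by
      intro h
      have := congrArg Fin.val h
      simp at this), ins_same]
  · by_cases hx' : x = l.succ
    · rw [hx', Function.update_self, Function.update_of_ne (by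
        intro h
        have := congrArg Fin.val h
        simp at this), ins_same]
    · rw [Function.update_of_ne hx', Function.update_of_ne hx]
      obtain ⟨l', rfl⟩ := Fin.exists_succAbove_eq hx
      have hl : l' ≠ l := by
        rintro rfl
        exact hx' s1
      have hsa : l.castSucc.succAbove l' = l.succ.succAbove l' := by
        apply Fin.ext
        rw [sa_val, sa_val]
        have : (l' : ℕ) ≠ l := fun h => hl (Fin.ext h)
        simp only [Fin.val_castSucc, Fin.val_succ]
        split_ifs <;> omega
      rw [ins_sa, hsa, ins_sa]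

theorem zmarg (p : Fin (n + 1)) (m : (Fin (k + 1) → Fin (n + 1)) → ℝ) (hz : ZMarg m) (hm : MSupp m) :
    ZMarg (R1 p m) := by
  intro l e
  unfold R1
  rw [sum_comm]
  have h1 : ∀ r : Fin (k + 1), ∑ x, (-1 : ℝ) ^ (r : ℕ) * m (ins p r (Function.update e l x)) =
      -((-1) ^ (r : ℕ) * m (Function.update (ins p r e) (r.succAbove l) p)) := by
    intro r
    have h2 := hz (r.succAbove l) (ins p r e)
    rw [Fin.sum_univ_succAbove _ p] at h2
    rw [← mul_sum]
    simp only [ins_update]
    have h3 : ∑ x, m (Function.update (ins p r e) (r.succAbove l) (p.succAbove x)) =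
        - m (Function.update (ins p r e) (r.succAbove l) p) := by linarith
    rw [h3]
    ring
  rw [sum_congr rfl fun r _ => h1 r]
  rw [Fintype.sum_eq_add l.castSucc l.succ]
  · rw [tup_eq]
    simp only [Fin.val_castSucc, Fin.val_succ, pow_succ]
    ring
  · intro h
    have := congrArg Fin.val h
    simp at this
  · intro r hr
    rw [tup_zero p m hm r e l hr.1 hr.2]
    ring

theorem mono_of (p : Fin (n + 1)) (r : Fin (k + 1)) (e : Fin k → Fin n) (h : Monotone (ins p r e)) :
    Monotone e := by
  intro l l' hl
  have h1 := h ((Fin.strictMono_succAbove r).monotone hl)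
  rw [ins_sa, ins_sa] at h1
  exact (Fin.strictMono_succAbove p).le_iff_le.1 h1

theorem msupp (p : Fin (n + 1)) (m : (Fin (k + 1) → Fin (n + 1)) → ℝ) (hm : MSupp m) :
    MSupp (R1 p m) := by
  intro e he
  unfold R1 at he
  obtain ⟨r, -, hr⟩ := Finset.exists_ne_zero_of_sum_ne_zero he
  exact mono_of p r e (hm _ (right_ne_zero_of_mul hr))

theorem ins_zero (p : Fin (n + 1)) (m : (Fin (k + 1) → Fin (n + 1)) → ℝ) (hm : MSupp m)
    (r r' : Fin (k + 1)) (e : Fin k → Fin n) (h : Monotone (ins p r e)) (hr : r' ≠ r) :
    m (ins p r' e) = 0 := by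
  by_contra hne
  have h' := hm _ hne
  have hrl := r.2
  have hrl' := r'.2
  have hv : (r' : ℕ) ≠ r := fun h => hr (Fin.ext h)
  rcases Nat.lt_or_ge (r' : ℕ) r with hlt | hge
  · let l : Fin k := ⟨r', by omega⟩
    have v1 := sa_val r' l
    have v2 := sa_val r l
    have hlv : (l : ℕ) = r' := rfl
    rw [if_neg (by omega)] at v1
    rw [if_pos (by omega)] at v2
    have a1 : r' ≤ r'.succAbove l := by rw [Fin.le_def, v1]; omega
    have a2 : r.succAbove l ≤ r := by rw [Fin.le_def, v2]; omega
    have b1 := h' a1
    have b2 := h a2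
    rw [ins_sa, ins_same] at b1 b2
    exact Fin.succAbove_ne p (e l) (le_antisymm b2 b1)
  · let l : Fin k := ⟨r' - 1, by omega⟩
    have v1 := sa_val r' l
    have v2 := sa_val r l
    have hlv : (l : ℕ) = r' - 1 := rfl
    rw [if_pos (by omega)] at v1
    rw [if_neg (by omega)] at v2
    have a1 : r'.succAbove l ≤ r' := by rw [Fin.le_def, v1]; omega
    have a2 : r ≤ r.succAbove l := by rw [Fin.le_def, v2]; omega
    have b1 := h' a1
    have b2 := h a2
    rw [ins_sa, ins_same] at b1 b2
    exact Fin.succAbove_ne p (e l) (le_antisymm b1 b2)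

/-- a tuple without `p` -/
theorem exists_e {K : ℕ} (p : Fin (n + 1)) (i : Fin K → Fin (n + 1)) (h : ∀ l, i l ≠ p) :
    ∃ e : Fin K → Fin n, i = fun l => p.succAbove (e l) := by
  have h1 := fun l => Fin.exists_succAbove_eq (h l)
  choose e he using h1
  exact ⟨e, funext fun l => (he l).symm⟩

theorem zero_of (p : Fin (n + 1)) (m : (Fin (k + 1) → Fin (n + 1)) → ℝ) (hz : ZMarg m) (hm : MSupp m)
    (h0 : R1 p m = 0) : ∀ (N : ℕ) (i : Fin (k + 1) → Fin (n + 1)),
      (univ.filter fun l => i l = p).card = N + 1 → m i = 0 := by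
  intro N
  induction N with
  | zero =>
    intro i hi
    by_contra hne
    have hmono := hm i hne
    obtain ⟨r, hr⟩ := card_eq_one.1 hi
    have hrp : i r = p := by
      have : r ∈ univ.filter fun l => i l = p := by rw [hr]; exact mem_singleton_self r
      exact (mem_filter.1 this).2
    have hoth : ∀ l, l ≠ r → i l ≠ p := by
      intro l hl h
      apply hl
      have : l ∈ univ.filter fun l => i l = p := mem_filter.2 ⟨mem_univ _, h⟩
      rw [hr] at this
      exact mem_singleton.1 this
    obtain ⟨e, he⟩ := exists_e p (fun l => i (r.succAbove l)) (fun l => hoth _ (Fin.succAbove_ne r l))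
    have hins : ins p r e = i := by
      funext s
      by_cases hs : s = r
      · rw [hs, ins_same, hrp]
      · obtain ⟨l', rfl⟩ := Fin.exists_succAbove_eq hs
        rw [ins_sa]
        exact (congrFun he l').symm
    have h1 := congrFun h0 e
    unfold R1 at h1
    rw [Fintype.sum_eq_single r] at h1
    · rw [hins] at h1
      rcases mul_eq_zero.1 h1 with h2 | h2
      · exact pow_ne_zero _ (by norm_num) h2
      · exact hne h2
    · intro r' hr'
      rw [ins_zero p m hm r r' e (by rw [hins]; exact hmono) hr', mul_zero]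
  | succ N ih =>
    intro i hi
    by_contra hne
    obtain ⟨l, hl⟩ := card_pos.1 (by rw [hi]; omega : 0 < (univ.filter fun l => i l = p).card)
    have hlp : i l = p := (mem_filter.1 hl).2
    have h1 := hz l i
    rw [Fin.sum_univ_succAbove _ p] at h1
    have h2 : Function.update i l p = i := by rw [← hlp, Function.update_eq_self]
    rw [h2] at h1
    have h3 : ∀ x : Fin n, m (Function.update i l (p.succAbove x)) = 0 := by
      intro x
      apply ih
      have h4 : (univ.filter fun l' => Function.update i l (p.succAbove x) l' = p) =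
          (univ.filter fun l => i l = p).erase l := by
        ext l'
        simp only [mem_filter, mem_univ, true_and, mem_erase]
        by_cases hll : l' = l
        · rw [hll, Function.update_self]
          exact ⟨fun h => absurd h (Fin.succAbove_ne p x), fun h => absurd rfl h.1⟩
        · rw [Function.update_of_ne hll]
          exact ⟨fun h => ⟨hll, h⟩, fun h => h.2⟩
      rw [h4, card_erase_of_mem hl, hi]
      omega
    rw [sum_eq_zero fun x _ => h3 x, add_zero] at h1
    exact hne h1

end RAN

open RAN in
theorem tRA : StmtRA := by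
  intro k n p m hz hm
  classical
  refine ⟨zmarg p m hz hm, msupp p m hm, fun h0 => ?_⟩
  have h1 : ∀ i, (∃ l, i l = p) → m i = 0 := by
    rintro i ⟨l, hl⟩
    have h2 : 0 < (univ.filter fun l => i l = p).card :=
      card_pos.2 ⟨l, mem_filter.2 ⟨mem_univ _, hl⟩⟩
    exact zero_of p m hz hm h0 ((univ.filter fun l => i l = p).card - 1) i (by omega)
  refine ⟨h1, ?_, ?_, ?_⟩
  · intro l e
    unfold R0
    have h2 := hz l (fun l => p.succAbove (e l))
    rw [Fin.sum_univ_succAbove _ p, h1 _ ⟨l, Function.update_self _ _ _⟩, zero_add] at h2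
    rw [← h2]
    refine sum_congr rfl fun x _ => ?_
    congr 1
    funext l'
    by_cases hl : l' = l
    · rw [hl, Function.update_self, Function.update_self]
    · rw [Function.update_of_ne hl, Function.update_of_ne hl]
  · intro e he l l' hl
    have h2 := hm _ he hl
    exact (Fin.strictMono_succAbove p).le_iff_le.1 h2
  · intro h2
    funext i
    by_cases hi : ∃ l, i l = p
    · exact h1 i hi
    · push Not at hi
      obtain ⟨e, rfl⟩ := exists_e p i hi
      exact congrFun h2 e

end Pool.Agent.Lib.MP_4e7804_co.Tw
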