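import Pool.Agent.Lib.MP_4e7804_co.Tw.Spec

set_option autoImplicit false

open Finset

namespace Pool.Agent.Lib.MP_4e7804_co.Tw

namespace RRN

variable {k n n' : ℕ}

theorem R1_sum {ι : Type} [Fintype ι] (p : Fin (n + 1)) (F : ι → (Fin (k + 1) → Fin (n + 1)) → ℝ)
    (e : Fin k → Fin n) : ∑ x, R1 p (F x) e = R1 p (fun i => ∑ x, F x i) e := by
  unfold R1
  rw [sum_comm]
  refine sum_congr rfl fun r _ => ?_
  rw [mul_sum]

theorem R1_zero (p : Fin (n + 1)) (e : Fin k → Fin n) (f : (Fin (k + 1) → Fin (n + 1)) → ℝ)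
    (h : ∀ i, f i = 0) : R1 p f e = 0 := by
  unfold R1
  exact sum_eq_zero fun r _ => by rw [h, mul_zero]

theorem R1_ne (p : Fin (n + 1)) (f : (Fin (k + 1) → Fin (n + 1)) → ℝ) (a : Fin k → Fin n)
    (h : R1 p f a ≠ 0) : ∃ r, f (ins p r a) ≠ 0 := by
  unfold R1 at h
  obtain ⟨r, -, hr⟩ := Finset.exists_ne_zero_of_sum_ne_zero h
  exact ⟨r, right_ne_zero_of_mul hr⟩

theorem comm (p : Fin (n + 1)) (q : Fin (n' + 1))
    (m : (Fin (k + 1) → Fin (n + 1)) → (Fin (k + 1) → Fin (n' + 1)) → ℝ) (e : Fin k → Fin n)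
    (e' : Fin k → Fin n') :
    R1 p (fun i => R1 q (m i) e') e = m11 p q m e e' := by
  unfold m11 R1
  simp only [mul_sum]
  rw [sum_comm]
  exact sum_congr rfl fun r _ => sum_congr rfl fun r' _ => by ring

end RRN

open RRN in
theorem tRR (hRA : StmtRA) : StmtRR := by
  intro k n n' p q m hz hm
  -- slices
  have sj := fun j => hRA k n p (fun i => m i j) (hz.1 j) (fun i h => (hm i j h).1)
  have si := fun i => hRA k n' q (m i) (hz.2 i) (fun j h => (hm i j h).2)
  set A : (Fin k → Fin n) → (Fin (k + 1) → Fin (n' + 1)) → ℝ := fun e j => R1 p (fun i => m i j) e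
    with hA
  set A' : (Fin (k + 1) → Fin (n + 1)) → (Fin k → Fin n') → ℝ := fun i e' => R1 q (m i) e' with hA'
  have zA : ∀ e, ZMarg (A e) := by
    intro e l j
    show ∑ x, R1 p (fun i => m i (Function.update j l x)) e = 0
    rw [R1_sum]
    exact R1_zero p e _ fun i => hz.2 i l j
  have mA : ∀ e, MSupp (A e) := by
    intro e j h
    obtain ⟨r, hr⟩ := R1_ne p _ e h
    exact (hm _ _ hr).2
  have zA' : ∀ e', ZMarg fun i => A' i e' := by
    intro e' l i
    show ∑ x, R1 q (fun j => m (Function.update i l x) j) e' = 0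
    rw [R1_sum]
    exact R1_zero q e' _ fun j => hz.1 j l i
  have mA' : ∀ e', MSupp fun i => A' i e' := by
    intro e' i h
    obtain ⟨r, hr⟩ := R1_ne q _ e' h
    exact (hm _ _ hr).1
  have sA := fun e => hRA k n' q (A e) (zA e) (mA e)
  have sA' := fun e' => hRA k n p (fun i => A' i e') (zA' e') (mA' e')
  have h11 : ∀ e, m11 p q m e = R1 q (A e) := fun e => rfl
  have h10 : ∀ e, m10 p q m e = R0 q (A e) := fun e => rfl
  have h01 : ∀ e, m01 p q m e = R1 q (m fun l => p.succAbove (e l)) := fun e => rfl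
  have h00 : ∀ e, m00 p q m e = R0 q (m fun l => p.succAbove (e l)) := fun e => rfl
  refine ⟨⟨⟨fun e' => ?_, fun e => ?_⟩, ?_⟩, fun e11 => ⟨⟨⟨fun e' => ?_, fun e => ?_⟩, ?_⟩,
    ⟨⟨fun e' => ?_, fun e => ?_⟩, ?_⟩⟩, fun e11 e01 e10 => ⟨⟨fun e' => ?_, fun e => ?_⟩, ?_⟩,
    fun e11 e01 e10 e00 => ?_⟩
  -- m11
  · intro l e
    show ∑ x, R1 q (A (Function.update e l x)) e' = 0
    rw [R1_sum]
    exact R1_zero q e' _ fun j => (sj j).1 l e
  · exact (sA e).1
  · intro e e' h
    refine ⟨?_, (sA e).2.1 e' h⟩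
    obtain ⟨r, hr⟩ := R1_ne q _ e' h
    exact (sj _).2.1 e hr
  -- m01
  · have h1 : R1 p (fun i => A' i e') = 0 := by
      funext e
      rw [comm, e11]
      rfl
    exact ((sA' e').2.2 h1).2.1
  · exact (si _).1
  · intro e e' h
    refine ⟨?_, (si _).2.1 e' h⟩
    have h1 : R1 p (fun i => A' i e') = 0 := by
      funext e
      rw [comm, e11]
      rfl
    exact ((sA' e').2.2 h1).2.2.1 e h
  -- m10
  · intro l e
    exact (sj _).1 l e
  · have h1 : R1 q (A e) = 0 := by
      rw [← h11, e11]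
      rfl
    exact ((sA e).2.2 h1).2.1
  · intro e e' h
    refine ⟨(sj _).2.1 e h, ?_⟩
    have h1 : R1 q (A e) = 0 := by
      rw [← h11, e11]
      rfl
    exact ((sA e).2.2 h1).2.2.1 e' h
  -- m00
  · have hAz : ∀ e, A e = 0 := by
      intro e
      have h1 : R1 q (A e) = 0 := by
        rw [← h11, e11]
        rfl
      refine ((sA e).2.2 h1).2.2.2 ?_
      rw [← h10, e10]
      rfl
    have h2 : R1 p (fun i => m i fun l => q.succAbove (e' l)) = 0 := by
      funext e
      exact congrFun (hAz e) _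
    exact ((sj _).2.2 h2).2.1
  · have h1 : R1 q (m fun l => p.succAbove (e l)) = 0 := by
      rw [← h01, e01]
      rfl
    exact ((si _).2.2 h1).2.1
  · intro e e' h
    have h2 := hm _ _ h
    exact ⟨fun l l' hl => (Fin.strictMono_succAbove p).le_iff_le.1 (h2.1 hl),
      fun l l' hl => (Fin.strictMono_succAbove q).le_iff_le.1 (h2.2 hl)⟩
  -- all
  · have hAz : ∀ e, A e = 0 := by
      intro e
      have h1 : R1 q (A e) = 0 := by
        rw [← h11, e11]
        rfl
      refine ((sA e).2.2 h1).2.2.2 ?_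
      rw [← h10, e10]
      rfl
    have hmz : ∀ e : Fin (k + 1) → Fin n, m (fun l => p.succAbove (e l)) = 0 := by
      intro e
      have h1 : R1 q (m fun l => p.succAbove (e l)) = 0 := by
        rw [← h01, e01]
        rfl
      refine ((si _).2.2 h1).2.2.2 ?_
      rw [← h00, e00]
      rfl
    funext i j
    have h2 : R1 p (fun i => m i j) = 0 := by
      funext e
      exact congrFun (hAz e) _
    have h3 : R0 p (fun i => m i j) = 0 := by
      funext e
      exact congrFun (hmz e) j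
    exact congrFun (((sj j).2.2 h2).2.2.2 h3) i

end Pool.Agent.Lib.MP_4e7804_co.Tw
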