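import Pool.Agent.Lib.MP_4e7804_co.Tw.Sys

set_option autoImplicit false

open Finset

namespace Pool.Agent.Lib.MP_4e7804_co.Tw

namespace RankAN

open SysN

theorem not_zero {K : ℕ} (hK : 2 ≤ K) (t : Fin K → ℝ) (ht : StrictMono t) : t ≠ 0 := by
  intro h
  have h1 : (⟨0, by omega⟩ : Fin K) < ⟨1, by omega⟩ := by
    rw [Fin.lt_def]
    norm_num
  have h2 := ht h1
  rw [h] at h2
  exact lt_irrefl _ h2

theorem zero_t {n K e : ℕ} (i i' : Fin K → Fin n) (hi : Ch i i') (y : Fin e → ℝ) (t : Fin K → ℝ)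
    (h : Sat (fun (_ : Fin n) (_ : Fin e) => (0 : ℝ)) (fun x => -((x : ℕ) : ℝ)) y t id id i i') : t = 0 := by
  funext l
  have h1 := h l
  have h2 : (((i l : Fin n) : ℕ) : ℝ) < (((i' l : Fin n) : ℕ) : ℝ) := by exact_mod_cast hi.lt l
  have h3 : (fun (_ : Fin e) => (0 : ℝ)) ⬝ᵥ y = 0 := zero_dotProduct y
  simp only [h3, zero_add, id] at h1
  have h4 : ((((i' l : Fin n) : ℕ) : ℝ) - (((i l : Fin n) : ℕ) : ℝ)) * t l = 0 := by linarith
  rcases mul_eq_zero.1 h4 with h5 | h5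
  · linarith
  · exact h5

theorem zero_y {n N K e : ℕ} (hChQ : StmtChQ) (j j' : Fin N → Fin n) (hj : Ch j j') (heN : e ≤ N)
    (u v : Fin N → Fin K) : ∃ Q : Fin n → Fin e → ℝ, ∀ y (t : Fin K → ℝ), t = 0 →
      Sat Q (fun _ => 0) y t u v j j' → y = 0 := by
  obtain ⟨Q, hQ⟩ := hChQ n N e j j' hj (fun l m => if l = Fin.castLE heN m then 1 else 0)
  refine ⟨Q, fun y t ht hs => ?_⟩
  funext m
  have h1 := hs (Fin.castLE heN m)
  simp only [zero_mul, add_zero] at h1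
  have h2 := hQ (Fin.castLE heN m)
  have h3 := unit_w (Fin.castLE heN) (Fin.castLE_injective heN) y m
  have h4 : (Q (j (Fin.castLE heN m)) - Q (j' (Fin.castLE heN m))) ⬝ᵥ y = y m := by
    rw [h2]
    exact h3
  rw [sub_dotProduct, h1, sub_self] at h4
  exact h4.symm

end RankAN

open RankAN SysN in
theorem tRankA (hInjD : StmtInjD) (hChQ : StmtChQ) : StmtRankA := by
  constructor
  · intro B C e K N i i' j j' u v hi hj heN hK
    obtain ⟨Q, hQ⟩ := zero_y hChQ j j' hj heN u v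
    obtain ⟨D, hD1, hD2, hD3⟩ := sys hInjD (e := e) i i' id id j j' u v ∅
      ⟨((fun _ _ => 0, fun x => -((x : ℕ) : ℝ)), (Q, fun _ => 0)), fun y t h1 h2 _ => by
        have ht := zero_t i i' hi y t h1
        exact ⟨hQ y t ht h2, ht⟩⟩
    refine ⟨D, hD1, hD2, fun θ hθ y t ht h1 h2 => ?_⟩
    exact not_zero hK t ht (hD3 θ hθ y t h1 h2 (fun l hl => absurd hl (Finset.notMem_empty l))).2
  · intro B C e K N i i' j j' u v hi hj heN hK
    obtain ⟨Q, hQ⟩ := zero_y hChQ i i' hi heN u v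
    obtain ⟨D, hD1, hD2, hD3⟩ := sys hInjD (e := e) i i' u v j j' id id ∅
      ⟨((Q, fun _ => 0), (fun _ _ => 0, fun x => -((x : ℕ) : ℝ))), fun y t h1 h2 _ => by
        have ht := zero_t j j' hj y t h2
        exact ⟨hQ y t ht h1, ht⟩⟩
    refine ⟨D, hD1, hD2, fun θ hθ y t ht h1 h2 => ?_⟩
    exact not_zero hK t ht (hD3 θ hθ y t h1 h2 (fun l hl => absurd hl (Finset.notMem_empty l))).2

end Pool.Agent.Lib.MP_4e7804_co.Tw
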