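import Pool.Agent.Lib.MP_4e7804_co.Tw.Sys

set_option autoImplicit false

open Finset

namespace Pool.Agent.Lib.MP_4e7804_co.Tw

namespace RankBN

open SysN

variable {n k e : ℕ}

theorem sa_val (a : Fin (k + 1)) (l : Fin k) :
    ((a.succAbove l : Fin (k + 1)) : ℕ) = if (l : ℕ) < a then (l : ℕ) else l + 1 := by
  unfold Fin.succAbove
  by_cases h : (l : ℕ) < a
  · have h' : l.castSucc < a := by
      rw [Fin.lt_def]
      exact h
    rw [if_pos h', if_pos h]
    rfl
  · have h' : ¬ l.castSucc < a := by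
      rw [Fin.lt_def]
      exact h
    rw [if_neg h', if_neg h]
    rfl

theorem sa_eq (a a' : Fin (k + 1)) (h1 : (a' : ℕ) ≤ a) (h2 : (a : ℕ) ≤ a' + 1) (l : Fin k)
    (h : ¬ ((a : ℕ) = a' + 1 ∧ (l : ℕ) = a')) : a.succAbove l = a'.succAbove l := by
  apply Fin.ext
  rw [sa_val, sa_val]
  split_ifs <;> omega

/-- the first side: only the coordinate `ρ` can be nonzero -/
theorem first (a a' : Fin (k + 1)) (h1 : (a' : ℕ) ≤ a) (h2 : (a : ℕ) ≤ a' + 1) (i i' : Fin k → Fin n)
    (hi : Ch i i') (ρ : Fin (k + 1)) (hρ : ρ = a ∨ ρ = a') :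
    ∃ c : ℝ, ∀ (y : Fin e → ℝ) (t : Fin (k + 1) → ℝ),
      Sat (fun (_ : Fin n) (_ : Fin e) => (0 : ℝ)) (fun x => c - ((x : ℕ) : ℝ)) y t
        a.succAbove a'.succAbove i i' → ∀ x, x ≠ ρ → t x = 0 := by
  have hlt : ∀ l, (((i l : Fin n) : ℕ) : ℝ) < (((i' l : Fin n) : ℕ) : ℝ) := fun l => by
    exact_mod_cast hi.lt l
  -- rows with equal indices
  have hrow : ∀ (c : ℝ) (y : Fin e → ℝ) (t : Fin (k + 1) → ℝ),
      Sat (fun (_ : Fin n) (_ : Fin e) => (0 : ℝ)) (fun x => c - ((x : ℕ) : ℝ)) y t
        a.succAbove a'.succAbove i i' → ∀ l : Fin k, ¬ ((a : ℕ) = a' + 1 ∧ (l : ℕ) = a') →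
        t (a.succAbove l) = 0 ∧ t (a'.succAbove l) = 0 := by
    intro c y t hs l hl
    have h3 := hs l
    have h4 := sa_eq a a' h1 h2 l hl
    have h5 : (fun (_ : Fin e) => (0 : ℝ)) ⬝ᵥ y = 0 := zero_dotProduct y
    rw [h4] at h3
    simp only [h5, zero_add] at h3
    have h6 : ((((i' l : Fin n) : ℕ) : ℝ) - (((i l : Fin n) : ℕ) : ℝ)) * t (a'.succAbove l) = 0 := by
      linarith
    have h7 := hlt l
    rcases mul_eq_zero.1 h6 with h8 | h8
    · linarith
    · exact ⟨by rw [h4]; exact h8, h8⟩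
  by_cases haa : (a : ℕ) = a' + 1
  · have hk : (a' : ℕ) < k := by
      have := a.2
      omega
    let r : Fin k := ⟨a', hk⟩
    rcases hρ with rfl | rfl
    · refine ⟨((i' r : Fin n) : ℕ), fun y t hs x hx => ?_⟩
      obtain ⟨l, rfl⟩ := Fin.exists_succAbove_eq hx
      by_cases hl : (l : ℕ) = a'
      · have hlr : l = r := Fin.ext hl
        rw [hlr]
        have h3 := hs r
        have h5 : (fun (_ : Fin e) => (0 : ℝ)) ⬝ᵥ y = 0 := zero_dotProduct y
        simp only [h5, zero_add, sub_self, zero_mul] at h3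
        have h7 := hlt r
        rcases mul_eq_zero.1 h3 with h8 | h8
        · linarith
        · exact h8
      · exact (hrow _ y t hs l (fun h => hl h.2)).1
    · refine ⟨((i r : Fin n) : ℕ), fun y t hs x hx => ?_⟩
      obtain ⟨l, rfl⟩ := Fin.exists_succAbove_eq hx
      by_cases hl : (l : ℕ) = ρ
      · have hlr : l = r := Fin.ext hl
        rw [hlr]
        have h3 := (hs r).symm
        have h5 : (fun (_ : Fin e) => (0 : ℝ)) ⬝ᵥ y = 0 := zero_dotProduct y
        simp only [h5, zero_add, sub_self, zero_mul] at h3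
        have h7 := hlt r
        rcases mul_eq_zero.1 h3 with h8 | h8
        · linarith
        · exact h8
      · exact (hrow _ y t hs l (fun h => hl h.2)).2
  · have ha : a = a' := Fin.ext (by omega)
    have hρ' : ρ = a := by
      rcases hρ with h | h
      · exact h
      · rw [h, ha]
    subst hρ'
    refine ⟨0, fun y t hs x hx => ?_⟩
    obtain ⟨l, rfl⟩ := Fin.exists_succAbove_eq hx
    exact (hrow 0 y t hs l (fun h => haa h.1)).1

/-- contradiction -/
theorem not_zero (hk : 1 ≤ k) (t : Fin (k + 1) → ℝ) (ht : StrictMono t) : t ≠ 0 := by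
  intro h
  have h1 : (⟨0, by omega⟩ : Fin (k + 1)) < ⟨1, by omega⟩ := by
    rw [Fin.lt_def]
    norm_num
  have h2 := ht h1
  rw [h] at h2
  exact lt_irrefl _ h2

end RankBN

open RankBN SysN in
theorem tRankB (hInjD : StmtInjD) (hChQ : StmtChQ) : StmtRankB := by
  intro B C e k a a' b b' i i' j j' h1 h2 hi hj hek hk
  classical
  by_cases hne : ∃ ρ, (ρ = a ∨ ρ = a') ∧ (ρ ≠ b ∨ ρ ≠ b')
  · obtain ⟨ρ, hρ, hρ'⟩ := hne
    obtain ⟨l₀, hl₀⟩ : ∃ l₀, b.succAbove l₀ = ρ ∨ b'.succAbove l₀ = ρ := by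
      rcases hρ' with h | h
      · obtain ⟨l, hl⟩ := Fin.exists_succAbove_eq h
        exact ⟨l, Or.inl hl⟩
      · obtain ⟨l, hl⟩ := Fin.exists_succAbove_eq h
        exact ⟨l, Or.inr hl⟩
    obtain ⟨c, hc⟩ := first (e := e) a a' h1 h2 i i' hi ρ hρ
    obtain ⟨k', rfl⟩ : ∃ k', k = k' + 1 := ⟨k - 1, by omega⟩
    have hek' : e ≤ k' := by omega
    let ψ : Fin e → Fin (k' + 1) := fun m => l₀.succAbove (Fin.castLE hek' m)
    have hψ : Function.Injective ψ := fun m m' h =>
      Fin.castLE_injective hek' (Fin.succAbove_right_injective h)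
    have hψ0 : ∀ m, ψ m ≠ l₀ := fun m => Fin.succAbove_ne l₀ _
    obtain ⟨Q, hQ⟩ := hChQ (C + 1) (k' + 1) e j j' hj (fun l m => if l = ψ m then 1 else 0)
    obtain ⟨D, hD1, hD2, hD3⟩ := sys hInjD (e := e) i i' a.succAbove a'.succAbove j j' b.succAbove
      b'.succAbove ∅
      ⟨((fun _ _ => 0, fun x => c - ((x : ℕ) : ℝ)), (Q, fun x => -(((x : ℕ) : ℝ) + 1))),
        fun y t hs1 hs2 _ => by
        have h0 := hc y t hs1
        have hρ0 : t ρ = 0 := by
          have h3 := hs2 l₀
          have h4 : (Q (j l₀) - Q (j' l₀)) ⬝ᵥ y = 0 := by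
            rw [hQ l₀]
            have h5 : (fun m => if l₀ = ψ m then (1 : ℝ) else 0) = 0 := by
              funext m
              rw [if_neg (hψ0 m).symm]
              rfl
            rw [h5, zero_dotProduct]
          rw [sub_dotProduct, sub_eq_zero] at h4
          have h3' : -((((j l₀ : Fin (C + 1)) : ℕ) : ℝ) + 1) * t (b.succAbove l₀) =
              -((((j' l₀ : Fin (C + 1)) : ℕ) : ℝ) + 1) * t (b'.succAbove l₀) := by
            have h3'' : Q (j l₀) ⬝ᵥ y + -((((j l₀ : Fin (C + 1)) : ℕ) : ℝ) + 1) * t (b.succAbove l₀) =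
              Q (j' l₀) ⬝ᵥ y + -((((j' l₀ : Fin (C + 1)) : ℕ) : ℝ) + 1) * t (b'.succAbove l₀) := h3
            rw [h4] at h3''
            linarith
          have hjl : (((j l₀ : Fin (C + 1)) : ℕ) : ℝ) < (((j' l₀ : Fin (C + 1)) : ℕ) : ℝ) := by
            exact_mod_cast hj.lt l₀
          have hj0 : (0 : ℝ) ≤ (((j l₀ : Fin (C + 1)) : ℕ) : ℝ) := Nat.cast_nonneg _
          by_cases hb : b.succAbove l₀ = ρ
          · by_cases hb' : b'.succAbove l₀ = ρ
            · rw [hb, hb'] at h3'
              have h6 : ((((j' l₀ : Fin (C + 1)) : ℕ) : ℝ) - (((j l₀ : Fin (C + 1)) : ℕ) : ℝ)) * t ρ = 0 := by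
                linarith
              rcases mul_eq_zero.1 h6 with h7 | h7
              · linarith
              · exact h7
            · rw [hb, h0 _ hb', mul_zero] at h3'
              rcases mul_eq_zero.1 h3' with h7 | h7
              · linarith
              · exact h7
          · have hb' : b'.succAbove l₀ = ρ := by
              rcases hl₀ with h | h
              · exact absurd h hb
              · exact h
            rw [hb', h0 _ hb, mul_zero] at h3'
            rcases mul_eq_zero.1 h3'.symm with h7 | h7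
            · linarith
            · exact h7
        have ht : t = 0 := by
          funext x
          by_cases hx : x = ρ
          · rw [hx, hρ0]
            rfl
          · exact h0 x hx
        refine ⟨?_, ht⟩
        funext m
        have h3 := hs2 (ψ m)
        rw [ht] at h3
        simp only [Pi.zero_apply, mul_zero, add_zero] at h3
        have h4 : (Q (j (ψ m)) - Q (j' (ψ m))) ⬝ᵥ y = y m := by
          rw [hQ (ψ m)]
          exact unit_w ψ hψ y m
        rw [sub_dotProduct, h3, sub_self] at h4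
        exact h4.symm⟩
    refine ⟨D, hD1, hD2, fun θ hθ y t ht hs1 hs2 => ?_⟩
    exact not_zero (by omega) t ht
      (hD3 θ hθ y t hs1 hs2 (fun l hl => absurd hl (Finset.notMem_empty l))).2
  · push Not at hne
    have e1 := hne a (Or.inl rfl)
    have e2 := hne a' (Or.inr rfl)
    have haa : a = a' := e1.1.trans e2.1.symm
    obtain ⟨e3, e4⟩ := e1
    subst haa
    subst e3
    subst e4
    obtain ⟨c, hc⟩ := first (e := e) a a h1 h2 i i' hi a (Or.inl rfl)
    have hek' : e ≤ k := by omega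
    obtain ⟨Q, hQ⟩ := hChQ (C + 1) k e j j' hj (fun l m => if l = Fin.castLE hek' m then 1 else 0)
    obtain ⟨D, hD1, hD2, hD3⟩ := sys hInjD (e := e) i i' a.succAbove a.succAbove j j' a.succAbove
      a.succAbove {a}
      ⟨((fun _ _ => 0, fun x => c - ((x : ℕ) : ℝ)), (Q, fun _ => 0)), fun y t hs1 hs2 hz => by
        have h0 := hc y t hs1
        have ht : t = 0 := by
          funext x
          by_cases hx : x = a
          · rw [hx, hz a (mem_singleton_self a)]
            rfl
          · exact h0 x hx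
        refine ⟨?_, ht⟩
        funext m
        have h3 := hs2 (Fin.castLE hek' m)
        simp only [zero_mul, add_zero] at h3
        have h4 : (Q (j (Fin.castLE hek' m)) - Q (j' (Fin.castLE hek' m))) ⬝ᵥ y = y m := by
          rw [hQ (Fin.castLE hek' m)]
          exact unit_w (Fin.castLE hek') (Fin.castLE_injective hek') y m
        rw [sub_dotProduct, h3, sub_self] at h4
        exact h4.symm⟩
    refine ⟨D, hD1, hD2, fun θ hθ y t ht hs1 hs2 => ?_⟩
    have hup : ∀ l : Fin k, Function.update t a 0 (a.succAbove l) = t (a.succAbove l) := fun l =>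
      Function.update_of_ne (Fin.succAbove_ne a l) _ _
    have h5 := (hD3 θ hθ y (Function.update t a 0) (fun l => by rw [hup]; exact hs1 l)
      (fun l => by rw [hup]; exact hs2 l) (fun l hl => by
        rw [mem_singleton.1 hl, Function.update_self])).2
    have h6 : ∀ l : Fin k, t (a.succAbove l) = 0 := by
      intro l
      rw [← hup l, h5]
      rfl
    have h7 : (⟨0, by omega⟩ : Fin k) < ⟨1, by omega⟩ := by
      rw [Fin.lt_def]
      norm_num
    have h8 := ht (Fin.strictMono_succAbove a h7)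
    rw [h6, h6] at h8
    exact lt_irrefl _ h8

end Pool.Agent.Lib.MP_4e7804_co.Tw
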