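import Pool.Agent.Lib.MP_4e7804_co.Tw.Spec

/-!
# Moments: reduction to strictly increasing tuples
-/

set_option autoImplicit false

namespace Pool.Agent.Lib.MP_4e7804_co.Tw

namespace MomN

variable {Ω : Type} {X : Ω → ℕ → ℕ → ℝ} {b c : ℕ}

theorem const (hX : ∀ s, XF b c (X s)) {I J : ℕ} (hI : I ≤ b + 1) (hJ : J ≤ c + 1)
    (h : I = 0 ∨ I = b + 1 ∨ J = 0 ∨ J = c + 1) : ∃ κ : ℝ, ∀ s, X s I J = κ := by
  by_cases h0 : I = 0
  · exact ⟨0, fun s => by rw [h0, (hX s).zero]⟩
  by_cases h1 : J = c + 1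
  · exact ⟨0, fun s => by rw [h1, (hX s).right I hI]⟩
  by_cases h2 : I = b + 1
  · exact ⟨1, fun s => by rw [h2, (hX s).top J (by omega)]⟩
  have h3 : J = 0 := by omega
  exact ⟨1, fun s => by rw [h3, (hX s).left I (by omega) hI]⟩

variable [Fintype Ω] {φ : Ω → ℝ}

theorem SS_const {k : ℕ} (I J : Fin (k + 1) → ℕ) (l : Fin (k + 1)) (κ : ℝ)
    (h : ∀ s, X s (I l) (J l) = κ) :
    SS φ X I J = κ * SS φ X (fun x => I (l.succAbove x)) (fun x => J (l.succAbove x)) := by
  unfold SS
  rw [Finset.mul_sum]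
  refine Finset.sum_congr rfl fun s _ => ?_
  rw [Fin.prod_univ_succAbove _ l, h s]
  ring

theorem SS_rem {k : ℕ} (I J : Fin (k + 1) → ℕ) (l l' : Fin (k + 1)) (hll' : l ≠ l')
    (hv : ∀ s I J, X s I J = 0 ∨ X s I J = 1)
    (h : ∀ s, X s (I l) (J l) ≤ X s (I l') (J l')) :
    SS φ X I J = SS φ X (fun x => I (l'.succAbove x)) (fun x => J (l'.succAbove x)) := by
  unfold SS
  refine Finset.sum_congr rfl fun s _ => ?_
  rw [Fin.prod_univ_succAbove _ l']
  rcases hv s (I l') (J l') with h0 | h0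
  · have h1 : X s (I l) (J l) = 0 := by
      rcases hv s (I l) (J l) with h2 | h2
      · exact h2
      · have h3 := h s
        rw [h0, h2] at h3
        norm_num at h3
    obtain ⟨x, hx⟩ := Fin.exists_succAbove_eq hll'
    have h4 : ∏ x, X s (I (l'.succAbove x)) (J (l'.succAbove x)) = 0 :=
      Finset.prod_eq_zero (Finset.mem_univ x) (by rw [hx]; exact h1)
    rw [h4, mul_zero]
  · rw [h0, one_mul]

/-- moments with an extreme entry -/
theorem SS_bdry (hX : ∀ s, XF b c (X s)) {k : ℕ} (hV : Van φ X b c k) (I J : Fin k → ℕ)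
    (hI : ∀ l, I l ≤ b + 1) (hJ : ∀ l, J l ≤ c + 1) (l : Fin k)
    (hl : I l = 0 ∨ I l = b + 1 ∨ J l = 0 ∨ J l = c + 1) : SS φ X I J = 0 := by
  obtain ⟨κ, hκ⟩ := const hX (hI l) (hJ l) hl
  cases k with
  | zero => exact l.elim0
  | succ m =>
    rw [SS_const I J l κ hκ, hV m (by omega) _ _ (fun x => hI _) (fun x => hJ _), mul_zero]

/-- moments with two comparable entries -/
theorem SS_cmp (hX : ∀ s, XF b c (X s)) {k : ℕ} (hV : Van φ X b c k) (I J : Fin k → ℕ)
    (hI : ∀ l, I l ≤ b + 1) (hJ : ∀ l, J l ≤ c + 1) (l l' : Fin k) (hll' : l ≠ l')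
    (h3 : I l ≤ I l') (h4 : J l' ≤ J l) : SS φ X I J = 0 := by
  cases k with
  | zero => exact l.elim0
  | succ m =>
    rw [SS_rem I J l l' hll' (fun s => (hX s).val)
      (fun s => (hX s).mono _ _ _ _ h3 (hI l') h4 (hJ l)),
      hV m (by omega) _ _ (fun x => hI _) (fun x => hJ _)]

end MomN

open MomN in
theorem tRed : StmtRed := by
  intro Ω _ φ X b c hX k hk k'
  induction k' using Nat.strong_induction_on with
  | _ m ih =>
    intro hm I J hI hJ
    have hV : Van φ X b c m := fun k' hk' I' J' hI' hJ' =>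
      ih k' hk' (by omega) I' J' hI' hJ'
    by_cases h1 : ∃ l, I l = 0 ∨ I l = b + 1 ∨ J l = 0 ∨ J l = c + 1
    · obtain ⟨l, hl⟩ := h1
      exact SS_bdry hX hV I J hI hJ l hl
    push Not at h1
    by_cases h2 : ∃ l l', l ≠ l' ∧ I l ≤ I l' ∧ J l' ≤ J l
    · obtain ⟨l, l', hll', h3, h4⟩ := h2
      exact SS_cmp hX hV I J hI hJ l l' hll' h3 h4
    push Not at h2
    have hinj : Function.Injective I := by
      intro l l' h
      by_contra hne
      have a1 := h2 l l' hne h.le
      have a2 := h2 l' l (Ne.symm hne) h.ge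
      omega
    set w := Tuple.sort I with hw
    have hmono : Monotone (I ∘ w) := Tuple.monotone_sort I
    have hs : StrictMono (I ∘ w) := hmono.strictMono_of_injective (hinj.comp w.injective)
    have hs' : StrictMono (J ∘ w) := by
      intro a a' haa'
      exact h2 (w a) (w a') (fun h => haa'.ne (w.injective h)) (hs haa').le
    have e1 : SS φ X I J = SS φ X (I ∘ w) (J ∘ w) := by
      unfold SS
      refine Finset.sum_congr rfl fun s _ => ?_
      rw [← Equiv.prod_comp w]
      rfl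
    rw [e1]
    refine hk m hm _ _ hs hs' (fun l => ?_) (fun l => ?_)
    · have := h1 (w l)
      have := hI (w l)
      simp only [Function.comp]
      omega
    · have := h1 (w l)
      have := hJ (w l)
      simp only [Function.comp]
      omega

end Pool.Agent.Lib.MP_4e7804_co.Tw
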