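import Pool.Agent.Lib.MP_4e7804_co.Tw.Spec

set_option autoImplicit false

open Set Filter Topology

namespace Pool.Agent.Lib.MP_4e7804_co.Tw

namespace SemiN

variable {B C e : ℕ}

theorem cont_f1 (p : Fin (B + 2)) (y : Fin e → ℝ) (z : ℝ) (r : Fin (B + 2)) :
    Continuous fun θ : Par B C e => (sd1 p θ).f y z r := by
  refine Fin.succAboveCases (α := fun r => Continuous fun θ : Par B C e => (sd1 p θ).f y z r) p ?_
    (fun i => ?_) r
  · simp only [Side.f, sd1, Fin.insertNth_apply_same]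
    exact continuous_const
  · simp only [Side.f, sd1, Fin.insertNth_apply_succAbove, Side.h, dotProduct]
    fun_prop

theorem cont_f2 (q : Fin (C + 2)) (y : Fin e → ℝ) (z : ℝ) (r : Fin (C + 2)) :
    Continuous fun θ : Par B C e => (sd2 q θ).f y z r := by
  refine Fin.succAboveCases (α := fun r => Continuous fun θ : Par B C e => (sd2 q θ).f y z r) q ?_
    (fun i => ?_) r
  · simp only [Side.f, sd2, Fin.insertNth_apply_same]
    exact continuous_const
  · simp only [Side.f, sd2, Fin.insertNth_apply_succAbove, Side.h, dotProduct]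
    fun_prop

theorem cont_s1 (p : Fin (B + 2)) (r : Fin (B + 2)) :
    Continuous fun θ : Par B C e => (sd1 p θ).sl r := by
  refine Fin.succAboveCases (α := fun r => Continuous fun θ : Par B C e => (sd1 p θ).sl r) p ?_
    (fun i => ?_) r
  · simp only [Side.sl, sd1, Fin.insertNth_apply_same]
    exact continuous_const
  · simp only [Side.sl, sd1, Fin.insertNth_apply_succAbove]
    fun_prop

theorem cont_s2 (q : Fin (C + 2)) (r : Fin (C + 2)) :
    Continuous fun θ : Par B C e => (sd2 q θ).sl r := by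
  refine Fin.succAboveCases (α := fun r => Continuous fun θ : Par B C e => (sd2 q θ).sl r) q ?_
    (fun i => ?_) r
  · simp only [Side.sl, sd2, Fin.insertNth_apply_same]
    exact continuous_const
  · simp only [Side.sl, sd2, Fin.insertNth_apply_succAbove]
    fun_prop

theorem cont_pot (p : Fin (B + 2)) (q : Fin (C + 2)) (s : Pt e) (x : Fin (C + 1) → Fin (B + 2)) :
    Continuous fun θ : Par B C e => SPot (sd1 p θ) (sd2 q θ) s x := by
  unfold SPot Pot
  refine continuous_finsetSum _ fun j _ => ?_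
  have h1 := cont_f1 (B := B) (C := C) p s.1 s.2.1 (x j)
  have h2 := cont_s1 (B := B) (C := C) (e := e) p (x j)
  have h3 := cont_f2 (B := B) (C := C) q s.1 s.2.2 (Fin.succ j)
  have h4 := cont_f2 (B := B) (C := C) q s.1 s.2.2 (Fin.castSucc j)
  have h5 := cont_s2 (B := B) (C := C) (e := e) q (Fin.succ j)
  have h6 := cont_s2 (B := B) (C := C) (e := e) q (Fin.castSucc j)
  exact ((h6.sub h5).mul h1).add ((h3.sub h4).mul h2)

theorem ev_min (p : Fin (B + 2)) (q : Fin (C + 2)) (s : Pt e) (x : Fin (C + 1) → Fin (B + 2))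
    (θ : Par B C e) :
    ∀ᶠ θ' in 𝓝 θ, SMin (sd1 p θ') (sd2 q θ') s x → SMin (sd1 p θ) (sd2 q θ) s x := by
  by_cases h : SMin (sd1 p θ) (sd2 q θ) s x
  · exact Eventually.of_forall fun _ _ => h
  by_cases hm : Monotone x
  · have h' : ∃ x' : Fin (C + 1) → Fin (B + 2), Monotone x' ∧
        SPot (sd1 p θ) (sd2 q θ) s x' < SPot (sd1 p θ) (sd2 q θ) s x := by
      by_contra hcon
      push Not at hcon
      exact h ⟨hm, fun x' hx' => hcon x' hx'⟩
    obtain ⟨x', hx', hlt⟩ := h'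
    have h1 := ((cont_pot p q s x').tendsto θ).eventually_lt ((cont_pot p q s x).tendsto θ) hlt
    filter_upwards [h1] with θ' hθ' hmin
    exact absurd (hmin.2 x' hx') (not_le.2 hθ')
  · exact Eventually.of_forall fun _ h' => absurd h'.1 hm

theorem open_strict (p : Fin (B + 2)) (q : Fin (C + 2)) :
    IsOpen {θ : Par B C e | StrictAnti (sd1 p θ).sl ∧ StrictAnti (sd2 q θ).sl} := by
  have h1 : {θ : Par B C e | StrictAnti (sd1 p θ).sl ∧ StrictAnti (sd2 q θ).sl} =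
      (⋂ i : Fin (B + 1), {θ : Par B C e | (sd1 p θ).sl i.succ < (sd1 p θ).sl i.castSucc}) ∩
      (⋂ i : Fin (C + 1), {θ : Par B C e | (sd2 q θ).sl i.succ < (sd2 q θ).sl i.castSucc}) := by
    ext θ
    simp only [mem_ofPred_eq, mem_inter_iff, mem_iInter, Fin.strictAnti_iff_succ_lt]
  rw [h1]
  exact (isOpen_iInter_of_finite fun i => isOpen_lt (cont_s1 p _) (cont_s1 p _)).inter
    (isOpen_iInter_of_finite fun i => isOpen_lt (cont_s2 q _) (cont_s2 q _))

theorem pert (p : Fin (B + 2)) (α : Fin (B + 1) → ℝ) (ε : ℝ) (hε : 0 < ε)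
    (h : Antitone (p.insertNth (α := fun _ => ℝ) 0 α)) :
    StrictAnti (p.insertNth (α := fun _ => ℝ) 0
      (fun i => α i - ε * (((p.succAbove i : Fin (B + 2)) : ℕ) - ((p : ℕ) : ℝ)))) := by
  have h1 : ∀ r : Fin (B + 2), p.insertNth (α := fun _ => ℝ) 0
      (fun i => α i - ε * (((p.succAbove i : Fin (B + 2)) : ℕ) - ((p : ℕ) : ℝ))) r =
      p.insertNth (α := fun _ => ℝ) 0 α r - ε * (((r : ℕ) : ℝ) - ((p : ℕ) : ℝ)) := by
    intro r
    refine Fin.succAboveCases (α := fun r => p.insertNth (α := fun _ => ℝ) 0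
      (fun i => α i - ε * (((p.succAbove i : Fin (B + 2)) : ℕ) - ((p : ℕ) : ℝ))) r =
      p.insertNth (α := fun _ => ℝ) 0 α r - ε * (((r : ℕ) : ℝ) - ((p : ℕ) : ℝ))) p ?_ (fun i => ?_) r
    · simp only [Fin.insertNth_apply_same]
      ring
    · simp only [Fin.insertNth_apply_succAbove]
  intro r r' hr
  rw [h1, h1]
  have h2 := h hr.le
  have h3 : ((r : ℕ) : ℝ) < ((r' : ℕ) : ℝ) := by exact_mod_cast hr
  have h4 : 0 < ε * (((r' : ℕ) : ℝ) - ((r : ℕ) : ℝ)) := mul_pos hε (by linarith)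
  linarith

theorem mem_clos (p : Fin (B + 2)) (q : Fin (C + 2)) (θ : Par B C e)
    (h1 : Antitone (sd1 p θ).sl) (h2 : Antitone (sd2 q θ).sl) :
    θ ∈ closure {θ : Par B C e | StrictAnti (sd1 p θ).sl ∧ StrictAnti (sd2 q θ).sl} := by
  let f : ℝ → Par B C e := fun ε =>
    ((θ.1.1, fun i => θ.1.2 i - ε * (((p.succAbove i : Fin (B + 2)) : ℕ) - ((p : ℕ) : ℝ))),
      (θ.2.1, fun i => θ.2.2 i - ε * (((q.succAbove i : Fin (C + 2)) : ℕ) - ((q : ℕ) : ℝ))))
  have hf : Continuous f := by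
    simp only [f]
    fun_prop
  have hf0 : f 0 = θ := by
    simp only [f, zero_mul, sub_zero]
  have ht : Tendsto f (𝓝[>] 0) (𝓝 θ) := by
    have := hf.tendsto 0
    rw [hf0] at this
    exact this.mono_left nhdsWithin_le_nhds
  refine mem_closure_of_tendsto ht ?_
  filter_upwards [self_mem_nhdsWithin] with ε hε
  exact ⟨pert p θ.1.2 ε hε h1, pert q θ.2.2 ε hε h2⟩

end SemiN

open SemiN in
theorem tSemi (hThr : StmtThr) (hGen : StmtGen) (hNoCo : StmtNoCo) (hLabP : StmtLabP)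
    (hCore : StmtCore) : StmtSemi := by
  intro B C e S₁ S₂ he h1 h2 Ω _ s hs hdis
  classical
  let θ : Par B C e := ((S₁.P, S₁.α), (S₂.P, S₂.α))
  have hθ1 : sd1 S₁.p θ = S₁ := rfl
  have hθ2 : sd2 S₂.p θ = S₂ := rfl
  have hO1 : ∀ᶠ θ' in 𝓝 θ, ∀ (o : Ω) (x : Fin (C + 1) → Fin (B + 2)),
      SMin (sd1 S₁.p θ') (sd2 S₂.p θ') (s o) x → SMin S₁ S₂ (s o) x := by
    rw [eventually_all]
    intro o
    rw [eventually_all]
    intro x
    exact ev_min S₁.p S₂.p (s o) x θ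
  obtain ⟨U, hU, hUo, hUθ⟩ := mem_nhds_iff.1 hO1
  have hcl := mem_clos S₁.p S₂.p θ h1 h2
  obtain ⟨θ₁, hθ₁⟩ := mem_closure_iff.1 hcl U hUo hUθ
  -- Baire
  obtain ⟨D, ⟨ι, hι, Z, hZ, hDZ⟩, hD⟩ := hGen B C e S₁.p S₂.p he
  have hnc := fun o => hNoCo B C e S₁.p S₂.p (s o) (hs o)
  choose D' hD'o hD'd hD' using hnc
  have hdense : Dense (⋂ x : ι ⊕ Ω, (Sum.elim Z D' x : Set (Par B C e))) := by
    have : Countable (ι ⊕ Ω) := inferInstance
    refine dense_iInter_of_isOpen (fun x => ?_) (fun x => ?_)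
    · rcases x with x | x
      · exact (hZ x).1
      · exact hD'o x
    · rcases x with x | x
      · exact (hZ x).2
      · exact hD'd x
  obtain ⟨θ', hθ'U, hθ'D⟩ := hdense.inter_open_nonempty (U ∩ {θ : Par B C e |
    StrictAnti (sd1 S₁.p θ).sl ∧ StrictAnti (sd2 S₂.p θ).sl}) (hUo.inter (open_strict S₁.p S₂.p))
    ⟨θ₁, hθ₁⟩
  rw [mem_iInter] at hθ'D
  have hθ'1 : θ' ∈ D := by
    rw [hDZ, mem_iInter]
    exact fun x => hθ'D (Sum.inl x)
  have hθ'2 : ∀ o, θ' ∈ D' o := fun o => hθ'D (Sum.inr o)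
  obtain ⟨hst1, hst2⟩ := hθ'U.2
  have hG := hD θ' hθ'1 hst1 hst2
  -- thresholds
  have hσ := fun o => hThr (B + 1) ((sd1 S₁.p θ').f (s o).1 (s o).2.1) (sd1 S₁.p θ').sl hst1
  have hτ := fun o => hThr (C + 1) ((sd2 S₂.p θ').f (s o).1 (s o).2.2) (sd2 S₂.p θ').sl hst2
  choose σ hσ using hσ
  choose τ hτ using hτ
  have hNoC : ∀ o, NoC (B + 1) (C + 1) (σ o) (τ o) := by
    intro o I J hI hI' hJ hJ' heq
    obtain ⟨l, r, hl, hr, hl', hr'⟩ := (hσ o).tie I hI hI'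
    obtain ⟨l₂, r₂, hl₂, hr₂, hl₂', hr₂'⟩ := (hτ o).tie J hJ hJ'
    refine hD' o θ' (hθ'2 o) (σ o I) ⟨⟨l, r, ?_, hl', hr'⟩, ⟨l₂, r₂, ?_, ?_, ?_⟩⟩
    · intro h
      rw [h] at hl
      omega
    · intro h
      rw [h] at hl₂
      omega
    · rw [heq]; exact hl₂'
    · rw [heq]; exact hr₂'
  have hx := fun o => hLabP (B + 1) (C + 1) _ _ _ _ (σ o) (τ o) hst1 hst2 (hσ o) (hτ o) (hNoC o)
  choose x hxm hxX using hx
  have hxm' : ∀ o, SMin S₁ S₂ (s o) (x o) := fun o => hU hθ'U.1 o (x o) (hxm o)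
  refine hCore B C e (sd1 S₁.p θ') (sd2 S₂.p θ') he hst1 hst2 hG Ω _ s σ τ hσ hτ hNoC ?_
  intro o o' hoo
  have hne : x o ≠ x o' := by
    intro h
    refine hoo (hdis o o' (x o) (hxm' o) ?_)
    rw [h]
    exact hxm' o'
  obtain ⟨j, hj⟩ := Function.ne_iff.1 hne
  have hj1 : 1 ≤ (j : ℕ) + 1 := by omega
  have hj2 : (j : ℕ) + 1 ≤ C + 1 := by have := j.2; omega
  have key : ∀ o o', x o j < x o' j → X (B + 1) (C + 1) (σ o) (τ o) (x o' j) (j + 1) ≠
      X (B + 1) (C + 1) (σ o') (τ o') (x o' j) (j + 1) := by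
    intro o o' hlt
    have hlt' : ((x o j : ℕ)) < (x o' j : ℕ) := hlt
    have hI : 1 ≤ (x o' j : ℕ) := by omega
    have hI' : (x o' j : ℕ) ≤ B + 1 := by have := (x o' j).2; omega
    rw [hxX o j _ hI hI', hxX o' j _ hI hI', if_pos hlt', if_neg (lt_irrefl _)]
    exact one_ne_zero
  rcases lt_or_gt_of_ne hj with hlt | hlt
  · have hlt' : ((x o j : ℕ)) < (x o' j : ℕ) := hlt
    exact ⟨(x o' j : ℕ), j + 1, by omega, by have := (x o' j).2; omega, hj1, hj2, key o o' hlt⟩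
  · have hlt' : ((x o' j : ℕ)) < (x o j : ℕ) := hlt
    exact ⟨(x o j : ℕ), j + 1, by omega, by have := (x o j).2; omega, hj1, hj2, (key o' o hlt).symm⟩

end Pool.Agent.Lib.MP_4e7804_co.Tw
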