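import Pool.Agent.Lib.MP_4e7804_co.Tw.Spec

/-!
# The moments separate
-/

set_option autoImplicit false

namespace Pool.Agent.Lib.MP_4e7804_co.Tw

namespace SepN

open Classical in
/-- the range of a matrix -/
noncomputable def A (X : ℕ → ℕ → ℝ) (b c : ℕ) : Finset (ℕ × ℕ) :=
  (Finset.range (b + 2) ×ˢ Finset.range (c + 2)).filter fun q => X q.1 q.2 = 1

theorem mem_A {X : ℕ → ℕ → ℝ} {b c : ℕ} {q : ℕ × ℕ} :
    q ∈ A X b c ↔ (q.1 ≤ b + 1 ∧ q.2 ≤ c + 1) ∧ X q.1 q.2 = 1 := by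
  rw [A, Finset.mem_filter, Finset.mem_product, Finset.mem_range, Finset.mem_range]
  exact ⟨fun h => ⟨⟨by omega, by omega⟩, h.2⟩, fun h => ⟨⟨by omega, by omega⟩, h.2⟩⟩

end SepN

open SepN in
theorem tSep : StmtSep := by
  intro Ω _ φ X b c hX hsep hV
  classical
  by_contra hne
  let S : Finset Ω := Finset.univ.filter fun s => φ s ≠ 0
  have hS : S.Nonempty := by
    obtain ⟨s, hs⟩ := Function.ne_iff.1 hne
    exact ⟨s, Finset.mem_filter.2 ⟨Finset.mem_univ _, hs⟩⟩
  obtain ⟨s, hs, hmax⟩ := Finset.exists_max_image S (fun s => (A (X s) b c).card) hS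
  have hs0 : φ s ≠ 0 := (Finset.mem_filter.1 hs).2
  -- enumerate
  let N := (A (X s) b c).card
  let en : Fin N ≃ A (X s) b c := ((A (X s) b c).equivFin).symm
  have h0 := hV (N + 1) N (Nat.lt_succ_self _) (fun l => (en l).1.1) (fun l => (en l).1.2)
    (fun l => (mem_A.1 (en l).2).1.1) (fun l => (mem_A.1 (en l).2).1.2)
  rw [SS, Finset.sum_eq_single s] at h0
  · have h1 : ∏ l, X s (en l).1.1 (en l).1.2 = 1 :=
      Finset.prod_eq_one fun l _ => (mem_A.1 (en l).2).2
    rw [h1, mul_one] at h0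
    exact hs0 h0
  · intro s' _ hs'
    by_cases hφ : φ s' = 0
    · rw [hφ, zero_mul]
    have hs'S : s' ∈ S := Finset.mem_filter.2 ⟨Finset.mem_univ _, hφ⟩
    by_cases hsub : A (X s) b c ⊆ A (X s') b c
    · exfalso
      have heq : A (X s) b c = A (X s') b c := Finset.eq_of_subset_of_card_le hsub (hmax s' hs'S)
      obtain ⟨I, J, hI, hJ, hIJ⟩ := hsep s s' (Ne.symm hs')
      have e1 : (I, J) ∈ A (X s) b c ↔ X s I J = 1 := by
        rw [mem_A]
        exact ⟨fun h => h.2, fun h => ⟨⟨hI, hJ⟩, h⟩⟩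
      have e2 : (I, J) ∈ A (X s') b c ↔ X s' I J = 1 := by
        rw [mem_A]
        exact ⟨fun h => h.2, fun h => ⟨⟨hI, hJ⟩, h⟩⟩
      rw [heq, e2] at e1
      rcases (hX s).val I J with h2 | h2 <;> rcases (hX s').val I J with h3 | h3
      · exact hIJ (h2.trans h3.symm)
      · exact hIJ ((e1.1 h3).trans h3.symm)
      · exact hIJ (h2.trans (e1.2 h2).symm)
      · exact hIJ (h2.trans h3.symm)
    · rw [Finset.not_subset] at hsub
      obtain ⟨q, hq1, hq2⟩ := hsub
      have h4 : X s' q.1 q.2 = 0 := by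
        rcases (hX s').val q.1 q.2 with h | h
        · exact h
        · exact absurd (mem_A.2 ⟨(mem_A.1 hq1).1, h⟩) hq2
      have h5 : ∏ l, X s' (en l).1.1 (en l).1.2 = 0 := by
        refine Finset.prod_eq_zero (Finset.mem_univ (en.symm ⟨q, hq1⟩)) ?_
        rw [Equiv.apply_symm_apply]
        exact h4
      rw [h5, mul_zero]
  · intro h
    exact absurd (Finset.mem_univ _) h

end Pool.Agent.Lib.MP_4e7804_co.Tw
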