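import Pool.Agent.Lib.MP_4e7804_co.Tw.Spec

set_option autoImplicit false

open Finset

namespace Pool.Agent.Lib.MP_4e7804_co.Tw

namespace StepN

variable {B C e k n : ℕ}

theorem sm_mono (f α : Fin n → ℝ) (hα : StrictAnti α) (t : Fin k → ℝ) (ht : StrictMono t)
    (i : Fin k → Fin n) (h : ∀ l, SM f α (t l) (i l)) : Monotone i := by
  intro l l' hl
  rcases hl.eq_or_lt with rfl | hlt
  · exact le_rfl
  by_cases hi : i l = i l'
  · exact hi.le
  · have h1 := h l (i l') (Ne.symm hi)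
    have h2 := h l' (i l) hi
    have h3 := ht hlt
    have h4 : α (i l') < α (i l) := by
      by_contra hcon
      push Not at hcon
      nlinarith [mul_nonneg (sub_nonneg.2 hcon) (sub_pos.2 h3).le]
    exact (hα.lt_iff_gt.1 h4).le

theorem R1_ne (p : Fin (n + 1)) (m : (Fin (k + 1) → Fin (n + 1)) → ℝ) (a : Fin k → Fin n)
    (h : R1 p m a ≠ 0) : ∃ r, m (ins p r a) ≠ 0 := by
  unfold R1 at h
  obtain ⟨r, -, hr⟩ := Finset.exists_ne_zero_of_sum_ne_zero h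
  exact ⟨r, right_ne_zero_of_mul hr⟩

end StepN

open StepN in
theorem tStep (hRR : StmtRR) (hZM : StmtZM) (hNerve2 : StmtNerve2) (hCellT : StmtCellT)
    (hLab : StmtLab) : StmtStep := by
  intro B C e k S₁ S₂ h1 h2 hG hek m hm hR hS1 hS2
  have hMS : MS2 m := by
    intro i j hij
    obtain ⟨y, z₁, z₂, t, ht, hi, hj⟩ := hR i j hij
    exact ⟨sm_mono _ _ h1 t ht i hi, sm_mono _ _ h2 t ht j hj⟩
  obtain ⟨⟨z11, s11⟩, hb, hc, hd⟩ := hRR k (B + 1) (C + 1) S₁.p S₂.p m hm hMS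
  obtain ⟨c1, c2, c3, c4⟩ := hCellT B e (k + 1) S₁
  obtain ⟨d1, d2, d3, d4⟩ := hCellT C e (k + 1) S₂
  -- one label p and one label q
  have e11 : m11 S₁.p S₂.p m = 0 := by
    by_cases hk : k ≤ e
    · exact hZM k k B C _ z11 s11 (hS1 hk)
    · refine hNerve2 e (k + 1) k k (B + 1) (C + 1)
        (fun l i => {x | LCell S₁ x.1 (x.2 l.castSucc) (x.2 l.succ) i})
        (fun l i => {x | LCell S₂ x.1 (x.2 l.castSucc) (x.2 l.succ) i})
        (fun l i => c3 _ _ i) (fun l i => d3 _ _ i) (fun l i i' h => c4 _ _ i i' h)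
        (fun l i i' h => d4 _ _ i i' h) (fun y t ht => hG.g2 k (by omega) y t ht) _ z11 ?_
      intro a a' ha
      obtain ⟨r', hr'⟩ := R1_ne S₂.p _ _ ha
      obtain ⟨r, hr⟩ := R1_ne S₁.p _ _ hr'
      obtain ⟨y, z₁, z₂, t, ht, hi, hj⟩ := hR _ _ hr
      exact ⟨y, t, ht, (hLab B e k S₁ y z₁).2 t ht r a hi, (hLab C e k S₂ y z₂).2 t ht r' a' hj⟩
  obtain ⟨⟨z01, s01⟩, ⟨z10, s10⟩⟩ := hb e11
  have e01 : m01 S₁.p S₂.p m = 0 := by
    by_cases hk : k < e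
    · exact hZM (k + 1) k B C _ z01 s01 (hS2 hk).1
    · refine hNerve2 e (k + 1) (k + 1) k (B + 1) (C + 1)
        (fun l i => {x | SM (S₁.h x.1) S₁.α (x.2 l) i})
        (fun l i => {x | LCell S₂ x.1 (x.2 l.castSucc) (x.2 l.succ) i})
        (fun l i => c1 l i) (fun l i => d3 _ _ i) (fun l i i' h => c2 l i i' h)
        (fun l i i' h => d4 _ _ i i' h) (fun y t ht => hG.g1 k (by omega) y t ht) _ z01 ?_
      intro a a' ha
      obtain ⟨r', hr'⟩ := R1_ne S₂.p _ _ ha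
      obtain ⟨y, z₁, z₂, t, ht, hi, hj⟩ := hR _ _ hr'
      exact ⟨y, t, ht, fun l => (hLab B e k S₁ y z₁).1 (t l) (a l) (hi l),
        (hLab C e k S₂ y z₂).2 t ht r' a' hj⟩
  have e10 : m10 S₁.p S₂.p m = 0 := by
    by_cases hk : k < e
    · exact hZM k (k + 1) B C _ z10 s10 (hS2 hk).2
    · refine hNerve2 e (k + 1) k (k + 1) (B + 1) (C + 1)
        (fun l i => {x | LCell S₁ x.1 (x.2 l.castSucc) (x.2 l.succ) i})
        (fun l i => {x | SM (S₂.h x.1) S₂.α (x.2 l) i})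
        (fun l i => c3 _ _ i) (fun l i => d1 l i) (fun l i i' h => c4 _ _ i i' h)
        (fun l i i' h => d2 l i i' h) (fun y t ht => hG.g1' k (by omega) y t ht) _ z10 ?_
      intro a a' ha
      have ha' : R1 S₁.p (fun i => m i (fun l => S₂.p.succAbove (a' l))) a ≠ 0 := ha
      obtain ⟨r, hr⟩ := R1_ne S₁.p _ _ ha'
      obtain ⟨y, z₁, z₂, t, ht, hi, hj⟩ := hR _ _ hr
      exact ⟨y, t, ht, (hLab B e k S₁ y z₁).2 t ht r a hi,
        fun l => (hLab C e k S₂ y z₂).1 (t l) (a' l) (hj l)⟩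
  obtain ⟨z00, s00⟩ := hc e11 e01 e10
  have e00 : m00 S₁.p S₂.p m = 0 := by
    refine hNerve2 e (k + 1) (k + 1) (k + 1) (B + 1) (C + 1)
      (fun l i => {x | SM (S₁.h x.1) S₁.α (x.2 l) i}) (fun l i => {x | SM (S₂.h x.1) S₂.α (x.2 l) i})
      (fun l i => c1 l i) (fun l i => d1 l i) (fun l i i' h => c2 l i i' h)
      (fun l i i' h => d2 l i i' h) (fun y t ht => hG.g0 (k + 1) hek y t ht) _ z00 ?_
    intro a a' ha
    obtain ⟨y, z₁, z₂, t, ht, hi, hj⟩ := hR _ _ ha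
    exact ⟨y, t, ht, fun l => (hLab B e k S₁ y z₁).1 (t l) (a l) (hi l),
      fun l => (hLab C e k S₂ y z₂).1 (t l) (a' l) (hj l)⟩
  exact hd e11 e01 e10 e00

end Pool.Agent.Lib.MP_4e7804_co.Tw
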