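import Pool.Agent.Lib.MP_4e7804_co.Tw.Marg

/-!
# The support
-/

set_option autoImplicit false

namespace Pool.Agent.Lib.MP_4e7804_co.Tw

namespace MomN

variable {Ω : Type} {X : Ω → ℕ → ℕ → ℝ} {b c : ℕ} [Fintype Ω] {φ : Ω → ℝ}

theorem mF_mono1 {k : ℕ} {i : Fin k → Fin (b + 1)} {j : Fin k → Fin (c + 1)}
    (h : mF φ X i j ≠ 0) : Monotone i := by
  intro l l' hll'
  by_contra hlt
  apply h
  unfold mF mm
  refine Finset.sum_eq_zero fun p _ => ?_
  have hne : l < l' := lt_of_le_of_ne hll' (fun h => by subst h; exact hlt le_rfl)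
  have : ¬ (StrictMono (fun l => (i l : ℕ) + sh (p l).1) ∧
      StrictMono fun l => (j l : ℕ) + sh (p l).2) := by
    rintro ⟨h1, _⟩
    have h2 := h1 hne
    have h3 := sh_le (p l').1
    have h4 : (i l' : ℕ) < i l := not_le.1 hlt
    simp only at h2
    omega
  rw [MM, if_neg this, mul_zero]

theorem mF_mono2 {k : ℕ} {i : Fin k → Fin (b + 1)} {j : Fin k → Fin (c + 1)}
    (h : mF φ X i j ≠ 0) : Monotone j := by
  intro l l' hll'
  by_contra hlt
  apply h
  unfold mF mm
  refine Finset.sum_eq_zero fun p _ => ?_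
  have hne : l < l' := lt_of_le_of_ne hll' (fun h => by subst h; exact hlt le_rfl)
  have : ¬ (StrictMono (fun l => (i l : ℕ) + sh (p l).1) ∧
      StrictMono fun l => (j l : ℕ) + sh (p l).2) := by
    rintro ⟨_, h1⟩
    have h2 := h1 hne
    have h3 := sh_le (p l').2
    have h4 : (j l' : ℕ) < j l := not_le.1 hlt
    simp only at h2
    omega
  rw [MM, if_neg this, mul_zero]

theorem Wt_eq (X : ℕ → ℕ → ℝ) (i j : ℕ) :
    Wt X i j = ∑ q : Bool × Bool, sg q.1 * sg q.2 * X (i + sh q.1) (j + sh q.2) := by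
  rw [Fintype.sum_prod_type]
  simp only [Fintype.sum_bool, sg, sh, if_true, Bool.false_eq_true, if_false, add_zero, Wt]
  ring

theorem mF_eq (hX : ∀ s, XF b c (X s)) {k : ℕ} (hV : Van φ X b c k) {i : Fin k → Fin (b + 1)}
    {j : Fin k → Fin (c + 1)} (hi : Monotone i) (hj : Monotone j)
    (hne : ∀ l l', l ≠ l' → i l = i l' → j l ≠ j l') :
    mF φ X i j = ∑ s, φ s * ∏ l, Wt (X s) (i l) (j l) := by
  have e1 : ∀ s, ∏ l, Wt (X s) (i l) (j l) = ∑ p : Fin k → Bool × Bool,
      (∏ l, sg (p l).1 * sg (p l).2) * ∏ l, X s (i l + sh (p l).1) (j l + sh (p l).2) := by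
    intro s
    rw [Finset.prod_congr rfl fun l _ => Wt_eq (X s) (i l) (j l), Finset.prod_univ_sum,
      Fintype.piFinset_univ]
    refine Finset.sum_congr rfl fun p _ => ?_
    rw [← Finset.prod_mul_distrib]
  rw [Finset.sum_congr rfl fun s _ => by rw [e1 s, Finset.mul_sum], Finset.sum_comm]
  unfold mF mm
  refine Finset.sum_congr rfl fun p _ => ?_
  have e2 : ∑ s, φ s * ((∏ l, sg (p l).1 * sg (p l).2) *
      ∏ l, X s (i l + sh (p l).1) (j l + sh (p l).2)) = (∏ l, sg (p l).1 * sg (p l).2) *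
      SS φ X (fun l => i l + sh (p l).1) (fun l => j l + sh (p l).2) := by
    rw [SS, Finset.mul_sum]
    refine Finset.sum_congr rfl fun s _ => ?_
    ring
  rw [e2]
  congr 1
  unfold MM
  split_ifs with h
  · rfl
  -- not both are strictly increasing
  symm
  have hI : ∀ l, (i l : ℕ) + sh (p l).1 ≤ b + 1 := fun l => by
    have := sh_le (p l).1
    omega
  have hJ : ∀ l, (j l : ℕ) + sh (p l).2 ≤ c + 1 := fun l => by
    have := sh_le (p l).2
    omega
  have h1 : ∃ l l', l < l' ∧ ((i l' : ℕ) + sh (p l').1 ≤ i l + sh (p l).1 ∨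
      (j l' : ℕ) + sh (p l').2 ≤ j l + sh (p l).2) := by
    by_contra hcon
    push Not at hcon
    exact h ⟨fun l l' hll' => (hcon l l' hll').1, fun l l' hll' => (hcon l l' hll').2⟩
  obtain ⟨l, l', hll', h2⟩ := h1
  have a1 := sh_le (p l).1
  have a2 := sh_le (p l).2
  have a3 := sh_le (p l').1
  have a4 := sh_le (p l').2
  have a5 : (i l : ℕ) ≤ i l' := hi hll'.le
  have a6 : (j l : ℕ) ≤ j l' := hj hll'.le
  have a7 : ¬ ((i l : ℕ) = i l' ∧ (j l : ℕ) = j l') := fun h =>
    hne l l' hll'.ne (Fin.ext h.1) (Fin.ext h.2)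
  by_cases h3 : (i l' : ℕ) + sh (p l').1 ≤ i l + sh (p l).1
  · by_cases h4 : (j l : ℕ) + sh (p l).2 ≤ j l' + sh (p l').2
    · exact SS_cmp hX hV _ _ hI hJ l' l hll'.ne' h3 h4
    · refine SS_cmp hX hV _ _ hI hJ l l' hll'.ne ?_ (by omega)
      by_contra h5
      exact a7 ⟨by omega, by omega⟩
  · refine SS_cmp hX hV _ _ hI hJ l l' hll'.ne ?_ ?_
    · omega
    · rcases h2 with h2 | h2 <;> omega

theorem supp_aux (hX : ∀ s, XF b c (X s)) {k : ℕ} (hV : Van φ X b c k) (j : Fin k → Fin (c + 1)) :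
    ∀ (N : ℕ) (i : Fin k → Fin (b + 1)), ∑ l, (i l : ℕ) = N → mF φ X i j ≠ 0 →
      ∃ s, φ s ≠ 0 ∧ ∀ l, Wt (X s) (i l) (j l) ≠ 0 := by
  intro N
  induction N using Nat.strong_induction_on with
  | _ N ih =>
    intro i hN hm
    have hi := mF_mono1 hm
    have hj := mF_mono2 hm
    by_cases h1 : ∀ l l', l ≠ l' → i l = i l' → j l ≠ j l'
    · rw [mF_eq hX hV hi hj h1] at hm
      obtain ⟨s, _, hs⟩ := Finset.exists_ne_zero_of_sum_ne_zero hm
      refine ⟨s, fun h => hs (by rw [h, zero_mul]), fun l hl => hs ?_⟩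
      rw [Finset.prod_eq_zero (Finset.mem_univ l) hl, mul_zero]
    push Not at h1
    -- two equal points with the first index smaller
    obtain ⟨l, l', hll', e1, e2⟩ : ∃ l l' : Fin k, l < l' ∧ i l = i l' ∧ j l = j l' := by
      obtain ⟨l, l', hne, e1, e2⟩ := h1
      rcases lt_or_gt_of_ne hne with h | h
      · exact ⟨l, l', h, e1, e2⟩
      · exact ⟨l', l, h, e1.symm, e2.symm⟩
    have hz := marg1 (b := b) hX hV j l i
    obtain ⟨x, hx, hmx⟩ : ∃ x, x ≠ i l ∧ mF φ X (Function.update i l x) j ≠ 0 := by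
      by_contra hcon
      push Not at hcon
      rw [Finset.sum_eq_single (i l) (fun x _ hx => hcon x hx)
        (fun h => absurd (Finset.mem_univ _) h), Function.update_eq_self] at hz
      exact hm hz
    have hxm := mF_mono1 hmx
    have hxl : x < i l := by
      refine lt_of_le_of_ne ?_ hx
      have := hxm hll'.le
      rw [Function.update_self, Function.update_of_ne hll'.ne'] at this
      rw [e1]
      exact this
    have hlt : ∑ y, ((Function.update i l x y : Fin (b + 1)) : ℕ) < N := by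
      rw [← hN]
      refine Finset.sum_lt_sum (fun y _ => ?_) ⟨l, Finset.mem_univ _, ?_⟩
      · by_cases hy : y = l
        · subst hy
          rw [Function.update_self]
          exact hxl.le
        · rw [Function.update_of_ne hy]
      · rw [Function.update_self]
        exact hxl
    obtain ⟨s, hs, hw⟩ := ih _ hlt (Function.update i l x) rfl hmx
    refine ⟨s, hs, fun y => ?_⟩
    by_cases hy : y = l
    · subst hy
      have := hw l'
      rw [Function.update_of_ne hll'.ne'] at this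
      rw [e1, e2]
      exact this
    · have := hw y
      rw [Function.update_of_ne hy] at this
      exact this

end MomN

open MomN in
theorem tSupp (_ : StmtMarg) : StmtSupp := fun _ _ _ _ _ _ hX _ hV i j hm =>
  ⟨mF_mono1 hm, mF_mono2 hm, supp_aux hX hV j _ i rfl hm⟩

end Pool.Agent.Lib.MP_4e7804_co.Tw
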