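import Pool.Agent.Lib.MP_4e7804_co.Tw.Spec

/-!
# Existence of thresholds
-/

set_option autoImplicit false

namespace Pool.Agent.Lib.MP_4e7804_co.Tw

namespace ThrN

variable {b : ℕ} {f α : Fin (b + 1) → ℝ}

/-- the time of the tie of two labels -/
noncomputable def D (f α : Fin (b + 1) → ℝ) (l r : Fin (b + 1)) : ℝ := (f r - f l) / (α l - α r)

theorem D_le (hα : StrictAnti α) {l r : Fin (b + 1)} (h : l < r) (t : ℝ) :
    D f α l r ≤ t ↔ f r + α r * t ≤ f l + α l * t := by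
  have h1 : 0 < α l - α r := sub_pos.2 (hα h)
  rw [D, div_le_iff₀ h1]
  constructor <;> intro h2 <;> nlinarith

theorem le_D (hα : StrictAnti α) {l r : Fin (b + 1)} (h : l < r) (t : ℝ) :
    t ≤ D f α l r ↔ f l + α l * t ≤ f r + α r * t := by
  have h1 : 0 < α l - α r := sub_pos.2 (hα h)
  rw [D, le_div_iff₀ h1]
  constructor <;> intro h2 <;> nlinarith

theorem exT (hα : StrictAnti α) (I : ℕ) (h1 : 1 ≤ I) (h2 : I ≤ b) :
    ∃ s : ℝ, (∀ t, s ≤ t ↔ ∃ r : Fin (b + 1), I ≤ (r : ℕ) ∧ ∀ l : Fin (b + 1), (l : ℕ) < I →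
      f r + α r * t ≤ f l + α l * t) ∧
      ∃ l r : Fin (b + 1), (l : ℕ) < I ∧ I ≤ (r : ℕ) ∧ LM f α s l ∧ LM f α s r := by
  classical
  let A : Finset (Fin (b + 1)) := Finset.univ.filter fun l => (l : ℕ) < I
  let B : Finset (Fin (b + 1)) := Finset.univ.filter fun r => I ≤ (r : ℕ)
  have hA : ∀ l, l ∈ A ↔ (l : ℕ) < I := fun l => by simp [A]
  have hB : ∀ l, l ∈ B ↔ I ≤ (l : ℕ) := fun l => by simp [B]
  have hlt : ∀ l ∈ A, ∀ r ∈ B, l < r := fun l hl r hr => by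
    have h3 := (hA l).1 hl
    have h4 := (hB r).1 hr
    exact Fin.lt_def.2 (by omega)
  have hAne : A.Nonempty := ⟨0, (hA 0).2 (by simpa using (show 0 < I by omega))⟩
  have hBne : B.Nonempty := ⟨Fin.last b, (hB _).2 (by simpa using h2)⟩
  let m : Fin (b + 1) → ℝ := fun r => A.sup' hAne fun l => D f α l r
  obtain ⟨r0, hr0, hmin⟩ := Finset.exists_min_image B m hBne
  obtain ⟨l0, hl0, hl0m⟩ := Finset.exists_mem_eq_sup' hAne (fun l => D f α l r0)
  have hm : m r0 = D f α l0 r0 := hl0m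
  have hr0' := (hB r0).1 hr0
  have hl0' := (hA l0).1 hl0
  have hle : ∀ r ∈ B, ∀ l ∈ A, D f α l r ≤ m r := fun r _ l hl =>
    Finset.le_sup' (fun l => D f α l r) hl
  have hr0s : ∀ l ∈ A, f r0 + α r0 * m r0 ≤ f l + α l * m r0 := fun l hl =>
    (D_le hα (hlt l hl r0 hr0) _).1 (hle r0 hr0 l hl)
  have hLMr : LM f α (m r0) r0 := by
    intro r'
    rcases lt_or_ge (r' : ℕ) I with h | h
    · exact hr0s r' ((hA r').2 h)
    · obtain ⟨l', hl', hl'm⟩ := Finset.exists_mem_eq_sup' hAne (fun l => D f α l r')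
      have h3 : m r' = D f α l' r' := hl'm
      have h4 : m r0 ≤ D f α l' r' := h3 ▸ hmin r' ((hB r').2 h)
      exact (hr0s l' hl').trans ((le_D hα (hlt l' hl' r' ((hB r').2 h)) _).1 h4)
  have heq : f l0 + α l0 * m r0 = f r0 + α r0 * m r0 :=
    le_antisymm ((le_D hα (hlt l0 hl0 r0 hr0) _).1 hm.le) (hr0s l0 hl0)
  refine ⟨m r0, fun t => ⟨fun ht => ⟨r0, hr0', fun l hl => ?_⟩, ?_⟩,
    l0, r0, hl0', hr0', ?_, hLMr⟩
  · exact (D_le hα (hlt l ((hA l).2 hl) r0 hr0) _).1 ((hle r0 hr0 l ((hA l).2 hl)).trans ht)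
  · rintro ⟨r, hr, hrl⟩
    refine (hmin r ((hB r).2 hr)).trans ?_
    refine Finset.sup'_le hAne _ fun l hl => ?_
    exact (D_le hα (hlt l hl r ((hB r).2 hr)) _).2 (hrl l ((hA l).1 hl))
  · intro r'
    rw [heq]
    exact hLMr r'

end ThrN

open ThrN in
theorem tThr : StmtThr := by
  classical
  intro b f α hα
  choose! σ hσ using fun I : ℕ => fun h : 1 ≤ I ∧ I ≤ b => exT (f := f) hα I h.1 h.2
  refine ⟨σ, ?_, ?_, ?_⟩
  · intro I h1 h2
    rw [(hσ I ⟨h1, h2.le⟩).1]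
    obtain ⟨r, hr, hrl⟩ := ((hσ (I + 1) ⟨by omega, h2⟩).1 _).1 le_rfl
    exact ⟨r, by omega, fun l hl => hrl l (by omega)⟩
  · intro i t h1 h2
    have hcl : ∀ s, LM f α t s → s = i := by
      intro s hs
      rcases lt_trichotomy (s : ℕ) (i : ℕ) with h | h | h
      · exfalso
        have hib : 1 ≤ (i : ℕ) := by omega
        have hlt := h1 hib
        obtain ⟨r, hr, hrl⟩ := ((hσ i ⟨hib, by have := i.2; omega⟩).1 _).1 le_rfl
        have h3 := hrl s h
        have h4 : α r < α s := hα (Fin.lt_def.2 (by omega))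
        have h5 := hs r
        nlinarith
      · exact Fin.ext h
      · exfalso
        have hib : (i : ℕ) < b := by have := s.2; omega
        have hlt := h2 hib
        have h3 : ¬ σ (i + 1) ≤ t := not_le.2 hlt
        rw [(hσ (i + 1) ⟨by omega, hib⟩).1] at h3
        exact h3 ⟨s, h, fun l _ => hs l⟩
    obtain ⟨r0, hr0⟩ := Finite.exists_min (fun r => f r + α r * t)
    have hi : LM f α t i := by
      rw [← hcl r0 hr0]
      exact hr0
    intro r hr
    refine lt_of_le_of_ne (hi r) fun h => hr (hcl r fun s => ?_)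
    rw [← h]
    exact hi s
  · intro I h1 h2
    exact (hσ I ⟨h1, h2⟩).2

end Pool.Agent.Lib.MP_4e7804_co.Tw
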