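import Pool.Agent.Lib.MP_4e7804_co.Tw.Spec

/-! MP_4e7804_co, Tw/Two: two minimal paths from a common break. -/

set_option autoImplicit false

namespace Pool.Agent.Lib.MP_4e7804_co.Tw

namespace TwoN

theorem exists_min {b c : ℕ} (f α : Fin (b + 1) → ℝ) (g β : Fin (c + 1) → ℝ) :
    ∃ x : Fin c → Fin (b + 1), PMin f α g β x := by
  haveI : Nonempty {x : Fin c → Fin (b + 1) // Monotone x} :=
    ⟨⟨fun _ => 0, monotone_const⟩⟩
  obtain ⟨x, hx⟩ := Finite.exists_min
    (fun x : {x : Fin c → Fin (b + 1) // Monotone x} => Pot f α g β x.1)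
  exact ⟨x.1, x.2, fun x' hx' => hx ⟨x', hx'⟩⟩

theorem min_rer (hExch : StmtExch) {b c : ℕ} (f α : Fin (b + 1) → ℝ) (g β : Fin (c + 1) → ℝ)
    (hα : Antitone α) (hβ : Antitone β) (t : ℝ) (i : Fin (b + 1)) (j : Fin (c + 1))
    (hi : LM f α t i) (hj : LM g β t j) (x : Fin c → Fin (b + 1)) (hx : PMin f α g β x) :
    PMin f α g β (rer i j x) := by
  obtain ⟨h1, h2⟩ := hExch b c f α g β hα hβ t i j hi hj x hx.1
  exact ⟨h1, fun x' hx' => h2.trans (hx.2 x' hx')⟩

end TwoN

open TwoN in
theorem tTwo (hExch : StmtExch) : StmtTwo := by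
  intro b c f α g β hα hβ t i i' j j' hi hj h1 h2 h3 h4
  obtain ⟨D₀, hD₀⟩ := exists_min f α g β
  have m1 := min_rer hExch f α g β hα hβ t i' j' h2 h4 D₀ hD₀
  have m2 := min_rer hExch f α g β hα hβ t i j h1 h3 _ m1
  refine ⟨rer i' j (rer i j (rer i' j' D₀)), rer i j' (rer i j (rer i' j' D₀)),
    min_rer hExch f α g β hα hβ t i' j h2 h3 _ m2, min_rer hExch f α g β hα hβ t i j' h1 h4 _ m2, ?_⟩
  intro k
  have hj' : (j : ℕ) < j' := hj
  split_ifs with h
  · have e1 : rer i' j' D₀ k = min (D₀ k) i' := by
      unfold rer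
      rw [if_pos h.2]
    have e2 : rer i j (rer i' j' D₀) k = max (min (D₀ k) i') i := by
      rw [← e1]
      show (if (k : ℕ) < j then _ else _) = _
      rw [if_neg (by omega)]
    constructor
    · show (if (k : ℕ) < j then _ else _) = _
      rw [if_neg (by omega), e2]
      exact max_eq_right (max_le (min_le_right _ _) hi.le)
    · show (if (k : ℕ) < j' then _ else _) = _
      rw [if_pos h.2, e2]
      exact min_eq_right (le_max_right _ _)
  · rcases Nat.lt_or_ge k j with hk | hk
    · have e2 : rer i j (rer i' j' D₀) k ≤ i := by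
        show (if (k : ℕ) < j then _ else _) ≤ _
        rw [if_pos hk]
        exact min_le_right _ _
      have e3 : rer i' j (rer i j (rer i' j' D₀)) k = rer i j (rer i' j' D₀) k := by
        show (if (k : ℕ) < j then _ else _) = _
        rw [if_pos hk]
        exact min_eq_left (e2.trans hi.le)
      have e4 : rer i j' (rer i j (rer i' j' D₀)) k = rer i j (rer i' j' D₀) k := by
        show (if (k : ℕ) < j' then _ else _) = _
        rw [if_pos (by omega)]
        exact min_eq_left e2
      rw [e3, e4]
    · have hk' : (j' : ℕ) ≤ k := by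
        by_contra hcon
        exact h ⟨hk, by omega⟩
      have e2 : i' ≤ rer i j (rer i' j' D₀) k := by
        show i' ≤ if (k : ℕ) < j then _ else _
        rw [if_neg (by omega)]
        refine le_trans ?_ (le_max_left _ _)
        show i' ≤ if (k : ℕ) < j' then _ else _
        rw [if_neg (by omega)]
        exact le_max_right _ _
      have e3 : rer i' j (rer i j (rer i' j' D₀)) k = rer i j (rer i' j' D₀) k := by
        show (if (k : ℕ) < j then _ else _) = _
        rw [if_neg (by omega)]
        exact max_eq_left e2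
      have e4 : rer i j' (rer i j (rer i' j' D₀)) k = rer i j (rer i' j' D₀) k := by
        show (if (k : ℕ) < j' then _ else _) = _
        rw [if_neg (by omega)]
        exact max_eq_left (hi.le.trans e2)
      rw [e3, e4]

end Pool.Agent.Lib.MP_4e7804_co.Tw
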