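import Pool.Agent.Lib.MP_4e7804_co.Tw.Spec2

set_option autoImplicit false

open Finset

namespace Pool.Agent.Lib.MP_4e7804_co.Tw

namespace UBN

variable {B C e n : ℕ}

theorem f_lin (S : Side B e) (a a' : ℝ) (y y' : Fin e → ℝ) (z z' : ℝ) (r : Fin (B + 2)) :
    S.f (fun l => a * y l + a' * y' l) (a * z + a' * z') r = a * S.f y z r + a' * S.f y' z' r := by
  unfold Side.f
  refine Fin.succAboveCases S.p ?_ (fun i => ?_) r
  · simp only [Fin.insertNth_apply_same]
  · simp only [Fin.insertNth_apply_succAbove]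
    unfold Side.h
    simp only [dotProduct, mul_add]
    rw [Finset.sum_add_distrib, Finset.mul_sum, Finset.mul_sum]
    congr 1 <;> exact Finset.sum_congr rfl fun l _ => by ring

theorem spot_lin (S₁ : Side B e) (S₂ : Side C e) (ι : Fin e → Fin n) (i₀ i₁ : Fin n) (a a' : ℝ)
    (z z' : Fin n → ℝ) (x : Fin (C + 1) → Fin (B + 2)) :
    SPot S₁ S₂ (pt ι i₀ i₁ (fun i => a * z i + a' * z' i)) x =
      a * SPot S₁ S₂ (pt ι i₀ i₁ z) x + a' * SPot S₁ S₂ (pt ι i₀ i₁ z') x := by
  unfold SPot Pot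
  rw [mul_sum, mul_sum, ← sum_add_distrib]
  refine sum_congr rfl fun j _ => ?_
  simp only [pt, f_lin]
  ring

theorem lin_sum (L : (Fin n → ℝ) → ℝ)
    (h : ∀ (s s' : ℝ) (w w' : Fin n → ℝ), L (fun i => s * w i + s' * w' i) = s * L w + s' * L w')
    (w : Fin n → ℝ) : L w = ∑ k, L (Pi.single k 1) * w k := by
  let Lm : (Fin n → ℝ) →ₗ[ℝ] ℝ :=
    { toFun := L
      map_add' := by
        intro x y
        have := h 1 1 x y
        simp only [one_mul] at this
        exact this
      map_smul' := by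
        intro c x
        have := h c 0 x x
        simp only [zero_mul, add_zero] at this
        exact this }
  have h1 := Lm.pi_apply_eq_sum_univ w
  have h2 : Lm w = L w := rfl
  rw [← h2, h1]
  refine sum_congr rfl fun k _ => ?_
  have h3 : (fun j => if k = j then (1 : ℝ) else 0) = Pi.single k 1 := by
    funext j
    rw [Pi.single_apply]
    simp only [eq_comm]
  rw [h3, smul_eq_mul, mul_comm]
  rfl

theorem bd_two (e b c : ℕ) (he : 1 ≤ e) (hb : 1 ≤ b) (hc : 1 ≤ c) : 2 ≤ bd e b c := by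
  unfold bd
  have h1 : ({0, 1} : Finset ℕ) ⊆ range (e + 1) := by
    intro x hx
    simp only [mem_insert, mem_singleton] at hx
    rw [mem_range]
    omega
  calc 2 ≤ 1 + b * c := by nlinarith
    _ = ∑ k ∈ ({0, 1} : Finset ℕ), b.choose k * c.choose k := by
        rw [sum_pair (by decide)]
        simp
    _ ≤ _ := sum_le_sum_of_subset h1

end UBN

open UBN in
theorem tUB (hModel : StmtModel) (hSemi : StmtSemi) (hTropA : StmtTropA) : StmtUB := by
  intro d v N i₀ i₁ hd hne hv hN
  classical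
  rcases hModel d v N i₀ i₁ (by omega) hne hv hN with h |
    ⟨B, C, S₁, S₂, ι, E, hB, hC, hA1, hA2, hF1, hF2, hι, hι', hT, hNum⟩
  · refine h.trans (bd_two _ _ _ (by omega) ?_ ?_)
    · obtain ⟨P, c, F, hP, hv', -⟩ := hN
      obtain ⟨-, -, A, hA, hAc, -⟩ := exists_vertices (P i₀) (hP i₀)
      rw [← hv' i₀, ← hAc]
      exact hA.card_pos
    · obtain ⟨P, c, F, hP, hv', -⟩ := hN
      obtain ⟨-, -, A, hA, hAc, -⟩ := exists_vertices (P i₁) (hP i₁)
      rw [← hv' i₁, ← hAc]
      exact hA.card_pos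
  set img : (Fin (d + 1) →₀ ℕ) → (Fin (d + 1) → ℝ) := fun a i => (a i : ℝ) with himg
  have hinj : Function.Injective img := by
    intro a b hab
    ext i
    have := congrFun hab i
    simp only [himg] at this
    exact_mod_cast this
  set S : Finset (Fin (d + 1) → ℝ) := E.image img with hS
  have hSE : img '' (E : Set (Fin (d + 1) →₀ ℕ)) = (S : Set (Fin (d + 1) → ℝ)) := by
    rw [hS, Finset.coe_image]
  rw [hSE] at hNum
  -- the forms
  let Sp : (Fin (d + 1) → ℝ) → (Fin (C + 1) → Fin (B + 2)) → ℝ := fun z x => SPot S₁ S₂ (pt ι i₀ i₁ z) x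
  let μ : (Fin (C + 1) → Fin (B + 2)) × (Fin (C + 1) → Fin (B + 2)) → Fin (d + 1) → ℝ := fun q k =>
    Sp (Pi.single k 1) q.1 - Sp (Pi.single k 1) q.2
  have hμ : ∀ q w, Sp w q.1 - Sp w q.2 = ∑ k, μ q k * w k := by
    intro q w
    exact lin_sum (fun w => Sp w q.1 - Sp w q.2) (fun s s' w w' => by
      show SPot S₁ S₂ (pt ι i₀ i₁ _) q.1 - SPot S₁ S₂ (pt ι i₀ i₁ _) q.2 =
        s * (SPot S₁ S₂ (pt ι i₀ i₁ w) q.1 - SPot S₁ S₂ (pt ι i₀ i₁ w) q.2) +
        s' * (SPot S₁ S₂ (pt ι i₀ i₁ w') q.1 - SPot S₁ S₂ (pt ι i₀ i₁ w') q.2)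
      rw [spot_lin, spot_lin]
      ring) w
  let Fz : (Fin (d + 1) → ℝ) → Fin (B + 2) → ℝ := fun z => S₁.f (pt ι i₀ i₁ z).1 (z i₀)
  let ν : Fin (B + 2) × Fin (B + 2) → Fin (d + 1) → ℝ := fun q k =>
    Fz (Pi.single k 1) q.1 - Fz (Pi.single k 1) q.2
  have hν : ∀ q w, Fz w q.1 - Fz w q.2 = ∑ k, ν q k * w k := by
    intro q w
    exact lin_sum (fun w => Fz w q.1 - Fz w q.2) (fun s s' w w' => by
      show S₁.f (fun l => s * w (ι l) + s' * w' (ι l)) (s * w i₀ + s' * w' i₀) q.1 -
        S₁.f (fun l => s * w (ι l) + s' * w' (ι l)) (s * w i₀ + s' * w' i₀) q.2 =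
        s * (S₁.f (fun l => w (ι l)) (w i₀) q.1 - S₁.f (fun l => w (ι l)) (w i₀) q.2) +
        s' * (S₁.f (fun l => w' (ι l)) (w' i₀) q.1 - S₁.f (fun l => w' (ι l)) (w' i₀) q.2)
      rw [f_lin, f_lin]
      ring) w
  let l0 : Fin (d - 1) := ⟨0, by omega⟩
  let Hy : Finset (Fin (d + 1) → ℝ) := ((univ.image μ) ∪ (univ.image ν) ∪ {Pi.single (ι l0) 1}).filter
    fun m => m ≠ 0
  have hHy : ∀ m ∈ Hy, m ≠ 0 := fun m hm => (mem_filter.1 hm).2
  have hdir := fun α (hα : α ∈ (convexHull ℝ (S : Set (Fin (d + 1) → ℝ))).extremePoints ℝ) =>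
    exists_dir S Hy hHy α hα
  have hEsub : (convexHull ℝ (S : Set (Fin (d + 1) → ℝ))).extremePoints ℝ ⊆
      (S : Set (Fin (d + 1) → ℝ)) := fun α hα => (hdir α hα).1
  have hEfin := S.finite_toSet.subset hEsub
  let Ω : Type := ↥((convexHull ℝ (S : Set (Fin (d + 1) → ℝ))).extremePoints ℝ)
  let : Fintype Ω := hEfin.fintype
  have hcard : Fintype.card Ω = N := by
    rw [← hNum]
    unfold numVertices
    rw [← Nat.card_eq_fintype_card]
    rfl
  have hdir' := fun α : Ω => hdir α.1 α.2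
  choose hmem u hu hu' using hdir'
  have hpre : ∀ α : Ω, ∃ a ∈ E, img a = α.1 := fun α => by
    obtain ⟨a, ha, h⟩ := mem_image.1 (hmem α)
    exact ⟨a, ha, h⟩
  choose a haE haα using hpre
  have hrep : ∀ α : Ω, Rep S₁ S₂ ι i₀ i₁ E (u α) (a α) := by
    intro α
    refine ⟨haE α, ?_, ?_, ?_⟩
    · intro β hβ hβα
      have h1 := hu α (img β) (mem_image_of_mem _ hβ) (fun h => hβα (hinj (h.trans (haα α).symm)))
      rw [← haα α] at h1
      have h2 : ((∑ i, ((a α) i : ℚ) * u α i : ℚ) : ℝ) < ((∑ i, (β i : ℚ) * u α i : ℚ) : ℝ) := by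
        push_cast
        exact h1
      exact_mod_cast h2
    · intro x x'
      by_cases h0 : μ (x, x') = 0
      · left
        intro z
        have h1 := hμ (x, x') z
        rw [h0] at h1
        simp only [Pi.zero_apply, zero_mul, sum_const_zero] at h1
        exact sub_eq_zero.1 h1
      · right
        have h1 := hu' α (μ (x, x')) (mem_filter.2 ⟨mem_union_left _ (mem_union_left _
          (mem_image_of_mem _ (mem_univ _))), h0⟩)
        intro h2
        apply h1
        have h3 := hμ (x, x') (rl (u α))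
        have h4 : Sp (rl (u α)) (x, x').1 - Sp (rl (u α)) (x, x').2 = 0 := sub_eq_zero.2 h2
        rw [h4] at h3
        exact h3.symm
    · intro i i' hii hsl
      have h0 : ν (i, i') ≠ 0 := by
        intro h0
        obtain ⟨y, z, hyz⟩ := hF1 i i' hii hsl
        apply hyz
        have h1 := hν (i, i') (Function.extend ι y (fun _ => z))
        rw [h0] at h1
        simp only [Pi.zero_apply, zero_mul, sum_const_zero] at h1
        have h2 : (pt ι i₀ i₁ (Function.extend ι y (fun _ => z))).1 = y := by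
          funext l
          show Function.extend ι y (fun _ => z) (ι l) = y l
          exact hι.extend_apply y _ l
        have h3 : Function.extend ι y (fun _ => z) i₀ = z := by
          rw [Function.extend_apply']
          rintro ⟨l, hl⟩
          exact (hι' l).1 hl
        have h4 : Fz (Function.extend ι y (fun _ => z)) = S₁.f y z := by
          show S₁.f (pt ι i₀ i₁ (Function.extend ι y (fun _ => z))).1
            (Function.extend ι y (fun _ => z) i₀) = S₁.f y z
          rw [h2, h3]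
        rw [h4] at h1
        exact sub_eq_zero.1 h1
      have h1 := hu' α (ν (i, i')) (mem_filter.2 ⟨mem_union_left _ (mem_union_right _
        (mem_image_of_mem _ (mem_univ _))), h0⟩)
      intro h2
      apply h1
      have h3 := hν (i, i') (rl (u α))
      have h4 : Fz (rl (u α)) (i, i').1 - Fz (rl (u α)) (i, i').2 = 0 := sub_eq_zero.2 h2
      rw [h4] at h3
      exact h3.symm
  rw [← hcard, hB, hC]
  refine hSemi B C (d - 1) S₁ S₂ (by omega) hA1 hA2 Ω _ (fun α => pt ι i₀ i₁ (rl (u α))) ?_ ?_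
  · intro α h0
    have h1 := hu' α (Pi.single (ι l0) 1) (mem_filter.2 ⟨mem_union_right _ (mem_singleton_self _), by
      intro h
      have := congrFun h (ι l0)
      rw [Pi.single_eq_same] at this
      exact one_ne_zero this⟩)
    apply h1
    have h2 : u α (ι l0) = 0 := by
      have := congrFun h0 l0
      have h3 : ((u α (ι l0) : ℚ) : ℝ) = 0 := this
      exact_mod_cast h3
    rw [Finset.sum_eq_single (ι l0)]
    · rw [Pi.single_eq_same, h2]
      simp
    · intro b _ hb
      rw [Pi.single_eq_of_ne hb, zero_mul]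
    · intro h
      exact absurd (mem_univ _) h
  · intro α α' x hx hx'
    by_contra hne'
    refine hTropA B C (d - 1) (d + 1) S₁ S₂ ι i₀ i₁ E hA1 hA2 hT (u α) (u α') (a α) (a α') ?_
      (hrep α) (hrep α') ⟨x, hx, hx'⟩
    intro h
    apply hne'
    apply Subtype.ext
    rw [← haα α, ← haα α', h]

end Pool.Agent.Lib.MP_4e7804_co.Tw
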