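import Pool.Agent.Lib.MP_4e7804_co.Tw.Spec

/-!
# The matrix of a path
-/

set_option autoImplicit false

namespace Pool.Agent.Lib.MP_4e7804_co.Tw

namespace XFXN

theorem thr_mono {b : ℕ} {f α : Fin (b + 1) → ℝ} {σ : ℕ → ℝ} (h : IsThr f α σ) :
    ∀ I I', 1 ≤ I → I ≤ I' → I' ≤ b → σ I ≤ σ I' := by
  intro I I' hI hII' hI'
  induction I', hII' using Nat.le_induction with
  | base => exact le_rfl
  | succ n hn ih => exact (ih (by omega)).trans (h.mono n (by omega) (by omega))

end XFXN

open XFXN in
theorem tXFX : StmtXFX := by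
  intro b c f α g β σ τ hσ hτ
  refine ⟨?_, ?_, ?_, ?_, ?_, ?_, ?_⟩
  · intro I J
    unfold X
    split_ifs <;> simp
  · intro I I' J J' hI hI' hJ hJ'
    unfold X
    split_ifs with h1 h2 h3 h4 h5 h6 h7 h8 h9 h10 h11 h12 h13 h14 h15 h16 h17 h18 h19 h20 <;>
      first
        | (exfalso; omega)
        | (norm_num; done)
        | skip
    all_goals
      exfalso
      have e1 := thr_mono hσ I I' (by omega) hI (by omega)
      have e2 := thr_mono hτ J' J (by omega) hJ (by omega)
      linarith
  · intro J
    unfold X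
    simp
  · intro J hJ
    unfold X
    simp [not_lt.2 hJ]
  · unfold X
    simp
  · intro I h1 h2
    unfold X
    rw [if_neg (by omega)]
    split_ifs with h3 h4 <;> first | rfl | (exfalso; omega)
  · intro I h
    unfold X
    split_ifs <;> first | rfl | (exfalso; omega)

end Pool.Agent.Lib.MP_4e7804_co.Tw
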