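import Pool.Agent.Lib.MP_4e7804_co.Tw.Spec

set_option autoImplicit false

open Finset

namespace Pool.Agent.Lib.MP_4e7804_co.Tw

namespace ZMN

/-- a position where the tuple can only be increased -/
theorem pos {k n : ℕ} (i : Fin k → Fin (n + 1)) (hi : Monotone i)
    (h : ¬ (StrictMono i ∧ ∀ l, i l ≠ 0)) :
    ∃ l, ∀ x, Monotone (Function.update i l x) → i l ≤ x := by
  by_cases hs : StrictMono i
  · have h0 : ∃ l, i l = 0 := by
      by_contra hcon
      push Not at hcon
      exact h ⟨hs, hcon⟩
    obtain ⟨l, hl⟩ := h0
    exact ⟨l, fun x _ => by rw [hl]; exact Fin.zero_le x⟩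
  · rw [StrictMono] at hs
    push Not at hs
    obtain ⟨l, l', hll, hle⟩ := hs
    refine ⟨l', fun x hx => ?_⟩
    have h1 := hx hll.le
    rw [Function.update_self, Function.update_of_ne hll.ne] at h1
    exact hle.trans h1

theorem sum_upd {k n : ℕ} (i : Fin k → Fin (n + 1)) (l : Fin k) (x : Fin (n + 1)) (h : i l < x) :
    ∑ r, (i r : ℕ) < ∑ r, ((Function.update i l x r : Fin (n + 1)) : ℕ) := by
  classical
  refine Finset.sum_lt_sum (fun r _ => ?_) ⟨l, mem_univ _, ?_⟩
  · by_cases hr : r = l
    · rw [hr, Function.update_self]
      exact le_of_lt h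
    · rw [Function.update_of_ne hr]
  · rw [Function.update_self]
    exact h

theorem sum_le' {k n : ℕ} (i : Fin k → Fin (n + 1)) : ∑ r, (i r : ℕ) ≤ k * n := by
  calc ∑ r, (i r : ℕ) ≤ ∑ _r : Fin k, n := sum_le_sum fun r _ => by
        have := (i r).2
        omega
    _ = k * n := by simp

end ZMN

open ZMN in
theorem tZM : StmtZM := by
  intro k k' n n' m hz hm h0
  classical
  have key : ∀ (N : ℕ) (i : Fin k → Fin (n + 1)) (j : Fin k' → Fin (n' + 1)),
      k * n + k' * n' ≤ ∑ r, (i r : ℕ) + ∑ r, (j r : ℕ) + N → m i j = 0 := by
    intro N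
    induction N using Nat.strong_induction_on with
    | _ N ih =>
      intro i j hN
      by_contra hne
      obtain ⟨hi, hj⟩ := hm i j hne
      by_cases h1 : StrictMono i ∧ ∀ l, i l ≠ 0
      · by_cases h2 : StrictMono j ∧ ∀ l, j l ≠ 0
        · exact hne (h0 i j h1.1 h1.2 h2.1 h2.2)
        · obtain ⟨l, hl⟩ := pos j hj h2
          have h3 := hz.2 i l j
          have h4 : ∀ x, x ≠ j l → m i (Function.update j l x) = 0 := by
            intro x hx
            by_contra hne'
            have h5 := hl x (hm _ _ hne').2
            have h6 : j l < x := lt_of_le_of_ne h5 (Ne.symm hx)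
            have h7 := sum_upd j l x h6
            have a1 := sum_le' i
            have a2 := sum_le' (Function.update j l x)
            have hN1 : 1 ≤ N := by omega
            exact hne' (ih (N - 1) (by omega) i (Function.update j l x) (by omega))
          rw [Finset.sum_eq_single (j l) (fun x _ hx => h4 x hx) (fun h => absurd (mem_univ _) h),
            Function.update_eq_self] at h3
          exact hne h3
      · obtain ⟨l, hl⟩ := pos i hi h1
        have h3 := hz.1 j l i
        have h4 : ∀ x, x ≠ i l → m (Function.update i l x) j = 0 := by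
          intro x hx
          by_contra hne'
          have h5 := hl x (hm _ _ hne').1
          have h6 : i l < x := lt_of_le_of_ne h5 (Ne.symm hx)
          have h7 := sum_upd i l x h6
          have a1 := sum_le' j
          have a2 := sum_le' (Function.update i l x)
          have hN1 : 1 ≤ N := by omega
          exact hne' (ih (N - 1) (by omega) (Function.update i l x) j (by omega))
        rw [Finset.sum_eq_single (i l) (fun x _ hx => h4 x hx) (fun h => absurd (mem_univ _) h),
          Function.update_eq_self] at h3
        exact hne h3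
  funext i j
  exact key (k * n + k' * n') i j (by omega)

end Pool.Agent.Lib.MP_4e7804_co.Tw
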