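import Pool.Agent.Lib.MP_4e7804_co.Tw.Back
import Pool.Agent.Lib.MP_4e7804_co.Tw.BrkT
import Pool.Agent.Lib.MP_4e7804_co.Tw.CardT
import Pool.Agent.Lib.MP_4e7804_co.Tw.CellT
import Pool.Agent.Lib.MP_4e7804_co.Tw.ChQ
import Pool.Agent.Lib.MP_4e7804_co.Tw.Chain
import Pool.Agent.Lib.MP_4e7804_co.Tw.Core
import Pool.Agent.Lib.MP_4e7804_co.Tw.CoreA
import Pool.Agent.Lib.MP_4e7804_co.Tw.Dual
import Pool.Agent.Lib.MP_4e7804_co.Tw.Enum
import Pool.Agent.Lib.MP_4e7804_co.Tw.Eta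
import Pool.Agent.Lib.MP_4e7804_co.Tw.Exch
import Pool.Agent.Lib.MP_4e7804_co.Tw.Gen
import Pool.Agent.Lib.MP_4e7804_co.Tw.InjD
import Pool.Agent.Lib.MP_4e7804_co.Tw.Lab
import Pool.Agent.Lib.MP_4e7804_co.Tw.LabP
import Pool.Agent.Lib.MP_4e7804_co.Tw.Marg
import Pool.Agent.Lib.MP_4e7804_co.Tw.Model
import Pool.Agent.Lib.MP_4e7804_co.Tw.Nerve2
import Pool.Agent.Lib.MP_4e7804_co.Tw.NoCo
import Pool.Agent.Lib.MP_4e7804_co.Tw.PatA
import Pool.Agent.Lib.MP_4e7804_co.Tw.PatB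
import Pool.Agent.Lib.MP_4e7804_co.Tw.RA
import Pool.Agent.Lib.MP_4e7804_co.Tw.RR
import Pool.Agent.Lib.MP_4e7804_co.Tw.RankA
import Pool.Agent.Lib.MP_4e7804_co.Tw.RankB
import Pool.Agent.Lib.MP_4e7804_co.Tw.Red
import Pool.Agent.Lib.MP_4e7804_co.Tw.Semi
import Pool.Agent.Lib.MP_4e7804_co.Tw.Sep
import Pool.Agent.Lib.MP_4e7804_co.Tw.Step
import Pool.Agent.Lib.MP_4e7804_co.Tw.Supp
import Pool.Agent.Lib.MP_4e7804_co.Tw.Thr
import Pool.Agent.Lib.MP_4e7804_co.Tw.TropA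
import Pool.Agent.Lib.MP_4e7804_co.Tw.Two
import Pool.Agent.Lib.MP_4e7804_co.Tw.UB
import Pool.Agent.Lib.MP_4e7804_co.Tw.XFX
import Pool.Agent.Lib.MP_4e7804_co.Tw.ZM

/-! MP_4e7804_co, Tw/All: the upper bound for `n - 2` points and two polytopes. -/

set_option autoImplicit false

namespace Pool.Agent.Lib.MP_4e7804_co.Tw

theorem tAllStep : StmtStep := tStep (tRR tRA) tZM tNerve2 tCellT tLab

theorem tAllCore : StmtCore :=
  tCore (tCoreA tXFX tChain tRed tMarg (tSupp tMarg) (tBack tRed) tSep tAllStep) tCardT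

theorem tAllGen : StmtGen := tGen (tRankA tInjD tChQ) (tRankB tInjD tChQ) tPatA tPatB

theorem tAllSemi : StmtSemi := tSemi tThr tAllGen (tNoCo tInjD) (tLabP tExch) tAllCore

theorem tAllUpper : StmtUB := tUB (tModel tDual tEnum tBrkT) tAllSemi (tTropA tEta (tTwo tExch))

end Pool.Agent.Lib.MP_4e7804_co.Tw
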