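import Pool.Agent.Lib.MP_4e7804_co.Tw.Marg

/-!
# From the difference back to the moments
-/

set_option autoImplicit false

namespace Pool.Agent.Lib.MP_4e7804_co.Tw

namespace MomN

variable {Ω : Type} {X : Ω → ℕ → ℕ → ℝ} {b c : ℕ} [Fintype Ω] {φ : Ω → ℝ}

theorem back_aux (hX : ∀ s, XF b c (X s)) {k : ℕ} (hV : Van φ X b c k)
    (hm : ∀ (i : Fin k → Fin (b + 1)) (j : Fin k → Fin (c + 1)), mF φ X i j = 0) :
    ∀ (N : ℕ) (I J : Fin k → ℕ), (∀ l, I l ≤ b + 1) → (∀ l, J l ≤ c + 1) →
      ∑ l, (b + 1 - I l) + ∑ l, (c + 1 - J l) = N → MM φ X I J = 0 := by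
  intro N
  induction N using Nat.strong_induction_on with
  | _ N ih =>
    intro I J hI hJ hN
    by_cases h1 : ∃ l, I l = b + 1
    · obtain ⟨l, hl⟩ := h1
      exact MM_of_SS (SS_bdry hX hV I J hI hJ l (Or.inr (Or.inl hl)))
    by_cases h2 : ∃ l, J l = c + 1
    · obtain ⟨l, hl⟩ := h2
      exact MM_of_SS (SS_bdry hX hV I J hI hJ l (Or.inr (Or.inr (Or.inr hl))))
    push Not at h1 h2
    have hI' : ∀ l, I l < b + 1 := fun l => lt_of_le_of_ne (hI l) (h1 l)
    have hJ' : ∀ l, J l < c + 1 := fun l => lt_of_le_of_ne (hJ l) (h2 l)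
    have h0 := hm (fun l => ⟨I l, hI' l⟩) (fun l => ⟨J l, hJ' l⟩)
    unfold mF mm at h0
    simp only at h0
    rw [Finset.sum_eq_single (fun _ => ((false, false) : Bool × Bool))] at h0
    · simpa [sg, sh] using h0
    · intro p _ hp
      have hp' : ∃ l, p l ≠ (false, false) := by
        by_contra hcon
        push Not at hcon
        exact hp (funext hcon)
      obtain ⟨l, hl⟩ := hp'
      rw [ih _ ?_ (fun l => I l + sh (p l).1) (fun l => J l + sh (p l).2) (fun x => ?_)
        (fun x => ?_) rfl, mul_zero]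
      · rw [← hN, ← Finset.sum_add_distrib, ← Finset.sum_add_distrib]
        refine Finset.sum_lt_sum (fun x _ => ?_) ⟨l, Finset.mem_univ _, ?_⟩
        · omega
        · have a1 := hI' l
          have a2 := hJ' l
          have a3 := sh_le (p l).1
          have a4 := sh_le (p l).2
          have a5 : sh (p l).1 + sh (p l).2 ≠ 0 := by
            intro h
            apply hl
            rcases hq : p l with ⟨x, y⟩
            rw [hq] at h
            cases x <;> cases y <;> simp [sh] at h ⊢
          omega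
      · have a1 := hI' x
        have a3 := sh_le (p x).1
        omega
      · have a1 := hJ' x
        have a3 := sh_le (p x).2
        omega
    · intro h
      exact absurd (Finset.mem_univ _) h

end MomN

open MomN in
theorem tBack (hRed : StmtRed) : StmtBack := by
  intro Ω _ φ X b c hX k hV hm
  refine hRed Ω _ φ X b c hX (k + 1) fun k' hk' I J hI hJ hI' hJ' => ?_
  rcases Nat.lt_succ_iff_lt_or_eq.1 hk' with h | h
  · exact hV k' h I J (fun l => by have := hI' l; omega) (fun l => by have := hJ' l; omega)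
  · subst h
    have h1 := back_aux hX hV hm _ I J (fun l => by have := hI' l; omega)
      (fun l => by have := hJ' l; omega) rfl
    rwa [MM, if_pos ⟨hI, hJ⟩] at h1

end Pool.Agent.Lib.MP_4e7804_co.Tw
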