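import Mathlib
import Pool.Agent.Lib.MP_4e7804_co.Defs

/-!
# Two nontrivial polytopes: definitions for the upper bound

Labels are the terms of `F(s, t) = min_i (f_i(s) + α_i t)`, numbered by decreasing slopes. Steps are numbered
by natural numbers `1, ..., b`: step `I` is between the labels `I - 1` and `I`.
-/

set_option autoImplicit false

namespace Pool.Agent.Lib.MP_4e7804_co.Tw

/-! ## One tropical polynomial in one variable -/

/-- the label `i` is minimal at `t` -/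
def LM {n : ℕ} (f α : Fin n → ℝ) (t : ℝ) (i : Fin n) : Prop :=
  ∀ r, f i + α i * t ≤ f r + α r * t

/-- the label `i` is the only minimal one at `t` -/
def SM {n : ℕ} (f α : Fin n → ℝ) (t : ℝ) (i : Fin n) : Prop :=
  ∀ r, r ≠ i → f i + α i * t < f r + α r * t

/-- two labels are minimal at `t` -/
def Brk {n : ℕ} (f α : Fin n → ℝ) (t : ℝ) : Prop := ∃ i r, i ≠ r ∧ LM f α t i ∧ LM f α t r

/-- thresholds: `σ I`, `1 ≤ I ≤ b`, is the time of step `I` -/
structure IsThr {b : ℕ} (f α : Fin (b + 1) → ℝ) (σ : ℕ → ℝ) : Prop where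
  mono : ∀ I, 1 ≤ I → I < b → σ I ≤ σ (I + 1)
  str : ∀ (i : Fin (b + 1)) (t : ℝ), (1 ≤ (i : ℕ) → σ i < t) → ((i : ℕ) < b → t < σ (i + 1)) →
    SM f α t i
  tie : ∀ I, 1 ≤ I → I ≤ b → ∃ l r : Fin (b + 1), (l : ℕ) < I ∧ I ≤ (r : ℕ) ∧
    LM f α (σ I) l ∧ LM f α (σ I) r

/-- no common threshold -/
def NoC (b c : ℕ) (σ τ : ℕ → ℝ) : Prop := ∀ I J, 1 ≤ I → I ≤ b → 1 ≤ J → J ≤ c → σ I ≠ τ J

/-! ## The matrix of a path -/

/-- `1` if step `J` of the second polynomial is before step `I` of the first one; with boundary values -/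
noncomputable def X (b c : ℕ) (σ τ : ℕ → ℝ) (I J : ℕ) : ℝ :=
  if I = 0 then 0 else if b < I then (if c < J then 0 else 1) else if J = 0 then 1
  else if c < J then 0 else if τ J < σ I then 1 else 0

/-- the weight of a lattice point: `1`, `-1` at the corners of the path, `0` at the other points -/
def Wt (X : ℕ → ℕ → ℝ) (i j : ℕ) : ℝ := X i j - X (i + 1) j - X i (j + 1) + X (i + 1) (j + 1)

/-- the properties of the matrix of a path which are used in the algebraic part -/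
structure XF (b c : ℕ) (X : ℕ → ℕ → ℝ) : Prop where
  val : ∀ I J, X I J = 0 ∨ X I J = 1
  mono : ∀ I I' J J', I ≤ I' → I' ≤ b + 1 → J' ≤ J → J ≤ c + 1 → X I J ≤ X I' J'
  zero : ∀ J, X 0 J = 0
  top : ∀ J, J ≤ c → X (b + 1) J = 1
  top' : X (b + 1) (c + 1) = 0
  left : ∀ I, 1 ≤ I → I ≤ b + 1 → X I 0 = 1
  right : ∀ I, I ≤ b + 1 → X I (c + 1) = 0

section mom

variable {Ω : Type} [Fintype Ω]

/-- moments -/
def SS (φ : Ω → ℝ) (X : Ω → ℕ → ℕ → ℝ) {k : ℕ} (I J : Fin k → ℕ) : ℝ :=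
  ∑ s, φ s * ∏ l, X s (I l) (J l)

open Classical in
/-- moments of strictly increasing tuples -/
noncomputable def MM (φ : Ω → ℝ) (X : Ω → ℕ → ℕ → ℝ) {k : ℕ} (I J : Fin k → ℕ) : ℝ :=
  if StrictMono I ∧ StrictMono J then SS φ X I J else 0

/-- the shift by `0` or `1` -/
def sh (x : Bool) : ℕ := if x then 1 else 0

/-- sign of a shift -/
def sg (x : Bool) : ℝ := if x then -1 else 1

/-- the measure on pairs of tuples of labels: a difference of `MM` in every variable -/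
noncomputable def mm (φ : Ω → ℝ) (X : Ω → ℕ → ℕ → ℝ) {k : ℕ} (i j : Fin k → ℕ) : ℝ :=
  ∑ p : Fin k → Bool × Bool, (∏ l, sg (p l).1 * sg (p l).2) *
    MM φ X (fun l => i l + sh (p l).1) (fun l => j l + sh (p l).2)

/-- `mm` as a function of tuples of labels -/
noncomputable def mF (φ : Ω → ℝ) (X : Ω → ℕ → ℕ → ℝ) {b c k : ℕ} (i : Fin k → Fin (b + 1))
    (j : Fin k → Fin (c + 1)) : ℝ := mm φ X (fun l => (i l : ℕ)) (fun l => (j l : ℕ))

/-- all moments of length `< k` are zero -/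
def Van (φ : Ω → ℝ) (X : Ω → ℕ → ℕ → ℝ) (b c k : ℕ) : Prop :=
  ∀ k' < k, ∀ I J : Fin k' → ℕ, (∀ l, I l ≤ b + 1) → (∀ l, J l ≤ c + 1) → SS φ X I J = 0

end mom

/-! ## Functions on tuples of labels -/

/-- all marginals are zero -/
def ZMarg {k n : ℕ} (m : (Fin k → Fin n) → ℝ) : Prop :=
  ∀ (l : Fin k) (i : Fin k → Fin n), ∑ x, m (Function.update i l x) = 0

/-- supported on weakly increasing tuples -/
def MSupp {k n : ℕ} (m : (Fin k → Fin n) → ℝ) : Prop := ∀ i, m i ≠ 0 → Monotone i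

/-- insert the label `p` at the position `r` into a tuple of the other labels -/
def ins {k n : ℕ} (p : Fin (n + 1)) (r : Fin (k + 1)) (e : Fin k → Fin n) : Fin (k + 1) → Fin (n + 1) :=
  r.insertNth (α := fun _ => Fin (n + 1)) p (fun l => p.succAbove (e l))

/-- the part of `m` on tuples with exactly one label `p` (for monotone `e` at most one term is not `0`) -/
def R1 {k n : ℕ} (p : Fin (n + 1)) (m : (Fin (k + 1) → Fin (n + 1)) → ℝ) : (Fin k → Fin n) → ℝ :=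
  fun e => ∑ r : Fin (k + 1), (-1) ^ (r : ℕ) * m (ins p r e)

/-- the part of `m` on tuples without the label `p` -/
def R0 {k n : ℕ} (p : Fin (n + 1)) (m : (Fin k → Fin (n + 1)) → ℝ) : (Fin k → Fin n) → ℝ :=
  fun e => m (fun l => p.succAbove (e l))

/-- zero marginals in all variables of both tuples -/
def ZM2 {k k' n n' : ℕ} (m : (Fin k → Fin n) → (Fin k' → Fin n') → ℝ) : Prop :=
  (∀ j, ZMarg fun i => m i j) ∧ ∀ i, ZMarg (m i)

/-- supported on weakly increasing tuples -/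
def MS2 {k k' n n' : ℕ} (m : (Fin k → Fin n) → (Fin k' → Fin n') → ℝ) : Prop :=
  ∀ i j, m i j ≠ 0 → Monotone i ∧ Monotone j

/-- zero at pairs of strictly increasing tuples of nonzero labels -/
def Str0 {k k' n n' : ℕ} (m : (Fin k → Fin (n + 1)) → (Fin k' → Fin (n' + 1)) → ℝ) : Prop :=
  ∀ i j, StrictMono i → (∀ l, i l ≠ 0) → StrictMono j → (∀ l, j l ≠ 0) → m i j = 0

section m2

variable {k n n' : ℕ} (p : Fin (n + 1)) (q : Fin (n' + 1))
  (m : (Fin (k + 1) → Fin (n + 1)) → (Fin (k + 1) → Fin (n' + 1)) → ℝ)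

/-- one label `p` and one label `q` -/
def m11 : (Fin k → Fin n) → (Fin k → Fin n') → ℝ := fun e e' => R1 q (fun j => R1 p (fun i => m i j) e) e'

/-- no label `p`, one label `q` -/
def m01 : (Fin (k + 1) → Fin n) → (Fin k → Fin n') → ℝ :=
  fun e e' => R1 q (fun j => R0 p (fun i => m i j) e) e'

/-- one label `p`, no label `q` -/
def m10 : (Fin k → Fin n) → (Fin (k + 1) → Fin n') → ℝ :=
  fun e e' => R0 q (fun j => R1 p (fun i => m i j) e) e'

/-- no label `p` and no label `q` -/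
def m00 : (Fin (k + 1) → Fin n) → (Fin (k + 1) → Fin n') → ℝ :=
  fun e e' => R0 q (fun j => R0 p (fun i => m i j) e) e'

end m2

/-! ## Families -/

/-- One polynomial `min (z, min_i (P_i · y + α_i t))` with `B + 1` terms besides `z`; `p` is the position of
the slope `0` of `z` among the slopes. -/
structure Side (B e : ℕ) where
  P : Fin (B + 1) → Fin e → ℝ
  α : Fin (B + 1) → ℝ
  p : Fin (B + 2)

variable {B C e : ℕ}

/-- values of the terms `P_i · y` -/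
def Side.h (S : Side B e) (y : Fin e → ℝ) : Fin (B + 1) → ℝ := fun i => S.P i ⬝ᵥ y

/-- values of all terms -/
def Side.f (S : Side B e) (y : Fin e → ℝ) (z : ℝ) : Fin (B + 2) → ℝ :=
  S.p.insertNth (α := fun _ => ℝ) z (S.h y)

/-- all slopes -/
def Side.sl (S : Side B e) : Fin (B + 2) → ℝ := S.p.insertNth (α := fun _ => ℝ) 0 S.α

/-- the label `i` of `h` is the only minimal one at the lower of the two points `t`, `t'` and `h` is larger
at the other point -/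
def LCell (S : Side B e) (y : Fin e → ℝ) (t t' : ℝ) (i : Fin (B + 1)) : Prop :=
  (0 < S.α i ∧ SM (S.h y) S.α t i ∧ ∀ r, S.h y i + S.α i * t < S.h y r + S.α r * t') ∨
  (S.α i < 0 ∧ SM (S.h y) S.α t' i ∧ ∀ r, S.h y i + S.α i * t' < S.h y r + S.α r * t)

/-- general position (central families) -/
structure GPos (S₁ : Side B e) (S₂ : Side C e) : Prop where
  g0 : ∀ k, e ≤ k → ∀ (y : Fin e → ℝ) (t : Fin k → ℝ), StrictMono t →
    (∃ l i, SM (S₁.h y) S₁.α (t l) i) ∨ ∃ l i, SM (S₂.h y) S₂.α (t l) i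
  g1 : ∀ k, e ≤ k → ∀ (y : Fin e → ℝ) (t : Fin (k + 1) → ℝ), StrictMono t →
    (∃ l i, SM (S₁.h y) S₁.α (t l) i) ∨ ∃ (l : Fin k) (i : _), LCell S₂ y (t l.castSucc) (t l.succ) i
  g1' : ∀ k, e ≤ k → ∀ (y : Fin e → ℝ) (t : Fin (k + 1) → ℝ), StrictMono t →
    (∃ (l : Fin k) (i : _), LCell S₁ y (t l.castSucc) (t l.succ) i) ∨ ∃ l i, SM (S₂.h y) S₂.α (t l) i
  g2 : ∀ k, e + 1 ≤ k → ∀ (y : Fin e → ℝ) (t : Fin (k + 1) → ℝ), StrictMono t →
    (∃ (l : Fin k) (i : _), LCell S₁ y (t l.castSucc) (t l.succ) i) ∨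
      ∃ (l : Fin k) (i : _), LCell S₂ y (t l.castSucc) (t l.succ) i

/-- the support is realized: the labels are the only minimal ones at `t_0 < ... < t_(k-1)` -/
def Rlz (S₁ : Side B e) (S₂ : Side C e) {k : ℕ} (m : (Fin k → Fin (B + 2)) → (Fin k → Fin (C + 2)) → ℝ) :
    Prop :=
  ∀ i j, m i j ≠ 0 → ∃ (y : Fin e → ℝ) (z₁ z₂ : ℝ) (t : Fin k → ℝ), StrictMono t ∧
    (∀ l, SM (S₁.f y z₁) S₁.sl (t l) (i l)) ∧ ∀ l, SM (S₂.f y z₂) S₂.sl (t l) (j l)

/-- a parameter point `s = (y, z₁, z₂)` -/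
abbrev Pt (e : ℕ) := (Fin e → ℝ) × ℝ × ℝ

/-- the bound -/
def bd (e b c : ℕ) : ℕ := ∑ k ∈ Finset.range (e + 1), b.choose k * c.choose k

/-! ## General position -/

/-- the parameters of the two sides -/
abbrev Par (B C e : ℕ) := ((Fin (B + 1) → Fin e → ℝ) × (Fin (B + 1) → ℝ)) ×
  ((Fin (C + 1) → Fin e → ℝ) × (Fin (C + 1) → ℝ))

/-- the first side -/
def sd1 (p : Fin (B + 2)) (θ : Par B C e) : Side B e := ⟨θ.1.1, θ.1.2, p⟩

/-- the second side -/
def sd2 (q : Fin (C + 2)) (θ : Par B C e) : Side C e := ⟨θ.2.1, θ.2.2, q⟩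

/-- a chain of pairs of labels `i 0 < i' 0 ≤ i 1 < i' 1 ≤ ...` -/
structure Ch {n N : ℕ} (i i' : Fin N → Fin n) : Prop where
  lt : ∀ l, i l < i' l
  le : ∀ l l', l < l' → i' l ≤ i l'

/-- the term `i l` at the time `t (u l)` has the same value as the term `i' l` at the time `t (v l)` -/
def Sat {n N K : ℕ} (P : Fin n → Fin e → ℝ) (α : Fin n → ℝ) (y : Fin e → ℝ) (t : Fin K → ℝ)
    (u v : Fin N → Fin K) (i i' : Fin N → Fin n) : Prop :=
  ∀ l, P (i l) ⬝ᵥ y + α (i l) * t (u l) = P (i' l) ⬝ᵥ y + α (i' l) * t (v l)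

/-! ## The potential -/

/-- the potential of a path `x` (`x j` = column of the vertical step between the rows `j` and `j + 1`) -/
def Pot {b c : ℕ} (f α : Fin (b + 1) → ℝ) (g β : Fin (c + 1) → ℝ) (x : Fin c → Fin (b + 1)) : ℝ :=
  ∑ j : Fin c, ((β j.castSucc - β j.succ) * f (x j) + (g j.succ - g j.castSucc) * α (x j))

/-- the path `x` has minimal potential among all paths -/
def PMin {b c : ℕ} (f α : Fin (b + 1) → ℝ) (g β : Fin (c + 1) → ℝ) (x : Fin c → Fin (b + 1)) : Prop :=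
  Monotone x ∧ ∀ x' : Fin c → Fin (b + 1), Monotone x' → Pot f α g β x ≤ Pot f α g β x'

/-- reroute a path through the lattice point `(i₀, j₀)` -/
def rer {b c : ℕ} (i₀ : Fin (b + 1)) (j₀ : Fin (c + 1)) (x : Fin c → Fin (b + 1)) : Fin c → Fin (b + 1) :=
  fun j => if (j : ℕ) < j₀ then min (x j) i₀ else max (x j) i₀

/-- potential of a path at a point of the family -/
def SPot (S₁ : Side B e) (S₂ : Side C e) (s : Pt e) (x : Fin (C + 1) → Fin (B + 2)) : ℝ :=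
  Pot (b := B + 1) (c := C + 1) (S₁.f s.1 s.2.1) S₁.sl (S₂.f s.1 s.2.2) S₂.sl x

/-- minimal path at a point of the family -/
def SMin (S₁ : Side B e) (S₂ : Side C e) (s : Pt e) (x : Fin (C + 1) → Fin (B + 2)) : Prop :=
  PMin (b := B + 1) (c := C + 1) (S₁.f s.1 s.2.1) S₁.sl (S₂.f s.1 s.2.2) S₂.sl x

/-! ## The implicit equation -/

/-- the minimum of `ϕ α + ∑ α_i z_i` over `α ∈ E` is attained twice -/
def TieE {n : ℕ} (E : Finset (Fin n →₀ ℕ)) (ϕ : (Fin n →₀ ℕ) → ℚ) (z : Fin n → ℚ) : Prop :=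
  ∃ α ∈ E, ∃ β ∈ E, α ≠ β ∧ ϕ α + ∑ i, (α i : ℚ) * z i = ϕ β + ∑ i, (β i : ℚ) * z i ∧
    ∀ γ ∈ E, ϕ α + ∑ i, (α i : ℚ) * z i ≤ ϕ γ + ∑ i, (γ i : ℚ) * z i

/-- the point `(y, z₁, z₂)` with the coordinates `y_l = z (ι l)`, `z₁ = z i₀`, `z₂ = z i₁` -/
def pt {n : ℕ} (ι : Fin e → Fin n) (i₀ i₁ : Fin n) (z : Fin n → ℝ) : Pt e := (fun l => z (ι l), z i₀, z i₁)

/-- rational to real vectors -/
def rl {n : ℕ} (z : Fin n → ℚ) : Fin n → ℝ := fun i => (z i : ℝ)

/-- constants of all terms -/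
def cst (S : Side B e) (η : Fin (B + 1) → ℚ) : Fin (B + 2) → ℝ :=
  S.p.insertNth (α := fun _ => ℝ) 0 (rl η)

/-- the information on the exponents `E` of the implicit equation: for all constants `η₁`, `η₂` of the terms
there is `ϕ` such that every tie of `ϕ + α · z` gives a common break -/
def AbsT (S₁ : Side B e) (S₂ : Side C e) {n : ℕ} (ι : Fin e → Fin n) (i₀ i₁ : Fin n)
    (E : Finset (Fin n →₀ ℕ)) : Prop :=
  ∀ (η₁ : Fin (B + 1) → ℚ) (η₂ : Fin (C + 1) → ℚ), (∀ i, |η₁ i| ≤ 1) → (∀ j, |η₂ j| ≤ 1) →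
    ∃ ϕ : (Fin n →₀ ℕ) → ℚ, ∀ z : Fin n → ℚ, TieE E ϕ z →
      ∃ t : ℝ, Brk (S₁.f (pt ι i₀ i₁ (rl z)).1 (z i₀) + cst S₁ η₁) S₁.sl t ∧
        Brk (S₂.f (pt ι i₀ i₁ (rl z)).1 (z i₁) + cst S₂ η₂) S₂.sl t

/-- labels with equal slopes have different linear forms -/
def FD (S : Side B e) : Prop := ∀ i i', i ≠ i' → S.sl i = S.sl i' → ∃ y z, S.f y z i ≠ S.f y z i'

/-- `u` is a direction in which `a` is the only minimal exponent, and no two different forms coincide -/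
structure Rep (S₁ : Side B e) (S₂ : Side C e) {n : ℕ} (ι : Fin e → Fin n) (i₀ i₁ : Fin n)
    (E : Finset (Fin n →₀ ℕ)) (u : Fin n → ℚ) (a : Fin n →₀ ℕ) : Prop where
  mem : a ∈ E
  min : ∀ β ∈ E, β ≠ a → ∑ i, (a i : ℚ) * u i < ∑ i, (β i : ℚ) * u i
  pot : ∀ x x' : Fin (C + 1) → Fin (B + 2),
    (∀ z, SPot S₁ S₂ (pt ι i₀ i₁ z) x = SPot S₁ S₂ (pt ι i₀ i₁ z) x') ∨
      SPot S₁ S₂ (pt ι i₀ i₁ (rl u)) x ≠ SPot S₁ S₂ (pt ι i₀ i₁ (rl u)) x'
  ver : ∀ i i', i ≠ i' → S₁.sl i = S₁.sl i' →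
    S₁.f (pt ι i₀ i₁ (rl u)).1 (u i₀) i ≠ S₁.f (pt ι i₀ i₁ (rl u)).1 (u i₀) i'

end Pool.Agent.Lib.MP_4e7804_co.Tw
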