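import Pool.Agent.Lib.MP_4e7804_co.Tw.Spec
import Pool.Agent.Lib.MP_4e7804_co.Up.Dirs

set_option autoImplicit false

open Finset

namespace Pool.Agent.Lib.MP_4e7804_co.Tw

namespace EtaN

variable {B C : ℕ}

/-- the linear form of a term -/
def lf (p : Fin (B + 2)) (r : Fin (B + 2)) : Fin (B + 1) → ℝ := fun x => if p.succAbove x = r then 1 else 0

theorem lf_apply (p : Fin (B + 2)) (r : Fin (B + 2)) (η : Fin (B + 1) → ℝ) :
    p.insertNth (α := fun _ => ℝ) 0 η r = ∑ x, lf p r x * η x := by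
  refine Fin.succAboveCases (α := fun r => p.insertNth (α := fun _ => ℝ) 0 η r = ∑ x, lf p r x * η x) p ?_
    (fun i => ?_) r
  · rw [Fin.insertNth_apply_same (α := fun _ => ℝ)]
    symm
    refine sum_eq_zero fun x _ => ?_
    unfold lf
    rw [if_neg (Fin.succAbove_ne p x), zero_mul]
  · rw [Fin.insertNth_apply_succAbove (α := fun _ => ℝ)]
    rw [Finset.sum_eq_single i]
    · unfold lf
      rw [if_pos rfl, one_mul]
    · intro x _ hx
      unfold lf
      rw [if_neg (fun h => hx (Fin.succAbove_right_injective h)), zero_mul]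
    · intro h
      exact absurd (mem_univ _) h

/-- the difference form is not zero -/
theorem lf_ne (p : Fin (B + 2)) (i i' : Fin (B + 2)) (h : i ≠ i') : ∃ x, lf p i' x - lf p i x ≠ 0 := by
  by_cases hi : i = p
  · have hi' : i' ≠ p := fun h' => h (hi.trans h'.symm)
    obtain ⟨x, hx⟩ := Fin.exists_succAbove_eq hi'
    refine ⟨x, ?_⟩
    unfold lf
    rw [if_pos hx, if_neg (fun h' => h (h'.symm.trans hx))]
    norm_num
  · obtain ⟨x, hx⟩ := Fin.exists_succAbove_eq hi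
    refine ⟨x, ?_⟩
    unfold lf
    rw [if_pos hx, if_neg (fun h' => h (hx.symm.trans h'))]
    norm_num

end EtaN

open EtaN in
theorem tEta : StmtEta := by
  intro B C p q Γ hΓ
  classical
  -- the forms
  let μ : (ℝ × ℝ) × (Fin (B + 2) × Fin (B + 2)) × (Fin (C + 2) × Fin (C + 2)) →
      Fin ((B + 1) + (C + 1)) → ℝ := fun w =>
    Fin.append (fun x => w.1.1 * (lf p w.2.1.2 x - lf p w.2.1.1 x))
      (fun x => w.1.2 * (lf q w.2.2.2 x - lf q w.2.2.1 x))
  let Hy : Finset (Fin ((B + 1) + (C + 1)) → ℝ) :=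
    ((Γ ×ˢ (univ : Finset ((Fin (B + 2) × Fin (B + 2)) × (Fin (C + 2) × Fin (C + 2))))).filter
      fun w => w.2.1.1 ≠ w.2.1.2 ∧ w.2.2.1 ≠ w.2.2.2).image μ
  have hHy : ∀ m ∈ Hy, m ≠ 0 := by
    intro m hm h0
    obtain ⟨w, hw, rfl⟩ := mem_image.1 hm
    obtain ⟨hw1, hw2, hw3⟩ := mem_filter.1 hw
    have hγ := hΓ w.1 (mem_product.1 hw1).1
    obtain ⟨x, hx⟩ := lf_ne p w.2.1.1 w.2.1.2 hw2
    obtain ⟨x', hx'⟩ := lf_ne q w.2.2.1 w.2.2.2 hw3
    have e1 := congrFun h0 (Fin.castAdd (C + 1) x)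
    have e2 := congrFun h0 (Fin.natAdd (B + 1) x')
    simp only [μ, Fin.append_left, Pi.zero_apply] at e1
    simp only [μ, Fin.append_right, Pi.zero_apply] at e2
    apply hγ
    rcases mul_eq_zero.1 e1 with h | h
    · rcases mul_eq_zero.1 e2 with h' | h'
      · exact Prod.ext h h'
      · exact absurd h' hx'
    · exact absurd h hx
  let U : Set (Fin ((B + 1) + (C + 1)) → ℝ) := {y | ∀ x, |y x| < 1}
  have hU : IsOpen U := by
    have : U = ⋂ x, {y : Fin ((B + 1) + (C + 1)) → ℝ | |y x| < 1} := by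
      ext y
      rw [Set.mem_iInter]
      rfl
    rw [this]
    exact isOpen_iInter_of_finite fun x => isOpen_lt (by fun_prop) continuous_const
  obtain ⟨y, hyU, hy⟩ := dirs_avoid Hy hHy U hU ⟨0, fun x => by simp⟩
  refine ⟨fun x => y (Fin.castAdd (C + 1) x), fun x => y (Fin.natAdd (B + 1) x), ?_, ?_, ?_⟩
  · intro x
    have h1 := hyU (Fin.castAdd (C + 1) x)
    have h2 : ((|y (Fin.castAdd (C + 1) x)| : ℚ) : ℝ) < ((1 : ℚ) : ℝ) := by
      push_cast
      exact h1
    exact (by exact_mod_cast h2 : |y (Fin.castAdd (C + 1) x)| < 1).le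
  · intro x
    have h1 := hyU (Fin.natAdd (B + 1) x)
    have h2 : ((|y (Fin.natAdd (B + 1) x)| : ℚ) : ℝ) < ((1 : ℚ) : ℝ) := by
      push_cast
      exact h1
    exact (by exact_mod_cast h2 : |y (Fin.natAdd (B + 1) x)| < 1).le
  · intro i i' hi j j' hj γ hγ
    have h1 := hy (μ (γ, (i, i'), (j, j'))) (mem_image.2 ⟨_, mem_filter.2
      ⟨mem_product.2 ⟨hγ, mem_univ _⟩, hi, hj⟩, rfl⟩)
    rw [Fin.sum_univ_add] at h1
    simp only [μ, Fin.append_left, Fin.append_right] at h1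
    rw [lf_apply, lf_apply, lf_apply, lf_apply]
    intro h2
    apply h1
    rw [← h2]
    simp only [rl]
    rw [← sum_sub_distrib, ← sum_sub_distrib, mul_sum, mul_sum]
    congr 1 <;> exact sum_congr rfl fun x _ => by ring

end Pool.Agent.Lib.MP_4e7804_co.Tw
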