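import Mathlib

/-!
# A nerve lemma

`B` closed and convex, covered by the open convex sets `C i a`; for a fixed colour `i` they are disjoint. A
function on the tuples with zero marginals, supported on the tuples whose sets have a common point in `B`,
is zero.
-/

set_option autoImplicit false

namespace Pool.Agent.Lib.MP_4e7804_co.Tw

open Set

theorem nerve {E : Type*} [NormedAddCommGroup E] [InnerProductSpace ℝ E] [CompleteSpace E]
    {ι : Type*} [Fintype ι] [DecidableEq ι] {A : ι → Type*} [∀ i, Fintype (A i)]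
    (B : Set E) (hB : Convex ℝ B) (hBc : IsClosed B) (C : ∀ i, A i → Set E)
    (hconv : ∀ i a, Convex ℝ (C i a)) (hopen : ∀ i a, IsOpen (C i a))
    (hdisj : ∀ i a a', a ≠ a' → Disjoint (C i a) (C i a'))
    (hcov : ∀ x ∈ B, ∃ i a, x ∈ C i a)
    (m : (∀ i, A i) → ℝ) (hsupp : ∀ l, m l ≠ 0 → (B ∩ ⋂ i, C i (l i)).Nonempty)
    (hzero : ∀ i l, ∑ a, m (Function.update l i a) = 0) : m = 0 := by
  classical
  by_contra hm
  -- the sets
  let K : (∀ i, A i) → Set E := fun l => closure (B ∩ ⋂ i, C i (l i))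
  have hKconv : ∀ l, Convex ℝ (K l) := fun l =>
    (hB.inter (convex_iInter fun i => hconv i (l i))).closure
  have hKB : ∀ l, K l ⊆ B := fun l => closure_minimal inter_subset_left hBc
  -- points of minimal norm
  have hmin : ∀ l, m l ≠ 0 → ∃ x ∈ K l, ∀ y ∈ K l, ‖x‖ ≤ ‖y‖ := by
    intro l hl
    obtain ⟨x, hx, hx'⟩ := exists_norm_eq_iInf_of_complete_convex (K := K l)
      ((hsupp l hl).mono subset_closure) isClosed_closure.isComplete (hKconv l) 0
    refine ⟨x, hx, fun y hy => ?_⟩
    rw [zero_sub, norm_neg] at hx'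
    rw [hx']
    have : ‖y‖ = ‖(0 : E) - y‖ := by rw [zero_sub, norm_neg]
    rw [this]
    exact ciInf_le ⟨0, by rintro _ ⟨w, rfl⟩; exact norm_nonneg _⟩ (⟨y, hy⟩ : K l)
  let S : Finset (∀ i, A i) := Finset.univ.filter fun l => m l ≠ 0
  have hSne : S.Nonempty := by
    by_contra h
    apply hm
    funext l
    by_contra hl
    exact h ⟨l, Finset.mem_filter.2 ⟨Finset.mem_univ _, hl⟩⟩
  have hx : ∀ l : S, ∃ x ∈ K l.1, ∀ y ∈ K l.1, ‖x‖ ≤ ‖y‖ := fun l =>
    hmin l.1 (Finset.mem_filter.1 l.2).2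
  choose x hxK hxmin using hx
  have : Nonempty S := ⟨⟨hSne.choose, hSne.choose_spec⟩⟩
  obtain ⟨l, hl⟩ := Finite.exists_max (fun l : S => ‖x l‖)
  -- a cell containing the point
  obtain ⟨i, a, hxa⟩ := hcov (x l) (hKB _ (hxK l))
  have hal : a = l.1 i := by
    by_contra hne
    obtain ⟨y, hy1, hy2⟩ := mem_closure_iff.1 (hxK l) (C i a) (hopen i a) hxa
    exact Set.disjoint_left.1 (hdisj i a (l.1 i) hne) hy1 (Set.mem_iInter.1 hy2.2 i)
  rw [hal] at hxa
  -- another tuple
  obtain ⟨a', ha'1, ha'2⟩ : ∃ a', a' ≠ l.1 i ∧ m (Function.update l.1 i a') ≠ 0 := by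
    by_contra h
    push Not at h
    have h0 := hzero i l.1
    rw [Finset.sum_eq_single (l.1 i) (fun b _ hb => h b hb) (fun hb => absurd (Finset.mem_univ _) hb),
      Function.update_eq_self] at h0
    exact (Finset.mem_filter.1 l.2).2 h0
  let l' : S := ⟨Function.update l.1 i a', Finset.mem_filter.2 ⟨Finset.mem_univ _, ha'2⟩⟩
  -- the set without the colour `i`
  let K' : Set E := B ∩ ⋂ j, ⋂ (_ : j ≠ i), C j (l.1 j)
  have hK'conv : Convex ℝ (closure K') :=
    (hB.inter (convex_iInter fun j => convex_iInter fun _ => hconv j (l.1 j))).closure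
  have hl'K' : K l'.1 ⊆ closure K' := by
    refine closure_mono fun y hy => ⟨hy.1, ?_⟩
    rw [Set.mem_iInter]
    intro j
    rw [Set.mem_iInter]
    intro hj
    have := Set.mem_iInter.1 hy.2 j
    rwa [show l'.1 j = l.1 j from Function.update_of_ne hj _ _] at this
  have hlK' : K l.1 ⊆ closure K' := by
    refine closure_mono fun y hy => ⟨hy.1, ?_⟩
    rw [Set.mem_iInter]
    intro j
    rw [Set.mem_iInter]
    intro _
    exact Set.mem_iInter.1 hy.2 j
  -- near `x l`, the closures agree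
  have hnear : ∀ y ∈ closure K', y ∈ C i (l.1 i) → y ∈ K l.1 := by
    intro y hy hyC
    rw [mem_closure_iff] at hy ⊢
    intro O hO hyO
    obtain ⟨z, hz1, hz2⟩ := hy (O ∩ C i (l.1 i)) (hO.inter (hopen _ _)) ⟨hyO, hyC⟩
    refine ⟨z, hz1.1, hz2.1, ?_⟩
    rw [Set.mem_iInter]
    intro j
    by_cases hj : j = i
    · rw [hj]
      exact hz1.2
    · exact Set.mem_iInter.1 (Set.mem_iInter.1 hz2.2 j) hj
  -- the other point
  have hy := hxK l'
  have hyK' : x l' ∈ closure K' := hl'K' hy
  have hyne : x l' ∉ C i (l.1 i) := by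
    intro hin
    obtain ⟨y, hy1, hy2⟩ := mem_closure_iff.1 hy (C i (l.1 i)) (hopen _ _) hin
    have h2 := Set.mem_iInter.1 hy2.2 i
    rw [show l'.1 i = a' from Function.update_self _ _ _] at h2
    exact Set.disjoint_left.1 (hdisj i a' (l.1 i) ha'1) h2 hy1
  have hne : x l' ≠ x l := fun h => hyne (h ▸ hxa)
  have hle : ‖x l'‖ ≤ ‖x l‖ := hl l'
  -- a point on the segment close to `x l`
  have hcont : Filter.Tendsto (fun t : ℝ => x l + t • (x l' - x l)) (nhds 0) (nhds (x l)) := by
    have : Continuous fun t : ℝ => x l + t • (x l' - x l) := by fun_prop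
    have h := this.tendsto 0
    simpa using h
  have hev := hcont.eventually ((hopen i (l.1 i)).mem_nhds hxa)
  obtain ⟨ε, hε, hball⟩ := Metric.eventually_nhds_iff.1 hev
  set t : ℝ := min (ε / 2) (1 / 2) with ht
  have ht0 : 0 < t := lt_min (by positivity) (by norm_num)
  have ht1 : t < 1 := lt_of_le_of_lt (min_le_right _ _) (by norm_num)
  have htC : x l + t • (x l' - x l) ∈ C i (l.1 i) := by
    apply hball
    rw [Real.dist_eq, sub_zero, abs_of_pos ht0]
    exact lt_of_le_of_lt (min_le_left _ _) (by linarith)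
  have htK' : x l + t • (x l' - x l) ∈ closure K' := by
    have h := hK'conv (hlK' (hxK l)) hyK' (by linarith : 0 ≤ 1 - t) ht0.le (by ring)
    convert h using 1
    module
  have h1 : ‖x l‖ ≤ ‖x l + t • (x l' - x l)‖ := hxmin l _ (hnear _ htK' htC)
  -- strict convexity of the norm
  have h2 : ‖x l + t • (x l' - x l)‖ < ‖x l‖ := by
    have h3 : x l + t • (x l' - x l) = (1 - t) • x l + t • x l' := by module
    rw [h3]
    have h4 := combo_mem_ball_of_ne (z := (0 : E)) (r := ‖x l‖) (x := x l) (y := x l')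
      (by simp) (by simpa using hle) (Ne.symm hne) (by linarith : 0 < 1 - t) ht0 (by ring)
    simpa using h4
  linarith

end Pool.Agent.Lib.MP_4e7804_co.Tw
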