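import Pool.Agent.Lib.MP_4e7804_co.Tw.Spec

/-! MP_4e7804_co, Tw/PatB: no cell `LCell`. -/

set_option autoImplicit false

namespace Pool.Agent.Lib.MP_4e7804_co.Tw

namespace PatBN

theorem LM_le {n : ℕ} (f α : Fin n → ℝ) (hα : StrictAnti α) (t t' : ℝ) (ht : t < t') (i i' : Fin n)
    (h : LM f α t i) (h' : LM f α t' i') : i ≤ i' := by
  by_contra hcon
  push Not at hcon
  have h1 := h i'
  have h2 := h' i
  have h3 := hα hcon
  nlinarith

theorem exLM {n : ℕ} (f α : Fin (n + 1) → ℝ) (t : ℝ) : ∃ i, LM f α t i := by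
  obtain ⟨i, hi⟩ := Finite.exists_min (fun r : Fin (n + 1) => f r + α r * t)
  exact ⟨i, hi⟩

theorem two {n : ℕ} (f α : Fin (n + 1) → ℝ) (t : ℝ) (i : Fin (n + 1)) (hi : LM f α t i)
    (hn : ¬ SM f α t i) : ∃ j k, j < k ∧ LM f α t j ∧ LM f α t k := by
  unfold SM at hn
  push Not at hn
  obtain ⟨r, hr, hle⟩ := hn
  have hr' : LM f α t r := fun s => hle.trans (hi s)
  rcases lt_or_gt_of_ne hr with h | h
  · exact ⟨r, i, h, hr', hi⟩
  · exact ⟨i, r, h, hi, hr'⟩

/-- the minimum -/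
noncomputable def H {n : ℕ} (f α : Fin (n + 1) → ℝ) (t : ℝ) : ℝ :=
  f (exLM f α t).choose + α (exLM f α t).choose * t

theorem H_le {n : ℕ} (f α : Fin (n + 1) → ℝ) (t : ℝ) (r : Fin (n + 1)) :
    H f α t ≤ f r + α r * t := (exLM f α t).choose_spec r

theorem H_eq {n : ℕ} (f α : Fin (n + 1) → ℝ) (t : ℝ) (r : Fin (n + 1)) (hr : LM f α t r) :
    f r + α r * t = H f α t :=
  le_antisymm (hr _) (H_le f α t r)

theorem step {n : ℕ} (f α : Fin (n + 1) → ℝ) (hα : ∀ r, α r ≠ 0) (t t' t'' : ℝ) (h1 : t < t')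
    (h2 : t' < t'') (h : H f α t' ≤ H f α t) : H f α t'' < H f α t' := by
  obtain ⟨r, hr⟩ := exLM f α t'
  have e1 := H_eq f α t' r hr
  have e2 := H_le f α t r
  have e3 := H_le f α t'' r
  have e4 : α r < 0 := by
    have h5 : α r * (t' - t) ≤ 0 := by nlinarith
    have h6 : α r ≤ 0 := by
      by_contra hcon
      push Not at hcon
      have := mul_pos hcon (sub_pos.2 h1)
      linarith
    exact lt_of_le_of_ne h6 (hα r)
  nlinarith

theorem chain {n : ℕ} (f α : Fin (n + 1) → ℝ) (hα : ∀ r, α r ≠ 0) (k : ℕ) (T : ℕ → ℝ)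
    (hT : ∀ m, m < k → T m < T (m + 1)) (l : ℕ) (h : H f α (T (l + 1)) ≤ H f α (T l)) :
    ∀ l', l < l' → l' < k → H f α (T (l' + 1)) < H f α (T l') := by
  intro l' hl
  induction l', hl using Nat.le_induction with
  | base =>
    intro hk
    exact step f α hα _ _ _ (hT l (by omega)) (hT (l + 1) hk) h
  | succ m hm ih =>
    intro hk
    exact step f α hα _ _ _ (hT m (by omega)) (hT (m + 1) hk) (ih (by omega)).le

/-- the first index where the function does not increase -/
theorem firstIdx (k : ℕ) (up : ℕ → Prop) :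
    ∃ a ≤ k, (∀ l < a, up l) ∧ (a < k → ¬ up a) := by
  classical
  by_cases h : ∃ n, n < k ∧ ¬ up n
  · refine ⟨Nat.find h, (Nat.find_spec h).1.le, ?_, fun _ => (Nat.find_spec h).2⟩
    intro l hl
    by_contra hcon
    exact Nat.find_min h hl ⟨hl.trans (Nat.find_spec h).1, hcon⟩
  · push Not at h
    exact ⟨k, le_rfl, h, fun hk => absurd hk (lt_irrefl _)⟩

end PatBN

open PatBN in
theorem tPatB : StmtPatB := by
  intro B e k S hsl y t ht hno
  set f := S.h y with hf
  set α := S.α with hαd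
  have hslv : ∀ r, S.sl (S.p.succAbove r) = α r := fun r => by
    unfold Side.sl
    rw [Fin.insertNth_apply_succAbove]
  have hslp : S.sl S.p = 0 := by
    unfold Side.sl
    rw [Fin.insertNth_apply_same]
  have hα : StrictAnti α := by
    intro i j hij
    rw [← hslv, ← hslv]
    exact hsl (Fin.strictMono_succAbove S.p hij)
  have hα0 : ∀ r, α r ≠ 0 := by
    intro r hr
    rw [← hslv, ← hslp] at hr
    exact Fin.succAbove_ne S.p r (hsl.injective hr)
  let T : ℕ → ℝ := fun n => if h : n < k + 1 then t ⟨n, h⟩ else 0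
  have hTv : ∀ x : Fin (k + 1), T x = t x := by
    intro x
    show (if h : (x : ℕ) < k + 1 then t ⟨x, h⟩ else 0) = t x
    rw [dif_pos x.isLt]
  have hT : ∀ m, m < k → T m < T (m + 1) := by
    intro m hm
    have e1 := hTv ⟨m, by omega⟩
    have e2 := hTv ⟨m + 1, by omega⟩
    simp only at e1 e2
    rw [e1, e2]
    exact ht (by rw [Fin.lt_def]; simp)
  obtain ⟨a', ha'k, hup, hnup⟩ := firstIdx k (fun l => H f α (T l) < H f α (T (l + 1)))
  -- the four facts
  have hdown : ∀ l, a' < l → l < k → H f α (T (l + 1)) < H f α (T l) := by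
    intro l hl hlk
    have h1 : ¬ H f α (T a') < H f α (T (a' + 1)) := hnup (by omega)
    exact chain f α hα0 k T hT a' (not_lt.1 h1) l hl hlk
  have case1 : ∀ l : Fin k, H f α (t l.castSucc) < H f α (t l.succ) →
      ∃ i i', i < i' ∧ LM f α (t l.castSucc) i ∧ LM f α (t l.castSucc) i' := by
    intro l hl
    obtain ⟨r, hr⟩ := exLM f α (t l.castSucc)
    have e1 := H_eq f α _ r hr
    have hlt : t l.castSucc < t l.succ := ht (Fin.castSucc_lt_succ)
    apply two _ _ _ r hr
    intro hSM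
    apply hno l r
    left
    have e3 := H_le f α (t l.succ) r
    have e4 : 0 < α r * (t l.succ - t l.castSucc) := by nlinarith
    refine ⟨(pos_iff_pos_of_mul_pos e4).2 (sub_pos.2 hlt), hSM, fun r' => ?_⟩
    exact lt_of_eq_of_lt e1 (lt_of_lt_of_le hl (H_le f α _ r'))
  have case2 : ∀ l : Fin k, H f α (t l.succ) < H f α (t l.castSucc) →
      ∃ i i', i < i' ∧ LM f α (t l.succ) i ∧ LM f α (t l.succ) i' := by
    intro l hl
    obtain ⟨r, hr⟩ := exLM f α (t l.succ)
    have e1 := H_eq f α _ r hr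
    have hlt : t l.castSucc < t l.succ := ht (Fin.castSucc_lt_succ)
    apply two _ _ _ r hr
    intro hSM
    apply hno l r
    right
    have e3 := H_le f α (t l.castSucc) r
    have e4 : α r * (t l.succ - t l.castSucc) < 0 := by nlinarith
    have e5 : α r < 0 := by
      by_contra hcon
      push Not at hcon
      have := mul_nonneg hcon (sub_pos.2 hlt).le
      linarith
    refine ⟨e5, hSM, fun r' => ?_⟩
    exact lt_of_eq_of_lt e1 (lt_of_lt_of_le hl (H_le f α _ r'))
  have case3 : ∀ l : Fin k, H f α (t l.castSucc) = H f α (t l.succ) →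
      ∃ i i', i < i' ∧ LM f α (t l.castSucc) i ∧ LM f α (t l.succ) i' := by
    intro l hl
    obtain ⟨r, hr⟩ := exLM f α (t l.castSucc)
    obtain ⟨r', hr'⟩ := exLM f α (t l.succ)
    have hlt : t l.castSucc < t l.succ := ht (Fin.castSucc_lt_succ)
    have h1 := LM_le f α hα _ _ hlt _ _ hr hr'
    refine ⟨r, r', lt_of_le_of_ne h1 ?_, hr, hr'⟩
    rintro rfl
    have e1 := H_eq f α _ r hr
    have e2 := H_eq f α _ r hr'
    have e3 : α r * (t l.succ - t l.castSucc) = 0 := by linarith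
    rcases mul_eq_zero.1 e3 with h | h
    · exact hα0 r h
    · linarith
  -- the choice of `a`
  obtain ⟨a, ha1, ha2, hak, ha3, ha4⟩ : ∃ a : ℕ, a' ≤ a ∧ a ≤ a' + 1 ∧ a ≤ k ∧
      (a' < a → H f α (T a') = H f α (T (a' + 1))) ∧
      (a = a' → a' < k → H f α (T (a' + 1)) < H f α (T a')) := by
    by_cases h : a' < k ∧ H f α (T a') ≤ H f α (T (a' + 1))
    · refine ⟨a' + 1, by omega, le_rfl, by omega, fun _ => ?_, fun h' => by omega⟩
      exact le_antisymm h.2 (not_lt.1 (hnup h.1))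
    · refine ⟨a', le_rfl, by omega, ha'k, fun h' => absurd h' (lt_irrefl _), fun _ hk => ?_⟩
      by_contra hcon
      exact h ⟨hk, not_lt.1 hcon⟩
  have hsA : ∀ (A : Fin (k + 1)) (l : Fin k), (l : ℕ) < A → A.succAbove l = l.castSucc := by
    intro A l hl
    exact Fin.succAbove_of_castSucc_lt A l (by rw [Fin.lt_def]; simpa using hl)
  have hsB : ∀ (A : Fin (k + 1)) (l : Fin k), (A : ℕ) ≤ l → A.succAbove l = l.succ := by
    intro A l hl
    exact Fin.succAbove_of_le_castSucc A l (by rw [Fin.le_def]; simpa using hl)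
  let fa : Fin (k + 1) := ⟨a, by omega⟩
  let fa' : Fin (k + 1) := ⟨a', by omega⟩
  have hex : ∀ l : Fin k, ∃ i i' : Fin (B + 1), i < i' ∧ LM f α (t (fa.succAbove l)) i ∧
      LM f α (t (fa'.succAbove l)) i' ∧ f i + α i * t (fa.succAbove l) =
        f i' + α i' * t (fa'.succAbove l) := by
    intro l
    have hTl : T l = t l.castSucc := hTv l.castSucc
    have hTl' : T ((l : ℕ) + 1) = t l.succ := hTv l.succ
    rcases lt_trichotomy (l : ℕ) a' with h | h | h
    · obtain ⟨i, i', h1, h2, h3⟩ := case1 l (by rw [← hTl, ← hTl']; exact hup l h)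
      rw [hsA fa l (by show (l : ℕ) < a; omega), hsA fa' l h]
      exact ⟨i, i', h1, h2, h3, le_antisymm (h2 i') (h3 i)⟩
    · rcases Nat.lt_or_ge a' a with h' | h'
      · have e := ha3 h'
        rw [← h, hTl, hTl'] at e
        obtain ⟨i, i', h1, h2, h3⟩ := case3 l e
        rw [hsA fa l (by show (l : ℕ) < a; omega), hsB fa' l (by show a' ≤ (l : ℕ); omega)]
        refine ⟨i, i', h1, h2, h3, ?_⟩
        rw [H_eq f α _ i h2, H_eq f α _ i' h3, e]
      · have e := ha4 (by omega) (by have := l.isLt; omega)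
        rw [← h, hTl, hTl'] at e
        obtain ⟨i, i', h1, h2, h3⟩ := case2 l e
        rw [hsB fa l (by show a ≤ (l : ℕ); omega), hsB fa' l (by show a' ≤ (l : ℕ); omega)]
        exact ⟨i, i', h1, h2, h3, le_antisymm (h2 i') (h3 i)⟩
    · have e := hdown l h l.isLt
      rw [hTl, hTl'] at e
      obtain ⟨i, i', h1, h2, h3⟩ := case2 l e
      rw [hsB fa l (by show a ≤ (l : ℕ); omega), hsB fa' l (by show a' ≤ (l : ℕ); omega)]
      exact ⟨i, i', h1, h2, h3, le_antisymm (h2 i') (h3 i)⟩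
  choose i i' h1 h2 h3 h4 using hex
  refine ⟨fa, fa', i, i', ha1, ha2, ⟨h1, ?_⟩, h4⟩
  intro l l' hll
  apply LM_le f α hα _ _ (ht _) _ _ (h3 l) (h2 l')
  have hll' : (l : ℕ) < l' := hll
  rw [Fin.lt_def]
  rcases Nat.lt_or_ge l a' with c1 | c1
  · rw [hsA fa' l c1]
    rcases Nat.lt_or_ge l' a with c2 | c2
    · rw [hsA fa l' c2]
      simpa using hll'
    · rw [hsB fa l' c2]
      simp only [Fin.val_castSucc, Fin.val_succ]
      omega
  · rw [hsB fa' l c1]
    rcases Nat.lt_or_ge l' a with c2 | c2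
    · omega
    · rw [hsB fa l' c2]
      simp only [Fin.val_succ]
      omega

end Pool.Agent.Lib.MP_4e7804_co.Tw
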