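import Pool.Agent.Lib.MP_4e7804_co.Tw.Nerve
import Pool.Agent.Lib.MP_4e7804_co.Tw.Base

/-!
# Two nontrivial polytopes, upper bound: statements

`V_n(1, ..., 1, b, c) ≤ ∑ k ≤ n - 2, C(b, k) C(c, k)` for `n ≥ 4`.

Every statement is a `Prop`; its docstring contains a complete proof. Delivery format: file
`Tw/<Name>.lean`, first line `import Pool.Agent.Lib.MP_4e7804_co.Tw.Spec`, private lemmas in the namespace
`Pool.Agent.Lib.MP_4e7804_co.Tw.<Name>N`, final theorem `Pool.Agent.Lib.MP_4e7804_co.Tw.t<Name>`, with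
the statements listed under `Uses` as hypotheses.
-/

set_option autoImplicit false

namespace Pool.Agent.Lib.MP_4e7804_co.Tw

/-! ## Thresholds and corners -/

/-- **Thr** existence of thresholds. Proof. For `1 ≤ I ≤ b` let
`σ I = min_{r ≥ I} max_{l < I} (f r - f l) / (α l - α r)` (`α l > α r`; `Finset.inf'`, `Finset.sup'` over
`univ.filter`; outside of `1..b` put `0`). Write `F r t = f r + α r * t`. For `l < r`:
`F r t ≤ F l t ↔ (f r - f l) / (α l - α r) ≤ t`. So (1) `σ I ≤ t` iff there is `r ≥ I` with `F r t ≤ F l t`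
for all `l < I`. `mono`: by (1) `σ (I + 1) ≤ t` implies `σ I ≤ t` (same `r`), take `t = σ (I + 1)`.
`str`: `t < σ (i + 1)` (if `i < b`): for every `r > i` there is `l ≤ i` with `F l t < F r t`; so some label
`≤ i` is minimal (take a minimal label `r` of all, `Finite.exists_min`; `r > i` is impossible), and no label
`> i` is minimal. `σ i < t` (if `1 ≤ i`): there is `r ≥ i` with `F r (σ i) ≤ F l (σ i)` for all `l < i`, as
`α r < α l` we get `F r t < F l t`: no label `< i` is minimal. So `i` is the only minimal label: for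
`r ≠ i`, `F i t < F r t` since otherwise `r` would be minimal. `tie`: let `r` attain the minimum and let
`l` attain the maximum for this `r`; at `t = σ I` we have `F r t = F l t ≤ F l' t` for `l' < I`, and for
`r' ≥ I` the `l'` which attains the maximum for `r'` has `F l' t ≤ F r' t` (as `t = σ I ≤` this maximum), so
`F r t ≤ F l' t ≤ F r' t`. -/
def StmtThr : Prop := ∀ (b : ℕ) (f α : Fin (b + 1) → ℝ), StrictAnti α → ∃ σ : ℕ → ℝ, IsThr f α σ

/-- **XFX** the matrix of a path. Proof. Case distinctions in the definition of `X`. First `σ I ≤ σ I'` for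
`1 ≤ I ≤ I' ≤ b` (`mono`, induction), the same for `τ`. `mono`: the cases `I = 0` (left side `0`),
`J = c + 1` (left side `0`), `J' = 0` (right side `1` unless `I' = 0`), `I' = b + 1` (right side `1` unless
`J' = c + 1 = J`), and `1 ≤ I ≤ I' ≤ b`, `1 ≤ J' ≤ J ≤ c`: `τ J' ≤ τ J < σ I ≤ σ I'`. -/
def StmtXFX : Prop := ∀ (b c : ℕ) (f α : Fin (b + 1) → ℝ) (g β : Fin (c + 1) → ℝ) (σ τ : ℕ → ℝ),
  IsThr f α σ → IsThr g β τ → XF b c (X b c σ τ)

/-- **Chain** lattice points of nonzero weight are realized. Proof. Let `M` be larger than all `|σ I|`, `|τ J|`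
(`1 ≤ I ≤ b`, `1 ≤ J ≤ c`) and `M > 0`. Let `σ' 0 = -M`, `σ' I = σ I` for `1 ≤ I ≤ b`, `σ' I = M` for
`I > b`, and the same for `τ'`; both are monotone. For a lattice point `(i, j)` put
`lo = max (σ' i) (τ' j)`, `hi = min (σ' (i+1)) (τ' (j+1))`. CLAIM: `Wt X i j ≠ 0` implies `lo < hi`. Let
`a = X i j`, `b' = X (i+1) j`, `c' = X i (j+1)`, `d' = X (i+1) (j+1)`; all are `0` or `1`, and
`c' ≤ a, d' ≤ b'` (`XFX`). If `c' = 1` or `b' = 0` then `Wt = 0`. So `c' = 0`, `b' = 1` and `a = d'` (otherwise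
`Wt = a + d' - 1 = 0`). `X i (j+1) = 0` gives `σ' i < τ' (j+1)` (for `i = 0` or `j = c` by the choice of
`M`, otherwise `σ i ≤ τ (j+1)` and they are different, `NoC`). `X (i+1) j = 1` gives
`τ' j < σ' (i+1)`. Case `a = d' = 1`: `X i j = 1` gives `1 ≤ i`, `τ' j < σ' i` and
`X (i+1) (j+1) = 1` gives `τ' (j+1) < σ' (i+1)` (if `i = b` then `j < c`, as `X (b+1) (c+1) = 0`), so
`τ' j < σ' i < τ' (j+1) < σ' (i+1)`. Case `a = d' = 0`: `X i j = 0` gives `σ' i ≤ τ' j`
(`i = 0`: `-M ≤ τ' j`; `i ≥ 1`: `j ≥ 1`), `X (i+1) (j+1) = 0` gives `σ' (i+1) ≤ τ' (j+1)` (`i = b`: then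
`j = c`, both are `M`), so `σ' i ≤ τ' j < σ' (i+1) ≤ τ' (j+1)`. END OF CLAIM. Put
`t l = lo + (hi - lo) * (l + 1) / (k + 1)` with `lo`, `hi` of the point `(i l, j l)`, so `lo < t l < hi`,
and `IsThr.str` gives both `SM` (`σ' i ≤ lo`, `hi ≤ σ' (i+1)`, ...). `StrictMono t`: let `l < l'`. If the two
lattice points are equal, use `l < l'`. Otherwise `i l < i l'` or `j l < j l'`, and
`hi (l) ≤ σ' (i l + 1) ≤ σ' (i l') ≤ lo (l')` (or the same with `τ'`). -/
def StmtChain : Prop := ∀ (b c : ℕ) (f α : Fin (b + 1) → ℝ) (g β : Fin (c + 1) → ℝ) (σ τ : ℕ → ℝ),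
  IsThr f α σ → IsThr g β τ → NoC b c σ τ → ∀ (k : ℕ) (i : Fin k → Fin (b + 1)) (j : Fin k → Fin (c + 1)),
    Monotone i → Monotone j → (∀ l, Wt (X b c σ τ) (i l) (j l) ≠ 0) →
    ∃ t : Fin k → ℝ, StrictMono t ∧ (∀ l, SM f α (t l) (i l)) ∧ ∀ l, SM g β (t l) (j l)

/-! ## Moments -/

/-- **Red** it suffices to consider strictly increasing interior tuples. Proof. Induction on the length `k'`
(`< k`) for all `I, J`. (a) If `I l = 0` or `I l = b + 1` or `J l = 0` or `J l = c + 1` for some `l`, then the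
factor `X s (I l) (J l)` does not depend on `s` (`zero`, `top`, `top'`, `left`, `right`), so `SS` is a
constant times the `SS` of the tuples without the entry `l` (`Fin.prod_univ_succAbove`), which is zero.
(b) If `l ≠ l'`, `I l ≤ I l'` and `J l' ≤ J l`, then `X s (I l) (J l) ≤ X s (I l') (J l')` and both are `0` or
`1`, so the product of both is the first one: the product does not change if we remove the entry `l'`; again
zero. (c) Otherwise all entries are interior and for `l ≠ l'` (if `I l ≤ I l'` then `J l < J l'`, and then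
not `I l' ≤ I l`) either `I l < I l'` and `J l < J l'`, or the reverse. So `I` is injective, and with the
permutation `w = Tuple.sort I`, `I ∘ w` is strictly increasing and so is `J ∘ w`; `SS` does not change
(`Equiv.prod_comp`). -/
def StmtRed : Prop := ∀ (Ω : Type) (_ : Fintype Ω) (φ : Ω → ℝ) (X : Ω → ℕ → ℕ → ℝ) (b c : ℕ),
  (∀ s, XF b c (X s)) → ∀ k : ℕ,
    (∀ k' < k, ∀ I J : Fin k' → ℕ, StrictMono I → StrictMono J → (∀ l, 1 ≤ I l ∧ I l ≤ b) →
      (∀ l, 1 ≤ J l ∧ J l ≤ c) → SS φ X I J = 0) → Van φ X b c k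

/-- **Marg** the marginals are zero. Proof. (A) `MM φ X I J = 0` for tuples of length `k` with entries
`≤ b + 1`, `≤ c + 1` if some entry of `I` is `0` or `b + 1` or some entry of `J` is `0` or `c + 1`: the factor
does not depend on `s`, and the rest is an `SS` of length `k - 1` (`Van`). (B) Let `l` be fixed and let `w` be
the involution of `Fin k → Bool × Bool` which changes `(p l).1` (`Function.update`). For fixed `p` with
`(p l).1 = false` and `G y = MM` of the tuple `i + sh p` with the entry `l` replaced by `y`, the terms of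
`p` and `w p` in the marginal are `± ∑ x < b + 1, (G x - G (x + 1)) = ± (G 0 - G (b + 1)) = 0`
(`Finset.sum_range_sub'`, `Fin.sum_univ_eq_sum_range`). So twice the marginal, which is
`∑ p (A p + A (w p))` (`Equiv.sum_comp`), is zero. The same for `j`. -/
def StmtMarg : Prop := ∀ (Ω : Type) (_ : Fintype Ω) (φ : Ω → ℝ) (X : Ω → ℕ → ℕ → ℝ) (b c : ℕ),
  (∀ s, XF b c (X s)) → ∀ k : ℕ, Van φ X b c k → ZM2 (k := k) (k' := k) (mF (b := b) (c := c) φ X)

/-- **Supp** (uses `Marg`) the support. Proof. (A) If `i l > i l'` for some `l < l'` then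
`i l + sh _ ≥ i l' + 1 ≥ i l' + sh _`, no shifted tuple is strictly increasing, `mF = 0`. So `i`, `j` are
monotone. (B) Assume that the points `(i l, j l)` are pairwise different. Then
`mF φ X i j = ∑ s, φ s * ∏ l, Wt (X s) (i l) (j l)`: expand the product of the sums of four terms
(`Wt X i j = ∑ q : Bool × Bool, sg q.1 * sg q.2 * X (i + sh q.1) (j + sh q.2)`, `Finset.prod_univ_sum`), the
right side is `∑ p, (∏ l, ...) * SS φ X (i + sh p) (j + sh p)`, and it remains to show `SS φ X I J = 0`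
for the tuples `I = i + sh p.1`, `J = j + sh p.2` if they are not both strictly increasing. Then there is an
adjacent pair `l`, `l' = l + 1` (`Fin.strictMono_iff_lt_succ`) with `I l' ≤ I l` or `J l' ≤ J l`. If
`I l' ≤ I l` and `J l ≤ J l'`, or `I l ≤ I l'` and `J l' ≤ J l`, then one of the two factors is `≤` the other
(`XF.mono`), both are `0` or `1`, and one factor can be removed: the `SS` is one of length `k - 1`, zero.
Otherwise `I l' < I l` and `J l' < J l`, which implies `i l = i l'` and `j l = j l'` (`i l ≤ i l'`, shifts by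
`0` or `1`): excluded. (C) So for pairwise different points the claim holds: some term `s` of the sum is not
zero. In general use induction on `∑ l, i l`: let `l < l'` with `(i l, j l) = (i l', j l')`. By `Marg` the
marginal over `i l` is zero, so `mF φ X (update i l x) j ≠ 0` for some `x ≠ i l`; by (A) this tuple is
monotone, so `x ≤ i l' = i l`, `x < i l` and the sum of the entries is smaller. By induction there is `s`
with `φ s ≠ 0` and nonzero weights at all points of `(update i l x, j)`; all the points of the original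
tuple with an index `≠ l` are among them, and the point with the index `l` is equal to the one with the
index `l'`. -/
def StmtSupp : Prop := ∀ (Ω : Type) (_ : Fintype Ω) (φ : Ω → ℝ) (X : Ω → ℕ → ℕ → ℝ) (b c : ℕ),
  (∀ s, XF b c (X s)) → ∀ k : ℕ, Van φ X b c k → ∀ (i : Fin k → Fin (b + 1)) (j : Fin k → Fin (c + 1)),
    mF φ X i j ≠ 0 → Monotone i ∧ Monotone j ∧ ∃ s, φ s ≠ 0 ∧ ∀ l, Wt (X s) (i l) (j l) ≠ 0

/-- **Back** (uses `Red`) from `mF` back to the moments. Proof. By `Red` it suffices to show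
`SS φ X I J = 0` for strictly increasing interior tuples of length `k` (shorter ones: `Van`). CLAIM:
`MM φ X I J = 0` for all tuples of length `k` with `I l ≤ b + 1`, `J l ≤ c + 1`. If some `I l = b + 1` or some
`J l = c + 1`, the factor is constant and the rest is an `SS` of length `k - 1`. Otherwise use induction
on `∑ l, (b + 1 - I l) + ∑ l, (c + 1 - J l)`: `I l ≤ b`, `J l ≤ c` for all `l` and
`0 = mF φ X I J = MM φ X I J + ` the terms with `p ≠ 0`, whose tuples have a larger sum and entries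
`≤ b + 1`, `≤ c + 1`, so these terms are zero by induction. -/
def StmtBack : Prop := ∀ (Ω : Type) (_ : Fintype Ω) (φ : Ω → ℝ) (X : Ω → ℕ → ℕ → ℝ) (b c : ℕ),
  (∀ s, XF b c (X s)) → ∀ k : ℕ, Van φ X b c k →
    (∀ (i : Fin k → Fin (b + 1)) (j : Fin k → Fin (c + 1)), mF φ X i j = 0) → Van φ X b c (k + 1)

/-- **Sep** the moments separate. Proof. Otherwise choose `s` with `φ s ≠ 0` such that the set `A s` of all
`(I, J)`, `I ≤ b + 1`, `J ≤ c + 1`, with `X s I J = 1` has the maximal number of elements. Enumerate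
`A s` as a tuple. The product over `A s` of `X s' I J` is `1` if `A s ⊆ A s'` and `0` otherwise. If
`φ s' ≠ 0` and `A s ⊆ A s'` then `A s = A s'`, so `X s = X s'` on the range (values `0`, `1`) and
`s = s'`. So `SS` of this tuple is `φ s ≠ 0`; contradiction. -/
def StmtSep : Prop := ∀ (Ω : Type) (_ : Fintype Ω) (φ : Ω → ℝ) (X : Ω → ℕ → ℕ → ℝ) (b c : ℕ),
  (∀ s, XF b c (X s)) → (∀ s s', s ≠ s' → ∃ I J, I ≤ b + 1 ∧ J ≤ c + 1 ∧ X s I J ≠ X s' I J) →
    (∀ k, Van φ X b c k) → φ = 0

/-! ## Functions on tuples -/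

/-- **RA** one label `p`. Proof. Write `g e = p.succAbove ∘ e`. `ins p r e = r.insertNth p (g e)`.
(1) marginals: by `Fin.sum_univ_succAbove` and the zero marginal of `m` at the position `r.succAbove l`,
`∑ x, m (ins p r (update e l x)) = - m (r.insertNth p (update (g e) l p))`. So the marginal of `R1 p m` is
`- ∑ r, (-1)^r m (r.insertNth p (update (g e) l p))`. This tuple has the label `p` exactly at the positions
`r` and `r.succAbove l`. If these are not adjacent, there is a label `≠ p` between two labels `p`, the tuple is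
not monotone, `m = 0`. They are adjacent exactly for `r = l.castSucc` and `r = l.succ`, the two tuples are
equal and the signs are opposite. (2) support: if `R1 p m e ≠ 0` some `ins p r e` is monotone; composed with
`r.succAbove` this is `p.succAbove ∘ e`, so `e` is monotone. (3) let `R1 p m = 0`. Suppose `m i ≠ 0` for some
`i` which has the label `p`; choose such an `i` with the smallest number `ν` of labels `p`. `i` is monotone. If
`ν ≥ 2` let `r` be the first position of `p`: the zero marginal at `r` gives `y ≠ p` with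
`m (update i r y) ≠ 0`, which has `ν - 1 ≥ 1` labels `p`; contradiction. If `ν = 1`, `i = ins p r e` for
some `e` (`i ∘ r.succAbove` has no label `p`, `Fin.exists_succAbove_eq`), and for `r' ≠ r` the tuple
`ins p r' e` is not monotone (for `r' < r` the entry at `r' + 1` is `i r' < p`, for `r' > r` the entry at
`r' - 1` is `i r' > p`, as `i` is monotone and `i r = p`), so `R1 p m e = ± m i ≠ 0`, contradiction.
(4) so the marginals of `R0 p m` are zero: `∑ x, m (p.succAbove ∘ update e l x)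
= ∑ y, m (update (g e) l y) - m (update (g e) l p) = 0 - 0`; and it is supported on monotone tuples. (5) clear:
every tuple has a label `p` or is `p.succAbove ∘ e`. -/
def StmtRA : Prop := ∀ (k n : ℕ) (p : Fin (n + 1)) (m : (Fin (k + 1) → Fin (n + 1)) → ℝ),
  ZMarg m → MSupp m → ZMarg (R1 p m) ∧ MSupp (R1 p m) ∧
    (R1 p m = 0 → (∀ i, (∃ l, i l = p) → m i = 0) ∧ ZMarg (R0 p m) ∧ MSupp (R0 p m) ∧
      (R0 p m = 0 → m = 0))

/-- **RR** (uses `RA`) both variables. Proof. `R0 p`, `R1 p` are linear in `m`, so they commute with finite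
sums, and the operators of the first and of the second variable commute (`Finset.sum_comm`). Let
`A (e, j) = R1 p (m · j) e`, `A' (i, e') = R1 q (m i ·) e'`, `A0 (e, j) = R0 p (m · j) e`.
(a) `A` has zero marginals in `e` (`RA` for the slices `m · j`) and in `j` (linearity), and the support
of `A` is monotone in both. Apply `RA` to the slices `A (e, ·)`: `m11 (e, ·) = R1 q (A (e, ·))`; marginals
in `e` by linearity. (b) let `m11 = 0`. `RA` for `A (e, ·)`: `m10 (e, ·) = R0 q (A (e, ·))` has zero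
marginals; in `e` by linearity. For `m01`: `m01 (·, e') = R0 p (A' (·, e'))` and
`R1 p (A' (·, e')) = m11 (·, e') = 0`, so by `RA` it has zero marginals in `e`; in `e'`:
`m01 (e, ·) = R1 q (A0 (e, ·))`, `A0 (e, ·) = m (p.succAbove ∘ e) ·` has zero marginals and monotone support.
(c) let `m11 = m01 = m10 = 0`. `RA` for `A (e, ·)` (`R1 q = 0`, `R0 q = 0`) gives `A = 0`, i.e.
`R1 p (m · j) = 0`, so `A0 (·, j)` has zero marginals; `R1 q (A0 (e, ·)) = m01 (e, ·) = 0`, so
`m00 (e, ·) = R0 q (A0 (e, ·))` has zero marginals; in `e` by linearity. (d) if also `m00 = 0`, then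
`A0 = 0` and `A = 0`, so `m · j = 0` by `RA`. -/
def StmtRR : Prop := ∀ (k n n' : ℕ) (p : Fin (n + 1)) (q : Fin (n' + 1))
  (m : (Fin (k + 1) → Fin (n + 1)) → (Fin (k + 1) → Fin (n' + 1)) → ℝ), ZM2 m → MS2 m →
  (ZM2 (m11 p q m) ∧ MS2 (m11 p q m)) ∧
  (m11 p q m = 0 → (ZM2 (m01 p q m) ∧ MS2 (m01 p q m)) ∧ (ZM2 (m10 p q m) ∧ MS2 (m10 p q m))) ∧
  (m11 p q m = 0 → m01 p q m = 0 → m10 p q m = 0 → ZM2 (m00 p q m) ∧ MS2 (m00 p q m)) ∧
  (m11 p q m = 0 → m01 p q m = 0 → m10 p q m = 0 → m00 p q m = 0 → m = 0)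

/-- **ZM** Proof. Suppose `m i j ≠ 0` and choose such a pair with the maximal sum of all entries. `i`, `j` are
monotone. Suppose `i` is not strictly increasing or has a zero entry: then there is `l` with
(`l > 0` and `i l = i (l - 1)`) or (`l = 0` and `i 0 = 0`) (a monotone tuple with a zero entry has
`i 0 = 0`). The marginal over `i l` is zero, so there is `x ≠ i l` with `m (update i l x) j ≠ 0`. If
`x < i l` this tuple is not monotone (`i (l - 1) = i l > x`) or `x < 0`, impossible. If `x > i l` the sum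
is larger: contradiction. So `i` is strictly increasing with nonzero entries, the same for `j`, and `Str0`
gives `m i j = 0`. -/
def StmtZM : Prop := ∀ (k k' n n' : ℕ) (m : (Fin k → Fin (n + 1)) → (Fin k' → Fin (n' + 1)) → ℝ),
  ZM2 m → MS2 m → Str0 m → m = 0

/-- **Nerve2** the nerve lemma for cells in `(y, t)`. Proof. Suppose `m ≠ 0`. Choose for every `(i, j)` with
`m i j ≠ 0` a point `(y, t)` of `supp` hypothesis; let `ε > 0` be smaller than all the differences
`t l' - t l`, `l < l'`, of these finitely many points. Let `B` be the set of all `(y, t)` with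
`t l + ε ≤ t l'` for all `l < l'`: closed and convex, and `StrictMono t` on `B`. Apply `nerve` in
`EuclideanSpace ℝ (Fin e ⊕ Fin K)` (or another inner product space with a continuous linear equivalence to
`(Fin e → ℝ) × (Fin K → ℝ)`, images of open convex sets are open and convex) with the index set
`Fin ka ⊕ Fin kb`, the cells `Ca`, `Cb` and `m' l = m (l ∘ inl) (l ∘ inr)` (dependent functions
`∀ i, A i` with `A (inl _) = Fin na`, `A (inr _) = Fin nb`). -/
def StmtNerve2 : Prop := ∀ (e K ka kb na nb : ℕ) (Ca : Fin ka → Fin na → Set ((Fin e → ℝ) × (Fin K → ℝ)))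
  (Cb : Fin kb → Fin nb → Set ((Fin e → ℝ) × (Fin K → ℝ))),
  (∀ l i, IsOpen (Ca l i) ∧ Convex ℝ (Ca l i)) → (∀ l i, IsOpen (Cb l i) ∧ Convex ℝ (Cb l i)) →
  (∀ l i i', i ≠ i' → Disjoint (Ca l i) (Ca l i')) → (∀ l i i', i ≠ i' → Disjoint (Cb l i) (Cb l i')) →
  (∀ y t, StrictMono t → (∃ l i, (y, t) ∈ Ca l i) ∨ ∃ l j, (y, t) ∈ Cb l j) →
  ∀ m : (Fin ka → Fin na) → (Fin kb → Fin nb) → ℝ, ZM2 m →
    (∀ i j, m i j ≠ 0 → ∃ y t, StrictMono t ∧ (∀ l, (y, t) ∈ Ca l (i l)) ∧ ∀ l, (y, t) ∈ Cb l (j l)) →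
    m = 0

/-! ## Cells -/

/-- **CellT** the cells are open, convex and disjoint. Proof. All conditions are strict inequalities between
linear functions of `(y, t)` (the sign of `S.α i` is a constant: distinguish cases, one of the two
alternatives of `LCell` is empty). Disjointness of `SM`: clear. Disjointness of `LCell` for `i ≠ i'`, at the
points `t = x.2 l`, `t' = x.2 l'`: if `α i`, `α i'` have the same sign both labels are `SM` at the same
point. If `α i > 0 > α i'`: `h i + α i t < h i' + α i' t'` (third condition for `i`, `r = i'`) and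
`h i' + α i' t' < h i + α i t` (for `i'`, `r = i`). -/
def StmtCellT : Prop := ∀ (B e K : ℕ) (S : Side B e),
  (∀ (l : Fin K) (i : Fin (B + 1)),
    IsOpen {x : (Fin e → ℝ) × (Fin K → ℝ) | SM (S.h x.1) S.α (x.2 l) i} ∧
    Convex ℝ {x : (Fin e → ℝ) × (Fin K → ℝ) | SM (S.h x.1) S.α (x.2 l) i}) ∧
  (∀ (l : Fin K) (i i' : Fin (B + 1)), i ≠ i' →
    Disjoint {x : (Fin e → ℝ) × (Fin K → ℝ) | SM (S.h x.1) S.α (x.2 l) i}
      {x : (Fin e → ℝ) × (Fin K → ℝ) | SM (S.h x.1) S.α (x.2 l) i'}) ∧
  (∀ (l l' : Fin K) (i : Fin (B + 1)),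
    IsOpen {x : (Fin e → ℝ) × (Fin K → ℝ) | LCell S x.1 (x.2 l) (x.2 l') i} ∧
    Convex ℝ {x : (Fin e → ℝ) × (Fin K → ℝ) | LCell S x.1 (x.2 l) (x.2 l') i}) ∧
  (∀ (l l' : Fin K) (i i' : Fin (B + 1)), i ≠ i' →
    Disjoint {x : (Fin e → ℝ) × (Fin K → ℝ) | LCell S x.1 (x.2 l) (x.2 l') i}
      {x : (Fin e → ℝ) × (Fin K → ℝ) | LCell S x.1 (x.2 l) (x.2 l') i'})

/-- **Lab** labels of `f` and cells of `h`. Proof. `S.f y z (S.p.succAbove i) = S.h y i`,
`S.sl (S.p.succAbove i) = S.α i`, `S.f y z S.p = z`, `S.sl S.p = 0`. First part: clear. Second part: let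
`a l` be the label at `t l`, `a r = S.p`, `a (r.succAbove l) = S.p.succAbove (e l)`. For
positions `l₁ < l₂` with `a l₁ ≠ a l₂` the slope of `a l₁` is larger than the slope of `a l₂` (add the two
strict inequalities). So the labels before `r` have positive slopes and those after `r` have negative slopes.
Let `l` be with `l.castSucc < r` (so `e l` is the label at `l.castSucc`): `0 < S.α (e l)`; `SM (S.h y)` at
`t l.castSucc` by the first part. Let `a' = a l.succ`, of slope `≥ 0` (`l.succ ≤ r`). If `a'` is the same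
label as `a l.castSucc` its slope is positive, so the value at `t l.succ` is larger than the value at
`t l.castSucc`; otherwise `f a' + sl a' t l.succ ≥ f a' + sl a' t l.castSucc >` the value of the minimal label
at `t l.castSucc`. And `f a' + sl a' t l.succ ≤ S.h y r' + S.α r' * t l.succ` for all `r'`. So the first
alternative of `LCell` holds. If `r ≤ l.castSucc`, `e l` is the label at `l.succ`, and the second
alternative holds by the symmetric argument. -/
def StmtLab : Prop := ∀ (B e k : ℕ) (S : Side B e) (y : Fin e → ℝ) (z : ℝ),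
  (∀ (t : ℝ) (i : Fin (B + 1)), SM (S.f y z) S.sl t (S.p.succAbove i) → SM (S.h y) S.α t i) ∧
  (∀ (t : Fin (k + 1) → ℝ), StrictMono t → ∀ (r : Fin (k + 1)) (a : Fin k → Fin (B + 1)),
    (∀ l, SM (S.f y z) S.sl (t l) (ins S.p r a l)) →
    ∀ l : Fin k, LCell S y (t l.castSucc) (t l.succ) (a l))

/-- **Step** (uses `RR`, `ZM`, `Nerve2`, `CellT`, `Lab`) one step. Proof. `Rlz` implies `MS2` (for `l < l'` the
slope of the label at `t l` is `≥` the slope of the label at `t l'`, add the inequalities; slopes are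
strictly decreasing). (1) `m11`: `ZM2`, `MS2` by `RR`. If `k ≤ e` it is zero by `ZM`. If `e + 1 ≤ k` use
`Nerve2` with `K = k + 1`, `ka = kb = k` and the cells `LCell S₁ y (t l.castSucc) (t l.succ) i`,
`LCell S₂ ...`; they cover by `GPos.g2`; support: `m11 a a' ≠ 0` gives `r, r'` with
`m (ins p r a) (ins q r' a') ≠ 0`, `Rlz` gives `y, z₁, z₂, t`, and `Lab` the cells. (2) `m01`: `RR`; if
`k < e` zero by `ZM`, otherwise `e ≤ k`: `Nerve2` with `K = ka = k + 1`, `kb = k`, cells
`SM (S₁.h y) S₁.α (t l) i` and `LCell S₂ ...`, cover `g1`, support by `Rlz` and `Lab`. (3) `m10`: the same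
with `g1'`. (4) `m00`: `RR`; `Nerve2` with `K = ka = kb = k + 1`, cover `g0` (`e ≤ k + 1`). (5) `RR` (d). -/
def StmtStep : Prop := ∀ (B C e k : ℕ) (S₁ : Side B e) (S₂ : Side C e), StrictAnti S₁.sl →
  StrictAnti S₂.sl → GPos S₁ S₂ → e ≤ k + 1 →
  ∀ m : (Fin (k + 1) → Fin (B + 2)) → (Fin (k + 1) → Fin (C + 2)) → ℝ, ZM2 m → Rlz S₁ S₂ m →
    (k ≤ e → Str0 (m11 S₁.p S₂.p m)) →
    (k < e → Str0 (m01 S₁.p S₂.p m) ∧ Str0 (m10 S₁.p S₂.p m)) → m = 0

/-- **CoreA** (uses `XFX`, `Chain`, `Red`, `Marg`, `Supp`, `Back`, `Sep`, `Step`) the algebraic part. Proof.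
`X s = X (B+1) (C+1) (σ s) (τ s)` satisfies `XF` (`XFX`). `Van φ X (B+1) (C+1) (e'+1)` by `Red`. Now show
`Van φ X (B+1) (C+1) k` for all `k ≥ e' + 1` by induction: let `k = k₀ + 1`, `m = mF φ X` of length `k`.
`ZM2 m` by `Marg`. `Rlz S₁ S₂ m`: if `m i j ≠ 0`, `Supp` gives that `i`, `j` are monotone and `o` with nonzero
weights at all the points, and `Chain` gives `t`, for `y = (s o).1`, `z₁ = (s o).2.1`, `z₂ = (s o).2.2`. So
`Step` (with `e = e' + 1`, `k₀` for `k`) gives `m = 0`: for `k₀ = e'` the hypotheses on `m11`, `m01`, `m10`, for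
`k₀ = e' + 1` the hypothesis on `m11`, for larger `k₀` nothing. `Back` gives `Van (k + 1)`. So all moments
vanish and `Sep` gives `φ = 0`. -/
def StmtCoreA : Prop := ∀ (B C e' : ℕ) (S₁ : Side B (e' + 1)) (S₂ : Side C (e' + 1)), 1 ≤ e' →
  StrictAnti S₁.sl → StrictAnti S₂.sl → GPos S₁ S₂ →
  ∀ (Ω : Type) (_ : Fintype Ω) (s : Ω → Pt (e' + 1)) (σ τ : Ω → ℕ → ℝ),
  (∀ o, IsThr (b := B + 1) (S₁.f (s o).1 (s o).2.1) S₁.sl (σ o)) →
  (∀ o, IsThr (b := C + 1) (S₂.f (s o).1 (s o).2.2) S₂.sl (τ o)) →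
  (∀ o, NoC (B + 1) (C + 1) (σ o) (τ o)) →
  (∀ o o', o ≠ o' → ∃ I J, 1 ≤ I ∧ I ≤ B + 1 ∧ 1 ≤ J ∧ J ≤ C + 1 ∧
    X (B + 1) (C + 1) (σ o) (τ o) I J ≠ X (B + 1) (C + 1) (σ o') (τ o') I J) →
  ∀ φ : Ω → ℝ,
  (∀ k < e' + 1, ∀ I J : Fin k → ℕ, StrictMono I → StrictMono J → (∀ l, 1 ≤ I l ∧ I l ≤ B + 1) →
    (∀ l, 1 ≤ J l ∧ J l ≤ C + 1) → SS φ (fun o => X (B + 1) (C + 1) (σ o) (τ o)) I J = 0) →
  Str0 (m11 S₁.p S₂.p (mF (b := B + 1) (c := C + 1) (k := e' + 1) φ
    (fun o => X (B + 1) (C + 1) (σ o) (τ o)))) →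
  Str0 (m01 S₁.p S₂.p (mF (b := B + 1) (c := C + 1) (k := e' + 1) φ
    (fun o => X (B + 1) (C + 1) (σ o) (τ o)))) →
  Str0 (m10 S₁.p S₂.p (mF (b := B + 1) (c := C + 1) (k := e' + 1) φ
    (fun o => X (B + 1) (C + 1) (σ o) (τ o)))) →
  Str0 (m11 S₁.p S₂.p (mF (b := B + 1) (c := C + 1) (k := e' + 1 + 1) φ
    (fun o => X (B + 1) (C + 1) (σ o) (τ o)))) → φ = 0

/-- **CardT** strictly increasing tuples. Proof. They correspond to the subsets with `k` elements
(`x ↦ univ.image x`, inverse `Finset.orderEmbOfFin`; or look for a lemma on the cardinality of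
`Fin k ↪o Fin n`); `Finset.card_powersetCard`. -/
def StmtCardT : Prop := ∀ n k : ℕ, Nat.card {x : Fin k → Fin n // StrictMono x} = n.choose k

/-- **Core** (uses `CoreA`, `CardT`) the count. Proof. Let `e = e' + 1`, `1 ≤ e'`, and
`T n k = {x : Fin k → Fin n // StrictMono x}`. For `φ : Ω → ℝ` consider the following numbers, all linear in
`φ` (`SS` is linear, so `MM`, `mm`, `mF`, `m11`, `m01`, `m10` are): (i) for `k < e`, `x ∈ T (B+1) k`,
`x' ∈ T (C+1) k`: `SS φ X (x + 1) (x' + 1)`; (ii) for `m = mF φ X` of length `e' + 1`: the values of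
`m11 S₁.p S₂.p m` at `(succ ∘ x, succ ∘ x')`, `x ∈ T B e'`, `x' ∈ T C e'`; of `m01` at `x ∈ T B e`,
`x' ∈ T C e'`; of `m10` at `x ∈ T B e'`, `x' ∈ T C e`; (iii) for `m = mF φ X` of length `e + 1`: the values
of `m11` at `x ∈ T B e`, `x' ∈ T C e`. Their number is (`CardT`, Pascal)
`∑ k < e, C(B+1,k) C(C+1,k) + (C(B,e') + C(B,e)) (C(C,e') + C(C,e)) = bd e (B + 1) (C + 1)`. If
`card Ω` is larger, there is `φ ≠ 0` for which all of them are zero (a linear map from `Ω → ℝ` to a space of
smaller dimension is not injective), but `CoreA` gives `φ = 0` (a strictly increasing tuple in `[1, B+1]`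
is `x + 1` for `x ∈ T (B+1) k`; a strictly increasing tuple in `Fin (B+1)` with nonzero entries is
`succ ∘ x` with `x ∈ T B k`). -/
def StmtCore : Prop := ∀ (B C e : ℕ) (S₁ : Side B e) (S₂ : Side C e), 2 ≤ e → StrictAnti S₁.sl →
  StrictAnti S₂.sl → GPos S₁ S₂ → ∀ (Ω : Type) (_ : Fintype Ω) (s : Ω → Pt e) (σ τ : Ω → ℕ → ℝ),
  (∀ o, IsThr (b := B + 1) (S₁.f (s o).1 (s o).2.1) S₁.sl (σ o)) →
  (∀ o, IsThr (b := C + 1) (S₂.f (s o).1 (s o).2.2) S₂.sl (τ o)) →
  (∀ o, NoC (B + 1) (C + 1) (σ o) (τ o)) →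
  (∀ o o', o ≠ o' → ∃ I J, 1 ≤ I ∧ I ≤ B + 1 ∧ 1 ≤ J ∧ J ≤ C + 1 ∧
    X (B + 1) (C + 1) (σ o) (τ o) I J ≠ X (B + 1) (C + 1) (σ o') (τ o') I J) →
  Fintype.card Ω ≤ bd e (B + 1) (C + 1)

/-! ## General position -/

/-- **InjD** a system which is injective for one parameter is injective for an open dense set of parameters.
Proof. `M θ₀` has a linear left inverse `L : (R → ℝ) → W` (`LinearMap.exists_leftInverse_of_injective`). Let
`D θ = det (L ∘ M θ)` (`LinearMap.det`), `D θ₀ = 1`, and let `D' = {θ | D θ ≠ 0}`; for `θ ∈ D'` the map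
`M θ` is injective. `D` is continuous (the entries of the matrix of `L ∘ M θ` in a fixed basis are
continuous, `Continuous.matrix_det`), so `D'` is open. For every `θ` the function
`t ↦ D (θ + t (θ₀ - θ))` is a polynomial in `t` (the matrix is `A + t B`; `Matrix.det` of
`A.map C + X • B.map C`, `RingHom.map_det`), which is not zero at `t = 1`, so it has finitely many
zeros and there are arbitrarily small `t > 0` with `D ≠ 0`: `D'` is dense. -/
def StmtInjD : Prop := ∀ (V W R : Type) (_ : NormedAddCommGroup V) (_ : NormedSpace ℝ V)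
  (_ : AddCommGroup W) (_ : Module ℝ W) (_ : FiniteDimensional ℝ W) (_ : Fintype R)
  (M : V → W → R → ℝ), (∀ θ, IsLinearMap ℝ (M θ)) → (∀ x, Continuous fun θ => M θ x) →
  (∀ θ θ' x (t : ℝ), M (θ + t • (θ' - θ)) x = M θ x + t • (M θ' x - M θ x)) →
  (∃ θ₀, ∀ x, M θ₀ x = 0 → x = 0) →
  ∃ D : Set V, IsOpen D ∧ Dense D ∧ ∀ θ ∈ D, ∀ x, M θ x = 0 → x = 0

/-- **ChQ** vectors with prescribed differences along a chain. Proof. `Q x = - ∑ l with j' l ≤ x, w l`. Then
`Q (j l) - Q (j' l)` is the sum of the `w m` with `j l < j' m ≤ j' l`; for `m < l`: `j' m ≤ j l`; for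
`m > l`: `j' m > j m ≥ j' l`. So only `m = l` counts. -/
def StmtChQ : Prop := ∀ (n N e : ℕ) (j j' : Fin N → Fin n), Ch j j' → ∀ w : Fin N → Fin e → ℝ,
  ∃ Q : Fin n → Fin e → ℝ, ∀ l, Q (j l) - Q (j' l) = w l

/-- **RankA** (uses `InjD`, `ChQ`) generic rank if the first side has ties at all points. Proof. Consider the
linear system for `(y, t)` with the rows `Sat` of the first side (`R = Fin K ⊕ Fin N`) and of the second side,
for parameters `θ`; it is linear in `(y, t)` and in `θ`. It is injective for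
`θ₀ = ((0, fun i => -i), (Q, 0))` where `Q (j l) - Q (j' l) = w l` (`ChQ`) and the `w l` are the
unit vectors for `l < e` and `0` for `l ≥ e` (`e ≤ N`): the first rows give `(i' l - i l) t l = 0`, `t = 0`,
the others `w l · y = 0`, `y = 0`. So by `InjD` it is injective for an open dense set of `θ`; but
`StrictMono t` and `2 ≤ K` imply `t ≠ 0`. Second part: exchange the two sides (the same proof, or the
homeomorphism `Prod.swap`). -/
def StmtRankA : Prop :=
  (∀ (B C e K N : ℕ) (i i' : Fin K → Fin (B + 1)) (j j' : Fin N → Fin (C + 1)) (u v : Fin N → Fin K),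
    Ch i i' → Ch j j' → e ≤ N → 2 ≤ K → ∃ D : Set (Par B C e), IsOpen D ∧ Dense D ∧ ∀ θ ∈ D,
      ∀ y t, StrictMono t → Sat θ.1.1 θ.1.2 y t id id i i' → Sat θ.2.1 θ.2.2 y t u v j j' → False) ∧
  (∀ (B C e K N : ℕ) (i i' : Fin N → Fin (B + 1)) (j j' : Fin K → Fin (C + 1)) (u v : Fin N → Fin K),
    Ch i i' → Ch j j' → e ≤ N → 2 ≤ K → ∃ D : Set (Par B C e), IsOpen D ∧ Dense D ∧ ∀ θ ∈ D,
      ∀ y t, StrictMono t → Sat θ.1.1 θ.1.2 y t u v i i' → Sat θ.2.1 θ.2.2 y t id id j j' → False)

/-- **RankB** (uses `InjD`, `ChQ`) generic rank in the last case. Proof. There is at most one `l` with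
`a.succAbove l ≠ a'.succAbove l`, namely `l = a'` if `a = a' + 1` (`a.succAbove l = l` for `l < a` and
`l + 1` otherwise). (1) For `P = 0` and `α i = c - i` the rows of the first side are
`(c - i l) t (a.succAbove l) = (c - i' l) t (a'.succAbove l)`. If `a = a'` they give `t x = 0` for all
`x ≠ a` (`c` arbitrary). If `a = a' + 1` and `c = i r` with `r = a'` (as an element of `Fin k`) they give
`t x = 0` for all `x ≠ a'`: for `l ≠ r`, `t (a'.succAbove l) = 0` as before and for `l = r` the left side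
is `0` and `c - i' r ≠ 0`. With `c = i' r` they give `t x = 0` for all `x ≠ a`. So for both `ρ = a` and
`ρ = a'` there is `c` such that the rows imply `t x = 0` for all `x ≠ ρ`. (2) Suppose there is
`ρ ∈ {a, a'}` with `ρ ≠ b` or `ρ ≠ b'`. Then there is `l₀` with `b.succAbove l₀ = ρ` or
`b'.succAbove l₀ = ρ` (`Fin.exists_succAbove_eq`). Take `β j = -(j + 1)` and `Q` with
`Q (j l) - Q (j' l) = w l`, `w l₀ = 0`, and the other `w l` (there are `k - 1 ≥ e` of them) contain all unit
vectors. The row `l₀` of the second side is `β (j l₀) t (b.succAbove l₀) - β (j' l₀) t (b'.succAbove l₀) = 0`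
and the coefficient of `t ρ` is `β (j l₀) - β (j' l₀)`, `β (j l₀)` or `- β (j' l₀)`, not zero, the other
`t x` are zero, so `t ρ = 0`, `t = 0`. The other rows give `w l · y = 0`, so `y = 0`: injective. `InjD`, and
`StrictMono t` is a contradiction as in `RankA`. (3) Otherwise `a = a' = b = b'`. No row contains `t a`. Add
the row `t a = 0` to the system. For `P = 0`, `α i = -i`, `Q` with all unit vectors among the `w l`
(`e ≤ k`), `β = 0`, the system is injective (`t x = 0` for `x ≠ a` from the first side, `t a = 0`, then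
`y = 0`). So for an open dense set of `θ` it is injective. If `(y, t)` satisfies both `Sat`, then
`(y, t with t a replaced by 0)` satisfies the larger system, so `t x = 0` for all `x ≠ a`; as there are
`k + 1 ≥ 3` indices, two different `t x` are equal: contradiction. -/
def StmtRankB : Prop := ∀ (B C e k : ℕ) (a a' b b' : Fin (k + 1)) (i i' : Fin k → Fin (B + 1))
  (j j' : Fin k → Fin (C + 1)), (a' : ℕ) ≤ a → (a : ℕ) ≤ a' + 1 → Ch i i' → Ch j j' → e + 1 ≤ k →
  2 ≤ k → ∃ D : Set (Par B C e), IsOpen D ∧ Dense D ∧ ∀ θ ∈ D, ∀ y t, StrictMono t →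
    Sat θ.1.1 θ.1.2 y t a.succAbove a'.succAbove i i' →
    Sat θ.2.1 θ.2.2 y t b.succAbove b'.succAbove j j' → False

/-- **PatA** ties at all points. Proof. For every `l` there is a minimal label at `t l`
(`Finite.exists_min`); it is not `SM`, so there is a second one; let `i l < i' l` be two minimal labels. For
`l < l'` the label `i' l` is `LM` at `t l` and `i l'` is `LM` at `t l' > t l`; adding the inequalities gives
`(S.α (i l') - S.α (i' l)) * (t l' - t l) ≤ 0`, so `i' l ≤ i l'` (strictly decreasing slopes). -/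
def StmtPatA : Prop := ∀ (B e K : ℕ) (S : Side B e), StrictAnti S.α → ∀ (y : Fin e → ℝ) (t : Fin K → ℝ),
  StrictMono t → (∀ l i, ¬ SM (S.h y) S.α (t l) i) →
  ∃ i i' : Fin K → Fin (B + 1), Ch i i' ∧ Sat S.P S.α y t id id i i'

/-- **PatB** no cell `LCell`. Proof. `S.α` is strictly decreasing without the value `0` (`S.sl` is strictly
decreasing and has the value `0` at `S.p`). Write `F r x = S.h y r + S.α r * x`, let `H x` be the minimum of
the `F r x`. (1) If `H (t l) < H (t (l+1))`: let `r` be a minimal label at `t l`;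
`H (t (l+1)) ≤ F r (t (l+1))` gives `S.α r > 0`, and `F r (t l) < F r' (t (l+1))` for all `r'`; as
`LCell` does not hold, `r` is not `SM` at `t l`: two minimal labels at `t l`. (2) If `H (t l) > H (t (l+1))`:
in the same way two minimal labels at `t (l+1)`. (3) If they are equal: `r` minimal at `t l` and `r'`
minimal at `t (l+1)` are different (`S.α r ≠ 0`), `r ≤ r'` as in `PatA`, so `r < r'`. (4) CLAIM: if
`H (t (l+1)) ≤ H (t l)` then `H (t (l'+1)) < H (t l')` for all `l' > l`. By induction it suffices to consider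
`l' = l + 1`. Let `r` be minimal at `t (l+1)`: `F r (t (l+1)) = H (t (l+1)) ≤ H (t l) ≤ F r (t l)` gives
`S.α r ≤ 0`, so `S.α r < 0` and `H (t (l+2)) ≤ F r (t (l+2)) < F r (t (l+1)) = H (t (l+1))`. So the `l` with
`H (t l) < H (t (l+1))` are an initial segment `l < a'`, the `l` with `H (t l) ≤ H (t (l+1))` are an
initial segment `l < a`, and `a' ≤ a ≤ a' + 1` by (4). Now `a.succAbove l = a'.succAbove l = l` for `l < a'`,
both are `l + 1` for `l ≥ a`, and for `l = a' < a` they are `l` and `l + 1`. Choose `i l < i' l`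
by (1), (2), (3): `i l` is minimal at `t (a.succAbove l)`, `i' l` is minimal at `t (a'.succAbove l)` and the
two values are equal. For `l < l'`: `a'.succAbove l < a.succAbove l'`, so `i' l ≤ i l'` as in `PatA`. -/
def StmtPatB : Prop := ∀ (B e k : ℕ) (S : Side B e), StrictAnti S.sl →
  ∀ (y : Fin e → ℝ) (t : Fin (k + 1) → ℝ), StrictMono t →
  (∀ (l : Fin k) i, ¬ LCell S y (t l.castSucc) (t l.succ) i) →
  ∃ (a a' : Fin (k + 1)) (i i' : Fin k → Fin (B + 1)), (a' : ℕ) ≤ a ∧ (a : ℕ) ≤ a' + 1 ∧ Ch i i' ∧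
    Sat S.P S.α y t a.succAbove a'.succAbove i i'

/-- **Gen** (uses `RankA`, `RankB`, `PatA`, `PatB`) general position is dense. Proof. `D` is the intersection of
the sets of `RankA`, `RankB` over all `k` and all data (`K = k` or `k + 1`, `N = k`, all maps): a countable
intersection of open dense sets in a complete normed space is dense (`dense_iInter_of_isOpen`, the index
type is a countable sigma type). Let `θ ∈ D` with strictly decreasing slopes. `g0`: if no `SM` holds at all
`t l`, for both sides, `PatA` for both sides and `RankA` with `K = N = k ≥ e ≥ 2`, `u = v = id`. `g1`: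
`PatA` for `S₁` (`K = k + 1`), `PatB` for `S₂`, `RankA` (`N = k ≥ e`). `g1'`: second part of `RankA`.
`g2`: `PatB` for both and `RankB`. (`StrictAnti S.α` from `StrictAnti S.sl`: compose with
`S.p.succAbove`.) -/
def StmtGen : Prop := ∀ (B C e : ℕ) (p : Fin (B + 2)) (q : Fin (C + 2)), 2 ≤ e →
  ∃ D : Set (Par B C e), (∃ (ι : Type) (_ : Countable ι) (Z : ι → Set (Par B C e)),
    (∀ x, IsOpen (Z x) ∧ Dense (Z x)) ∧ D = ⋂ x, Z x) ∧
    ∀ θ ∈ D, StrictAnti (sd1 p θ).sl → StrictAnti (sd2 q θ).sl → GPos (sd1 p θ) (sd2 q θ)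

/-- **NoCo** (uses `InjD`) generic parameters have no common break at a given point. Proof. For
`i ≠ r`, `j ≠ r'` consider the system for `x : ℝ × ℝ` with the two rows `(f i - f r) x₁ + (sl i - sl r) x₂`
(first side) and `(g j - g r') x₁ + (sl' j - sl' r') x₂`, affine in `θ` (`f p = z₁` and `sl p = 0` are
constants, `y ≠ 0` is fixed). It is injective for `α = 0`, `P x = ((z₁ + x + 1) / (y ⬝ᵥ y)) • y` (all the
values `f` are different: `z₁` and `z₁ + x + 1`) and `β x = x + 1` (all the slopes `sl'` are different):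
the first row gives `x₁ = 0`, the second one `x₂ = 0`. `D` = the intersection of the finitely many open dense
sets of `InjD` (open and dense: `Dense.inter_of_isOpen_left` and induction). If `θ ∈ D` and `t` is a common
break, with the labels `i ≠ r`, `j ≠ r'`, then `x = (1, t)` is a solution, contradiction. -/
def StmtNoCo : Prop := ∀ (B C e : ℕ) (p : Fin (B + 2)) (q : Fin (C + 2)) (s : Pt e), s.1 ≠ 0 →
  ∃ D : Set (Par B C e), IsOpen D ∧ Dense D ∧ ∀ θ ∈ D, ∀ t : ℝ,
    ¬ (Brk ((sd1 p θ).f s.1 s.2.1) (sd1 p θ).sl t ∧ Brk ((sd2 q θ).f s.1 s.2.2) (sd2 q θ).sl t)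

/-! ## The potential -/

/-- **Exch** rerouting does not increase the potential. Proof. Let `x' = rer i₀ j₀ x`. Monotone: for
`j ≤ j'` both `< j₀` or both `≥ j₀`: clear; otherwise `min (x j) i₀ ≤ i₀ ≤ max (x j') i₀`. Let
`F r = f r + α r * t`, `G j = g j + β j * t`, `H j = G j - G j₀ ≥ 0`, `H j₀ = 0`, and
`A j = α (x j) - α (x' j)` for `j < c`. From `f r = F r - α r t`, `g (j+1) - g j = H (j+1) - H j -
(β (j+1) - β j) t`: `Pot x - Pot x' = ∑ j, (β j - β (j+1)) (F (x j) - F (x' j)) +
∑ j, (H (j+1) - H j) A j`. The first sum is `≥ 0`: `β j ≥ β (j+1)`, and `x' j` is `x j` or `i₀`, and `i₀` is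
`LM`. The second sum is, with `A (-1) = A c = 0`, `∑ j ≤ c, H j (A (j-1) - A j)` (Abel summation,
`Fin.sum_univ_succ`, `Fin.sum_univ_castSucc`). For `j < j₀`: `A j = α (x j) - α (min (x j) i₀) ≤ 0` is
antitone in `j` (it is `0` while `x j ≤ i₀` and `α (x j) - α i₀` afterwards), so `A (j-1) ≥ A j`, also for
`j = 0`. For `j ≥ j₀`: `A j = α (x j) - α (max (x j) i₀) ≥ 0` is antitone, so
`A (j-1) ≥ A j` for `j > j₀`, also for `j = c`. For `j = j₀`: `H j₀ = 0`. -/
def StmtExch : Prop := ∀ (b c : ℕ) (f α : Fin (b + 1) → ℝ) (g β : Fin (c + 1) → ℝ), Antitone α →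
  Antitone β → ∀ (t : ℝ) (i₀ : Fin (b + 1)) (j₀ : Fin (c + 1)), LM f α t i₀ → LM g β t j₀ →
  ∀ x : Fin c → Fin (b + 1), Monotone x →
    Monotone (rer i₀ j₀ x) ∧ Pot f α g β (rer i₀ j₀ x) ≤ Pot f α g β x

/-- **LabP** (uses `Exch`) the path of the labels is minimal. Proof. For `j < c` let `x j` be the number of the
`I`, `1 ≤ I ≤ b`, with `σ I < τ (j + 1)`; as `σ` is monotone these are the `I ≤ x j`, which gives the last
statement (`σ I ≠ τ (j+1)` by `NoC`), and `x` is monotone as `τ` is monotone. At `t = τ (j + 1)`: the label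
`x j` is `SM` for `f` (`IsThr.str`, `σ (x j) < t < σ (x j + 1)`), and there are labels `j' ≤ j < j''` of
`g`, both `LM` (`IsThr.tie`). So we have the pairs `(x j, j'_j)`, `(x j, j''_j)`, `j < c`, of labels which are
`LM` at the same time. Say that a monotone path `x'` passes through `(i, j)` if `x' j₁ ≤ i` for `j₁ < j` and
`i ≤ x' j₁` for `j₁ ≥ j`. (1) `rer i j x'` passes through `(i, j)`. (2) If `x'` passes through `(i, j)`, and
`(i₁, j₁)` is comparable with `(i, j)` (`i ≤ i₁, j ≤ j₁` or both `≥`), then `rer i₁ j₁ x'` passes through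
`(i, j)`. (3) The pairs above are pairwise comparable: if the times are different, say `t < t'`, the labels
at `t` are `≤` the labels at `t'` (strictly decreasing slopes, add the inequalities, for both `f` and `g`);
if the times are equal, the first labels are equal (both `SM` at the same time). So by rerouting a monotone
path `x'` through all these pairs, one after the other, we get a monotone path `x''` with a potential not
larger (`Exch`) which passes through all of them. For every `j`: `x j ≤ x'' j'_j ≤ x'' j` (passes through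
`(x j, j'_j)`, `j ≥ j'_j`; if `j'_j ≤ j < c`) and `x'' j ≤ x j` (passes through `(x j, j''_j)`,
`j < j''_j`). So `x'' = x` and `Pot x ≤ Pot x'`. -/
def StmtLabP : Prop := ∀ (b c : ℕ) (f α : Fin (b + 1) → ℝ) (g β : Fin (c + 1) → ℝ) (σ τ : ℕ → ℝ),
  StrictAnti α → StrictAnti β → IsThr f α σ → IsThr g β τ → NoC b c σ τ →
  ∃ x : Fin c → Fin (b + 1), PMin f α g β x ∧ ∀ (j : Fin c) (I : ℕ), 1 ≤ I → I ≤ b →
    X b c σ τ I (j + 1) = if (x j : ℕ) < I then 1 else 0

/-- **Semi** (uses `Thr`, `Gen`, `NoCo`, `LabP`, `Core`) the count for weakly decreasing slopes. Proof. Let `θ` be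
the parameter of `S₁`, `S₂` (`p = S₁.p`, `q = S₂.p`). (1) The set `O₁` of all `θ'` such that for all `o` and
all paths `x`: if `x` is `SMin` at `s o` for `θ'` then it is `SMin` at `s o` for `θ`, contains a
neighbourhood of `θ`: if `x` is monotone and not minimal for `θ` there is a monotone `x'` with a smaller
potential, and this is true for `θ'` near `θ` (`SPot` is continuous in `θ`; finitely many `o`, `x`).
(2) The set `O₂` of all `θ'` with strictly decreasing slopes on both sides is open, and `θ` is in its closure: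
`α' i = α i - ε * (p.succAbove i - p)`, the slopes are `sl r - ε (r - p)`. (3) So the interior of `O₁` meets
`O₂`, and by Baire (`dense_iInter_of_isOpen`, the sets of `Gen` and of `NoCo` for the points `s o`) there
is `θ'` in it which is in general position and without common breaks at the points `s o`. (4) For this
`θ'`: `Thr` gives `σ o`, `τ o`; `NoC` because a common threshold is a common break (`IsThr.tie`, `l < I ≤ r`).
`LabP` gives the path `x o`, `SMin` for `θ'` and so `SMin` for `θ`. For `o ≠ o'` the paths are different by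
hypothesis, so there are `j` and, say, `x o j < x o' j`; with `I = x o' j` the matrices `X` differ at
`(I, j + 1)`. `Core`. -/
def StmtSemi : Prop := ∀ (B C e : ℕ) (S₁ : Side B e) (S₂ : Side C e), 2 ≤ e → Antitone S₁.sl →
  Antitone S₂.sl → ∀ (Ω : Type) (_ : Fintype Ω) (s : Ω → Pt e), (∀ o, (s o).1 ≠ 0) →
  (∀ o o' x, SMin S₁ S₂ (s o) x → SMin S₁ S₂ (s o') x → o = o') →
  Fintype.card Ω ≤ bd e (B + 1) (C + 1)

/-! ## The implicit equation -/

/-- **Eta** generic constants. Proof. For `γ ∈ Γ`, `i ≠ i'`, `j ≠ j'` the expression is a linear form in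
`(η₁, η₂) ∈ ℝ^((B+1)+(C+1))`, and it is not zero: if `γ.1 ≠ 0`, one of `i`, `i'` is not `p`, say
`p.succAbove x`, and the coefficient of `η₁ x` is `± γ.1` (as `i ≠ i'` there is no cancellation); if
`γ.2 ≠ 0` the same for `j`, `j'`. Apply `dirs_avoid` (`Up/Dirs.lean`) with the open cube `(-1, 1)`. -/
def StmtEta : Prop := ∀ (B C : ℕ) (p : Fin (B + 2)) (q : Fin (C + 2)) (Γ : Finset (ℝ × ℝ)),
  (∀ γ ∈ Γ, γ ≠ 0) → ∃ (η₁ : Fin (B + 1) → ℚ) (η₂ : Fin (C + 1) → ℚ), (∀ i, |η₁ i| ≤ 1) ∧
    (∀ j, |η₂ j| ≤ 1) ∧ ∀ i i', i ≠ i' → ∀ j j', j ≠ j' → ∀ γ ∈ Γ,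
      γ.1 * (p.insertNth (α := fun _ => ℝ) 0 (rl η₁) i' - p.insertNth (α := fun _ => ℝ) 0 (rl η₁) i) +
      γ.2 * (q.insertNth (α := fun _ => ℝ) 0 (rl η₂) j' - q.insertNth (α := fun _ => ℝ) 0 (rl η₂) j) ≠ 0

/-- **Two** (uses `Exch`) two minimal paths from a common break. Proof. `f`, `g` have the minimal labels
`i < i'`, `j < j'` at `t`. Let `D₀` be a path of minimal potential, `D = rer i j (rer i' j' D₀)`,
`x₁ = rer i' j D`, `x₂ = rer i j' D`; by `Exch` all of them are minimal. For `k < j`: `D k ≤ i`, so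
`x₁ k = x₂ k = D k`. For `k ≥ j'`: `D k ≥ i'`, so `x₁ k = x₂ k = D k`. For `j ≤ k < j'`: `i ≤ D k ≤ i'`, so
`x₁ k = max (D k) i' = i'` and `x₂ k = min (D k) i = i`. -/
def StmtTwo : Prop := ∀ (b c : ℕ) (f α : Fin (b + 1) → ℝ) (g β : Fin (c + 1) → ℝ), Antitone α →
  Antitone β → ∀ (t : ℝ) (i i' : Fin (b + 1)) (j j' : Fin (c + 1)), i < i' → j < j' → LM f α t i →
  LM f α t i' → LM g β t j → LM g β t j' → ∃ x₁ x₂ : Fin c → Fin (b + 1), PMin f α g β x₁ ∧
    PMin f α g β x₂ ∧ ∀ k : Fin c, if (j : ℕ) ≤ k ∧ (k : ℕ) < j' then x₁ k = i' ∧ x₂ k = i else x₁ k = x₂ k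

/-- **TropA** (uses `Eta`, `Two`) representatives of different exponents have no common minimal path. Proof.
Suppose `x` is minimal at both points. Write `s z = pt ι i₀ i₁ z`, `f = S₁.f`, `g = S₂.f` with the slopes
`α = S₁.sl`, `β = S₂.sl`; everything is linear in `z`. (1) Let `Γ` be the set of all nonzero pairs
`(β j - β j', α i' - α i)` and of the pairs `(L' u, - L u)` with `L z = f (s z) i' - f (s z) i`,
`L' z = g (s z) j' - g (s z) j`, for `i < i'` with `α i = α i'` and `j < j'` (`L u ≠ 0` by `Rep.ver`). `Eta`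
gives `η₁`, `η₂`; write `η̂₁ = cst S₁ η₁`, `η̂₂ = cst S₂ η₂`; `AbsT` gives `ϕ`. For a path `x'` let `c x'` be the
potential with `(f, g)` replaced by `(η̂₁, η̂₂)`, so the potential of `x'` for `(f + η̂₁, g + η̂₂)` is
`SPot x' + c x'`. (2) Let `δ > 0` be such that `SPot (s u) x' ≥ SPot (s u) x + δ` and
`SPot (s u') x' ≥ SPot (s u') x + δ` for all monotone `x'` whose form is different from the form of `x`
(`x` is minimal, the values are different by `Rep.pot`). Choose a natural number `R > 0` so large that: `a` is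
the only minimizer of `ϕ β + β · (R u)`, and `a'` the only one of `ϕ β + β · (R u')` (as in
`Up/MainU.lean`, `MainU_large`); `R δ > c x - c x'` for all paths `x'`; and for all `i < i'`, `j < j'`:
`|L u * Δ' - L' u * Δ| + |Δ * L' u' - Δ' * L u'| < R |L u * L' u' - L' u * L u'|` unless the right side is
zero, where `Δ = η̂₁ i' - η̂₁ i`, `Δ' = η̂₂ j' - η̂₂ j`. (3) `tie_on_segment` (`Up/Segment.lean`) gives
`0 < θ < 1` and a tie at `z = (1 - θ) R u + θ R u'`. `AbsT` gives `t` with common breaks: labels `i < i'`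
both `LM` for `f (s z) + η̂₁`, and `j < j'` both `LM` for `g (s z) + η̂₂`. `Two` gives the paths `x₁`, `x₂`,
minimal for `(f (s z) + η̂₁, g (s z) + η̂₂)`. (4) `x₁` and `x` have the same form: otherwise
`SPot (s z) x₁ ≥ SPot (s z) x + R δ` (linearity; `(1 - θ) + θ = 1`), but
`SPot (s z) x₁ + c x₁ ≤ SPot (s z) x + c x`. The same for `x₂`. So `SPot (s z) x₁ = SPot (s z) x₂` and
`c x₁ = c x₂`. The paths differ only for `j ≤ k < j'`, where they are `i'` and `i`; so `c x₁ - c x₂` is the
telescoping sum `(β j - β j') Δ + (α i' - α i) Δ' = 0`. By the choice of `η` the pair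
`(β j - β j', α i' - α i)` is zero: `β j = β j'`, `α i = α i'`. (5) So `LM` for `i` and `i'` at `t` gives
`L z + Δ = 0`, and `L' z + Δ' = 0`. As `z = R ((1 - θ) u + θ u')`:
`L u * Δ' - L' u * Δ = - R θ (L u * L' u' - L' u * L u')` and
`Δ * L' u' - Δ' * L u' = - R (1 - θ) (L u * L' u' - L' u * L u')` (up to the sign). If
`L u * L' u' - L' u * L u' ≠ 0` the sum of the absolute values is `R |...|`, contradiction to the choice of
`R`; if it is zero then `L' u * Δ - L u * Δ' = 0`, contradiction to the choice of `η` (pair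
`(L' u, - L u)`). -/
def StmtTropA : Prop := ∀ (B C e n : ℕ) (S₁ : Side B e) (S₂ : Side C e) (ι : Fin e → Fin n)
  (i₀ i₁ : Fin n) (E : Finset (Fin n →₀ ℕ)), Antitone S₁.sl → Antitone S₂.sl → AbsT S₁ S₂ ι i₀ i₁ E →
  ∀ (u u' : Fin n → ℚ) (a a' : Fin n →₀ ℕ), a ≠ a' → Rep S₁ S₂ ι i₀ i₁ E u a →
    Rep S₁ S₂ ι i₀ i₁ E u' a' →
    ¬ ∃ x, SMin S₁ S₂ (pt ι i₀ i₁ (rl u)) x ∧ SMin S₁ S₂ (pt ι i₀ i₁ (rl u')) x

/-- **Dual** coordinates. Proof. The linear map `Λ : ℚ^d → ℚ^(d-1)`, `w ↦ (dot w (a l))_l` is surjective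
(its matrix has linearly independent rows: `Matrix.rank`, or: the transposed map is injective), so it has a
linear right inverse `R`; `ω l = R (Pi.single l 1)`. The kernel has the dimension `1`, let `κ` span it.
`w - ∑ l, dot w (a l) • ω l` is in the kernel. -/
def StmtDual : Prop := ∀ (d : ℕ) (a : Fin (d - 1) → Fin d → ℤ), 1 ≤ d →
  LinearIndependent ℚ (fun l k => ((a l k : ℤ) : ℚ)) →
  ∃ (ω : Fin (d - 1) → Fin d → ℚ) (κ : Fin d → ℚ), ∀ w : Fin d → ℚ, ∃ t : ℚ,
    ∀ k, w k = ∑ l, dot w (a l) * ω l k + t * κ k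

/-- **Enum** enumeration of the vertices by slopes. Proof. Enumerate `A` (`Finset.equivFin`) and compose with
`Tuple.sort` of `- dot κ`. The position `p` is the number of the `i` with `dot κ (π i) > 0`; then the slopes
before `p` are positive and those after `p` are `≤ 0`. `FD`: for labels `p.succAbove i`, `p.succAbove i'` with
equal slopes `dot κ (π i) = dot κ (π i')` and `dot (ω l) (π i) = dot (ω l) (π i')` for all `l` (if the forms
are equal, use `y = Pi.single l 1`), all `dot w (π i) = dot w (π i')` by the hypothesis on `ω`, `κ`, so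
`π i = π i'` (`w = Pi.single k 1`). For the label `p` use `y = 0`, `z = 1`. -/
def StmtEnum : Prop := ∀ (d e B : ℕ) (ω : Fin e → Fin d → ℚ) (κ : Fin d → ℚ) (a : Fin e → Fin d → ℤ),
  (∀ w : Fin d → ℚ, ∃ t : ℚ, ∀ k, w k = ∑ l, dot w (a l) * ω l k + t * κ k) →
  ∀ A : Finset (Fin d → ℤ), A.card = B + 1 → ∃ (π : Fin (B + 1) → Fin d → ℤ) (S : Side B e),
    Function.Injective π ∧ (∀ x, x ∈ A ↔ ∃ i, π i = x) ∧
    (∀ i l, S.P i l = ((dot (ω l) (π i) : ℚ) : ℝ)) ∧ (∀ i, S.α i = ((dot κ (π i) : ℚ) : ℝ)) ∧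
    Antitone S.sl ∧ FD S

end Pool.Agent.Lib.MP_4e7804_co.Tw
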