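import Pool.Agent.Lib.MP_4e7804_co.Tw.Spec
import Pool.Agent.Lib.MP_4e7804_co.Up.Latt
import Pool.Agent.Lib.MP_4e7804_co.Up.MainU

/-!
# Two nontrivial polytopes, upper bound: statements, part 2

Delivery format as in `Tw/Spec.lean`, but with the first line
`import Pool.Agent.Lib.MP_4e7804_co.Tw.Spec2`.
-/

set_option autoImplicit false

namespace Pool.Agent.Lib.MP_4e7804_co.Tw

/-- **BrkT** from `Tie` to `Brk`. Proof. Weights `η p = η₁ i` for `p = π i` and `2` for the other lattice points,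
`w k = ∑ l, y l * ω l k + t * κ k`. `dot w p = ∑ l, y l * dot (ω l) p + t * dot κ p`, so
`dot w (π i) + η₁ i = (S.h y) i + S.α i * t + η₁ i`: the value of the label `S.p.succAbove i` with its
constant, and `z` is the value of the label `S.p`. Lattice points which are not vertices are never minimal:
`Latt_below` (`Up/Latt.lean`) gives a vertex `a` with `dot w a ≤ dot w p`, and `η a ≤ 1 < 2`. So the two
alternatives of `Tie` give two minimal labels: `S.p` and the label of `p`, or the labels of `p` and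
`q`. -/
def StmtBrkT : Prop := ∀ (d e B : ℕ) (P : Set (Fin d → ℝ)) (A : Finset (Fin d → ℤ)),
  P = convexHull ℝ (toReal '' (A : Set (Fin d → ℤ))) → ∀ (π : Fin (B + 1) → Fin d → ℤ) (S : Side B e)
  (ω : Fin e → Fin d → ℚ) (κ : Fin d → ℚ),
  Function.Injective π → (∀ x, x ∈ A ↔ ∃ i, π i = x) →
  (∀ i l, S.P i l = ((dot (ω l) (π i) : ℚ) : ℝ)) → (∀ i, S.α i = ((dot κ (π i) : ℚ) : ℝ)) →
  ∀ (η : (Fin d → ℤ) → ℚ) (η₁ : Fin (B + 1) → ℚ), (∀ i, |η₁ i| ≤ 1) → (∀ i, η (π i) = η₁ i) →
  (∀ p, p ∉ A → η p = 2) → ∀ (z : ℚ) (w : Fin d → ℚ) (y : Fin e → ℚ) (t : ℚ),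
  (∀ k, w k = ∑ l, y l * ω l k + t * κ k) → Tie P η z w →
    Brk (S.f (rl y) (z : ℝ) + cst S η₁) S.sl (t : ℝ)

/-- **Model** (uses `Dual`, `Enum`, `BrkT`) from a vertex number to the family. Proof. Let `P, c, F` be as in
`IsVertexNumber`, `A i` from `exists_vertices` (`Up/Latt.lean`), `(A i).card = v i`. Enumerate the indices
different from `i₀`, `i₁` as `ι : Fin (d - 1) → Fin (d + 1)`, injective; `A (ι l) = {a l}`, so
`P (ι l) = {toReal (a l)}`, with the only lattice point `a l`. `E = F.support`. (1) Let the `a l` be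
linearly independent. `ω, κ` from `Dual`, `π₁, S₁` from `Enum` for `A i₀`, `π₂, S₂` for `A i₁`. `AbsT`: for
`η₁, η₂` apply `trop_subset` (`Up/Trop.lean`) with the weights `η i₀ p = η₁ x` for `p = π₁ x`, `2` for other
`p`; the same for `i₁`; and `0` for the other indices. A tie at `z` gives `w` with all `Tie`; for the index
`ι l` this means `z (ι l) = dot w (a l)` (the second alternative of `Tie` needs two lattice points). So with
`y l = z (ι l)` and `t` from `Dual`, `BrkT` gives both breaks. (2) Let the `a l` be linearly dependent: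
`∑ l, m l * a l = 0`, `m ≠ 0` rational. `trop_subset` with all weights `0` gives `ϕ` such that every tie `z`
satisfies `z (ι l) = dot w (a l)`, so `∑ l, m l * z (ι l) = 0`. Let `μ : Fin (d + 1) → ℝ` be the vector of
this linear form. CLAIM `N ≤ 2`. For every extreme point `α` of `newton F` let `u_α` be a rational direction
with `μ · u_α ≠ 0` (`exists_dir`, `Up/Dirs.lean`). If there are three extreme points, two of them have
`μ · u` of the same sign; for large `R` the exponent `α` is the only minimizer of `ϕ β + β · (R u_α)`, the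
same for `α'` (`MainU_large`), and `tie_on_segment` gives a tie at a point `z` of the segment, where
`μ · z ≠ 0`: contradiction. (The pattern of `card_le_hyps` in `Up/MainU.lean`.) -/
def StmtModel : Prop := ∀ (d : ℕ) (v : Fin (d + 1) → ℕ) (N : ℕ) (i₀ i₁ : Fin (d + 1)), 2 ≤ d → i₀ ≠ i₁ →
  (∀ i, i ≠ i₀ → i ≠ i₁ → v i = 1) → IsVertexNumber v N → N ≤ 2 ∨
  ∃ (B C : ℕ) (S₁ : Side B (d - 1)) (S₂ : Side C (d - 1)) (ι : Fin (d - 1) → Fin (d + 1))
    (E : Finset (Fin (d + 1) →₀ ℕ)), v i₀ = B + 1 ∧ v i₁ = C + 1 ∧ Antitone S₁.sl ∧ Antitone S₂.sl ∧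
    FD S₁ ∧ FD S₂ ∧ Function.Injective ι ∧ (∀ l, ι l ≠ i₀ ∧ ι l ≠ i₁) ∧ AbsT S₁ S₂ ι i₀ i₁ E ∧
    numVertices (convexHull ℝ ((fun (a : Fin (d + 1) →₀ ℕ) (i : Fin (d + 1)) => (a i : ℝ)) ''
      (E : Set (Fin (d + 1) →₀ ℕ)))) = N

/-- **UB** (uses `Model`, `Semi`, `TropA`) the upper bound. Proof. If `N ≤ 2`: `bd (d-1) b c ≥ 1 + b c ≥ 2`
(`v i ≥ 1`: a nonempty compact convex set has an extreme point, `exists_vertices`). Otherwise take the data
of `Model`. Let `Ω` be the set of extreme points of the convex hull (finite, `N` elements). `Hy` is the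
finite set of the nonzero vectors among: for two paths `x, x'` the vector `μ` with
`μ k = SPot (pt (Pi.single k 1)) x - SPot (pt (Pi.single k 1)) x'` (`SPot (pt z) x` is linear in `z`, so
`SPot (pt z) x - SPot (pt z) x' = ∑ k, μ k * z k`); for `i ≠ i'` with `S₁.sl i = S₁.sl i'` the vector of
`S₁.f i - S₁.f i'` (not zero by `FD`, as the coordinates `ι l`, `i₀` are different every `(y, z₁)` is
attained); and `Pi.single (ι 0) 1` (`d - 1 ≥ 2`). `exists_dir` (`Up/Dirs.lean`) gives for every `α ∈ Ω` a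
rational `u_α`, which is a `Rep` with `y ≠ 0`. `Semi` with `s α = pt (rl u_α)`: its hypothesis holds by
`TropA`. So `N = card Ω ≤ bd (d - 1) (B + 1) (C + 1)`. -/
def StmtUB : Prop := ∀ (d : ℕ) (v : Fin (d + 1) → ℕ) (N : ℕ) (i₀ i₁ : Fin (d + 1)), 3 ≤ d → i₀ ≠ i₁ →
  (∀ i, i ≠ i₀ → i ≠ i₁ → v i = 1) → IsVertexNumber v N → N ≤ bd (d - 1) (v i₀) (v i₁)

end Pool.Agent.Lib.MP_4e7804_co.Tw
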