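import Pool.Agent.Lib.MP_4e7804_co.Tw.Spec

/-! The linear system of two sides, common part of `RankA` and `RankB`. -/

set_option autoImplicit false

open Finset

namespace Pool.Agent.Lib.MP_4e7804_co.Tw

namespace SysN

/-- the system -/
noncomputable def sysM {B C e K N₁ N₂ : ℕ} (i i' : Fin N₁ → Fin (B + 1)) (u v : Fin N₁ → Fin K)
    (j j' : Fin N₂ → Fin (C + 1)) (u' v' : Fin N₂ → Fin K) (Z : Finset (Fin K)) (θ : Par B C e)
    (x : (Fin e → ℝ) × (Fin K → ℝ)) : Fin N₁ ⊕ Fin N₂ ⊕ Fin K → ℝ :=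
  Sum.elim (fun l => θ.1.1 (i l) ⬝ᵥ x.1 + θ.1.2 (i l) * x.2 (u l) -
      (θ.1.1 (i' l) ⬝ᵥ x.1 + θ.1.2 (i' l) * x.2 (v l)))
    (Sum.elim (fun l => θ.2.1 (j l) ⬝ᵥ x.1 + θ.2.2 (j l) * x.2 (u' l) -
      (θ.2.1 (j' l) ⬝ᵥ x.1 + θ.2.2 (j' l) * x.2 (v' l)))
    (fun l => if l ∈ Z then x.2 l else 0))

theorem row_lin {e K : ℕ} (p p' : Fin e → ℝ) (α α' : ℝ) (u v : Fin K) (s s' : ℝ)
    (x x' : (Fin e → ℝ) × (Fin K → ℝ)) :
    p ⬝ᵥ (s • x + s' • x').1 + α * (s • x + s' • x').2 u -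
      (p' ⬝ᵥ (s • x + s' • x').1 + α' * (s • x + s' • x').2 v) =
    s * (p ⬝ᵥ x.1 + α * x.2 u - (p' ⬝ᵥ x.1 + α' * x.2 v)) +
    s' * (p ⬝ᵥ x'.1 + α * x'.2 u - (p' ⬝ᵥ x'.1 + α' * x'.2 v)) := by
  simp only [Prod.fst_add, Prod.snd_add, Prod.smul_fst, Prod.smul_snd, dotProduct_add, dotProduct_smul,
    smul_eq_mul, Pi.add_apply, Pi.smul_apply]
  ring

theorem row_aff {n e : ℕ} (P P' : Fin n → Fin e → ℝ) (α α' : Fin n → ℝ) (i i' : Fin n)
    (y : Fin e → ℝ) (a b t : ℝ) :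
    (P + t • (P' - P)) i ⬝ᵥ y + (α + t • (α' - α)) i * a -
      ((P + t • (P' - P)) i' ⬝ᵥ y + (α + t • (α' - α)) i' * b) =
    (P i ⬝ᵥ y + α i * a - (P i' ⬝ᵥ y + α i' * b)) +
    t * ((P' i ⬝ᵥ y + α' i * a - (P' i' ⬝ᵥ y + α' i' * b)) -
      (P i ⬝ᵥ y + α i * a - (P i' ⬝ᵥ y + α i' * b))) := by
  simp only [Pi.add_apply, Pi.smul_apply, Pi.sub_apply, add_dotProduct, smul_dotProduct,
    sub_dotProduct, smul_eq_mul]
  ring

theorem sys (hInjD : StmtInjD) {B C e K N₁ N₂ : ℕ} (i i' : Fin N₁ → Fin (B + 1))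
    (u v : Fin N₁ → Fin K) (j j' : Fin N₂ → Fin (C + 1)) (u' v' : Fin N₂ → Fin K)
    (Z : Finset (Fin K))
    (h : ∃ θ₀ : Par B C e, ∀ y t, Sat θ₀.1.1 θ₀.1.2 y t u v i i' → Sat θ₀.2.1 θ₀.2.2 y t u' v' j j' →
      (∀ l ∈ Z, t l = 0) → y = 0 ∧ t = 0) :
    ∃ D : Set (Par B C e), IsOpen D ∧ Dense D ∧ ∀ θ ∈ D, ∀ y t, Sat θ.1.1 θ.1.2 y t u v i i' →
      Sat θ.2.1 θ.2.2 y t u' v' j j' → (∀ l ∈ Z, t l = 0) → y = 0 ∧ t = 0 := by
  have key : ∀ (θ : Par B C e) (x : (Fin e → ℝ) × (Fin K → ℝ)),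
      sysM i i' u v j j' u' v' Z θ x = 0 ↔ (Sat θ.1.1 θ.1.2 x.1 x.2 u v i i' ∧
        Sat θ.2.1 θ.2.2 x.1 x.2 u' v' j j' ∧ ∀ l ∈ Z, x.2 l = 0) := by
    intro θ x
    constructor
    · intro h0
      refine ⟨fun l => ?_, fun l => ?_, fun l hl => ?_⟩
      · have := congrFun h0 (Sum.inl l)
        exact sub_eq_zero.1 this
      · have := congrFun h0 (Sum.inr (Sum.inl l))
        exact sub_eq_zero.1 this
      · have := congrFun h0 (Sum.inr (Sum.inr l))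
        simp only [sysM, Sum.elim_inr, if_pos hl] at this
        exact this
    · rintro ⟨h1, h2, h3⟩
      funext r
      rcases r with l | l | l
      · exact sub_eq_zero.2 (h1 l)
      · exact sub_eq_zero.2 (h2 l)
      · simp only [sysM, Sum.elim_inr, Pi.zero_apply]
        split_ifs with hl
        · exact h3 l hl
        · rfl
  have hex : ∃ D : Set (Par B C e), IsOpen D ∧ Dense D ∧ ∀ θ ∈ D, ∀ x,
      sysM i i' u v j j' u' v' Z θ x = 0 → x = 0 := by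
    refine hInjD (Par B C e) ((Fin e → ℝ) × (Fin K → ℝ)) (Fin N₁ ⊕ Fin N₂ ⊕ Fin K)
      inferInstance inferInstance inferInstance inferInstance inferInstance inferInstance
      (sysM i i' u v j j' u' v' Z) ?_ ?_ ?_ ?_
    · intro θ
      have hl : ∀ (s s' : ℝ) (x x' : (Fin e → ℝ) × (Fin K → ℝ)), sysM i i' u v j j' u' v' Z θ (s • x + s' • x') =
          s • sysM i i' u v j j' u' v' Z θ x + s' • sysM i i' u v j j' u' v' Z θ x' := by
        intro s s' x x'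
        funext r
        rcases r with l | l | l
        · exact row_lin _ _ _ _ _ _ s s' x x'
        · exact row_lin _ _ _ _ _ _ s s' x x'
        · simp only [sysM, Sum.elim_inr, Pi.add_apply, Pi.smul_apply, smul_eq_mul, Prod.snd_add,
            Prod.smul_snd]
          split_ifs <;> ring
      refine ⟨fun x x' => ?_, fun s x => ?_⟩
      · have := hl 1 1 x x'
        simpa only [one_smul] using this
      · have := hl s 0 x x
        simpa only [zero_smul, add_zero] using this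
    · intro x
      refine continuous_pi fun r => ?_
      rcases r with l | l | l
      · simp only [sysM, Sum.elim_inl, dotProduct]
        fun_prop
      · simp only [sysM, Sum.elim_inr, Sum.elim_inl, dotProduct]
        fun_prop
      · simp only [sysM, Sum.elim_inr]
        exact continuous_const
    · intro θ θ' x t
      funext r
      rcases r with l | l | l
      · exact row_aff θ.1.1 θ'.1.1 θ.1.2 θ'.1.2 _ _ _ _ _ t
      · exact row_aff θ.2.1 θ'.2.1 θ.2.2 θ'.2.2 _ _ _ _ _ t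
      · simp only [sysM, Sum.elim_inr, Pi.add_apply, Pi.smul_apply, Pi.sub_apply, smul_eq_mul]
        ring
    · obtain ⟨θ₀, hθ₀⟩ := h
      refine ⟨θ₀, fun x hx => ?_⟩
      obtain ⟨h1, h2, h3⟩ := (key θ₀ x).1 hx
      obtain ⟨h4, h5⟩ := hθ₀ x.1 x.2 h1 h2 h3
      exact Prod.ext h4 h5
  obtain ⟨D, hD1, hD2, hD3⟩ := hex
  refine ⟨D, hD1, hD2, fun θ hθ y t h1 h2 h3 => ?_⟩
  have h4 := hD3 θ hθ (y, t) ((key θ (y, t)).2 ⟨h1, h2, h3⟩)
  exact ⟨congrArg Prod.fst h4, congrArg Prod.snd h4⟩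

/-- vectors containing all unit vectors -/
theorem unit_w {e N : ℕ} (ψ : Fin e → Fin N) (hψ : Function.Injective ψ) (y : Fin e → ℝ) (m : Fin e) :
    (fun m' => if ψ m = ψ m' then (1 : ℝ) else 0) ⬝ᵥ y = y m := by
  rw [dotProduct, Finset.sum_eq_single m]
  · rw [if_pos rfl, one_mul]
  · intro m' _ hm'
    rw [if_neg (fun h => hm' (hψ h).symm), zero_mul]
  · intro h
    exact absurd (mem_univ _) h

end SysN

end Pool.Agent.Lib.MP_4e7804_co.Tw
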