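import Pool.Agent.Lib.MP_4e7804_co.Tw.Spec
import Pool.Agent.Lib.MP_4e7804_co.Up.Segment

set_option autoImplicit false

open Finset

namespace Pool.Agent.Lib.MP_4e7804_co.Tw

namespace TropAN

variable {B C e n b c : ℕ}

theorem f_lin (S : Side B e) (a a' : ℝ) (y y' : Fin e → ℝ) (z z' : ℝ) (r : Fin (B + 2)) :
    S.f (fun l => a * y l + a' * y' l) (a * z + a' * z') r = a * S.f y z r + a' * S.f y' z' r := by
  unfold Side.f
  refine Fin.succAboveCases S.p ?_ (fun i => ?_) r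
  · simp only [Fin.insertNth_apply_same]
  · simp only [Fin.insertNth_apply_succAbove]
    unfold Side.h
    simp only [dotProduct, mul_add]
    rw [Finset.sum_add_distrib, Finset.mul_sum, Finset.mul_sum]
    congr 1 <;> exact Finset.sum_congr rfl fun l _ => by ring

theorem pot_add (f f' α : Fin (b + 1) → ℝ) (g g' β : Fin (c + 1) → ℝ) (x : Fin c → Fin (b + 1)) :
    Pot (f + f') α (g + g') β x = Pot f α g β x + Pot f' α g' β x := by
  unfold Pot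
  rw [← Finset.sum_add_distrib]
  refine sum_congr rfl fun j _ => ?_
  simp only [Pi.add_apply]
  ring

theorem spot_lin (S₁ : Side B e) (S₂ : Side C e) (ι : Fin e → Fin n) (i₀ i₁ : Fin n) (a a' : ℝ)
    (z z' : Fin n → ℝ) (x : Fin (C + 1) → Fin (B + 2)) :
    SPot S₁ S₂ (pt ι i₀ i₁ (fun i => a * z i + a' * z' i)) x =
      a * SPot S₁ S₂ (pt ι i₀ i₁ z) x + a' * SPot S₁ S₂ (pt ι i₀ i₁ z') x := by
  unfold SPot Pot
  rw [mul_sum, mul_sum, ← sum_add_distrib]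
  refine sum_congr rfl fun j _ => ?_
  simp only [pt, f_lin]
  ring

theorem tele (G : Fin (c + 1) → ℝ) (j j' : Fin (c + 1)) (h : j ≤ j') :
    ∑ k : Fin c, (if (j : ℕ) ≤ k ∧ (k : ℕ) < j' then G k.succ - G k.castSucc else 0) = G j' - G j := by
  obtain ⟨G', hG'⟩ : ∃ G' : ℕ → ℝ, ∀ i : Fin (c + 1), G' i = G i :=
    ⟨fun m => if hm : m < c + 1 then G ⟨m, hm⟩ else 0, fun i => by simp [i.2]⟩
  have h1 : ∀ k : Fin c, (if (j : ℕ) ≤ k ∧ (k : ℕ) < j' then G k.succ - G k.castSucc else 0) =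
      (fun m : ℕ => if (j : ℕ) ≤ m ∧ m < j' then G' (m + 1) - G' m else 0) k := by
    intro k
    have e1 := hG' k.succ
    have e2 := hG' k.castSucc
    rw [Fin.val_succ] at e1
    rw [Fin.val_castSucc] at e2
    simp only [e1, e2]
  rw [sum_congr rfl fun k _ => h1 k]
  rw [Fin.sum_univ_eq_sum_range (fun m : ℕ => if (j : ℕ) ≤ m ∧ m < j' then G' (m + 1) - G' m else 0) c]
  rw [← sum_filter]
  have h2 : (range c).filter (fun m => (j : ℕ) ≤ m ∧ m < j') = Ico (j : ℕ) j' := by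
    ext m
    have := j'.2
    simp only [mem_filter, mem_range, mem_Ico]
    omega
  rw [h2, sum_Ico_sub G' (by exact_mod_cast h), hG', hG']

theorem pot_diff (f α : Fin (b + 1) → ℝ) (g β : Fin (c + 1) → ℝ) (i i' : Fin (b + 1))
    (j j' : Fin (c + 1)) (hj : j ≤ j') (x₁ x₂ : Fin c → Fin (b + 1))
    (h : ∀ k : Fin c, if (j : ℕ) ≤ k ∧ (k : ℕ) < j' then x₁ k = i' ∧ x₂ k = i else x₁ k = x₂ k) :
    Pot f α g β x₁ - Pot f α g β x₂ =
      (β j - β j') * (f i' - f i) + (α i' - α i) * (g j' - g j) := by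
  have h1 : Pot f α g β x₁ - Pot f α g β x₂ =
      ∑ k : Fin c, ((f i - f i') * (if (j : ℕ) ≤ k ∧ (k : ℕ) < j' then β k.succ - β k.castSucc else 0) +
        (α i' - α i) * (if (j : ℕ) ≤ k ∧ (k : ℕ) < j' then g k.succ - g k.castSucc else 0)) := by
    unfold Pot
    rw [← sum_sub_distrib]
    refine sum_congr rfl fun k _ => ?_
    have hk := h k
    by_cases hc : (j : ℕ) ≤ k ∧ (k : ℕ) < j'
    · rw [if_pos hc] at hk
      rw [if_pos hc, if_pos hc, hk.1, hk.2]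
      ring
    · rw [if_neg hc] at hk
      rw [if_neg hc, if_neg hc, hk]
      ring
  rw [h1, sum_add_distrib, ← mul_sum, ← mul_sum, tele β j j' hj, tele g j j' hj]
  ring

theorem fin_delta {A : Type} [Finite A] (p : A → Prop) (g : A → ℝ) (h : ∀ a, p a → 0 < g a) :
    ∃ δ : ℝ, 0 < δ ∧ ∀ a, p a → δ ≤ g a := by
  have h1 : ∀ᶠ δ in nhdsWithin (0 : ℝ) (Set.Ioi 0), ∀ a, p a → δ ≤ g a := by
    rw [Filter.eventually_all]
    intro a
    by_cases ha : p a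
    · filter_upwards [Ioc_mem_nhdsGT (h a ha)] with δ hδ _
      exact hδ.2
    · exact Filter.Eventually.of_forall fun δ h' => absurd h' ha
  obtain ⟨δ, hδ, hδ'⟩ := (h1.and self_mem_nhdsWithin).exists
  exact ⟨δ, hδ', hδ⟩

theorem large {m : ℕ} (S : Finset (Fin m →₀ ℕ)) (ϕ : (Fin m →₀ ℕ) → ℚ) (y : Fin m → ℚ)
    (a : Fin m →₀ ℕ)
    (h : ∀ β ∈ S, β ≠ a → ∑ i, (a i : ℚ) * y i < ∑ i, (β i : ℚ) * y i) :
    ∀ᶠ R : ℕ in Filter.atTop, ∀ β ∈ S, β ≠ a →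
      ϕ a + ∑ i, (a i : ℚ) * ((R : ℚ) * y i) < ϕ β + ∑ i, (β i : ℚ) * ((R : ℚ) * y i) := by
  rw [Filter.eventually_all_finset]
  intro β hβ
  by_cases hne : β = a
  · exact Filter.Eventually.of_forall (fun R h' => absurd hne h')
  · have he := h β hβ hne
    have hpos : 0 < ∑ i, (β i : ℚ) * y i - ∑ i, (a i : ℚ) * y i := sub_pos.mpr he
    obtain ⟨N, hN⟩ := exists_nat_gt ((ϕ a - ϕ β) / (∑ i, (β i : ℚ) * y i - ∑ i, (a i : ℚ) * y i))
    rw [Filter.eventually_atTop]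
    refine ⟨N, fun R hR _ => ?_⟩
    have hR' : (N : ℚ) ≤ R := by exact_mod_cast hR
    have h1 : ϕ a - ϕ β < (R : ℚ) * (∑ i, (β i : ℚ) * y i - ∑ i, (a i : ℚ) * y i) := by
      rw [div_lt_iff₀ hpos] at hN
      exact lt_of_lt_of_le hN (mul_le_mul_of_nonneg_right hR' hpos.le)
    have h2 : ∀ b : Fin m →₀ ℕ, ∑ i, (b i : ℚ) * ((R : ℚ) * y i) =
        (R : ℚ) * ∑ i, (b i : ℚ) * y i := by
      intro b
      rw [Finset.mul_sum]
      apply Finset.sum_congr rfl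
      intro i _
      ring
    rw [h2, h2]
    linarith

theorem ev_lt (K δ : ℝ) (hδ : 0 < δ) : ∀ᶠ R : ℕ in Filter.atTop, K < (R : ℝ) * δ := by
  obtain ⟨N, hN⟩ := exists_nat_gt (K / δ)
  rw [Filter.eventually_atTop]
  refine ⟨N, fun R hR => ?_⟩
  have hR' : (N : ℝ) ≤ R := by exact_mod_cast hR
  rw [div_lt_iff₀ hδ] at hN
  exact lt_of_lt_of_le hN (mul_le_mul_of_nonneg_right hR' hδ.le)

/-- the two cross products cannot both be small -/
theorem cross (R θ Lu Lu' Mu Mu' Δ Δ' : ℝ) (hR : 0 ≤ R) (hθ : 0 < θ) (hθ1 : θ < 1)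
    (h1 : R * ((1 - θ) * Lu + θ * Lu') = - Δ) (h2 : R * ((1 - θ) * Mu + θ * Mu') = - Δ')
    (h3 : Lu * Mu' - Mu * Lu' = 0 ∨
      |Lu * Δ' - Mu * Δ| + |Δ * Mu' - Δ' * Lu'| < R * |Lu * Mu' - Mu * Lu'|)
    (h4 : Mu * Δ + (- Lu) * Δ' ≠ 0) : False := by
  have e1 : Lu * Δ' - Mu * Δ = - (R * θ * (Lu * Mu' - Mu * Lu')) := by
    have a1 : Δ = - (R * ((1 - θ) * Lu + θ * Lu')) := by linarith
    have a2 : Δ' = - (R * ((1 - θ) * Mu + θ * Mu')) := by linarith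
    rw [a1, a2]
    ring
  have e2 : Δ * Mu' - Δ' * Lu' = - (R * (1 - θ) * (Lu * Mu' - Mu * Lu')) := by
    have a1 : Δ = - (R * ((1 - θ) * Lu + θ * Lu')) := by linarith
    have a2 : Δ' = - (R * ((1 - θ) * Mu + θ * Mu')) := by linarith
    rw [a1, a2]
    ring
  rcases h3 with h3 | h3
  · rw [h3, mul_zero, neg_zero] at e1
    apply h4
    linarith
  · rw [e1, e2, abs_neg, abs_neg, abs_mul (R * θ), abs_mul (R * (1 - θ)),
      abs_of_nonneg (mul_nonneg hR hθ.le),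
      abs_of_nonneg (mul_nonneg hR (by linarith : (0 : ℝ) ≤ 1 - θ))] at h3
    apply lt_irrefl _ (lt_of_le_of_lt (le_of_eq _) h3)
    ring

end TropAN

open TropAN in
theorem tTropA (hEta : StmtEta) (hTwo : StmtTwo) : StmtTropA := by
  intro B C e n S₁ S₂ ι i₀ i₁ E hα hβ hT u u' a a' haa hu hu'
  classical
  rintro ⟨x, hx, hx'⟩
  -- abbreviations
  set F : (Fin n → ℝ) → Fin (B + 2) → ℝ := fun z => S₁.f (pt ι i₀ i₁ z).1 (z i₀) with hF
  set G : (Fin n → ℝ) → Fin (C + 2) → ℝ := fun z => S₂.f (pt ι i₀ i₁ z).1 (z i₁) with hG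
  set Sp : (Fin n → ℝ) → (Fin (C + 1) → Fin (B + 2)) → ℝ := fun z x => SPot S₁ S₂ (pt ι i₀ i₁ z) x
    with hSp
  have hSp' : ∀ z x, Sp z x = Pot (b := B + 1) (c := C + 1) (F z) S₁.sl (G z) S₂.sl x := fun _ _ => rfl
  have hFl : ∀ (s s' : ℝ) (z z' : Fin n → ℝ) (r : Fin (B + 2)),
      F (fun i => s * z i + s' * z' i) r = s * F z r + s' * F z' r := by
    intro s s' z z' r
    exact f_lin S₁ s s' _ _ _ _ r
  have hGl : ∀ (s s' : ℝ) (z z' : Fin n → ℝ) (r : Fin (C + 2)),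
      G (fun i => s * z i + s' * z' i) r = s * G z r + s' * G z' r := by
    intro s s' z z' r
    exact f_lin S₂ s s' _ _ _ _ r
  have hSl : ∀ (s s' : ℝ) (z z' : Fin n → ℝ) (x : Fin (C + 1) → Fin (B + 2)),
      Sp (fun i => s * z i + s' * z' i) x = s * Sp z x + s' * Sp z' x := by
    intro s s' z z' x
    exact spot_lin S₁ S₂ ι i₀ i₁ s s' z z' x
  -- the pairs
  let Γ1 : Finset (ℝ × ℝ) := ((univ : Finset ((Fin (B + 2) × Fin (B + 2)) × (Fin (C + 2) × Fin (C + 2)))).image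
    fun q => (S₂.sl q.2.1 - S₂.sl q.2.2, S₁.sl q.1.2 - S₁.sl q.1.1)).filter fun γ => γ ≠ 0
  let Γ2 : Finset (ℝ × ℝ) := ((univ : Finset ((Fin (B + 2) × Fin (B + 2)) × (Fin (C + 2) × Fin (C + 2)))).image
    fun q => (G (rl u) q.2.2 - G (rl u) q.2.1, - (F (rl u) q.1.2 - F (rl u) q.1.1))).filter fun γ => γ ≠ 0
  obtain ⟨η₁, η₂, hη₁, hη₂, hη⟩ := hEta B C S₁.p S₂.p (Γ1 ∪ Γ2) (by
    intro γ hγ
    rcases mem_union.1 hγ with h | h
    · exact (mem_filter.1 h).2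
    · exact (mem_filter.1 h).2)
  obtain ⟨ϕ, hϕ⟩ := hT η₁ η₂ hη₁ hη₂
  -- constants
  set c₁ := cst S₁ η₁ with hc₁
  set c₂ := cst S₂ η₂ with hc₂
  set cc : (Fin (C + 1) → Fin (B + 2)) → ℝ := fun x =>
    Pot (b := B + 1) (c := C + 1) c₁ S₁.sl c₂ S₂.sl x with hcc
  -- margins
  have hmarg : ∀ w : Fin n → ℚ, ∀ b, Rep S₁ S₂ ι i₀ i₁ E w b → SMin S₁ S₂ (pt ι i₀ i₁ (rl w)) x →
      ∃ δ : ℝ, 0 < δ ∧ ∀ x', (Monotone x' ∧ ¬ ∀ z, Sp z x' = Sp z x) →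
        δ ≤ Sp (rl w) x' - Sp (rl w) x := by
    intro w b hw hm
    refine fin_delta _ _ ?_
    rintro x' ⟨hx'm, hne⟩
    rw [sub_pos]
    refine lt_of_le_of_ne (hm.2 x' hx'm) ?_
    intro heq
    rcases hw.pot x' x with h | h
    · exact hne h
    · exact h heq.symm
  obtain ⟨δ₁, hδ₁, hm₁⟩ := hmarg u a hu hx
  obtain ⟨δ₂, hδ₂, hm₂⟩ := hmarg u' a' hu' hx'
  -- the scale
  have ev1 := large E ϕ u a hu.min
  have ev2 := large E ϕ u' a' hu'.min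
  have ev3 : ∀ᶠ R : ℕ in Filter.atTop, ∀ x', cc x - cc x' < (R : ℝ) * min δ₁ δ₂ := by
    rw [Filter.eventually_all]
    exact fun x' => ev_lt _ _ (lt_min hδ₁ hδ₂)
  have ev4 : ∀ᶠ R : ℕ in Filter.atTop, ∀ (i i' : Fin (B + 2)) (j j' : Fin (C + 2)),
      (F (rl u) i' - F (rl u) i) * (G (rl u') j' - G (rl u') j) -
        (G (rl u) j' - G (rl u) j) * (F (rl u') i' - F (rl u') i) = 0 ∨
      |(F (rl u) i' - F (rl u) i) * (c₂ j' - c₂ j) - (G (rl u) j' - G (rl u) j) * (c₁ i' - c₁ i)| +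
        |(c₁ i' - c₁ i) * (G (rl u') j' - G (rl u') j) - (c₂ j' - c₂ j) * (F (rl u') i' - F (rl u') i)|
      < R * |(F (rl u) i' - F (rl u) i) * (G (rl u') j' - G (rl u') j) -
        (G (rl u) j' - G (rl u) j) * (F (rl u') i' - F (rl u') i)| := by
    rw [Filter.eventually_all]
    intro i
    rw [Filter.eventually_all]
    intro i'
    rw [Filter.eventually_all]
    intro j
    rw [Filter.eventually_all]
    intro j'
    by_cases h0 : (F (rl u) i' - F (rl u) i) * (G (rl u') j' - G (rl u') j) -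
        (G (rl u) j' - G (rl u) j) * (F (rl u') i' - F (rl u') i) = 0
    · exact Filter.Eventually.of_forall fun R => Or.inl h0
    · filter_upwards [ev_lt _ _ (abs_pos.2 h0)] with R hR
      exact Or.inr hR
  obtain ⟨R, hR1, hR2, hR3, hR4⟩ := (ev1.and (ev2.and (ev3.and ev4))).exists
  have hR0 : (0 : ℝ) ≤ (R : ℝ) := Nat.cast_nonneg R
  obtain ⟨θ, hθ0, hθ1, β', hβ', γ', hγ', hβγ, htie, hle⟩ :=
    tie_on_segment E ϕ (fun i => (R : ℚ) * u i) (fun i => (R : ℚ) * u' i) a a' hu.mem hu'.mem haa hR1 hR2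
  set z : Fin n → ℚ := fun i => (1 - θ) * ((R : ℚ) * u i) + θ * ((R : ℚ) * u' i) with hz
  obtain ⟨t, ⟨i, r, hir, hi, hr⟩, ⟨j, q, hjq, hj, hq⟩⟩ := hϕ z ⟨β', hβ', γ', hγ', hβγ, htie, hle⟩
  have hθ0' : (0 : ℝ) < (θ : ℝ) := by exact_mod_cast hθ0
  have hθ1' : (θ : ℝ) < 1 := by exact_mod_cast hθ1
  have hzr : rl z = fun i => (R * (1 - (θ : ℝ))) * rl u i + (R * (θ : ℝ)) * rl u' i := by
    funext k
    simp only [rl, hz]
    push_cast
    ring
  -- sort the labels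
  obtain ⟨i, i', hii, hi, hi'⟩ : ∃ i i' : Fin (B + 2), i < i' ∧ LM (F (rl z) + c₁) S₁.sl t i ∧
      LM (F (rl z) + c₁) S₁.sl t i' := by
    rcases lt_or_gt_of_ne hir with h | h
    · exact ⟨i, r, h, hi, hr⟩
    · exact ⟨r, i, h, hr, hi⟩
  obtain ⟨j, j', hjj, hj, hj'⟩ : ∃ j j' : Fin (C + 2), j < j' ∧ LM (G (rl z) + c₂) S₂.sl t j ∧
      LM (G (rl z) + c₂) S₂.sl t j' := by
    rcases lt_or_gt_of_ne hjq with h | h
    · exact ⟨j, q, h, hj, hq⟩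
    · exact ⟨q, j, h, hq, hj⟩
  obtain ⟨x₁, x₂, hx₁, hx₂, hx₁₂⟩ := hTwo (B + 1) (C + 1) (F (rl z) + c₁) S₁.sl (G (rl z) + c₂) S₂.sl
    hα hβ t i i' j j' hii hjj hi hi' hj hj'
  -- the same form
  have hform : ∀ x', PMin (b := B + 1) (c := C + 1) (F (rl z) + c₁) S₁.sl (G (rl z) + c₂) S₂.sl x' →
      ∀ w, Sp w x' = Sp w x := by
    intro x' hx'm
    by_contra hne
    have h1 := hm₁ x' ⟨hx'm.1, hne⟩
    have h2 := hm₂ x' ⟨hx'm.1, hne⟩
    have h3 := hx'm.2 x hx.1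
    rw [pot_add, pot_add, ← hSp', ← hSp'] at h3
    have h4 := hR3 x'
    have h5 : Sp (rl z) x' - Sp (rl z) x =
        (R : ℝ) * ((1 - θ) * (Sp (rl u) x' - Sp (rl u) x) + θ * (Sp (rl u') x' - Sp (rl u') x)) := by
      rw [hzr, hSl, hSl]
      ring
    have h6 : min δ₁ δ₂ ≤ (1 - θ) * (Sp (rl u) x' - Sp (rl u) x) + θ * (Sp (rl u') x' - Sp (rl u') x) := by
      have a1 : min δ₁ δ₂ ≤ Sp (rl u) x' - Sp (rl u) x := (min_le_left _ _).trans h1
      have a2 : min δ₁ δ₂ ≤ Sp (rl u') x' - Sp (rl u') x := (min_le_right _ _).trans h2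
      have b1 : (1 - (θ : ℝ)) * min δ₁ δ₂ ≤ (1 - θ) * (Sp (rl u) x' - Sp (rl u) x) :=
        mul_le_mul_of_nonneg_left a1 (by linarith)
      have b2 : (θ : ℝ) * min δ₁ δ₂ ≤ θ * (Sp (rl u') x' - Sp (rl u') x) :=
        mul_le_mul_of_nonneg_left a2 hθ0'.le
      linarith
    have h7 := mul_le_mul_of_nonneg_left h6 hR0
    have h8 : Sp (rl z) x' + cc x' ≤ Sp (rl z) x + cc x := h3
    linarith
  have hc12 : cc x₁ = cc x₂ := by
    have e1 := hx₁.2 x₂ hx₂.1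
    have e2 := hx₂.2 x₁ hx₁.1
    have e3 := le_antisymm e1 e2
    rw [pot_add, pot_add, ← hSp', ← hSp', hform x₁ hx₁, hform x₂ hx₂] at e3
    have e4 : Sp (rl z) x + cc x₁ = Sp (rl z) x + cc x₂ := e3
    linarith
  have hd := pot_diff (b := B + 1) (c := C + 1) c₁ S₁.sl c₂ S₂.sl i i' j j' hjj.le x₁ x₂ hx₁₂
  have hd' : (S₂.sl j - S₂.sl j') * (c₁ i' - c₁ i) + (S₁.sl i' - S₁.sl i) * (c₂ j' - c₂ j) = 0 := by
    rw [← hd]
    show cc x₁ - cc x₂ = 0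
    rw [hc12, sub_self]
  -- the slopes are equal
  have hsl : (S₂.sl j - S₂.sl j', S₁.sl i' - S₁.sl i) = (0 : ℝ × ℝ) := by
    by_contra hne
    refine hη i i' hii.ne j j' hjj.ne (S₂.sl j - S₂.sl j', S₁.sl i' - S₁.sl i) ?_ hd'
    refine mem_union_left _ (mem_filter.2 ⟨mem_image.2 ⟨((i, i'), (j, j')), mem_univ _, rfl⟩, hne⟩)
  have hs1 : S₁.sl i = S₁.sl i' := by
    have := congrArg Prod.snd hsl
    simp only [Prod.snd_zero] at this
    linarith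
  have hs2 : S₂.sl j = S₂.sl j' := by
    have := congrArg Prod.fst hsl
    simp only [Prod.fst_zero] at this
    linarith
  have hF0 : F (rl z) i' - F (rl z) i = - (c₁ i' - c₁ i) := by
    have e1 := hi i'
    have e2 := hi' i
    simp only [Pi.add_apply] at e1 e2
    rw [hs1] at e1 e2
    linarith
  have hG0 : G (rl z) j' - G (rl z) j = - (c₂ j' - c₂ j) := by
    have e1 := hj j'
    have e2 := hj' j
    simp only [Pi.add_apply] at e1 e2
    rw [hs2] at e1 e2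
    linarith
  rw [hzr, hFl, hFl] at hF0
  rw [hzr, hGl, hGl] at hG0
  have hne : (G (rl u) j' - G (rl u) j, - (F (rl u) i' - F (rl u) i)) ≠ (0 : ℝ × ℝ) := by
    intro h0
    have h1 := congrArg Prod.snd h0
    simp only [Prod.snd_zero] at h1
    exact hu.ver i i' hii.ne hs1 (by
      show F (rl u) i = F (rl u) i'
      linarith)
  have h4 := hη i i' hii.ne j j' hjj.ne (G (rl u) j' - G (rl u) j, - (F (rl u) i' - F (rl u) i))
    (mem_union_right _ (mem_filter.2 ⟨mem_image.2 ⟨((i, i'), (j, j')), mem_univ _, rfl⟩, hne⟩))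
  refine cross (R : ℝ) θ (F (rl u) i' - F (rl u) i) (F (rl u') i' - F (rl u') i)
    (G (rl u) j' - G (rl u) j) (G (rl u') j' - G (rl u') j) (c₁ i' - c₁ i) (c₂ j' - c₂ j) hR0 hθ0' hθ1'
    ?_ ?_ (hR4 i i' j j') h4
  · rw [← hF0]
    ring
  · rw [← hG0]
    ring

end Pool.Agent.Lib.MP_4e7804_co.Tw
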